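import Mathlib
open Set Cardinal

set_option linter.unusedSectionVars false
set_option linter.unusedVariables false

namespace Pool.Agent.Helper639.Ebl

/-- colours -/
abbrev Col := ℕ → Bool

/-- packing a sequence of colours -/
def packSeq (g : ℕ → Col) : Col := fun n => g n.unpair.1 n.unpair.2

theorem packSeq_inj : Function.Injective packSeq := by
  intro g h e
  funext i j
  have := congrFun e (Nat.pair i j)
  simpa [packSeq] using this

/-- packing a pair of colours -/
def pack2 (x y : Col) : Col := packSeq (fun n => if n = 0 then x else y)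

theorem pack2_inj {x y x' y' : Col} (h : pack2 x y = pack2 x' y') : x = x' ∧ y = y' := by
  have h1 := packSeq_inj h
  exact ⟨congrFun h1 0, congrFun h1 1⟩

/-- countable sets can be coloured such that a proper subset never has the same colour -/
def Chrom (T : Type) : Prop :=
  ∃ χ : Set T → Col, ∀ a b : Set T, a.Countable → b.Countable → a ⊂ b → χ a ≠ χ b

theorem chrom_of_inj {T T' : Type} (j : T → T') (hj : Function.Injective j) (h : Chrom T') : Chrom T := by
  obtain ⟨χ, hχ⟩ := h
  exact ⟨fun a => χ (j '' a), fun a b ha hb hab => hχ _ _ (ha.image j) (hb.image j) (hj.image_strictMono hab)⟩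

theorem chrom_small {T : Type} (ι : T → Col) (hι : Function.Injective ι) : Chrom T := by
  classical
  have h1 : ∀ a : Set T, ∃ g : ℕ → Col, a.Nonempty → a.Countable → ι '' a = range g := by
    intro a
    by_cases h : a.Nonempty ∧ a.Countable
    · obtain ⟨g, hg⟩ := (h.2.image ι).exists_eq_range (h.1.image ι)
      exact ⟨g, fun _ _ => hg⟩
    · exact ⟨fun _ _ => false, fun h' h'' => absurd ⟨h', h''⟩ h⟩
  choose g hg using h1
  refine ⟨fun a => if a.Nonempty then pack2 (fun _ => true) (packSeq (g a)) else
    pack2 (fun _ => false) (fun _ => false), ?_⟩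
  intro a b ha hb hab heq
  have hbne : b.Nonempty := by
    obtain ⟨x, hx, -⟩ := Set.exists_of_ssubset hab
    exact ⟨x, hx⟩
  by_cases hane : a.Nonempty
  · simp only [hane, hbne, if_true] at heq
    have h2 := packSeq_inj (pack2_inj heq).2
    have h3 : ι '' a = ι '' b := by rw [hg a hane ha, hg b hbne hb, h2]
    exact hab.ne (hι.image_injective h3)
  · simp only [hane, hbne, if_true, if_false] at heq
    have h2 := congrFun (pack2_inj heq).1 0
    simp at h2

theorem chrom_aux (κ : Cardinal.{0}) : ∀ T : Type, #T = κ → Chrom T := by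
  induction κ using WellFoundedLT.induction with
  | ind κ ih =>
  intro T hT
  classical
  by_cases hsmall : κ ≤ 𝔠
  · have h1 : #T ≤ #Col := by
      rw [hT]
      simpa using hsmall
    obtain ⟨ι⟩ := h1
    exact chrom_small ι ι.injective
  · push Not at hsmall
    have hinf : ℵ₀ ≤ κ := Cardinal.aleph0_le_continuum.trans hsmall.le
    let I : Type := κ.ord.ToType
    have hI : #I = κ := Cardinal.mk_ord_toType κ
    have hIio : ∀ i : I, #(Iio i) < κ := by
      intro i
      have := Cardinal.mk_Iio_lt i (by simp [I])
      rwa [hI] at this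
    have hnomax : ∀ i : I, ∃ j, i < j := by
      intro i
      by_contra hall
      push Not at hall
      have h1 : (univ : Set I) ⊆ Iio i ∪ {i} := by
        intro j _
        rcases eq_or_lt_of_le (hall j) with h | h
        · right; exact h
        · left; exact h
      have h2 : #I < #I := by
        calc #I = #(univ : Set I) := Cardinal.mk_univ.symm
          _ ≤ #((Iio i ∪ {i} : Set I)) := Cardinal.mk_le_mk_of_subset h1
          _ ≤ #(Iio i) + #({i} : Set I) := Cardinal.mk_union_le _ _
          _ < #I := by
            apply Cardinal.add_lt_of_lt (by rw [hI]; exact hinf)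
            · rw [hI]; exact hIio i
            · rw [Cardinal.mk_singleton, hI]
              exact Cardinal.one_lt_aleph0.trans_le hinf
      exact lt_irrefl _ h2
    suffices h : Chrom I by
      have h1 : #T ≤ #I := by rw [hT, hI]
      obtain ⟨j⟩ := h1
      exact chrom_of_inj j j.injective h
    have hlt : ∀ δ : I, Chrom (Iio δ) := fun δ => ih _ (hIio δ) _ rfl
    choose χ hχ using hlt
    by_cases hcof : ∃ d : ℕ → I, ∀ i, ∃ n, i < d n
    · obtain ⟨d, hd⟩ := hcof
      refine ⟨fun b => packSeq (fun n => χ (d n) (Subtype.val ⁻¹' b)), ?_⟩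
      intro a b ha hb hab heq
      have h1 := packSeq_inj heq
      obtain ⟨x, hxb, hxa⟩ := Set.exists_of_ssubset hab
      obtain ⟨n, hn⟩ := hd x
      refine hχ (d n) (Subtype.val ⁻¹' a) (Subtype.val ⁻¹' b) (ha.preimage Subtype.val_injective)
        (hb.preimage Subtype.val_injective) ?_ (congrFun h1 n)
      refine ⟨Set.preimage_mono hab.subset, fun h => hxa ?_⟩
      exact h (show (⟨x, hn⟩ : Iio (d n)) ∈ Subtype.val ⁻¹' b from hxb)
    · push Not at hcof
      have hne : Nonempty I := by
        rw [← Cardinal.mk_ne_zero_iff, hI]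
        exact (Cardinal.aleph0_pos.trans_le hinf).ne'
      have hbd : ∀ b : Set I, b.Countable → ∃ δ, ∀ x ∈ b, x < δ := by
        intro b hb
        rcases b.eq_empty_or_nonempty with h0 | h0
        · obtain ⟨δ⟩ := hne
          exact ⟨δ, fun x hx => by rw [h0] at hx; exact absurd hx (Set.notMem_empty x)⟩
        · obtain ⟨d, hd⟩ := hb.exists_eq_range h0
          obtain ⟨i, hi⟩ := hcof d
          obtain ⟨j, hj⟩ := hnomax i
          refine ⟨j, fun x hx => ?_⟩
          rw [hd] at hx
          obtain ⟨n, rfl⟩ := hx
          exact (hi n).trans_lt hj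
      have hkey : ∀ b : Set I, ∃ (δ : I) (j : I → ℕ), b.Countable →
          (∀ x ∈ b, x < δ) ∧ (∀ δ', (∀ x ∈ b, x < δ') → δ ≤ δ') ∧ InjOn j b := by
        intro b
        by_cases hb : b.Countable
        · obtain ⟨j, hj⟩ := Set.countable_iff_exists_injOn.mp hb
          obtain ⟨δ, hδ, hmin⟩ := WellFounded.has_min (wellFounded_lt (α := I)) {δ | ∀ x ∈ b, x < δ} (hbd b hb)
          exact ⟨δ, j, fun _ => ⟨hδ, fun δ' h' => not_lt.mp (hmin δ' h'), hj⟩⟩
        · obtain ⟨δ⟩ := hne
          exact ⟨δ, fun _ => 0, fun h => absurd h hb⟩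
      choose δ j hδj using hkey
      let code : Set I → ℕ → Col := fun b n m =>
        decide (∃ x ∈ b, ∃ y ∈ b, j b x = n ∧ j b y = m ∧ x ≤ y)
      refine ⟨fun b => pack2 (packSeq (code b)) (χ (δ b) (Subtype.val ⁻¹' b)), ?_⟩
      intro a b ha hb hab heq
      obtain ⟨h1, h2⟩ := pack2_inj heq
      have h3 := packSeq_inj h1
      obtain ⟨hda1, hda2, hja⟩ := hδj a ha
      obtain ⟨hdb1, hdb2, hjb⟩ := hδj b hb
      have h4 : δ a ≤ δ b := hda2 _ (fun x hx => hdb1 x (hab.subset hx))
      have h5 : δ a = δ b := by
        rcases h4.lt_or_eq with h5 | h5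
        · exfalso
          have h6 : ∃ c ∈ b, δ a ≤ c := by
            by_contra hcon
            push Not at hcon
            exact absurd (hdb2 _ hcon) (not_le.mpr h5)
          obtain ⟨c, hcb, hc⟩ := h6
          -- the order isomorphism
          have h7 : ∀ x ∈ b, ∀ y ∈ b, (x ≤ y ↔ ∃ x' ∈ a, ∃ y' ∈ a, j a x' = j b x ∧ j a y' = j b y ∧ x' ≤ y') := by
            intro x hx y hy
            have h8 := congrFun (congrFun h3 (j b x)) (j b y)
            simp only [code, decide_eq_decide] at h8
            rw [h8]
            constructor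
            · intro hxy
              exact ⟨x, hx, y, hy, rfl, rfl, hxy⟩
            · rintro ⟨x', hx', y', hy', e1, e2, e3⟩
              rw [hjb hx' hx e1, hjb hy' hy e2] at e3
              exact e3
          have h8 : ∀ x : b, ∃ x' : a, j a x'.1 = j b x.1 := by
            intro x
            obtain ⟨x', hx', _, _, e1, -, -⟩ := (h7 x.1 x.2 x.1 x.2).mp le_rfl
            exact ⟨⟨x', hx'⟩, e1⟩
          choose φ hφ using h8
          have h9 : ∀ x y : b, x ≤ y ↔ φ x ≤ φ y := by
            intro x y
            have h10 := h7 x.1 x.2 y.1 y.2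
            constructor
            · intro hxy
              obtain ⟨x', hx', y', hy', e1, e2, e3⟩ := h10.mp hxy
              have e4 : x' = (φ x).1 := hja hx' (φ x).2 (e1.trans (hφ x).symm)
              have e5 : y' = (φ y).1 := hja hy' (φ y).2 (e2.trans (hφ y).symm)
              rw [e4, e5] at e3
              exact e3
            · intro hxy
              exact h10.mpr ⟨(φ x).1, (φ x).2, (φ y).1, (φ y).2, hφ x, hφ y, hxy⟩
          let f : b → b := fun x => ⟨(φ x).1, hab.subset (φ x).2⟩
          have hf : StrictMono f := by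
            intro x y hxy
            rw [lt_iff_le_not_ge] at hxy ⊢
            exact ⟨(h9 x y).mp hxy.1, fun h => hxy.2 ((h9 y x).mpr h)⟩
          have h10 : (⟨c, hcb⟩ : b) ≤ f ⟨c, hcb⟩ := hf.le_apply
          have h11 : c ≤ (φ ⟨c, hcb⟩).1 := h10
          have h12 := hda1 _ (φ ⟨c, hcb⟩).2
          exact absurd (h11.trans_lt h12) (not_lt.mpr hc)
        · exact h5
      have h6 : ∀ δ' : I, δ a = δ' → χ (δ a) (Subtype.val ⁻¹' a) = χ δ' (Subtype.val ⁻¹' b) →
          χ (δ a) (Subtype.val ⁻¹' a) = χ (δ a) (Subtype.val ⁻¹' b) := by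
        rintro δ' rfl h
        exact h
      have h7 := h6 _ h5 h2
      obtain ⟨x, hxb, hxa⟩ := Set.exists_of_ssubset hab
      refine hχ (δ a) (Subtype.val ⁻¹' a) (Subtype.val ⁻¹' b) (ha.preimage Subtype.val_injective)
        (hb.preimage Subtype.val_injective) ?_ h7
      refine ⟨Set.preimage_mono hab.subset, fun h => hxa ?_⟩
      have hx : x < δ a := by rw [h5]; exact hdb1 x hxb
      exact h (show (⟨x, hx⟩ : Iio (δ a)) ∈ Subtype.val ⁻¹' b from hxb)

/-- countable subsets of any set can be coloured with continuum many colours so that comparable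
distinct sets get distinct colours -/
theorem chrom (T : Type) : Chrom T := chrom_aux _ T rfl

end Pool.Agent.Helper639.Ebl
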