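import Pool.Agent.Helper639.CorH

open Set Topology Cardinal

namespace Pool.Agent.Helper639.Cor

universe u v

variable {X : Type u} [TopologicalSpace X]

/-- the chain lemma, for a chain of retractions -/
theorem chain_lemma_retr (hct : CTight X)
    {ι : Type v} [LinearOrder ι] [WellFoundedLT ι]
    (B : ι → Set X) (hB : Monotone B) (r : ι → C(X, X))
    (hr1 : ∀ i x, r i x ∈ closure (B i)) (hr3 : ∀ i, ∀ x ∈ closure (B i), r i x = x)
    (K0 : ∀ k i x, k ≤ i → r k (r i x) = r k x)
    (hlimB : ∀ i, Order.IsSuccLimit i → ∀ b ∈ B i, ∃ j < i, b ∈ B j)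
    (hlimr : ∀ i, Order.IsSuccLimit i → ∀ x y, (∀ j < i, r j x = r j y) → r i x = r i y)
    (hdense : Dense (⋃ i, B i)) (hsep : ∀ x y, (∀ i, r i x = r i y) → x = y)
    (hcor : ∀ i, CorsonOn (closure (B i))) : CorsonOn (univ : Set X) := by
  classical
  choose F hF1 hF2 using hcor
  have K1 : ∀ j i k x, j ≤ k → k ≤ i → r i x ∈ closure (B j) → r k x = r i x := by
    intro j i k x hjk hki hx
    rw [← K0 k i x hki]
    exact hr3 k _ (closure_mono (hB hjk) hx)
  let J : X → Set ι := fun x => {i | ∃ j, j ⋖ i ∧ r j x ≠ r i x}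
  have htri : ∀ i : ι, IsMin i ∨ (∃ j, j ⋖ i) ∨ Order.IsSuccLimit i := by
    intro i
    by_cases h1 : IsMin i
    · exact Or.inl h1
    · by_cases h2 : ∃ j, j ⋖ i
      · exact Or.inr (Or.inl h2)
      · right; right
        exact ⟨h1, fun b hb => h2 ⟨b, hb⟩⟩
  have hJi : ∀ x i, (J x ∩ Iic i).Countable := by
    intro x i
    induction i using WellFoundedLT.induction with
    | ind i ih =>
      rcases htri i with h | ⟨j, hj⟩ | h
      · have : J x ∩ Iic i ⊆ {i} := by
          rintro k ⟨-, hk⟩
          exact le_antisymm hk (h hk)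
        exact (countable_singleton i).mono this
      · have : J x ∩ Iic i ⊆ (J x ∩ Iic j) ∪ {i} := by
          rintro k ⟨hk1, hk2⟩
          rcases eq_or_lt_of_le (show k ≤ i from hk2) with rfl | hlt
          · right; rfl
          · left; exact ⟨hk1, hj.le_of_lt hlt⟩
        exact ((ih j hj.lt).union (countable_singleton i)).mono this
      · obtain ⟨C, hCB, hC, hxC⟩ := hct (B i) (r i x) (hr1 i x)
        have hj' : ∀ c ∈ C, ∃ j < i, c ∈ B j := fun c hc => hlimB i h c (hCB hc)
        have : Nonempty ι := ⟨i⟩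
        choose! jc hjc1 hjc2 using hj'
        by_cases hb : ∃ j < i, ∀ c ∈ C, jc c ≤ j
        · obtain ⟨j, hji, hj⟩ := hb
          have hxj : r i x ∈ closure (B j) :=
            closure_mono (fun c hc => hB (hj c hc) (hjc2 c hc)) hxC
          have : J x ∩ Iic i ⊆ J x ∩ Iic j := by
            rintro k ⟨hk1, hk2⟩
            refine ⟨hk1, ?_⟩
            by_contra hkj
            rw [mem_Iic, not_le] at hkj
            obtain ⟨k', hk', hne⟩ := hk1
            apply hne
            rw [K1 j i k' x (hk'.le_of_lt hkj) (hk'.le.trans hk2) hxj,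
              K1 j i k x hkj.le hk2 hxj]
          exact (ih j hji).mono this
        · push Not at hb
          have : J x ∩ Iic i ⊆ (⋃ c ∈ C, J x ∩ Iic (jc c)) ∪ {i} := by
            rintro k ⟨hk1, hk2⟩
            rcases eq_or_lt_of_le (show k ≤ i from hk2) with rfl | hlt
            · right; rfl
            · left
              obtain ⟨c, hc, hkc⟩ := hb k hlt
              simp only [mem_iUnion]
              exact ⟨c, hc, hk1, hkc.le⟩
          exact ((hC.biUnion fun c hc => ih _ (hjc1 c hc)).union (countable_singleton i)).mono this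
  have hJ : ∀ x, (J x).Countable := by
    intro x
    rcases isEmpty_or_nonempty ι with hemp | hne
    · rw [eq_empty_of_isEmpty (J x)]; exact countable_empty
    obtain ⟨C, hCB, hC, hxC⟩ := hct (⋃ i, B i) x (hdense x)
    have hj' : ∀ c ∈ C, ∃ j, c ∈ B j := fun c hc => mem_iUnion.1 (hCB hc)
    choose! jc hjc2 using hj'
    by_cases hb : ∃ j, ∀ c ∈ C, jc c ≤ j
    · obtain ⟨j, hj⟩ := hb
      have hxj : x ∈ closure (B j) :=
        closure_mono (fun c hc => hB (hj c hc) (hjc2 c hc)) hxC
      have : J x ⊆ J x ∩ Iic j := by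
        rintro k hk1
        refine ⟨hk1, ?_⟩
        by_contra hkj
        rw [mem_Iic, not_le] at hkj
        obtain ⟨k', hk', hne⟩ := hk1
        apply hne
        rw [hr3 k' x (closure_mono (hB (hk'.le_of_lt hkj)) hxj),
          hr3 k x (closure_mono (hB hkj.le) hxj)]
      exact (hJi x j).mono this
    · push Not at hb
      have : J x ⊆ (⋃ c ∈ C, J x ∩ Iic (jc c)) := by
        rintro k hk1
        obtain ⟨c, hc, hkc⟩ := hb k
        simp only [mem_iUnion]
        exact ⟨c, hc, hk1, hkc.le⟩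
      exact (hC.biUnion fun c hc => hJi x _).mono this
  -- the family
  let F1 : Set C(X, ℝ) := {h | ∃ i, IsMin i ∧ ∃ g ∈ F i, h = g.comp (r i)}
  let F2 : Set C(X, ℝ) := {h | ∃ j i, j ⋖ i ∧ ∃ g ∈ F i, h = g.comp (r i) - g.comp (r j)}
  refine ⟨F1 ∪ F2, ?_, ?_⟩
  · intro x _
    have h1 : {f | f ∈ F1 ∧ f x ≠ 0}.Countable := by
      by_cases hmin : ∃ i : ι, IsMin i
      · obtain ⟨i, hi⟩ := hmin
        have : {f | f ∈ F1 ∧ f x ≠ 0} ⊆ (fun g : C(X, ℝ) => g.comp (r i)) ''
            {g | g ∈ F i ∧ g (r i x) ≠ 0} := by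
          rintro f ⟨⟨i', hi', g, hg, rfl⟩, hne⟩
          have : i' = i := le_antisymm ((le_total i' i).elim id (fun h => hi' h))
            ((le_total i' i).elim (fun h => hi h) id)
          subst this
          exact ⟨g, ⟨hg, hne⟩, rfl⟩
        exact ((hF1 i _ (hr1 i x)).image _).mono this
      · have : {f | f ∈ F1 ∧ f x ≠ 0} = ∅ := by
          ext f
          simp only [mem_ofPred_eq, mem_empty_iff_false, iff_false, not_and]
          rintro ⟨i, hi, -⟩
          exact absurd ⟨i, hi⟩ hmin
        rw [this]; exact countable_empty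
    have h2 : {f | f ∈ F2 ∧ f x ≠ 0}.Countable := by
      let p : ι → ι := fun i => if h : ∃ j, j ⋖ i then h.choose else i
      have hp : ∀ j i, j ⋖ i → p i = j := by
        intro j i hji
        have hex : ∃ j, j ⋖ i := ⟨j, hji⟩
        have : p i = hex.choose := dif_pos hex
        rw [this]
        exact hex.choose_spec.unique_left hji
      have : {f | f ∈ F2 ∧ f x ≠ 0} ⊆ ⋃ i ∈ J x,
          (fun g : C(X, ℝ) => g.comp (r i) - g.comp (r (p i))) ''
            ({g | g ∈ F i ∧ g (r i x) ≠ 0} ∪ {g | g ∈ F i ∧ g (r (p i) x) ≠ 0}) := by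
        rintro f ⟨⟨j, i, hji, g, hg, rfl⟩, hne⟩
        have hpi := hp j i hji
        simp only [mem_iUnion]
        refine ⟨i, ⟨j, hji, ?_⟩, g, ?_, ?_⟩
        · intro heq
          apply hne
          simp [heq]
        · rw [hpi]
          by_cases h0 : g (r i x) = 0
          · right
            refine ⟨hg, ?_⟩
            intro h0'
            apply hne
            simp [h0, h0']
          · left; exact ⟨hg, h0⟩
        · simp only [hpi]
      refine ((hJ x).biUnion fun i hi => ?_).mono this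
      obtain ⟨j, hji, -⟩ := hi
      have hpi := hp j i hji
      apply Countable.image
      apply Countable.union
      · exact hF1 i _ (hr1 i x)
      · apply hF1 i
        rw [hpi]
        exact closure_mono (hB hji.le) (hr1 j x)
    have : {f | f ∈ F1 ∪ F2 ∧ f x ≠ 0} ⊆ {f | f ∈ F1 ∧ f x ≠ 0} ∪ {f | f ∈ F2 ∧ f x ≠ 0} := by
      rintro f ⟨h | h, hne⟩
      · exact Or.inl ⟨h, hne⟩
      · exact Or.inr ⟨h, hne⟩
    exact (h1.union h2).mono this
  · intro x _ y _ hxy
    by_contra hne
    have hex : ∃ i, r i x ≠ r i y := by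
      by_contra hall
      push Not at hall
      exact hne (hsep x y hall)
    obtain ⟨i, hi, hmin⟩ := WellFounded.has_min (wellFounded_lt (α := ι)) {i | r i x ≠ r i y} hex
    rcases htri i with h | ⟨j, hj⟩ | h
    · apply hi
      apply hF2 i _ (hr1 i x) _ (hr1 i y)
      intro g hg
      exact hxy _ (Or.inl ⟨i, h, g, hg, rfl⟩)
    · have hjeq : r j x = r j y := by
        by_contra hne'
        exact hmin j hne' hj.lt
      apply hi
      apply hF2 i _ (hr1 i x) _ (hr1 i y)
      intro g hg
      have := hxy _ (Or.inr ⟨j, i, hj, g, hg, rfl⟩)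
      simp only [ContinuousMap.sub_apply, ContinuousMap.comp_apply, hjeq] at this
      linarith
    · apply hi
      apply hlimr i h
      intro j hji
      by_contra hne'
      exact hmin j hne' hji

/-- existence of continuous chains of closed sets, when closing off is cheap -/
theorem chain_exists {T : Type u} {kap : Cardinal.{u}} (lam : Cardinal.{u}) (hlam : ℵ₀ ≤ lam)
    (hlk : lam < kap) (P : Set T → Prop)
    (hPU : ∀ 𝒮 : Set (Set T), 𝒮.Nonempty → IsChain (· ⊆ ·) 𝒮 → (∀ S ∈ 𝒮, P S) → P (⋃₀ 𝒮))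
    (hPex : ∀ S : Set T, #S < kap → ∃ S', S ⊆ S' ∧ P S' ∧ #S' ≤ max #S lam)
    (D : Set T) (hD : #D ≤ kap) :
    ∃ (ι : Type u) (_ : LinearOrder ι) (_ : WellFoundedLT ι) (_ : Nonempty ι) (S : ι → Set T),
      Monotone S ∧ (∀ i, P (S i)) ∧ (∀ i, #(S i) < kap) ∧
      (∀ i, Order.IsSuccLimit i → ∀ t ∈ S i, ∃ j < i, t ∈ S j) ∧ D ⊆ ⋃ i, S i := by
  classical
  have hinf : ℵ₀ ≤ kap := hlam.trans hlk.le
  have hch : ∀ S : Set T, ∃ S', #S < kap → S ⊆ S' ∧ P S' ∧ #S' ≤ max #S lam := by
    intro S
    by_cases h : #S < kap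
    · obtain ⟨S', h'⟩ := hPex S h
      exact ⟨S', fun _ => h'⟩
    · exact ⟨S, fun h' => absurd h' h⟩
  choose Cl hCl using hch
  let ι := kap.ord.ToType
  have hι : #ι = kap := Cardinal.mk_ord_toType _
  have hιIio : ∀ i : ι, #(Iio i) < kap := by
    intro i
    have := Cardinal.mk_Iio_lt i (by simp [ι])
    rwa [hι] at this
  have hnomax : ∀ i : ι, ∃ j, i < j := by
    intro i
    by_contra hall
    push Not at hall
    have h1 : (univ : Set ι) ⊆ Iio i ∪ {i} := by
      intro j _
      rcases eq_or_lt_of_le (hall j) with h | h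
      · right; exact h
      · left; exact h
    have h2 : #ι < #ι := by
      calc #ι = #(univ : Set ι) := Cardinal.mk_univ.symm
        _ ≤ #((Iio i ∪ {i} : Set ι)) := Cardinal.mk_le_mk_of_subset h1
        _ ≤ #(Iio i) + #({i} : Set ι) := Cardinal.mk_union_le _ _
        _ < #ι := by
          apply Cardinal.add_lt_of_lt (by rw [hι]; exact hinf)
          · rw [hι]; exact hιIio i
          · rw [Cardinal.mk_singleton, hι]
            exact Cardinal.one_lt_aleph0.trans_le hinf
    exact lt_irrefl _ h2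
  have hne : Nonempty ι := by
    rw [← Cardinal.mk_ne_zero_iff, hι]
    exact (Cardinal.aleph0_pos.trans_le hinf).ne'
  -- enumeration of D
  obtain ⟨φ⟩ : Nonempty (D ↪ ι) := by
    rw [← hι] at hD; exact (Cardinal.le_def _ _).1 hD
  let e : ι → Set T := fun i => {t | ∃ h : t ∈ D, φ ⟨t, h⟩ = i}
  have he1 : ∀ i, #(e i) ≤ 1 := by
    intro i
    rw [Cardinal.le_one_iff_subsingleton]
    refine ⟨?_⟩
    rintro ⟨t, ht, h1⟩ ⟨t', ht', h2⟩
    have := φ.injective (h1.trans h2.symm)
    exact Subtype.ext (congrArg (fun z : D => z.1) this)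
  let step : ∀ i : ι, (∀ j, j < i → Set T) → Set T := fun i g =>
    Cl ∅ ∪ ⋃ j : Iio i, Cl (e j.1 ∪ g j.1 j.2)
  let S : ι → Set T := WellFounded.fix (wellFounded_lt (α := ι)) step
  have hS : ∀ i, S i = Cl ∅ ∪ ⋃ j : Iio i, Cl (e j.1 ∪ S j.1) := by
    intro i
    exact WellFounded.fix_eq (wellFounded_lt (α := ι)) step i
  have hempty : #(∅ : Set T) < kap := by
    rw [Cardinal.mk_eq_zero]; exact Cardinal.aleph0_pos.trans_le hinf
  -- cardinality bound
  let bd : ι → Cardinal.{u} := fun i => max #(Iio i) lam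
  have hbd0 : ∀ i, ℵ₀ ≤ bd i := fun i => hlam.trans (le_max_right _ _)
  have hbdlt : ∀ i, bd i < kap := fun i => max_lt (hιIio i) hlk
  have hbdmono : ∀ j i : ι, j ≤ i → bd j ≤ bd i := by
    intro j i hji
    apply max_le_max_right
    exact Cardinal.mk_le_mk_of_subset (Iio_subset_Iio hji)
  have hcard' : ∀ i, #(S i) ≤ bd i := by
    intro i
    induction i using WellFoundedLT.induction with
    | ind i ih =>
      rw [hS i]
      refine (Cardinal.mk_union_le _ _).trans ?_
      apply Cardinal.add_le_of_le (hbd0 i)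
      · refine (hCl ∅ hempty).2.2.trans ?_
        rw [Cardinal.mk_eq_zero]
        exact max_le zero_le (le_max_right _ _)
      · refine (Cardinal.mk_iUnion_le _).trans ?_
        calc #(Iio i) * (⨆ j : Iio i, #(Cl (e j.1 ∪ S j.1))) ≤ bd i * bd i := by
              apply mul_le_mul' (le_max_left _ _)
              apply ciSup_le'
              intro j
              have h1 : #((e j.1 ∪ S j.1 : Set T)) ≤ bd i := by
                refine (Cardinal.mk_union_le _ _).trans ?_
                apply Cardinal.add_le_of_le (hbd0 i)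
                · exact (he1 _).trans (Cardinal.one_lt_aleph0.le.trans (hbd0 i))
                · exact (ih j.1 j.2).trans (hbdmono _ _ (le_of_lt j.2))
              refine (hCl _ (h1.trans_lt (hbdlt i))).2.2.trans ?_
              exact max_le h1 (le_max_right _ _)
          _ = bd i := Cardinal.mul_eq_self (hbd0 i)
  have hcard : ∀ i, #(S i) < kap := fun i => (hcard' i).trans_lt (hbdlt i)
  have hcard0 : ∀ i, #((e i ∪ S i : Set T)) < kap := by
    intro i
    refine (Cardinal.mk_union_le _ _).trans_lt ?_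
    exact Cardinal.add_lt_of_lt hinf ((he1 i).trans_lt (Cardinal.one_lt_aleph0.trans_le hinf))
      (hcard i)
  have hclS : ∀ j i, j < i → Cl (e j ∪ S j) ⊆ S i := by
    intro j i hji
    rw [hS i]
    exact (subset_iUnion (fun j : Iio i => Cl (e j.1 ∪ S j.1)) ⟨j, hji⟩).trans
      subset_union_right
  have hSlt : ∀ j i, j < i → S j ⊆ S i := by
    intro j i hji
    exact (subset_union_right.trans (hCl _ (hcard0 j)).1).trans (hclS j i hji)
  have hSmono : Monotone S := by
    intro j i hji
    rcases eq_or_lt_of_le hji with rfl | hlt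
    · exact subset_rfl
    · exact hSlt j i hlt
  have hCl0 : ∀ i, Cl ∅ ⊆ S i := by
    intro i; rw [hS i]; exact subset_union_left
  have hP : ∀ i, P (S i) := by
    intro i
    have h1 : S i = ⋃₀ ({Cl ∅} ∪ range (fun j : Iio i => Cl (e j.1 ∪ S j.1))) := by
      rw [sUnion_union, sUnion_singleton, sUnion_range]
      exact hS i
    rw [h1]
    apply hPU
    · exact ⟨Cl ∅, Or.inl rfl⟩
    · have hlt : ∀ j j' : ι, j < j' → Cl (e j ∪ S j) ⊆ Cl (e j' ∪ S j') := by
        intro j j' hjj
        exact (hclS j j' hjj).trans (subset_union_right.trans (hCl _ (hcard0 j')).1)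
      have h0 : ∀ j : ι, Cl ∅ ⊆ Cl (e j ∪ S j) := by
        intro j
        exact (hCl0 j).trans (subset_union_right.trans (hCl _ (hcard0 j)).1)
      rintro a (ha | ⟨j, rfl⟩) b (hb | ⟨j', rfl⟩) hab
      · rw [mem_singleton_iff] at ha hb
        exact absurd (ha.trans hb.symm) hab
      · rw [mem_singleton_iff] at ha; subst ha; exact Or.inl (h0 _)
      · rw [mem_singleton_iff] at hb; subst hb; exact Or.inr (h0 _)
      · rcases lt_trichotomy j.1 j'.1 with h | h | h
        · exact Or.inl (hlt _ _ h)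
        · exact absurd (by simp only [h]) hab
        · exact Or.inr (hlt _ _ h)
    · rintro a (ha | ⟨j, rfl⟩)
      · rw [mem_singleton_iff] at ha; subst ha; exact (hCl ∅ hempty).2.1
      · exact (hCl _ (hcard0 j.1)).2.1
  refine ⟨ι, inferInstance, inferInstance, hne, S, hSmono, hP, hcard, ?_, ?_⟩
  · intro i hi k hk
    rw [hS i] at hk
    rcases hk with hk | hk
    · have := hi.1
      rw [not_isMin_iff] at this
      obtain ⟨j, hj⟩ := this
      exact ⟨j, hj, hCl0 j hk⟩
    · obtain ⟨j, hj⟩ := mem_iUnion.1 hk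
      have h2 := hi.2 j.1
      have : ∃ j', j.1 < j' ∧ j' < i := by
        by_contra hall
        push Not at hall
        exact h2 ⟨j.2, fun c hc hci => absurd hci (not_lt.2 (hall c hc))⟩
      obtain ⟨j', h1, h3⟩ := this
      exact ⟨j', h3, hclS _ _ h1 hj⟩
  · intro t ht
    obtain ⟨i, hi⟩ := hnomax (φ ⟨t, ht⟩)
    refine mem_iUnion.2 ⟨i, hclS _ i hi ((hCl _ (hcard0 _)).1 ?_)⟩
    left
    exact ⟨ht, rfl⟩

end Pool.Agent.Helper639.Cor
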