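import Mathlib
import Pool.Agent.Helper639.Chrom
import Pool.Agent.Helper639.CorI
import Pool.Agent.Helper639.CorJ

open Set Topology Cardinal
open Pool.Agent.Helper639.Cor

set_option linter.unusedSectionVars false
set_option linter.unusedVariables false

namespace Pool.Agent.Helper639.Ebl

/-- a c₀-family of continuous functions bounded by one -/
structure C0 {X : Type} [TopologicalSpace X] {Γ : Type} (v : X → Γ → ℝ) : Prop where
  cont : ∀ γ, Continuous (fun x => v x γ)
  bd : ∀ x γ, |v x γ| ≤ 1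
  fin : ∀ x, ∀ ε : ℝ, 0 < ε → {γ | ε ≤ |v x γ|}.Finite

theorem supp_countable {Γ : Type} {v : Γ → ℝ} (h : ∀ ε : ℝ, 0 < ε → {γ | ε ≤ |v γ|}.Finite) :
    {γ | v γ ≠ 0}.Countable := by
  have h1 : {γ | v γ ≠ 0} ⊆ ⋃ n : ℕ, {γ | 1 / ((n : ℝ) + 1) ≤ |v γ|} := by
    intro γ hγ
    obtain ⟨n, hn⟩ := exists_nat_one_div_lt (abs_pos.mpr hγ)
    exact mem_iUnion.mpr ⟨n, hn.le⟩
  exact (countable_iUnion fun n => (h _ (by positivity)).countable).mono h1

/-- squashing the line into the unit interval -/
noncomputable def sq (t : ℝ) : ℝ := t / (1 + |t|)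

theorem sq_pos (t : ℝ) : 0 < 1 + |t| := by positivity

theorem sq_continuous : Continuous sq := by
  unfold sq
  exact continuous_id.div (continuous_const.add continuous_abs) (fun t => (sq_pos t).ne')

theorem sq_abs (t : ℝ) : |sq t| = |t| / (1 + |t|) := by
  unfold sq
  rw [abs_div, abs_of_pos (sq_pos t)]

theorem sq_le_one (t : ℝ) : |sq t| ≤ 1 := by
  rw [sq_abs, div_le_one (sq_pos t)]
  linarith

theorem sq_le (t : ℝ) : |sq t| ≤ |t| := by
  rw [sq_abs]
  exact div_le_self (abs_nonneg t) (by linarith [abs_nonneg t])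

theorem sq_inj : Function.Injective sq := by
  intro s t h
  have h1 : |sq s| = |sq t| := by rw [h]
  rw [sq_abs, sq_abs, div_eq_div_iff (sq_pos s).ne' (sq_pos t).ne'] at h1
  have h2 : |s| = |t| := by nlinarith
  unfold sq at h
  rw [h2] at h
  exact (div_left_inj' (sq_pos t).ne').mp h

theorem C0.of {X : Type} [TopologicalSpace X] {Γ : Type} {v : X → Γ → ℝ}
    (hc : ∀ γ, Continuous (fun x => v x γ)) (hf : ∀ x, ∀ ε : ℝ, 0 < ε → {γ | ε ≤ |v x γ|}.Finite) :
    C0 (fun x γ => sq (v x γ)) :=
  ⟨fun γ => sq_continuous.comp (hc γ), fun x γ => sq_le_one _,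
    fun x ε hε => (hf x ε hε).subset fun γ hγ => le_trans hγ (sq_le _)⟩

/-- countably many c₀-families can be combined -/
theorem C0.sigma {X : Type} [TopologicalSpace X] {Γ : ℕ → Type} {v : (n : ℕ) → X → Γ n → ℝ}
    (h : ∀ n, C0 (v n)) : C0 (fun (x : X) (p : Σ n, Γ n) => v p.1 x p.2 / ((p.1 : ℝ) + 1)) := by
  have hp : ∀ n : ℕ, (0 : ℝ) < (n : ℝ) + 1 := fun n => by positivity
  refine ⟨fun p => ((h p.1).cont p.2).div_const _, fun x p => ?_, fun x ε hε => ?_⟩
  · rw [abs_div, abs_of_pos (hp _), div_le_one (hp _)]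
    have := (h p.1).bd x p.2
    have h2 : (0 : ℝ) ≤ p.1 := Nat.cast_nonneg _
    linarith
  · obtain ⟨N, hN⟩ := exists_nat_gt (1 / ε)
    have hfin : (⋃ n ∈ Iio N, Sigma.mk n '' {γ | ε ≤ |v n x γ|}).Finite :=
      (finite_Iio N).biUnion fun n _ => ((h n).fin x ε hε).image _
    refine hfin.subset ?_
    rintro ⟨n, γ⟩ hγ
    simp only [mem_ofPred_eq] at hγ
    rw [abs_div, abs_of_pos (hp _), le_div_iff₀ (hp _)] at hγ
    have h1 := (h n).bd x γ
    have h2 : (0 : ℝ) ≤ n := Nat.cast_nonneg _
    simp only [mem_iUnion]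
    refine ⟨n, ?_, γ, ?_, rfl⟩
    · have h3 : (n : ℝ) < 1 / ε := by
        rw [lt_div_iff₀ hε]
        nlinarith
      have h4 : (n : ℝ) < N := h3.trans hN
      exact_mod_cast h4
    · simp only [mem_ofPred_eq]
      nlinarith

theorem C0.of_countable {X : Type} [TopologicalSpace X] {T : Type} [Countable T] {u : X → T → ℝ}
    (hc : ∀ t, Continuous (fun x => u x t)) (hinj : Function.Injective u) :
    ∃ (Γ : Type) (w : X → Γ → ℝ), C0 w ∧ Function.Injective w := by
  obtain ⟨enc, henc⟩ := exists_injective_nat T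
  have hp : ∀ n : ℕ, (0 : ℝ) < (n : ℝ) + 1 := fun n => by positivity
  refine ⟨T, fun x t => sq (u x t) / ((enc t : ℝ) + 1), ⟨fun t => ?_, fun x t => ?_, fun x ε hε => ?_⟩, ?_⟩
  · exact (sq_continuous.comp (hc t)).div_const _
  · rw [abs_div, abs_of_pos (hp _), div_le_one (hp _)]
    have := sq_le_one (u x t)
    have h2 : (0 : ℝ) ≤ enc t := Nat.cast_nonneg _
    linarith
  · obtain ⟨N, hN⟩ := exists_nat_gt (1 / ε)
    refine ((finite_Iio N).preimage henc.injOn).subset ?_
    intro t ht
    simp only [mem_ofPred_eq] at ht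
    rw [abs_div, abs_of_pos (hp _), le_div_iff₀ (hp _)] at ht
    have h1 := sq_le_one (u x t)
    have h3 : (enc t : ℝ) < 1 / ε := by
      rw [lt_div_iff₀ hε]
      nlinarith
    have h4 : (enc t : ℝ) < N := h3.trans hN
    exact (by exact_mod_cast h4 : enc t < N)
  · intro x y hxy
    apply hinj
    funext t
    have := congrFun hxy t
    simp only at this
    exact sq_inj ((div_left_inj' (hp _).ne').mp this)

section Closing

variable {X W : Type} [TopologicalSpace X] [CompactSpace X]

/-- sets of coordinates to which one can restrict -/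
def Gd (w : X → W → ℝ) (N : Set W) : Prop :=
  ∀ x, ∃ x', (∀ t ∈ N, w x' t = w x t) ∧ ∀ t ∉ N, w x' t = 0

theorem gd_sUnion {w : X → W → ℝ} (hw : ∀ t, Continuous (fun x => w x t)) (𝒮 : Set (Set W))
    (hne : 𝒮.Nonempty) (hch : IsChain (· ⊆ ·) 𝒮) (h : ∀ S ∈ 𝒮, Gd w S) : Gd w (⋃₀ 𝒮) := by
  intro x
  let T : 𝒮 → Set X := fun S => {y | (∀ t ∈ S.1, w y t = w x t) ∧ ∀ t ∉ ⋃₀ 𝒮, w y t = 0}
  have hTclosed : ∀ S, IsClosed (T S) := by
    intro S
    have : T S = (⋂ t ∈ S.1, {y | w y t = w x t}) ∩ (⋂ t ∈ (⋃₀ 𝒮)ᶜ, {y | w y t = 0}) := by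
      ext y
      simp only [T, mem_ofPred_eq, mem_inter_iff, mem_iInter, mem_compl_iff]
    rw [this]
    exact (isClosed_biInter fun t _ => isClosed_eq (hw t) continuous_const).inter
      (isClosed_biInter fun t _ => isClosed_eq (hw t) continuous_const)
  have hnonempty : (⋂ S, T S).Nonempty := by
    have : Nonempty 𝒮 := hne.to_subtype
    apply IsCompact.nonempty_iInter_of_directed_nonempty_isCompact_isClosed
    · intro S S'
      rcases hch.total S.2 S'.2 with hle | hle
      · exact ⟨S', fun y hy => ⟨fun t ht => hy.1 t (hle ht), hy.2⟩, fun y hy => hy⟩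
      · exact ⟨S, fun y hy => hy, fun y hy => ⟨fun t ht => hy.1 t (hle ht), hy.2⟩⟩
    · intro S
      obtain ⟨x', h1, h2⟩ := h S.1 S.2 x
      exact ⟨x', h1, fun t ht => h2 t fun ht' => ht ⟨S.1, S.2, ht'⟩⟩
    · intro S; exact (hTclosed S).isCompact
    · exact hTclosed
  obtain ⟨y, hy⟩ := hnonempty
  rw [mem_iInter] at hy
  obtain ⟨S0, hS0⟩ := hne
  refine ⟨y, ?_, (hy ⟨S0, hS0⟩).2⟩
  rintro t ⟨S, hS, ht⟩
  exact (hy ⟨S, hS⟩).1 t ht

theorem gd_exists {w : X → W → ℝ} (hw : ∀ t, Continuous (fun x => w x t))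
    (hs : ∀ x, {t | w x t ≠ 0}.Countable) (S : Set W) :
    ∃ S', S ⊆ S' ∧ Gd w S' ∧ #S' ≤ max #S ℵ₀ := by
  classical
  let wc : W → C(X, ℝ) := fun t => ⟨fun x => w x t, hw t⟩
  have hstep : ∀ N : Set W, ∃ C : Set X, #C ≤ max #N ℵ₀ ∧
      ∀ x, ∃ x' ∈ closure C, ∀ t ∈ N, w x' t = w x t := by
    intro N
    obtain ⟨C, -, hC, hD⟩ := lemA (univ : Set X) (wc '' N)
    refine ⟨C, hC.trans (max_le_max_right _ Cardinal.mk_image_le), fun x => ?_⟩
    obtain ⟨x', hx', h⟩ := hD x (subset_closure (mem_univ x))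
    exact ⟨x', hx', fun t ht => h (wc t) ⟨t, ht, rfl⟩⟩
  choose C hC hCx using hstep
  let nxt : Set W → Set W := fun N => N ∪ ⋃ d ∈ C N, {t | w d t ≠ 0}
  have hnxt : ∀ N, #(nxt N) ≤ max #N ℵ₀ := by
    intro N
    refine (Cardinal.mk_union_le _ _).trans (Cardinal.add_le_of_le (le_max_right _ _) (le_max_left _ _) ?_)
    refine (Cardinal.mk_biUnion_le _ _).trans ?_
    calc #(C N) * (⨆ d : C N, #{t | w d.1 t ≠ 0}) ≤ max #N ℵ₀ * max #N ℵ₀ := by
          apply mul_le_mul' (hC N)
          apply ciSup_le'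
          intro d
          exact (Cardinal.le_aleph0_iff_set_countable.mpr (hs d.1)).trans (le_max_right _ _)
      _ = max #N ℵ₀ := Cardinal.mul_eq_self (le_max_right _ _)
  let N : ℕ → Set W := fun n => Nat.rec S (fun _ M => nxt M) n
  have hN0 : N 0 = S := rfl
  have hNs : ∀ n, N (n + 1) = nxt (N n) := fun n => rfl
  have hNcard : ∀ n, #↥(N n) ≤ max #S ℵ₀ := by
    intro n
    induction n with
    | zero => exact le_max_left _ _
    | succ n ih =>
      rw [hNs]
      exact (hnxt _).trans (max_le ih (le_max_right _ _))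
  have hmono : Monotone N := monotone_nat_of_le_succ fun n => by
    rw [hNs]; exact subset_union_left
  refine ⟨⋃ n, N n, ?_, ?_, iUnion_nat_card_le N (le_max_right _ _) hNcard⟩
  · rw [← hN0]; exact subset_iUnion N 0
  · intro x
    let T : ℕ → Set X := fun n => closure (⋃ n, C (N n)) ∩ {y | ∀ t ∈ N n, w y t = w x t}
    have hTclosed : ∀ n, IsClosed (T n) := by
      intro n
      apply isClosed_closure.inter
      have : {y | ∀ t ∈ N n, w y t = w x t} = ⋂ t ∈ N n, {y | w y t = w x t} := by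
        ext y; simp
      rw [this]
      exact isClosed_biInter fun t _ => isClosed_eq (hw t) continuous_const
    have hne : (⋂ n, T n).Nonempty := by
      apply IsCompact.nonempty_iInter_of_directed_nonempty_isCompact_isClosed
      · intro i j
        refine ⟨max i j, ?_, ?_⟩
        · intro y hy; exact ⟨hy.1, fun t ht => hy.2 t (hmono (le_max_left i j) ht)⟩
        · intro y hy; exact ⟨hy.1, fun t ht => hy.2 t (hmono (le_max_right i j) ht)⟩
      · intro i
        obtain ⟨x', hx', hf⟩ := hCx (N i) x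
        exact ⟨x', closure_mono (subset_iUnion (fun n => C (N n)) i) hx', hf⟩
      · intro j; exact (hTclosed j).isCompact
      · exact hTclosed
    obtain ⟨x', hx'⟩ := hne
    rw [mem_iInter] at hx'
    refine ⟨x', ?_, ?_⟩
    · intro t ht
      obtain ⟨n, hn⟩ := mem_iUnion.mp ht
      exact (hx' n).2 t hn
    · intro t ht
      have h1 : closure (⋃ n, C (N n)) ⊆ {y | w y t = 0} := by
        apply closure_minimal _ (isClosed_eq (hw t) continuous_const)
        intro d hd
        obtain ⟨n, hn⟩ := mem_iUnion.mp hd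
        by_contra hne
        apply ht
        refine mem_iUnion.mpr ⟨n + 1, ?_⟩
        rw [hNs]
        right
        simp only [mem_iUnion]
        exact ⟨d, hn, hne⟩
      exact h1 (hx' 0).1

end Closing

theorem main_aux (κ : Cardinal.{0}) : ∀ (X T Γ : Type) [TopologicalSpace X] [CompactSpace X] [T2Space X]
    (u : X → T → ℝ) (v : X → Γ → ℝ), #T = κ → (∀ t, Continuous (fun x => u x t)) →
    Function.Injective u → (∀ x, {t | u x t ≠ 0}.Countable) → C0 v →
    (∀ x y, {t | u x t ≠ 0} ⊂ {t | u y t ≠ 0} → v x ≠ v y) →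
    ∃ (Γ' : Type) (w : X → Γ' → ℝ), C0 w ∧ Function.Injective w := by
  induction κ using WellFoundedLT.induction with
  | ind κ ih =>
  intro X T Γ _ _ _ u v hT hu huinj hus hv huv
  classical
  by_cases hκ : κ ≤ ℵ₀
  · have : Countable T := by
      rw [← Cardinal.mk_le_aleph0_iff, hT]
      exact hκ
    exact C0.of_countable hu huinj
  push Not at hκ
  let w : X → T ⊕ Γ → ℝ := fun x => Sum.elim (u x) (v x)
  have hw : ∀ t, Continuous (fun x => w x t) := by
    rintro (t | t)
    · exact hu t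
    · exact hv.cont t
  have hws : ∀ x, {t | w x t ≠ 0}.Countable := by
    intro x
    have h1 : {t | w x t ≠ 0} = Sum.inl '' {t | u x t ≠ 0} ∪ Sum.inr '' {t | v x t ≠ 0} := by
      ext t
      rcases t with t | t <;> simp [w]
    rw [h1]
    exact ((hus x).image _).union ((supp_countable (hv.fin x)).image _)
  obtain ⟨ι, _, _, _, S, hmono, hgood, hcard, hlim, hcov⟩ := chain_exists (kap := κ) ℵ₀ le_rfl hκ (Gd w)
    (gd_sUnion hw) (fun N _ => gd_exists hw hws N) (range (Sum.inl : T → T ⊕ Γ))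
    (by rw [← hT]; exact Cardinal.mk_range_le)
  choose r hr1 hr0 using hgood
  have hru1 : ∀ i x t, Sum.inl t ∈ S i → u (r i x) t = u x t := fun i x t ht => hr1 i x (Sum.inl t) ht
  have hru0 : ∀ i x t, Sum.inl t ∉ S i → u (r i x) t = 0 := fun i x t ht => hr0 i x (Sum.inl t) ht
  have hrv1 : ∀ i x t, Sum.inr t ∈ S i → v (r i x) t = v x t := fun i x t ht => hr1 i x (Sum.inr t) ht
  have hrv0 : ∀ i x t, Sum.inr t ∉ S i → v (r i x) t = 0 := fun i x t ht => hr0 i x (Sum.inr t) ht
  -- continuity
  have huemb : IsClosedEmbedding u := (continuous_pi hu).isClosedEmbedding huinj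
  have hrc : ∀ i, Continuous (r i) := by
    intro i
    rw [huemb.isInducing.continuous_iff]
    refine continuous_pi fun t => ?_
    by_cases ht : Sum.inl t ∈ S i
    · have : (fun x => (u ∘ r i) x t) = fun x => u x t := by
        funext x; exact hru1 i x t ht
      rw [this]; exact hu t
    · have : (fun x => (u ∘ r i) x t) = fun x => 0 := by
        funext x; exact hru0 i x t ht
      rw [this]; exact continuous_const
  -- the induction hypothesis on the ranges
  have hind : ∀ i, ∃ (Γ' : Type) (h : range (r i) → Γ' → ℝ), C0 h ∧ Function.Injective h := by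
    intro i
    have hcomp : CompactSpace (range (r i)) := isCompact_iff_compactSpace.mp (isCompact_range (hrc i))
    have hrange : ∀ x ∈ range (r i), ∀ t, Sum.inl t ∉ S i → u x t = 0 := by
      rintro _ ⟨x, rfl⟩ t ht
      exact hru0 i x t ht
    have hTi : #{t : T // Sum.inl t ∈ S i} < κ := by
      refine lt_of_le_of_lt ?_ (hcard i)
      exact Cardinal.mk_le_of_injective (f := fun t : {t : T // Sum.inl t ∈ S i} => (⟨Sum.inl t.1, t.2⟩ : S i))
        (fun a b hab => Subtype.ext (Sum.inl_injective (congrArg Subtype.val hab)))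
    refine ih _ hTi (range (r i)) {t : T // Sum.inl t ∈ S i} Γ (fun x t => u x.1 t.1) (fun x => v x.1) rfl
      (fun t => (hu t.1).comp continuous_subtype_val) ?_ ?_ ?_ ?_
    · intro x y hxy
      apply Subtype.ext
      apply huinj
      funext t
      by_cases ht : Sum.inl t ∈ S i
      · exact congrFun hxy ⟨t, ht⟩
      · rw [hrange _ x.2 t ht, hrange _ y.2 t ht]
    · intro x
      exact (hus x.1).preimage Subtype.val_injective
    · exact ⟨fun γ => (hv.cont γ).comp continuous_subtype_val, fun x γ => hv.bd _ _, fun x ε hε => hv.fin _ _ hε⟩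
    · intro x y hxy
      apply huv
      refine ⟨?_, ?_⟩
      · intro t ht
        by_cases hti : Sum.inl t ∈ S i
        · exact hxy.1 (show (⟨t, hti⟩ : {t : T // Sum.inl t ∈ S i}) ∈ {t | u x.1 t.1 ≠ 0} from ht)
        · exact absurd (hrange _ x.2 t hti) ht
      · intro h
        apply hxy.2
        intro t ht
        exact h ht
  choose Γi h hh hhinj using hind
  -- the first index
  obtain ⟨i0, hi0⟩ : ∃ i0 : ι, ∀ i, i0 ≤ i := by
    obtain ⟨i0, -, hmin⟩ := WellFounded.has_min (wellFounded_lt (α := ι)) univ ⟨Classical.arbitrary ι, mem_univ _⟩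
    exact ⟨i0, fun i => not_lt.mp (hmin i (mem_univ i))⟩
  -- level of a coordinate
  have hlev : ∀ γ : {γ : Γ // ∃ i, Sum.inr γ ∈ S i}, ∃ i, Sum.inr γ.1 ∈ S i ∧ ∀ j < i, Sum.inr γ.1 ∉ S j := by
    intro γ
    obtain ⟨i, hi, hmin⟩ := WellFounded.has_min (wellFounded_lt (α := ι)) {i | Sum.inr γ.1 ∈ S i} γ.2
    exact ⟨i, hi, fun j hj hj' => hmin j hj' hj⟩
  choose lev hlev1 hlev2 using hlev
  let Γ' : Type := (Γ ⊕ Γi i0) ⊕ (Σ γ : {γ : Γ // ∃ i, Sum.inr γ ∈ S i}, Γi (lev γ))
  let R : ∀ i, X → range (r i) := fun i x => ⟨r i x, mem_range_self x⟩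
  have hRc : ∀ i, Continuous (R i) := fun i => (hrc i).subtype_mk _
  let W : X → Γ' → ℝ := fun x => Sum.elim (Sum.elim (v x) (h i0 (R i0 x)))
    (fun p => v x p.1.1 * h (lev p.1) (R (lev p.1) x) p.2)
  refine ⟨Γ', W, ⟨?_, ?_, ?_⟩, ?_⟩
  · rintro ((γ | γ) | p)
    · exact hv.cont γ
    · exact ((hh i0).cont γ).comp (hRc i0)
    · exact (hv.cont _).mul (((hh _).cont p.2).comp (hRc _))
  · rintro x ((γ | γ) | p)
    · exact hv.bd x γ
    · exact (hh i0).bd _ γ
    · change |_ * _| ≤ 1
      rw [abs_mul]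
      exact mul_le_one₀ (hv.bd _ _) (abs_nonneg _) ((hh _).bd _ _)
  · intro x ε hε
    have h1 : {γ : Γ' | ε ≤ |W x γ|} ⊆ (Sum.inl '' (Sum.inl '' {γ | ε ≤ |v x γ|})) ∪
        (Sum.inl '' (Sum.inr '' {γ | ε ≤ |h i0 (R i0 x) γ|})) ∪
        (Sum.inr '' (⋃ γ ∈ {γ : {γ : Γ // ∃ i, Sum.inr γ ∈ S i} | ε ≤ |v x γ.1|},
          Sigma.mk γ '' {s | ε ≤ |h (lev γ) (R (lev γ) x) s|})) := by
      rintro ((γ | γ) | ⟨γ, s⟩) hγ
      · exact Or.inl (Or.inl ⟨_, ⟨γ, hγ, rfl⟩, rfl⟩)
      · exact Or.inl (Or.inr ⟨_, ⟨γ, hγ, rfl⟩, rfl⟩)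
      · have hγ' : ε ≤ |v x γ.1 * h (lev γ) (R (lev γ) x) s| := hγ
        rw [abs_mul] at hγ'
        have e1 := hv.bd x γ.1
        have e2 := (hh (lev γ)).bd (R (lev γ) x) s
        have e3 := abs_nonneg (v x γ.1)
        have e4 := abs_nonneg (h (lev γ) (R (lev γ) x) s)
        refine Or.inr ⟨⟨γ, s⟩, ?_, rfl⟩
        simp only [mem_iUnion]
        refine ⟨γ, ?_, s, ?_, rfl⟩
        · simp only [mem_ofPred_eq]; nlinarith
        · simp only [mem_ofPred_eq]; nlinarith
    refine Finite.subset ?_ h1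
    refine ((((hv.fin x ε hε).image _).image _).union ((((hh i0).fin _ ε hε).image _).image _)).union ?_
    refine Finite.image _ (Finite.biUnion ?_ fun γ _ => ((hh _).fin _ ε hε).image _)
    have h5 : {γ : {γ : Γ // ∃ i, Sum.inr γ ∈ S i} | ε ≤ |v x γ.1|} = Subtype.val ⁻¹' {γ | ε ≤ |v x γ|} := rfl
    rw [h5]
    exact (hv.fin x ε hε).preimage Subtype.val_injective.injOn
  · intro x y hxy
    by_contra hne
    have hex : ∃ i, r i x ≠ r i y := by
      by_contra hall
      push Not at hall
      apply hne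
      apply huinj
      funext t
      obtain ⟨i, hi⟩ := mem_iUnion.mp (hcov ⟨t, rfl⟩)
      rw [← hru1 i x t hi, ← hru1 i y t hi, hall i]
    obtain ⟨i, hi, hmin⟩ := WellFounded.has_min (wellFounded_lt (α := ι)) {i | r i x ≠ r i y} hex
    have hmin' : ∀ j < i, r j x = r j y := by
      intro j hj
      by_contra hcon
      exact hmin j hcon hj
    by_cases hmini : IsMin i
    · have hii : i = i0 := le_antisymm (hmini (hi0 i)) (hi0 i)
      subst hii
      apply hi
      have h2 : R i x = R i y := by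
        apply hhinj i
        funext s
        exact congrFun hxy (Sum.inl (Sum.inr s))
      exact congrArg Subtype.val h2
    by_cases hcov' : ∃ j, j ⋖ i
    · obtain ⟨j, hj⟩ := hcov'
      have hjeq := hmin' j hj.lt
      -- one of the two points moves
      have hmove : ∀ z z' : X, (∀ γ, W z γ = W z' γ) → r j z = r j z' → r i z ≠ r i z' → r i z ≠ r j z → False := by
        intro z z' hW hjz hiz hm
        have hsub : {t | u (r j z) t ≠ 0} ⊂ {t | u (r i z) t ≠ 0} := by
          refine ⟨?_, ?_⟩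
          · intro t ht
            have ht1 : Sum.inl t ∈ S j := by
              by_contra hcon
              exact ht (hru0 j z t hcon)
            have ht2 := hmono hj.le ht1
            simp only [mem_ofPred_eq] at ht ⊢
            rw [hru1 i z t ht2]
            rwa [hru1 j z t ht1] at ht
          · intro hsub
            apply hm
            apply huinj
            funext t
            by_cases ht : u (r i z) t = 0
            · rw [ht]
              by_cases ht1 : Sum.inl t ∈ S j
              · rw [hru1 j z t ht1, ← hru1 i z t (hmono hj.le ht1), ht]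
              · rw [hru0 j z t ht1]
            · have ht' := hsub ht
              simp only [mem_ofPred_eq] at ht'
              have ht1 : Sum.inl t ∈ S j := by
                by_contra hcon
                exact ht' (hru0 j z t hcon)
              rw [hru1 j z t ht1, hru1 i z t (hmono hj.le ht1)]
        have hvne := huv _ _ hsub
        obtain ⟨γ, hγ⟩ := Function.ne_iff.mp hvne
        have hγj : Sum.inr γ ∉ S j := by
          intro hcon
          apply hγ
          rw [hrv1 j z γ hcon, hrv1 i z γ (hmono hj.le hcon)]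
        have hγi : Sum.inr γ ∈ S i := by
          by_contra hcon
          apply hγ
          rw [hrv0 j z γ hγj, hrv0 i z γ hcon]
        have hvz : v z γ ≠ 0 := by
          rw [hrv0 j z γ hγj, hrv1 i z γ hγi] at hγ
          exact hγ.symm
        let g : {γ : Γ // ∃ i, Sum.inr γ ∈ S i} := ⟨γ, i, hγi⟩
        have hg : lev g = i := by
          apply le_antisymm
          · by_contra hcon
            push Not at hcon
            exact hlev2 g i hcon hγi
          · by_contra hcon
            push Not at hcon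
            exact hγj (hmono (hj.le_of_lt hcon) (hlev1 g))
        apply hiz
        have h2 : R (lev g) z = R (lev g) z' := by
          apply hhinj (lev g)
          funext s
          have e1 : v z γ = v z' γ := hW (Sum.inl (Sum.inl γ))
          have e2 : v z γ * h (lev g) (R (lev g) z) s = v z' γ * h (lev g) (R (lev g) z') s :=
            hW (Sum.inr ⟨g, s⟩)
          rw [← e1] at e2
          exact mul_left_cancel₀ hvz e2
        have h3 : r (lev g) z = r (lev g) z' := congrArg Subtype.val h2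
        rwa [hg] at h3
      by_cases hm : r i x = r j x
      · have hm' : r i y ≠ r j y := by
          intro hcon
          apply hi
          rw [hm, hcon, hjeq]
        exact hmove y x (fun γ => (congrFun hxy γ).symm) hjeq.symm (Ne.symm hi) hm'
      · exact hmove x y (fun γ => congrFun hxy γ) hjeq hi hm
    · -- limit step
      have hlimi : Order.IsSuccLimit i := ⟨hmini, fun b hb => hcov' ⟨b, hb⟩⟩
      apply hi
      apply huinj
      funext t
      by_cases ht : Sum.inl t ∈ S i
      · obtain ⟨j, hji, hj⟩ := hlim i hlimi _ ht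
        rw [hru1 i x t ht, hru1 i y t ht, ← hru1 j x t hj, ← hru1 j y t hj, hmin' j hji]
      · rw [hru0 i x t ht, hru0 i y t ht]

end Pool.Agent.Helper639.Ebl
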