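import Mathlib
import Pool.Agent.Helper639.Ebl

open Set Topology Cardinal
open Pool.Agent.Helper639.Cor

set_option linter.unusedSectionVars false
set_option linter.unusedVariables false

namespace Pool.Agent.Helper639.Ebl

/-- a compact space is Eberlein when every subset is split by a c₀-family -/
theorem eberlein_of_splits (X : Type) [TopologicalSpace X] [CompactSpace X] [T2Space X]
    (h : ∀ A : Set X, ∃ (Γ : Type) (v : X → Γ → ℝ), C0 v ∧ ∀ x ∈ A, ∀ y ∉ A, v x ≠ v y) :
    ∃ (Γ : Type) (w : X → Γ → ℝ), C0 w ∧ Function.Injective w := by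
  classical
  have hS : Splits X := by
    intro A
    obtain ⟨Γ, v, hv, hA⟩ := h A
    let g : Γ → C(X, ℝ) := fun i => ⟨fun x => v x i, hv.cont i⟩
    refine ⟨range g, ?_, ?_⟩
    · intro x _
      have : {k | k ∈ range g ∧ k x ≠ 0} ⊆ g '' {i | v x i ≠ 0} := by
        rintro k ⟨⟨i, rfl⟩, hne⟩
        exact ⟨i, hne, rfl⟩
      exact ((supp_countable (hv.fin x)).image _).mono this
    · intro x hx y hy
      obtain ⟨i, hi⟩ := Function.ne_iff.1 (hA x hx y hy)
      exact ⟨g i, ⟨i, rfl⟩, hi⟩
  obtain ⟨T, u, hu, hus⟩ := embedding_of_corson hS.corson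
  obtain ⟨χ, hχ⟩ := chrom T
  choose Γ v hv hA using fun n : ℕ => h {x | χ {t | u x t ≠ 0} n = true}
  refine main_aux _ X T (Σ n, Γ n) u (fun x p => v p.1 x p.2 / ((p.1 : ℝ) + 1)) rfl
    (fun t => (continuous_apply t).comp hu.continuous) hu.injective hus (C0.sigma hv) ?_
  intro x y hxy heq
  have hne := hχ _ _ (hus x) (hus y) hxy
  obtain ⟨n, hn⟩ := Function.ne_iff.mp hne
  have heq' : v n x = v n y := by
    funext γ
    have h1 := congrFun heq ⟨n, γ⟩
    have hp : (0 : ℝ) < (n : ℝ) + 1 := by positivity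
    exact (div_left_inj' hp.ne').mp h1
  cases hx : χ {t | u x t ≠ 0} n with
  | true =>
    refine hA n x hx y ?_ heq'
    intro hy
    rw [hx] at hn
    exact hn (show true = _ from (show χ {t | u y t ≠ 0} n = true from hy).symm)
  | false =>
    cases hy : χ {t | u y t ≠ 0} n with
    | true => exact hA n y hy x (by
        intro hx'
        have : χ {t | u x t ≠ 0} n = true := hx'
        rw [hx] at this
        exact absurd this (by simp)) heq'.symm
    | false => exact hn (hx.trans hy.symm)

end Pool.Agent.Helper639.Ebl
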