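import Mathlib
import Pool.Agent.Helper639.Ebl2

open Set Topology Cardinal Filter
open Pool.Agent.Helper639.Cor

set_option linter.unusedSectionVars false
set_option linter.unusedVariables false

namespace Pool.Agent.Helper639.Ebl

section Pair

variable {K F : Type} [TopologicalSpace K] [TopologicalSpace F] 

/-- half of the goodness condition -/
def Hp (φ : K → F → ℝ) (A : Set K) (B : Set F) : Prop :=
  ∀ x, ∃ x' ∈ closure A, ∀ f ∈ B, φ x' f = φ x f

theorem hp_iUnion [CompactSpace K] {φ : K → F → ℝ} (h1 : ∀ f, Continuous (fun x => φ x f)) {ι : Type*} [Nonempty ι]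
    (A : ι → Set K) (B : ι → Set F) (hdir : ∀ i j, ∃ k, (A i ⊆ A k ∧ B i ⊆ B k) ∧ (A j ⊆ A k ∧ B j ⊆ B k))
    (h : ∀ i, Hp φ (A i) (B i)) : Hp φ (⋃ i, A i) (⋃ i, B i) := by
  intro x
  let T : ι → Set K := fun i => closure (⋃ i, A i) ∩ {y | ∀ f ∈ B i, φ y f = φ x f}
  have hTclosed : ∀ i, IsClosed (T i) := by
    intro i
    apply isClosed_closure.inter
    have : {y | ∀ f ∈ B i, φ y f = φ x f} = ⋂ f ∈ B i, {y | φ y f = φ x f} := by
      ext y; simp
    rw [this]
    exact isClosed_biInter fun f _ => isClosed_eq (h1 f) continuous_const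
  have hne : (⋂ i, T i).Nonempty := by
    apply IsCompact.nonempty_iInter_of_directed_nonempty_isCompact_isClosed
    · intro i j
      obtain ⟨k, hik, hjk⟩ := hdir i j
      exact ⟨k, fun y hy => ⟨hy.1, fun f hf => hy.2 f (hik.2 hf)⟩, fun y hy => ⟨hy.1, fun f hf => hy.2 f (hjk.2 hf)⟩⟩
    · intro i
      obtain ⟨x', hx', hf⟩ := h i x
      exact ⟨x', closure_mono (subset_iUnion A i) hx', hf⟩
    · intro i; exact (hTclosed i).isCompact
    · exact hTclosed
  obtain ⟨x', hx'⟩ := hne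
  rw [mem_iInter] at hx'
  refine ⟨x', (hx' (Classical.arbitrary ι)).1, ?_⟩
  intro f hf
  obtain ⟨i, hi⟩ := mem_iUnion.mp hf
  exact (hx' i).2 f hi

theorem hp_step [CompactSpace K] {φ : K → F → ℝ} (h1 : ∀ f, Continuous (fun x => φ x f)) (B : Set F) :
    ∃ A : Set K, #A ≤ max #B ℵ₀ ∧ Hp φ A B := by
  let wc : F → C(K, ℝ) := fun f => ⟨fun x => φ x f, h1 f⟩
  obtain ⟨C, -, hC, hD⟩ := lemA (univ : Set K) (wc '' B)
  refine ⟨C, hC.trans (max_le_max_right _ Cardinal.mk_image_le), fun x => ?_⟩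
  obtain ⟨x', hx', h⟩ := hD x (subset_closure (mem_univ x))
  exact ⟨x', hx', fun f hf => h (wc f) ⟨f, hf, rfl⟩⟩

/-- good sets of points and functions -/
def Gp (φ : K → F → ℝ) (N : Set (K ⊕ F)) : Prop :=
  Hp φ (Sum.inl ⁻¹' N) (Sum.inr ⁻¹' N) ∧ Hp (fun f x => φ x f) (Sum.inr ⁻¹' N) (Sum.inl ⁻¹' N)

theorem gp_iUnion [CompactSpace K] [CompactSpace F] {φ : K → F → ℝ} (h1 : ∀ f, Continuous (fun x => φ x f))
    (h2 : ∀ x, Continuous (φ x)) {ι : Type*} [Nonempty ι]
    (N : ι → Set (K ⊕ F)) (hdir : ∀ i j, ∃ k, N i ⊆ N k ∧ N j ⊆ N k)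
    (h : ∀ i, Gp φ (N i)) : Gp φ (⋃ i, N i) := by
  refine ⟨?_, ?_⟩
  · rw [preimage_iUnion, preimage_iUnion]
    refine hp_iUnion h1 _ _ (fun i j => ?_) (fun i => (h i).1)
    obtain ⟨k, hik, hjk⟩ := hdir i j
    exact ⟨k, ⟨preimage_mono hik, preimage_mono hik⟩, ⟨preimage_mono hjk, preimage_mono hjk⟩⟩
  · rw [preimage_iUnion, preimage_iUnion]
    refine hp_iUnion (φ := fun f x => φ x f) h2 _ _ (fun i j => ?_) (fun i => (h i).2)
    obtain ⟨k, hik, hjk⟩ := hdir i j
    exact ⟨k, ⟨preimage_mono hik, preimage_mono hik⟩, ⟨preimage_mono hjk, preimage_mono hjk⟩⟩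

theorem gp_sUnion [CompactSpace K] [CompactSpace F] {φ : K → F → ℝ} (h1 : ∀ f, Continuous (fun x => φ x f))
    (h2 : ∀ x, Continuous (φ x)) (𝒮 : Set (Set (K ⊕ F))) (hne : 𝒮.Nonempty) (hch : IsChain (· ⊆ ·) 𝒮)
    (h : ∀ S ∈ 𝒮, Gp φ S) : Gp φ (⋃₀ 𝒮) := by
  have : Nonempty 𝒮 := hne.to_subtype
  rw [sUnion_eq_iUnion]
  refine gp_iUnion h1 h2 _ (fun i j => ?_) (fun i => h i.1 i.2)
  rcases hch.total i.2 j.2 with hle | hle
  · exact ⟨j, hle, subset_rfl⟩
  · exact ⟨i, subset_rfl, hle⟩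

theorem gp_exists [CompactSpace K] [CompactSpace F] {φ : K → F → ℝ} (h1 : ∀ f, Continuous (fun x => φ x f))
    (h2 : ∀ x, Continuous (φ x)) (S : Set (K ⊕ F)) : ∃ S', S ⊆ S' ∧ Gp φ S' ∧ #S' ≤ max #S ℵ₀ := by
  choose C hC hCx using fun N : Set (K ⊕ F) => hp_step h1 (Sum.inr ⁻¹' N)
  choose C' hC' hCx' using fun N : Set (K ⊕ F) => hp_step (φ := fun f x => φ x f) h2 (Sum.inl ⁻¹' N)
  have hr : ∀ N : Set (K ⊕ F), #(Sum.inr ⁻¹' N : Set F) ≤ #N := by
    intro N
    exact Cardinal.mk_le_of_injective (f := fun t : (Sum.inr ⁻¹' N : Set F) => (⟨Sum.inr t.1, t.2⟩ : N))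
        (fun a b hab => Subtype.ext (Sum.inr_injective (congrArg Subtype.val hab)))
  have hl : ∀ N : Set (K ⊕ F), #(Sum.inl ⁻¹' N : Set K) ≤ #N := by
    intro N
    exact Cardinal.mk_le_of_injective (f := fun t : (Sum.inl ⁻¹' N : Set K) => (⟨Sum.inl t.1, t.2⟩ : N))
        (fun a b hab => Subtype.ext (Sum.inl_injective (congrArg Subtype.val hab)))
  let nxt : Set (K ⊕ F) → Set (K ⊕ F) := fun N => N ∪ (Sum.inl '' (C N) ∪ Sum.inr '' (C' N))
  have hnxt : ∀ N, #(nxt N) ≤ max #N ℵ₀ := by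
    intro N
    refine (Cardinal.mk_union_le _ _).trans (Cardinal.add_le_of_le (le_max_right _ _) (le_max_left _ _) ?_)
    refine (Cardinal.mk_union_le _ _).trans (Cardinal.add_le_of_le (le_max_right _ _) ?_ ?_)
    · exact Cardinal.mk_image_le.trans ((hC N).trans (max_le_max_right _ (hr N)))
    · exact Cardinal.mk_image_le.trans ((hC' N).trans (max_le_max_right _ (hl N)))
  let N : ℕ → Set (K ⊕ F) := fun n => Nat.rec S (fun _ M => nxt M) n
  have hN0 : N 0 = S := rfl
  have hNs : ∀ n, N (n + 1) = nxt (N n) := fun n => rfl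
  have hNcard : ∀ n, #↥(N n) ≤ max #S ℵ₀ := by
    intro n
    induction n with
    | zero => exact le_max_left _ _
    | succ n ih =>
      rw [hNs]
      exact (hnxt _).trans (max_le ih (le_max_right _ _))
  have hmono : Monotone N := monotone_nat_of_le_succ fun n => by
    rw [hNs]; exact subset_union_left
  refine ⟨⋃ n, N n, ?_, ⟨?_, ?_⟩, iUnion_nat_card_le N (le_max_right _ _) hNcard⟩
  · rw [← hN0]; exact subset_iUnion N 0
  · have e1 : (Sum.inl ⁻¹' (⋃ n, N n) : Set K) = ⋃ n, Sum.inl ⁻¹' (N (n + 1)) := by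
      ext x
      simp only [mem_preimage, mem_iUnion]
      exact ⟨fun ⟨n, hn⟩ => ⟨n, hmono (Nat.le_succ n) hn⟩, fun ⟨n, hn⟩ => ⟨n + 1, hn⟩⟩
    have e2 : (Sum.inr ⁻¹' (⋃ n, N n) : Set F) = ⋃ n, Sum.inr ⁻¹' (N n) := preimage_iUnion
    rw [e1, e2]
    refine hp_iUnion h1 (fun n => Sum.inl ⁻¹' (N (n + 1))) (fun n => Sum.inr ⁻¹' (N n)) (fun i j => ?_) (fun n => ?_)
    · have e3 : i ≤ max i j := le_max_left _ _
      have e4 : j ≤ max i j := le_max_right _ _
      exact ⟨max i j, ⟨preimage_mono (hmono (Nat.succ_le_succ e3)), preimage_mono (hmono e3)⟩,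
        ⟨preimage_mono (hmono (Nat.succ_le_succ e4)), preimage_mono (hmono e4)⟩⟩
    · intro x
      obtain ⟨x', hx', h⟩ := hCx (N n) x
      refine ⟨x', closure_mono ?_ hx', h⟩
      intro c hc
      show Sum.inl c ∈ N (n + 1)
      rw [hNs]
      exact Or.inr (Or.inl ⟨c, hc, rfl⟩)
  · have e1 : (Sum.inr ⁻¹' (⋃ n, N n) : Set F) = ⋃ n, Sum.inr ⁻¹' (N (n + 1)) := by
      ext x
      simp only [mem_preimage, mem_iUnion]
      exact ⟨fun ⟨n, hn⟩ => ⟨n, hmono (Nat.le_succ n) hn⟩, fun ⟨n, hn⟩ => ⟨n + 1, hn⟩⟩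
    have e2 : (Sum.inl ⁻¹' (⋃ n, N n) : Set K) = ⋃ n, Sum.inl ⁻¹' (N n) := preimage_iUnion
    rw [e1, e2]
    refine hp_iUnion (φ := fun f x => φ x f) h2 (fun n => Sum.inr ⁻¹' (N (n + 1))) (fun n => Sum.inl ⁻¹' (N n))
      (fun i j => ?_) (fun n => ?_)
    · have e3 : i ≤ max i j := le_max_left _ _
      have e4 : j ≤ max i j := le_max_right _ _
      exact ⟨max i j, ⟨preimage_mono (hmono (Nat.succ_le_succ e3)), preimage_mono (hmono e3)⟩,
        ⟨preimage_mono (hmono (Nat.succ_le_succ e4)), preimage_mono (hmono e4)⟩⟩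
    · intro x
      obtain ⟨x', hx', h⟩ := hCx' (N n) x
      refine ⟨x', closure_mono ?_ hx', h⟩
      intro c hc
      show Sum.inr c ∈ N (n + 1)
      rw [hNs]
      exact Or.inr (Or.inr ⟨c, hc, rfl⟩)

/-- points of the closure of the points of a good set are separated by its functions -/
theorem gp_sep {φ : K → F → ℝ} (h1 : ∀ f, Continuous (fun x => φ x f))
    (h2 : ∀ x, Continuous (φ x)) (hs : ∀ x y, (∀ f, φ x f = φ y f) → x = y) {N : Set (K ⊕ F)} (hN : Gp φ N)
    {x y : K} (hx : x ∈ closure (Sum.inl ⁻¹' N)) (hy : y ∈ closure (Sum.inl ⁻¹' N))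
    (hxy : ∀ f, Sum.inr f ∈ N → φ x f = φ y f) : x = y := by
  apply hs
  intro f
  obtain ⟨f', hf', hff'⟩ := hN.2 f
  have h3 : ∀ z ∈ closure (Sum.inl ⁻¹' N : Set K), φ z f' = φ z f := by
    intro z hz
    exact closure_minimal (s := (Sum.inl ⁻¹' N : Set K)) (t := {z | φ z f' = φ z f})
      (fun a ha => hff' a ha) (isClosed_eq (h1 f') (h1 f)) hz
  have h4 : φ x f' = φ y f' :=
    closure_minimal (s := (Sum.inr ⁻¹' N : Set F)) (t := {g | φ x g = φ y g})
      (fun g hg => hxy g hg) (isClosed_eq (h2 x) (h2 y)) hf'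
  rw [← h3 x hx, ← h3 y hy, h4]

end Pair

theorem exists_strictMono_of_infinite {ι : Type} [LinearOrder ι] [WellFoundedLT ι] {J : Set ι} (hJ : J.Infinite) :
    ∃ s : ℕ → ι, StrictMono s ∧ ∀ n, s n ∈ J := by
  let f : ℕ → ι := fun n => (hJ.natEmbedding J n).1
  have hf : Function.Injective f := Subtype.val_injective.comp (hJ.natEmbedding J).injective
  obtain ⟨g, hg⟩ := exists_increasing_or_nonincreasing_subseq (· < ·) f
  rcases hg with hg | hg
  · exact ⟨f ∘ g, fun m n h => hg m n h, fun n => (hJ.natEmbedding J (g n)).2⟩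
  · exfalso
    obtain ⟨_, ⟨m, rfl⟩, hmin⟩ := WellFounded.has_min (wellFounded_lt (α := ι)) (range (f ∘ g)) ⟨_, ⟨0, rfl⟩⟩
    have h1 := hg m (m + 1) (Nat.lt_succ_self m)
    have h2 := hmin _ ⟨m + 1, rfl⟩
    have h3 : f (g m) = f (g (m + 1)) := le_antisymm (not_lt.mp h2) (not_lt.mp h1)
    have h4 := g.injective (hf h3)
    omega

theorem al_aux (κ : Cardinal.{0}) : ∀ (K F : Type) [TopologicalSpace K] [CompactSpace K] [T2Space K]
    [TopologicalSpace F] [CompactSpace F] (φ : K → F → ℝ) (h1 : ∀ f, Continuous (fun x => φ x f))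
    (h2 : ∀ x, Continuous (φ x)) (hb : ∀ x f, |φ x f| ≤ 1) (hs : ∀ x y, (∀ f, φ x f = φ y f) → x = y)
    (D : Set K) (hD : Dense D) (hDc : #D = κ),
    ∃ (Γ : Type) (h : K → Γ → ℝ), C0 h ∧ Function.Injective h ∧
      ∀ γ x y (C : ℝ), (∀ f, |φ x f - φ y f| ≤ C) → |h x γ - h y γ| ≤ C := by
  induction κ using WellFoundedLT.induction with
  | ind κ ih =>
  intro K F _ _ _ _ _ φ h1 h2 hb hs D hD hDc
  classical
  have hDl : #((Sum.inl '' D : Set (K ⊕ F))) ≤ κ := by rw [← hDc]; exact Cardinal.mk_image_le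
  by_cases hκ : κ ≤ ℵ₀
  · -- countable case
    obtain ⟨N, hSN, hN, hNc⟩ := gp_exists h1 h2 (Sum.inl '' D : Set (K ⊕ F))
    have hNc' : N.Countable := by
      rw [← Cardinal.le_aleph0_iff_set_countable]
      exact hNc.trans (max_le (hDl.trans hκ) le_rfl)
    have hcl : ∀ x : K, x ∈ closure (Sum.inl ⁻¹' N : Set K) := by
      intro x
      have h3 : D ⊆ (Sum.inl ⁻¹' N : Set K) := fun d hd => hSN (mem_image_of_mem Sum.inl hd)
      exact closure_mono h3 (hD x)
    let B := {f : F // Sum.inr f ∈ N}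
    have hB : Countable B := by
      have : (Sum.inr ⁻¹' N : Set F).Countable := hNc'.preimage Sum.inr_injective
      exact this.to_subtype
    obtain ⟨enc, henc⟩ := exists_injective_nat B
    have hp : ∀ n : ℕ, (0 : ℝ) < (n : ℝ) + 1 := fun n => by positivity
    refine ⟨B, fun x f => φ x f.1 / ((enc f : ℝ) + 1), ⟨fun f => (h1 f.1).div_const _, fun x f => ?_, fun x ε hε => ?_⟩,
      ?_, ?_⟩
    · rw [abs_div, abs_of_pos (hp _), div_le_one (hp _)]
      have := hb x f.1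
      have h2 : (0 : ℝ) ≤ enc f := Nat.cast_nonneg _
      linarith
    · obtain ⟨M, hM⟩ := exists_nat_gt (1 / ε)
      refine ((finite_Iio M).preimage henc.injOn).subset ?_
      intro t ht
      simp only [mem_ofPred_eq] at ht
      rw [abs_div, abs_of_pos (hp _), le_div_iff₀ (hp _)] at ht
      have h1 := hb x t.1
      have h3 : (enc t : ℝ) < 1 / ε := by
        rw [lt_div_iff₀ hε]
        nlinarith
      have h4 : (enc t : ℝ) < M := h3.trans hM
      exact (by exact_mod_cast h4 : enc t < M)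
    · intro x y hxy
      refine gp_sep h1 h2 hs hN (hcl x) (hcl y) ?_
      intro f hf
      have := congrFun hxy ⟨f, hf⟩
      exact (div_left_inj' (hp _).ne').mp this
    · intro f x y C hC
      have h3 := hC f.1
      have h4 : φ x f.1 / ((enc f : ℝ) + 1) - φ y f.1 / ((enc f : ℝ) + 1) = (φ x f.1 - φ y f.1) / ((enc f : ℝ) + 1) := by
        ring
      rw [h4, abs_div, abs_of_pos (hp _)]
      refine le_trans (div_le_self (abs_nonneg _) ?_) h3
      have h2 : (0 : ℝ) ≤ enc f := Nat.cast_nonneg _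
      linarith
  push Not at hκ
  obtain ⟨ι, _, _, _, S, hmono, hgood, hcard, hlim, hcov⟩ := chain_exists (kap := κ) ℵ₀ le_rfl hκ (Gp φ)
    (gp_sUnion h1 h2) (fun N _ => gp_exists h1 h2 N) (Sum.inl '' D : Set (K ⊕ F)) hDl
  -- the retractions
  have hret : ∀ i, ∃ r : C(K, K), (∀ x, r x ∈ closure (Sum.inl ⁻¹' (S i))) ∧
      (∀ x f, Sum.inr f ∈ S i → φ (r x) f = φ x f) ∧ (∀ x ∈ closure (Sum.inl ⁻¹' (S i) : Set K), r x = x) := by
    intro i
    let wc : F → C(K, ℝ) := fun f => ⟨fun x => φ x f, h1 f⟩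
    have hG : Good (Sum.inl ⁻¹' (S i) : Set K) (wc '' (Sum.inr ⁻¹' (S i))) := by
      refine ⟨?_, ?_⟩
      · intro x _
        obtain ⟨x', hx', h⟩ := (hgood i).1 x
        refine ⟨x', hx', ?_⟩
        rintro _ ⟨f, hf, rfl⟩
        exact h f hf
      · intro x hx y hy hxy
        exact gp_sep h1 h2 hs (hgood i) hx hy (fun f hf => hxy (wc f) ⟨f, hf, rfl⟩)
    obtain ⟨r, hr1, hr2, hr3⟩ := hG.retraction
    exact ⟨r, hr1, fun x f hf => hr2 x (wc f) ⟨f, hf, rfl⟩, hr3⟩
  choose r hrA hrB hrid using hret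
  -- the dual retractions
  have hdual : ∀ i f, ∃ f' ∈ closure (Sum.inr ⁻¹' (S i) : Set F), ∀ x, φ x f' = φ (r i x) f := by
    intro i f
    obtain ⟨f', hf', hff'⟩ := (hgood i).2 f
    refine ⟨f', hf', fun x => ?_⟩
    have h3 : φ (r i x) f' = φ (r i x) f :=
      closure_minimal (s := (Sum.inl ⁻¹' (S i) : Set K)) (t := {z | φ z f' = φ z f})
        (fun a ha => hff' a ha) (isClosed_eq (h1 f') (h1 f)) (hrA i x)
    have h4 : φ (r i x) f' = φ x f' :=
      closure_minimal (s := (Sum.inr ⁻¹' (S i) : Set F)) (t := {g | φ (r i x) g = φ x g})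
        (fun g hg => hrB i x g hg) (isClosed_eq (h2 _) (h2 _)) hf'
    rw [← h4, h3]
  choose s hsB hsφ using hdual
  have hclmono : ∀ {i j}, i ≤ j → closure (Sum.inl ⁻¹' (S i) : Set K) ⊆ closure (Sum.inl ⁻¹' (S j)) :=
    fun hij => closure_mono (preimage_mono (hmono hij))
  -- finiteness
  have hfin : ∀ x, ∀ ε : ℝ, 0 < ε → {i | ∃ j, j ⋖ i ∧ ∃ f, ε ≤ |φ (r i x) f - φ (r j x) f|}.Finite := by
    intro x ε hε
    by_contra hinf
    obtain ⟨si, hsi, hsiJ⟩ := exists_strictMono_of_infinite hinf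
    choose sj hsj sf hsf using hsiJ
    obtain ⟨g, -, hg⟩ := (isCompact_univ (X := F)).ultrafilter_le_nhds
      ((hyperfilter ℕ).map (fun n => s (si n) (sf n))) (by simp)
    obtain ⟨g', -, hg'⟩ := (isCompact_univ (X := F)).ultrafilter_le_nhds
      ((hyperfilter ℕ).map (fun n => s (sj n) (sf n))) (by simp)
    have hgt : Tendsto (fun n => s (si n) (sf n)) (hyperfilter ℕ) (𝓝 g) := hg
    have hgt' : Tendsto (fun n => s (sj n) (sf n)) (hyperfilter ℕ) (𝓝 g') := hg'
    -- the union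
    have hNU : Gp φ (⋃ n, S (si n)) := by
      refine gp_iUnion h1 h2 _ (fun i j => ?_) (fun n => hgood _)
      refine ⟨max i j, hmono (hsi.monotone (le_max_left _ _)), hmono (hsi.monotone (le_max_right _ _))⟩
    have hjle : ∀ m n, m < n → si m ≤ sj n := by
      intro m n hmn
      exact (hsj n).le_of_lt (hsi hmn)
    have hcl1 : ∀ n, closure (Sum.inr ⁻¹' (S (si n)) : Set F) ⊆ closure (Sum.inr ⁻¹' (⋃ n, S (si n))) :=
      fun n => closure_mono (preimage_mono (subset_iUnion (fun n => S (si n)) n))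
    have hgcl : g ∈ closure (Sum.inr ⁻¹' (⋃ n, S (si n)) : Set F) :=
      isClosed_closure.mem_of_tendsto hgt (Eventually.of_forall fun n => hcl1 n (hsB _ _))
    have hgcl' : g' ∈ closure (Sum.inr ⁻¹' (⋃ n, S (si n)) : Set F) :=
      isClosed_closure.mem_of_tendsto hgt' (Eventually.of_forall fun n =>
        hcl1 n (closure_mono (preimage_mono (hmono (hsj n).le)) (hsB _ _)))
    have hev : ∀ z, Tendsto (fun n => φ z (s (si n) (sf n))) (hyperfilter ℕ) (𝓝 (φ z g)) :=
      fun z => ((h2 z).tendsto g).comp hgt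
    have hev' : ∀ z, Tendsto (fun n => φ z (s (sj n) (sf n))) (hyperfilter ℕ) (𝓝 (φ z g')) :=
      fun z => ((h2 z).tendsto g').comp hgt'
    have ha : ∀ a ∈ (Sum.inl ⁻¹' (⋃ n, S (si n)) : Set K), φ a g = φ a g' := by
      intro a ha
      obtain ⟨m, hm⟩ := mem_iUnion.mp ha
      refine tendsto_nhds_unique (hev a) ((hev' a).congr' ?_)
      have h7 : ∀ᶠ n in (hyperfilter ℕ : Filter ℕ), m < n :=
        (Filter.eventually_gt_atTop m).filter_mono (by
          rw [← Nat.cofinite_eq_atTop]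
          exact hyperfilter_le_cofinite)
      filter_upwards [h7] with n hn
      rw [hsφ, hsφ, hrid (sj n) a (subset_closure (hmono (hjle m n hn) hm)),
        hrid (si n) a (subset_closure (hmono ((hjle m n hn).trans (hsj n).le) hm))]
    obtain ⟨x', hx', hxx'⟩ := hNU.1 x
    have hcl2 : ∀ k ∈ closure (Sum.inr ⁻¹' (⋃ n, S (si n)) : Set F), φ x' k = φ x k := by
      intro k hk
      exact closure_minimal (s := (Sum.inr ⁻¹' (⋃ n, S (si n)) : Set F)) (t := {k | φ x' k = φ x k})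
        (fun k hk => hxx' k hk) (isClosed_eq (h2 _) (h2 _)) hk
    have hx'eq : φ x' g = φ x' g' :=
      closure_minimal (s := (Sum.inl ⁻¹' (⋃ n, S (si n)) : Set K)) (t := {z | φ z g = φ z g'})
        ha (isClosed_eq (h1 _) (h1 _)) hx'
    have hxeq : φ x g = φ x g' := by
      rw [← hcl2 g hgcl, ← hcl2 g' hgcl', hx'eq]
    have hlim : Tendsto (fun n => |φ x (s (si n) (sf n)) - φ x (s (sj n) (sf n))|) (hyperfilter ℕ)
        (𝓝 |φ x g - φ x g'|) := ((hev x).sub (hev' x)).abs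
    have hge := ge_of_tendsto hlim (Eventually.of_forall (fun n => by
      have := hsf n
      rw [hsφ, hsφ]
      exact this) : ∀ᶠ n in (hyperfilter ℕ : Filter ℕ), ε ≤ |φ x (s (si n) (sf n)) - φ x (s (sj n) (sf n))|)
    rw [hxeq, sub_self, abs_zero] at hge
    linarith
  -- contraction property of the retractions
  have hcontr : ∀ i x y (C : ℝ), (∀ f, |φ x f - φ y f| ≤ C) → ∀ f, |φ (r i x) f - φ (r i y) f| ≤ C := by
    intro i x y C hC f
    rw [← hsφ i f x, ← hsφ i f y]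
    exact hC _
  -- induction hypothesis
  have hind : ∀ i, ∃ (Γ' : Type) (h : closure (Sum.inl ⁻¹' (S i) : Set K) → Γ' → ℝ), C0 h ∧ Function.Injective h ∧
      ∀ γ x y (C : ℝ), (∀ f, |φ x.1 f - φ y.1 f| ≤ C) → |h x γ - h y γ| ≤ C := by
    intro i
    have hcomp : CompactSpace (closure (Sum.inl ⁻¹' (S i) : Set K)) :=
      isCompact_iff_compactSpace.mp isClosed_closure.isCompact
    let D' : Set (closure (Sum.inl ⁻¹' (S i) : Set K)) := {z | Sum.inl z.1 ∈ S i}
    have hD' : Dense D' := by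
      intro z
      rw [closure_subtype]
      have h3 : (Subtype.val '' D') = (Sum.inl ⁻¹' (S i) : Set K) := by
        ext a
        constructor
        · rintro ⟨z, hz, rfl⟩
          exact hz
        · intro ha
          exact ⟨⟨a, subset_closure ha⟩, ha, rfl⟩
      rw [h3]
      exact z.2
    have hDc' : #D' < κ := by
      refine lt_of_le_of_lt ?_ (hcard i)
      exact Cardinal.mk_le_of_injective (f := fun t : D' => (⟨Sum.inl t.1.1, t.2⟩ : S i))
        (fun a b hab => Subtype.ext (Subtype.ext (Sum.inl_injective (congrArg Subtype.val hab))))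
    exact ih _ hDc' (closure (Sum.inl ⁻¹' (S i) : Set K)) F (fun x f => φ x.1 f)
      (fun f => (h1 f).comp continuous_subtype_val) (fun x => h2 x.1) (fun x f => hb _ _)
      (fun x y hxy => Subtype.ext (hs _ _ hxy)) D' hD' rfl
  choose Γi h hh hhinj hhL using hind
  obtain ⟨i0, hi0⟩ : ∃ i0 : ι, ∀ i, i0 ≤ i := by
    obtain ⟨i0, -, hmin⟩ := WellFounded.has_min (wellFounded_lt (α := ι)) univ ⟨Classical.arbitrary ι, mem_univ _⟩
    exact ⟨i0, fun i => not_lt.mp (hmin i (mem_univ i))⟩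
  let R : ∀ i, K → closure (Sum.inl ⁻¹' (S i) : Set K) := fun i x => ⟨r i x, hrA i x⟩
  have hRc : ∀ i, Continuous (R i) := fun i => (r i).continuous.subtype_mk _
  choose pr hpr using fun i : {i : ι // ∃ j, j ⋖ i} => i.2
  have hRL : ∀ i x y (C : ℝ), (∀ f, |φ x f - φ y f| ≤ C) → ∀ s, |h i (R i x) s - h i (R i y) s| ≤ C :=
    fun i x y C hC s => hhL i s _ _ C (hcontr i x y C hC)
  let W : K → (Γi i0 ⊕ (Σ i : {i : ι // ∃ j, j ⋖ i}, Γi i.1)) → ℝ := fun x => Sum.elim (h i0 (R i0 x))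
    (fun p => (h p.1.1 (R p.1.1 x) p.2 - h p.1.1 (R p.1.1 (r (pr p.1) x)) p.2) / 2)
  refine ⟨_, W, ⟨?_, ?_, ?_⟩, ?_, ?_⟩
  · rintro (γ | p)
    · exact ((hh i0).cont γ).comp (hRc i0)
    · exact ((((hh p.1.1).cont p.2).comp (hRc p.1.1)).sub
        (((hh p.1.1).cont p.2).comp ((hRc p.1.1).comp (r (pr p.1)).continuous))).div_const 2
  · rintro x (γ | p)
    · exact (hh i0).bd _ γ
    · change |(_ - _) / 2| ≤ 1
      have e1 := abs_le.mp ((hh p.1.1).bd (R p.1.1 x) p.2)
      have e2 := abs_le.mp ((hh p.1.1).bd (R p.1.1 (r (pr p.1) x)) p.2)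
      rw [abs_le]
      constructor <;> linarith [e1.1, e1.2, e2.1, e2.2]
  · intro x ε hε
    have hJ : {i : {i : ι // ∃ j, j ⋖ i} | ∃ f, ε ≤ |φ (r i.1 x) f - φ (r (pr i) x) f|}.Finite := by
      have h3 := (hfin x ε hε).preimage (f := (Subtype.val : {i : ι // ∃ j, j ⋖ i} → ι)) Subtype.val_injective.injOn
      refine h3.subset ?_
      rintro i ⟨f, hf⟩
      exact ⟨pr i, hpr i, f, hf⟩
    refine Finite.subset (((hh i0).fin (R i0 x) ε hε).image Sum.inl |>.union
      (Finite.image Sum.inr (hJ.biUnion fun i _ => (((hh i.1).fin (R i.1 x) ε hε).union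
        ((hh i.1).fin (R i.1 (r (pr i) x)) ε hε)).image (Sigma.mk i)))) ?_
    rintro (γ | ⟨i, t⟩) hγ
    · exact Or.inl ⟨γ, hγ, rfl⟩
    · have hγ' : ε ≤ |(h i.1 (R i.1 x) t - h i.1 (R i.1 (r (pr i) x)) t) / 2| := hγ
      rw [abs_div, abs_of_pos (by norm_num : (0 : ℝ) < 2), le_div_iff₀ (by norm_num)] at hγ'
      refine Or.inr ⟨⟨i, t⟩, ?_, rfl⟩
      simp only [mem_iUnion]
      refine ⟨i, ?_, t, ?_, rfl⟩
      · by_contra hcon
        simp only [mem_ofPred_eq, not_exists, not_le] at hcon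
        have h5 : R i.1 (r (pr i) x) = R i.1 (r (pr i) x) := rfl
        have h6 : r i.1 (r (pr i) x) = r (pr i) x :=
          hrid i.1 _ (hclmono (hpr i).le (hrA (pr i) x))
        have h7 : |h i.1 (R i.1 x) t - h i.1 (R i.1 (r (pr i) x)) t| ≤ ε := by
          apply hhL i.1 t
          intro f
          have h8 := (hcon f).le
          change |φ (r i.1 x) f - φ (r i.1 (r (pr i) x)) f| ≤ ε
          rw [h6]
          exact h8
        linarith
      · by_contra hcon
        simp only [mem_union, mem_ofPred_eq, not_or, not_le] at hcon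
        have h7 : |h i.1 (R i.1 x) t - h i.1 (R i.1 (r (pr i) x)) t| ≤
            |h i.1 (R i.1 x) t| + |h i.1 (R i.1 (r (pr i) x)) t| := abs_sub _ _
        linarith [hcon.1, hcon.2]
  · intro x y hxy
    by_contra hne
    have hex : ∃ i, r i x ≠ r i y := by
      by_contra hall
      push Not at hall
      apply hne
      have hNU : Gp φ (⋃ n, S n) := by
        refine gp_iUnion h1 h2 _ (fun i j => ?_) (fun n => hgood _)
        exact ⟨max i j, hmono (le_max_left _ _), hmono (le_max_right _ _)⟩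
      have hcl : ∀ x : K, x ∈ closure (Sum.inl ⁻¹' (⋃ n, S n) : Set K) := by
        intro x
        have h3 : D ⊆ (Sum.inl ⁻¹' (⋃ n, S n) : Set K) := fun d hd => hcov (mem_image_of_mem Sum.inl hd)
        exact closure_mono h3 (hD x)
      refine gp_sep h1 h2 hs hNU (hcl x) (hcl y) ?_
      intro f hf
      obtain ⟨i, hi⟩ := mem_iUnion.mp hf
      rw [← hrB i x f hi, ← hrB i y f hi, hall i]
    obtain ⟨i, hi, hmin⟩ := WellFounded.has_min (wellFounded_lt (α := ι)) {i | r i x ≠ r i y} hex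
    have hmin' : ∀ j < i, r j x = r j y := by
      intro j hj
      by_contra hcon
      exact hmin j hcon hj
    by_cases hmini : IsMin i
    · have hii : i = i0 := le_antisymm (hmini (hi0 i)) (hi0 i)
      subst hii
      apply hi
      have h2 : R i x = R i y := by
        apply hhinj i
        funext t
        exact congrFun hxy (Sum.inl t)
      exact congrArg Subtype.val h2
    by_cases hcov' : ∃ j, j ⋖ i
    · have hj := hpr ⟨i, hcov'⟩
      have hjeq := hmin' _ hj.lt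
      apply hi
      have h2 : R i x = R i y := by
        apply hhinj i
        funext t
        have h3 : (h i (R i x) t - h i (R i (r (pr ⟨i, hcov'⟩) x)) t) / 2 =
          (h i (R i y) t - h i (R i (r (pr ⟨i, hcov'⟩) y)) t) / 2 := congrFun hxy (Sum.inr ⟨⟨i, hcov'⟩, t⟩)
        rw [hjeq] at h3
        linarith
      exact congrArg Subtype.val h2
    · have hlimi : Order.IsSuccLimit i := ⟨hmini, fun b hb => hcov' ⟨b, hb⟩⟩
      apply hi
      refine gp_sep h1 h2 hs (hgood i) (hrA i x) (hrA i y) ?_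
      intro f hf
      obtain ⟨j, hji, hj⟩ := hlim i hlimi _ hf
      rw [hrB i x f hf, hrB i y f hf, ← hrB j x f hj, ← hrB j y f hj, hmin' j hji]
  · rintro (γ | p) x y C hC
    · exact hRL i0 x y C hC γ
    · have e1 := abs_le.mp (hRL p.1.1 x y C hC p.2)
      have e2 := abs_le.mp (hRL p.1.1 _ _ C (hcontr (pr p.1) x y C hC) p.2)
      change |(_ - _) / 2 - (_ - _) / 2| ≤ C
      rw [abs_le]
      constructor <;> linarith [e1.1, e1.2, e2.1, e2.2]

/-- **Amir-Lindenstrauss**: a compact space with a compact separating family of continuous functions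
has an injective c₀-family. -/
theorem al {K F : Type} [TopologicalSpace K] [CompactSpace K] 
    [TopologicalSpace F] [CompactSpace F] (φ : K → F → ℝ) (h1 : ∀ f, Continuous (fun x => φ x f))
    (h2 : ∀ x, Continuous (φ x)) (hs : ∀ x y, (∀ f, φ x f = φ y f) → x = y) :
    ∃ (Γ : Type) (h : K → Γ → ℝ), C0 h ∧ Function.Injective h := by
  have hT2 : T2Space K := by
    refine T2Space.of_injective_continuous (f := φ) (fun x y hxy => hs x y (fun f => congrFun hxy f)) (continuous_pi h1)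
  obtain ⟨Γ, h, hh, hinj, -⟩ := al_aux _ K F (fun x f => sq (φ x f)) (fun f => sq_continuous.comp (h1 f))
    (fun x => sq_continuous.comp (h2 x)) (fun x f => sq_le_one _)
    (fun x y hxy => hs x y fun f => sq_inj (hxy f)) univ dense_univ rfl
  exact ⟨Γ, h, hh, hinj⟩

end Pool.Agent.Helper639.Ebl
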