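import Pool.Agent.Helper639.CorC

open Set Topology Cardinal

namespace Pool.Agent.Helper639.Cor

universe u v

variable {X : Type u} [TopologicalSpace X]

/-- any `kap` many functions are captured by one point-countable family -/
def Cap (X : Type u) [TopologicalSpace X] (kap : Cardinal.{u}) : Prop :=
  ∀ E : Set C(X, ℝ), #E ≤ kap → ∃ G : Set C(X, ℝ), PCon univ G ∧
    ∀ x y, (∀ g ∈ G, g x = g y) → ∀ f ∈ E, f x = f y

theorem Cap.corson [CompactSpace X] [T2Space X] {kap : Cardinal.{u}} (hkap : ℵ₀ ≤ kap)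
    (hcap : Cap X kap) (hS : Splits X) {D : Set X} (hD : Dense D) (hDk : #D ≤ kap) :
    CorsonOn (univ : Set X) := by
  classical
  let K := kap.ord.ToType
  have hK : #K = kap := Cardinal.mk_ord_toType _
  -- trimmed families
  have htrim : ∀ A : Set X, ∃ F : Set C(X, ℝ), #F ≤ kap ∧ PCon univ F ∧
      ∀ x ∈ A, ∀ y ∉ A, ∃ f ∈ F, f x ≠ f y := by
    intro A
    obtain ⟨F, hF, hsep⟩ := hS A
    refine ⟨{f | f ∈ F ∧ ∃ b ∈ D, f b ≠ 0}, ?_, ?_, ?_⟩
    · exact (trim_card (B := D) (F := F) (fun x _ => hF x (mem_univ x))).trans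
        (max_le hDk hkap)
    · intro x hx
      refine (hF x hx).mono ?_
      rintro f ⟨⟨hf, -⟩, hne⟩
      exact ⟨hf, hne⟩
    · intro x hx y hy
      obtain ⟨f, hf, hne⟩ := hsep x hx y hy
      exact ⟨f, trim_sep (hD x) (hD y) hf hne, hne⟩
  -- families isolating points, indexed by K
  have hpt : ∀ x : X, ∃ e : K → C(X, ℝ), ∀ y, (∀ k, e k y = e k x) → y = x := by
    intro x
    obtain ⟨F, hF, -, hsep⟩ := htrim {x}
    rw [← hK] at hF
    obtain ⟨φ⟩ := Cardinal.le_def _ _ |>.1 hF
    refine ⟨fun k => if h : ∃ f : F, φ f = k then h.choose.1 else 0, ?_⟩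
    intro y hy
    by_contra hne
    obtain ⟨f, hf, hfne⟩ := hsep x rfl y hne
    have := hy (φ ⟨f, hf⟩)
    have hex : ∃ f' : F, φ f' = φ ⟨f, hf⟩ := ⟨⟨f, hf⟩, rfl⟩
    simp only [dif_pos hex] at this
    have h2 : hex.choose = ⟨f, hf⟩ := φ.injective hex.choose_spec
    rw [h2] at this
    exact hfne this.symm
  choose e he using hpt
  -- coding
  have hcode : ∀ x : X, ∀ j : Finset K × ℕ, ∃ d : D, ∀ k ∈ j.1,
      |e x k d.1 - e x k x| < 1 / ((j.2 : ℝ) + 1) := by
    intro x j
    let V : Set X := {y | ∀ k ∈ j.1, |e x k y - e x k x| < 1 / ((j.2 : ℝ) + 1)}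
    have hV : IsOpen V := by
      have : V = ⋂ k ∈ j.1, {y | |e x k y - e x k x| < 1 / ((j.2 : ℝ) + 1)} := by
        ext y; simp [V]
      rw [this]
      apply isOpen_biInter_finset
      intro k _
      exact isOpen_lt (((e x k).continuous.sub continuous_const).abs) continuous_const
    have hxV : x ∈ V := by
      intro k _
      simp only [sub_self, abs_zero]
      positivity
    obtain ⟨d, hdV, hdD⟩ := hD.inter_open_nonempty V hV ⟨x, hxV⟩
    exact ⟨⟨d, hdD⟩, hdV⟩
  choose c hc using hcode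
  have hcinj : ∀ x y, c x = c y → x = y := by
    intro x y hxy
    -- a cluster point
    let T : Finset K × ℕ → Set X := fun j => closure {z | ∃ j' ≥ j, z = (c x j').1}
    have hne : (⋂ j, T j).Nonempty := by
      apply IsCompact.nonempty_iInter_of_directed_nonempty_isCompact_isClosed
      · intro i j
        refine ⟨i ⊔ j, closure_mono ?_, closure_mono ?_⟩
        · rintro z ⟨j', hj', rfl⟩; exact ⟨j', le_sup_left.trans hj', rfl⟩
        · rintro z ⟨j', hj', rfl⟩; exact ⟨j', le_sup_right.trans hj', rfl⟩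
      · intro j; exact ⟨(c x j).1, subset_closure ⟨j, le_rfl, rfl⟩⟩
      · intro j; exact isClosed_closure.isCompact
      · intro j; exact isClosed_closure
    obtain ⟨z, hz⟩ := hne
    rw [mem_iInter] at hz
    have key : ∀ w, c w = c x → z = w := by
      intro w hw
      apply he w z
      intro k
      have hle : ∀ n : ℕ, |e w k z - e w k w| ≤ 1 / ((n : ℝ) + 1) := by
        intro n
        have hcl : IsClosed {z | |e w k z - e w k w| ≤ 1 / ((n : ℝ) + 1)} :=
          isClosed_le (((e w k).continuous.sub continuous_const).abs) continuous_const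
        refine (closure_minimal ?_ hcl) (hz ({k}, n))
        rintro z' ⟨j', hj', rfl⟩
        have hk : k ∈ j'.1 := hj'.1 (Finset.mem_singleton_self k)
        have hn : n ≤ j'.2 := hj'.2
        have h1 := hc w j' k hk
        rw [hw] at h1
        refine h1.le.trans ?_
        apply one_div_le_one_div_of_le
        · positivity
        · have : (n : ℝ) ≤ j'.2 := by exact_mod_cast hn
          linarith
      have h0 : |e w k z - e w k w| ≤ 0 := by
        apply le_of_forall_pos_le_add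
        intro ε hε
        obtain ⟨n, hn⟩ := exists_nat_one_div_lt hε
        linarith [hle n]
      have := abs_nonpos_iff.1 h0
      linarith
    rw [← key x rfl, ← key y hxy.symm]
  -- the sets
  let Idx := (Finset K × ℕ) × D
  let A : Idx → Set X := fun p => {x | c x p.1 = p.2}
  choose F hF1 hF2 hF3 using fun p : Idx => htrim (A p)
  have hIdx : #Idx ≤ kap := by
    have h1 : #(Finset K) ≤ kap := (mk_finset_le K).trans (by rw [hK]; exact max_le le_rfl hkap)
    calc #Idx = #(Finset K) * ℵ₀ * #D := by simp [Idx, Cardinal.mk_prod]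
      _ ≤ kap * kap * kap := mul_le_mul' (mul_le_mul' h1 hkap) hDk
      _ = kap := by rw [Cardinal.mul_eq_self hkap, Cardinal.mul_eq_self hkap]
  have hE : #(⋃ p, F p) ≤ kap := by
    refine (Cardinal.mk_iUnion_le _).trans ?_
    calc #Idx * (⨆ p : Idx, #(F p)) ≤ kap * kap := by
          apply mul_le_mul' hIdx
          apply ciSup_le'
          intro p; exact hF1 p
      _ = kap := Cardinal.mul_eq_self hkap
  obtain ⟨G, hG, hGE⟩ := hcap _ hE
  refine ⟨G, hG, ?_⟩
  intro x _ y _ hxy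
  apply hcinj
  funext j
  by_contra hne
  obtain ⟨f, hf, hfne⟩ := hF3 (j, c x j) x rfl y (fun h => hne h.symm)
  exact hfne (hGE x y hxy f (mem_iUnion.2 ⟨_, hf⟩))

theorem cap_aleph0 : Cap X ℵ₀ := by
  intro E hE
  refine ⟨E, ?_, fun x y h => h⟩
  intro x _
  exact (Cardinal.le_aleph0_iff_set_countable.1 hE).mono fun f hf => hf.1

/-- capture at cardinals which are countable unions of smaller ones -/
theorem cap_cof_omega [CompactSpace X] [T2Space X] (hct : CTight X) {kap : Cardinal.{u}}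
    (hkap : ℵ₁ < kap) (hcor : ∀ B : Set X, #B < kap → CorsonOn (closure B))
    (hcof : ∃ K : Type u, #K = kap ∧ ∃ P : ℕ → Set K, (⋃ n, P n) = Set.univ ∧ ∀ n, #(P n) < kap) :
    Cap X kap := by
  classical
  intro E hE
  obtain ⟨K, hK, P, hPu, hP⟩ := hcof
  rw [← hK] at hE
  obtain ⟨φ⟩ := Cardinal.le_def _ _ |>.1 hE
  let En : ℕ → Set C(X, ℝ) := fun n => {f | ∃ h : f ∈ E, φ ⟨f, h⟩ ∈ P n}
  have hEn : ∀ n, #(En n) ≤ #(P n) := by
    intro n
    refine Cardinal.mk_le_of_injective (f := fun f : En n => (⟨φ ⟨f.1, f.2.1⟩, ?_⟩ : P n)) ?_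
    · exact f.2.2
    · intro f g hfg
      have h1 := congrArg Subtype.val hfg
      have h2 := φ.injective h1
      have h3 := congrArg Subtype.val h2
      exact Subtype.ext h3
  have hG := fun n => lemG hct (max #(P n) ℵ₁) (le_max_right _ _)
    (fun B hB => hcor B (hB.trans_lt (max_lt (hP n) hkap))) (En n)
    ((hEn n).trans (le_max_left _ _))
  choose B M hB1 hB2 hB3 hB4 using hG
  choose r hr1 hr2 hr3 using fun n => (hB4 n).retraction
  choose F hF1 hF2 using fun n => hcor (B n) ((hB1 n).trans_lt (max_lt (hP n) hkap))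
  refine ⟨⋃ n, (fun g : C(X, ℝ) => g.comp (r n)) '' F n, ?_, ?_⟩
  · intro x _
    have : {f | f ∈ (⋃ n, (fun g : C(X, ℝ) => g.comp (r n)) '' F n) ∧ f x ≠ 0} ⊆
        ⋃ n, (fun g : C(X, ℝ) => g.comp (r n)) '' {g | g ∈ F n ∧ g (r n x) ≠ 0} := by
      rintro f ⟨hf, hne⟩
      obtain ⟨n, g, hg, rfl⟩ := mem_iUnion.1 hf
      exact mem_iUnion.2 ⟨n, g, ⟨hg, hne⟩, rfl⟩
    exact (countable_iUnion fun n => (hF1 n _ (hr1 n x)).image _).mono this
  · intro x y hxy f hf
    have hfn : ∃ n, f ∈ En n := by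
      have : φ ⟨f, hf⟩ ∈ ⋃ n, P n := by rw [hPu]; trivial
      obtain ⟨n, hn⟩ := mem_iUnion.1 this
      exact ⟨n, hf, hn⟩
    obtain ⟨n, hn⟩ := hfn
    have hr : r n x = r n y := by
      apply hF2 n _ (hr1 n x) _ (hr1 n y)
      intro g hg
      exact hxy _ (mem_iUnion.2 ⟨n, g, hg, rfl⟩)
    rw [← hr2 n x f (hB3 n hn), ← hr2 n y f (hB3 n hn), hr]

end Pool.Agent.Helper639.Cor
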