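import Pool.Agent.Helper639.CorF

open Set Topology Cardinal

namespace Pool.Agent.Helper639.Cor

universe u v

variable {X : Type u} [TopologicalSpace X]

lemma bdd_of_lt {K : Type u} [LinearOrder K] {T : Set K} (hT : #T < Order.cof K) :
    ∃ b, ∀ k ∈ T, k < b := by
  rw [← not_isCofinal_iff]
  intro h
  exact absurd (Order.cof_le h) (not_le.2 hT)

lemma bdd_of_countable {K : Type u} [LinearOrder K] (hunc : ℵ₀ < Order.cof K) {T : Set K}
    (hT : T.Countable) : ∃ b, ∀ k ∈ T, k < b :=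
  bdd_of_lt ((Cardinal.le_aleph0_iff_set_countable.2 hT).trans_lt hunc)

lemma Mf_sep_univ (hct : CTight X) {K : Type u} [LinearOrder K]
    (hunc : ℵ₀ < Order.cof K) {d : K → X} (hd : DenseRange d) {F : K → Set C(X, ℝ)}
    (hF : ∀ i, SepOn (closure (d '' Iio i)) (F i)) : SepOn univ (Mf d F univ) := by
  intro x _ y _ hxy
  have hx : x ∈ closure (d '' univ) := by rw [image_univ]; exact hd x
  have hy : y ∈ closure (d '' univ) := by rw [image_univ]; exact hd y
  obtain ⟨C1, -, hC1, hxC⟩ := ctight_index hct d univ hx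
  obtain ⟨C2, -, hC2, hyC⟩ := ctight_index hct d univ hy
  obtain ⟨b, hb⟩ := bdd_of_countable hunc (hC1.union hC2)
  exact Mf_sep hF (subset_univ _) (mem_univ b) hb x
    (closure_mono (image_mono subset_union_left) hxC) y
    (closure_mono (image_mono subset_union_right) hyC) hxy

theorem step_sing [CompactSpace X] [T2Space X] (hct : CTight X)
    {K : Type u} [LinearOrder K] [WellFoundedLT K]
    (hIio : ∀ k : K, #(Iio k) < #K) (hKcof : (#K).ord.cof = Order.cof K)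
    (hunc : ℵ₀ < Order.cof K) (hsing : Order.cof K < #K)
    (hcor : ∀ B : Set X, #B < #K → CorsonOn (closure B))
    (d : K → X) (hd : DenseRange d) : CorsonOn (univ : Set X) := by
  classical
  choose F hF1 hF2 using fun i : K => hcor (d '' Iio i) (Cardinal.mk_image_le.trans_lt (hIio i))
  obtain ⟨s, hs, hscard⟩ := Order.exists_cof_eq K
  have hsunc : ℵ₀ ≤ #K := (hunc.trans hsing).le
  refine chain_build hct hIio hKcof hunc hcor d hd (Mf d F) (Mf_mono d F) (Mf_fin d F)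
    (Mf_sep_univ hct hunc hd hF2) (fun S => s ⊆ S ∧ Dn univ (d '' S) (Mf d F S)) ?_ ?_ ?_
  · intro 𝒮 hne hchain hall
    refine ⟨?_, ?_⟩
    · obtain ⟨S, hS⟩ := hne
      exact (hall S hS).1.trans (subset_sUnion_of_mem hS)
    · have hne' : Nonempty 𝒮 := hne.to_subtype
      have hDn : Dn univ (⋃ S : 𝒮, d '' S.1) (⋃ S : 𝒮, Mf d F S.1) := by
        apply Dn_iUnion
        · intro S T
          rcases hchain.total S.2 T.2 with h | h
          · exact ⟨T, image_mono h, subset_rfl, Mf_mono d F h, subset_rfl⟩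
          · exact ⟨S, subset_rfl, image_mono h, subset_rfl, Mf_mono d F h⟩
        · intro S; exact (hall S.1 S.2).2
      intro x hx
      obtain ⟨x', hx', hf⟩ := hDn x hx
      refine ⟨x', closure_mono ?_ hx', ?_⟩
      · apply iUnion_subset
        intro S
        exact image_mono (subset_sUnion_of_mem S.2)
      · rintro f ⟨i, ⟨S, hS, hiS⟩, hfi, k, ⟨T, hT, hkT⟩, hki, hne⟩
        apply hf f
        rcases hchain.total hS hT with h | h
        · exact mem_iUnion.2 ⟨⟨T, hT⟩, i, h hiS, hfi, k, hkT, hki, hne⟩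
        · exact mem_iUnion.2 ⟨⟨S, hS⟩, i, hiS, hfi, k, h hkT, hki, hne⟩
  · intro S hS
    obtain ⟨S', h1, h2, h3⟩ := close_off d hd (Mf d F) (Mf_mono d F) (Mf_fin d F)
      (Mf_card hF1) (S ∪ s)
    refine ⟨S', subset_union_left.trans h1, ⟨subset_union_right.trans h1, h2⟩, ?_⟩
    refine h3.trans_lt (max_lt ?_ (hunc.trans hsing))
    refine (Cardinal.mk_union_le _ _).trans_lt ?_
    exact Cardinal.add_lt_of_lt hsunc hS (by rw [hscard]; exact hsing)
  · rintro S ⟨hsS, hDn⟩ _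
    refine ⟨hDn, ?_⟩
    intro x hx y hy hxy
    obtain ⟨C1, hC1S, hC1, hxC⟩ := ctight_index hct d S hx
    obtain ⟨C2, hC2S, hC2, hyC⟩ := ctight_index hct d S hy
    obtain ⟨b, hb⟩ := bdd_of_countable hunc (hC1.union hC2)
    obtain ⟨b', hb', hbb'⟩ := hs b
    exact Mf_sep hF2 (union_subset hC1S hC2S) (hsS hb')
      (fun c hc => (hb c hc).trans_le hbb') x
      (closure_mono (image_mono subset_union_left) hxC) y
      (closure_mono (image_mono subset_union_right) hyC) hxy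

/-- every function is captured by countably many members of a separating family -/
lemma capture_countable [CompactSpace X] {E : Set C(X, ℝ)} (hE : SepOn univ E) (f : C(X, ℝ)) :
    ∃ M ⊆ E, M.Countable ∧ ∀ x y, (∀ g ∈ M, g x = g y) → f x = f y := by
  classical
  have h1 : ∀ n : ℕ, ∃ t : Set C(X, ℝ), t ⊆ E ∧ t.Finite ∧
      ∀ p : X × X, 1 / ((n : ℝ) + 1) ≤ |f p.1 - f p.2| → ∃ g ∈ t, g p.1 ≠ g p.2 := by
    intro n
    let Q : Set (X × X) := {p | 1 / ((n : ℝ) + 1) ≤ |f p.1 - f p.2|}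
    have hQ : IsCompact Q := by
      apply IsClosed.isCompact
      apply isClosed_le continuous_const
      exact ((f.continuous.comp continuous_fst).sub (f.continuous.comp continuous_snd)).abs
    have ho : ∀ g ∈ E, IsOpen {p : X × X | g p.1 ≠ g p.2} := by
      intro g _
      exact isOpen_ne_fun (g.continuous.comp continuous_fst) (g.continuous.comp continuous_snd)
    have hcov : Q ⊆ ⋃ g ∈ E, {p : X × X | g p.1 ≠ g p.2} := by
      intro p hp
      simp only [mem_iUnion]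
      by_contra hall
      push Not at hall
      have heq : p.1 = p.2 := hE _ (mem_univ _) _ (mem_univ _) (fun g hg => by
        by_contra hne
        exact hall g hg hne)
      have hp' : 1 / ((n : ℝ) + 1) ≤ |f p.1 - f p.2| := hp
      rw [heq, sub_self, abs_zero] at hp'
      have : (0:ℝ) < 1 / ((n : ℝ) + 1) := by positivity
      linarith
    obtain ⟨t, htE, htfin, htc⟩ := hQ.elim_finite_subcover_image ho hcov
    refine ⟨t, htE, htfin, ?_⟩
    intro p hp
    have := htc (show p ∈ Q from hp)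
    simp only [mem_iUnion] at this
    obtain ⟨g, hg, hne⟩ := this
    exact ⟨g, hg, hne⟩
  choose t htE htfin ht using h1
  refine ⟨⋃ n, t n, iUnion_subset htE, countable_iUnion fun n => (htfin n).countable, ?_⟩
  intro x y hxy
  by_contra hne
  have hpos : 0 < |f x - f y| := abs_pos.2 (sub_ne_zero.2 hne)
  obtain ⟨n, hn⟩ := exists_nat_one_div_lt hpos
  obtain ⟨g, hg, hgne⟩ := ht n (x, y) hn.le
  exact hgne (hxy g (mem_iUnion.2 ⟨n, hg⟩))

section stat
variable {K : Type u} [LinearOrder K]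

/-- `δ` is closed under `G` -/
def FC (G : K → K) (δ : K) : Prop := ∀ ξ < δ, G ξ < δ

/-- stationary sets, in terms of closing-off functions -/
def Stat (S : Set K) : Prop := ∀ G : K → K, ∃ δ ∈ S, FC G δ

lemma stat_union {S T : Set K} (h : Stat (S ∪ T)) : Stat S ∨ Stat T := by
  by_contra hcon
  push Not at hcon
  obtain ⟨h1, h2⟩ := hcon
  unfold Stat at h1 h2
  push Not at h1 h2
  obtain ⟨G1, hG1⟩ := h1
  obtain ⟨G2, hG2⟩ := h2
  obtain ⟨δ, hδ, hFC⟩ := h (fun ξ => max (G1 ξ) (G2 ξ))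
  rcases hδ with hδ | hδ
  · exact hG1 δ hδ fun ξ hξ => (le_max_left _ _).trans_lt (hFC ξ hξ)
  · exact hG2 δ hδ fun ξ hξ => (le_max_right _ _).trans_lt (hFC ξ hξ)

lemma fodor (hIic : ∀ k : K, #(Iic k) < Order.cof K) (hinf : ℵ₀ ≤ Order.cof K)
    {S : Set K} (h : K → K) (hh : ∀ δ ∈ S, h δ < δ) (hS : Stat S) :
    ∃ i, Stat {δ | δ ∈ S ∧ h δ = i} := by
  by_contra hcon
  push Not at hcon
  have h1 : ∀ i, ∃ G : K → K, ∀ δ ∈ S, h δ = i → ¬ FC G δ := by
    intro i
    have := hcon i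
    unfold Stat at this
    push Not at this
    obtain ⟨G, hG⟩ := this
    exact ⟨G, fun δ hδ hi => hG δ ⟨hδ, hi⟩⟩
  choose G hG using h1
  have h2 : ∀ ξ, ∃ b, ∀ k ∈ (fun p : K × K => G p.1 p.2) '' (Iic ξ ×ˢ Iic ξ), k < b := by
    intro ξ
    apply bdd_of_lt
    refine Cardinal.mk_image_le.trans_lt ?_
    rw [Cardinal.mk_setProd]
    exact Cardinal.mul_lt_of_lt hinf (hIic ξ) (hIic ξ)
  choose b hb using h2
  obtain ⟨δ, hδ, hFC⟩ := hS b
  apply hG (h δ) δ hδ rfl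
  intro ξ hξ
  have hm : max (h δ) ξ < δ := max_lt (hh δ hδ) hξ
  refine (hb (max (h δ) ξ) _ ?_).trans (hFC _ hm)
  exact ⟨(h δ, ξ), ⟨le_max_left _ _, le_max_right _ _⟩, rfl⟩

end stat

theorem step_reg [CompactSpace X] [T2Space X] (hct : CTight X) (hspl : Splits X)
    {K : Type u} [LinearOrder K] [WellFoundedLT K]
    (hIio : ∀ k : K, #(Iio k) < #K) (hKcof : (#K).ord.cof = Order.cof K)
    (hunc : ℵ₀ < Order.cof K) (hreg : Order.cof K = #K)
    (hcor : ∀ B : Set X, #B < #K → CorsonOn (closure B))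
    (d : K → X) (hd : DenseRange d) : CorsonOn (univ : Set X) := by
  classical
  choose F hF1 hF2 using fun i : K => hcor (d '' Iio i) (Cardinal.mk_image_le.trans_lt (hIio i))
  have hinf : ℵ₀ ≤ #K := by rw [← hreg]; exact hunc.le
  have hIic : ∀ k : K, #(Iic k) < #K := by
    intro k
    have : Iic k = Iio k ∪ {k} := by
      ext j; simp [le_iff_lt_or_eq]
    rw [this]
    refine (Cardinal.mk_union_le _ _).trans_lt ?_
    apply Cardinal.add_lt_of_lt hinf (hIio k)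
    rw [Cardinal.mk_singleton]
    exact Cardinal.one_lt_aleph0.trans_le hinf
  have hsepu : SepOn univ (Mf d F univ) := Mf_sep_univ hct hunc hd hF2
  let Z : K → Set X := fun i => closure (d '' Iio i)
  have hZmono : Monotone Z := fun i j hij => closure_mono (image_mono (Iio_subset_Iio hij))
  -- the separation lemma
  have L : ∀ A : Set X, ∃ G : K → K, ∀ δ, FC G δ → ∀ x ∈ Z δ, x ∈ A → ∀ y ∈ Z δ, y ∉ A →
      ∃ f ∈ Mf d F (Iio δ), f x ≠ f y := by
    intro A
    obtain ⟨𝓕, h𝓕, hsep⟩ := hspl A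
    choose M hM1 hM2 hM3 using fun f : C(X, ℝ) => capture_countable hsepu f
    have hb1 : ∀ g : C(X, ℝ), ∃ b : K, g ∈ Mf d F univ → g ∈ Mf d F (Iio b) := by
      intro g
      by_cases hg : g ∈ Mf d F univ
      · obtain ⟨i, -, hgi, s, -, hsi, hne⟩ := hg
        obtain ⟨b, hb⟩ := bdd_of_countable hunc (countable_singleton i)
        have hib := hb i rfl
        exact ⟨b, fun _ => ⟨i, hib, hgi, s, hsi.trans hib, hsi, hne⟩⟩
      · have hne : Nonempty K := by
          rw [← Cardinal.mk_ne_zero_iff]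
          exact (Cardinal.aleph0_pos.trans_le hinf).ne'
        exact ⟨Classical.arbitrary K, fun h => absurd h hg⟩
    choose b hb using hb1
    have hη : ∀ f : C(X, ℝ), ∃ η : K, M f ⊆ Mf d F (Iio η) := by
      intro f
      obtain ⟨η, hη⟩ := bdd_of_countable hunc ((hM2 f).image b)
      refine ⟨η, ?_⟩
      intro g hg
      exact Mf_mono d F (Iio_subset_Iio (hη _ ⟨g, hg, rfl⟩).le) (hb g (hM1 f hg))
    choose η hη using hη
    have hG : ∀ ξ : K, ∃ c : K, ∀ f ∈ 𝓕, f (d ξ) ≠ 0 → η f < c := by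
      intro ξ
      obtain ⟨c, hc⟩ := bdd_of_countable hunc ((h𝓕 (d ξ) (mem_univ _)).image η)
      exact ⟨c, fun f hf hne => hc _ ⟨f, ⟨hf, hne⟩, rfl⟩⟩
    choose G hG using hG
    refine ⟨G, ?_⟩
    intro δ hδ x hx hxA y hy hyA
    obtain ⟨f, hf, hfne⟩ := hsep x hxA y hyA
    obtain ⟨-, _, ⟨ξ, hξ, rfl⟩, hne⟩ := trim_sep hx hy hf hfne
    have h1 : η f < δ := (hG ξ f hf hne).trans (hδ ξ hξ)
    have h2 : M f ⊆ Mf d F (Iio δ) := (hη f).trans (Mf_mono d F (Iio_subset_Iio h1.le))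
    by_contra hall
    push Not at hall
    exact hfne (hM3 f x y fun g hg => hall g (h2 hg))
  -- ranks
  have hrk : ∀ x : X, ∃ i, x ∈ Z i ∧ ∀ j, x ∈ Z j → i ≤ j := by
    intro x
    have hx : x ∈ closure (d '' univ) := by rw [image_univ]; exact hd x
    obtain ⟨C1, -, hC1, hxC⟩ := ctight_index hct d univ hx
    obtain ⟨b, hb⟩ := bdd_of_countable hunc hC1
    have hne : {i | x ∈ Z i}.Nonempty := ⟨b, closure_mono (image_mono hb) hxC⟩
    refine ⟨WellFounded.min (wellFounded_lt (α := K)) _ hne, WellFounded.min_mem _ _ hne, ?_⟩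
    intro j hj
    exact not_lt.1 (WellFounded.not_lt_min (wellFounded_lt (α := K)) {i | x ∈ Z i} hj)
  choose ρ hρ1 hρ2 using hrk
  let Bad : Set K := {δ | ∃ x ∈ Z δ, ∃ y ∈ Z δ, x ≠ y ∧ ∀ f ∈ Mf d F (Iio δ), f x = f y}
  have hBad : ∀ δ ∈ Bad, ∃ x y, x ∈ Z δ ∧ y ∈ Z δ ∧ x ≠ y ∧
      (∀ f ∈ Mf d F (Iio δ), f x = f y) ∧ ρ y = δ := by
    rintro δ ⟨x, hx, y, hy, hne, hxy⟩
    have h1 := hρ2 x δ hx
    have h2 := hρ2 y δ hy
    rcases eq_or_lt_of_le h2 with h2 | h2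
    · exact ⟨x, y, hx, hy, hne, hxy, h2⟩
    rcases eq_or_lt_of_le h1 with h1 | h1
    · exact ⟨y, x, hy, hx, hne.symm, fun f hf => (hxy f hf).symm, h1⟩
    exfalso
    apply hne
    have hm : max (ρ x) (ρ y) < δ := max_lt h1 h2
    exact Mf_sep hF2 (Iio_subset_Iio hm.le) (show max (ρ x) (ρ y) ∈ Iio δ from hm)
      (fun c hc => hc) x (hZmono (le_max_left _ _) (hρ1 x)) y
      (hZmono (le_max_right _ _) (hρ1 y)) hxy
  have hnotstat : ¬ Stat Bad := by
    intro hst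
    have hXne : Nonempty X := by
      obtain ⟨δ, hδ, -⟩ := hst id
      obtain ⟨x, -⟩ := hBad δ hδ
      exact ⟨x⟩
    choose! xx yy hxx hyy hne hag hry using hBad
    have hsplit : Bad = {δ | δ ∈ Bad ∧ ρ (xx δ) = δ} ∪ {δ | δ ∈ Bad ∧ ρ (xx δ) < δ} := by
      ext δ
      constructor
      · intro hδ
        rcases eq_or_lt_of_le (hρ2 (xx δ) δ (hxx δ hδ)) with h | h
        · exact Or.inl ⟨hδ, h⟩
        · exact Or.inr ⟨hδ, h⟩
      · rintro (h | h) <;> exact h.1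
    rw [hsplit] at hst
    rcases stat_union hst with h | h
    · obtain ⟨G, hG⟩ := L (xx '' {δ | δ ∈ Bad ∧ ρ (xx δ) = δ})
      obtain ⟨δ, ⟨hδ, hρδ⟩, hFC⟩ := h G
      obtain ⟨f, hf, hfne⟩ := hG δ hFC (xx δ) (hxx δ hδ) ⟨δ, ⟨hδ, hρδ⟩, rfl⟩ (yy δ) (hyy δ hδ) (by
        rintro ⟨δ', ⟨hδ', hρδ'⟩, heq⟩
        have h1 : δ = δ' := by rw [← hry δ hδ, ← heq, hρδ']
        subst h1
        exact hne δ hδ heq)
      exact hfne (hag δ hδ f hf)
    · obtain ⟨i, hi⟩ := fodor (by rw [hreg]; exact hIic) hunc.le (fun δ => ρ (xx δ))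
        (fun δ hδ => hδ.2) h
      obtain ⟨G, hG⟩ := L (Z i)
      obtain ⟨δ, ⟨⟨hδ, hlt⟩, hρδ⟩, hFC⟩ := hi G
      have hxi : xx δ ∈ Z i := by rw [← hρδ]; exact hρ1 _
      obtain ⟨f, hf, hfne⟩ := hG δ hFC (xx δ) (hxx δ hδ) hxi (yy δ) (hyy δ hδ) (by
        intro hy
        have h1 := hρ2 _ _ hy
        rw [hry δ hδ, ← hρδ] at h1
        exact absurd hlt (not_lt.2 h1))
      exact hfne (hag δ hδ f hf)
  unfold Stat at hnotstat
  push Not at hnotstat
  obtain ⟨G0, hG0⟩ := hnotstat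
  -- density
  have hD : ∀ ξ : K, ∃ c : K, Dn univ (d '' Iio c) (Mf d F (Iic ξ)) := by
    intro ξ
    obtain ⟨C, hC, hCc, hDn⟩ := lemA (range d) (Mf d F (Iic ξ))
    have hCc' : #C < #K := by
      refine hCc.trans_lt (max_lt ?_ (by rw [← hreg]; exact hunc))
      exact (Mf_card hF1 _).trans_lt (max_lt (hIic ξ) (by rw [← hreg]; exact hunc))
    have hC' : ∀ c : C, ∃ k, d k = c.1 := fun c => hC c.2
    choose k hk using hC'
    obtain ⟨b, hb⟩ := bdd_of_lt (T := range k) (by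
      rw [hreg]; exact Cardinal.mk_range_le.trans_lt hCc')
    refine ⟨b, ?_⟩
    intro x _
    obtain ⟨x', hx', hf⟩ := hDn x (hd x)
    refine ⟨x', closure_mono ?_ hx', hf⟩
    intro c hc
    exact ⟨k ⟨c, hc⟩, hb _ ⟨_, rfl⟩, hk ⟨c, hc⟩⟩
  choose G1 hG1 using hD
  have hgoodδ : ∀ δ : K, (Iio δ).Nonempty → FC G0 δ → FC G1 δ →
      Good (d '' Iio δ) (Mf d F (Iio δ)) := by
    intro δ hne h0 h1
    refine ⟨?_, ?_⟩
    · have hne' : Nonempty (Iio δ) := hne.to_subtype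
      have hDn : Dn univ (⋃ _ξ : Iio δ, d '' Iio δ) (⋃ ξ : Iio δ, Mf d F (Iic ξ.1)) := by
        apply Dn_iUnion
        · intro i j
          rcases le_total i j with h | h
          · exact ⟨j, subset_rfl, subset_rfl, Mf_mono d F (Iic_subset_Iic.2 h), subset_rfl⟩
          · exact ⟨i, subset_rfl, subset_rfl, subset_rfl, Mf_mono d F (Iic_subset_Iic.2 h)⟩
        · intro ξ x hx
          obtain ⟨x', hx', hf⟩ := hG1 ξ.1 x hx
          exact ⟨x', closure_mono (image_mono (Iio_subset_Iio (h1 ξ.1 ξ.2).le)) hx', hf⟩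
      intro x hx
      obtain ⟨x', hx', hf⟩ := hDn x hx
      refine ⟨x', ?_, ?_⟩
      · rwa [iUnion_const] at hx'
      · rintro f ⟨i, hi, hfi, s, hs, hsi, hne⟩
        exact hf f (mem_iUnion.2 ⟨⟨i, hi⟩, i, le_rfl, hfi, s, hsi.le, hsi, hne⟩)
    · intro x hx y hy hxy
      by_contra hne'
      exact hG0 δ ⟨x, hx, y, hy, hne', hxy⟩ h0
  -- conclude with the chain construction
  refine chain_build hct hIio hKcof hunc hcor d hd (Mf d F) (Mf_mono d F) (Mf_fin d F)
    hsepu (fun S => S.Nonempty ∧ IsLowerSet S ∧ ∀ ξ ∈ S, G0 ξ ∈ S ∧ G1 ξ ∈ S) ?_ ?_ ?_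
  · rintro 𝒮 ⟨S0, hS0⟩ - hall
    refine ⟨?_, ?_, ?_⟩
    · obtain ⟨k, hk⟩ := (hall S0 hS0).1
      exact ⟨k, S0, hS0, hk⟩
    · exact isLowerSet_sUnion fun S hS => (hall S hS).2.1
    · rintro ξ ⟨S, hS, hξ⟩
      exact ⟨⟨S, hS, ((hall S hS).2.2 ξ hξ).1⟩, ⟨S, hS, ((hall S hS).2.2 ξ hξ).2⟩⟩
  · intro S hS
    obtain ⟨b0, hb0⟩ := bdd_of_lt (T := S) (by rw [hreg]; exact hS)
    have hnx : ∀ b : K, ∃ b' : K, b < b' ∧ ∀ ξ ≤ b, G0 ξ < b' ∧ G1 ξ < b' := by
      intro b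
      obtain ⟨b', hb'⟩ := bdd_of_lt (T := G0 '' Iic b ∪ G1 '' Iic b ∪ {b}) (by
        rw [hreg]
        refine (Cardinal.mk_union_le _ _).trans_lt ?_
        apply Cardinal.add_lt_of_lt hinf
        · refine (Cardinal.mk_union_le _ _).trans_lt ?_
          exact Cardinal.add_lt_of_lt hinf (Cardinal.mk_image_le.trans_lt (hIic b))
            (Cardinal.mk_image_le.trans_lt (hIic b))
        · rw [Cardinal.mk_singleton]
          exact Cardinal.one_lt_aleph0.trans_le hinf)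
      refine ⟨b', hb' b (Or.inr rfl), fun ξ hξ => ⟨?_, ?_⟩⟩
      · exact hb' _ (Or.inl (Or.inl ⟨ξ, hξ, rfl⟩))
      · exact hb' _ (Or.inl (Or.inr ⟨ξ, hξ, rfl⟩))
    choose nx hnx1 hnx2 using hnx
    let b : ℕ → K := fun n => Nat.rec b0 (fun _ c => nx c) n
    have hb : ∀ n, b (n+1) = nx (b n) := fun n => rfl
    obtain ⟨c, hc⟩ := bdd_of_countable hunc (countable_range b)
    refine ⟨⋃ n, Iic (b n), ?_, ⟨?_, ?_, ?_⟩, ?_⟩
    · intro k hk
      exact mem_iUnion.2 ⟨0, (hb0 k hk).le⟩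
    · exact ⟨b0, mem_iUnion.2 ⟨0, le_rfl⟩⟩
    · exact isLowerSet_iUnion fun n => isLowerSet_Iic _
    · intro ξ hξ
      obtain ⟨n, hn⟩ := mem_iUnion.1 hξ
      have := hnx2 (b n) ξ hn
      exact ⟨mem_iUnion.2 ⟨n+1, this.1.le⟩, mem_iUnion.2 ⟨n+1, this.2.le⟩⟩
    · have : (⋃ n, Iic (b n)) ⊆ Iio c := by
        apply iUnion_subset
        intro n k hk
        exact lt_of_le_of_lt hk (hc _ ⟨n, rfl⟩)
      exact (Cardinal.mk_le_mk_of_subset this).trans_lt (hIio c)
  · rintro S ⟨hne, hlow, hcl⟩ hS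
    have hcompl : (Sᶜ).Nonempty := by
      rw [nonempty_compl]
      rintro rfl
      rw [Cardinal.mk_univ] at hS
      exact lt_irrefl _ hS
    let δ := WellFounded.min (wellFounded_lt (α := K)) _ hcompl
    have hδ : δ ∉ S := WellFounded.min_mem (wellFounded_lt (α := K)) _ hcompl
    have hSδ : S = Iio δ := by
      ext k
      constructor
      · intro hk
        rw [mem_Iio]
        by_contra hle
        exact hδ (hlow (not_lt.1 hle) hk)
      · intro hk
        by_contra hkS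
        exact WellFounded.not_lt_min (wellFounded_lt (α := K)) Sᶜ hkS hk
    rw [hSδ] at hne hcl ⊢
    exact hgoodδ δ hne (fun ξ hξ => (hcl ξ hξ).1) (fun ξ hξ => (hcl ξ hξ).2)

end Pool.Agent.Helper639.Cor
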