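import Pool.Agent.Helper639.CorG

open Set Topology Cardinal

namespace Pool.Agent.Helper639.Cor

universe u v

theorem CorsonOn.mono {X : Type u} [TopologicalSpace X] {Z Z' : Set X} (h : CorsonOn Z)
    (hZ : Z' ⊆ Z) : CorsonOn Z' := by
  obtain ⟨F, h1, h2⟩ := h
  exact ⟨F, fun x hx => h1 x (hZ hx), fun x hx y hy => h2 x (hZ hx) y (hZ hy)⟩

/-- restriction of the splitting property to closed subspaces -/
theorem Splits.restrict {X : Type u} [TopologicalSpace X] (hS : Splits X) (Z : Set X) :
    Splits Z := by
  intro A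
  obtain ⟨F, hF, hsep⟩ := hS (Subtype.val '' A)
  refine ⟨(fun f : C(X, ℝ) => f.restrict Z) '' F, ?_, ?_⟩
  · intro x _
    have : {f | f ∈ (fun f : C(X, ℝ) => f.restrict Z) '' F ∧ f x ≠ 0} ⊆
        (fun f : C(X, ℝ) => f.restrict Z) '' {f | f ∈ F ∧ f x.1 ≠ 0} := by
      rintro f ⟨⟨g, hg, rfl⟩, hne⟩
      exact ⟨g, ⟨hg, hne⟩, rfl⟩
    exact ((hF x.1 (mem_univ _)).image _).mono this
  · intro x hx y hy
    obtain ⟨f, hf, hne⟩ := hsep x.1 ⟨x, hx, rfl⟩ y.1 (by
      rintro ⟨y', hy', heq⟩
      exact hy (by rwa [Subtype.ext heq] at hy'))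
    exact ⟨f.restrict Z, ⟨f, hf, rfl⟩, hne⟩

/-- extension of witnesses from closed subspaces -/
theorem CorsonOn.of_subtype {X : Type u} [TopologicalSpace X] [CompactSpace X] [T2Space X]
    {Z : Set X} (hZ : IsClosed Z) (h : CorsonOn (univ : Set Z)) : CorsonOn Z := by
  obtain ⟨F, h1, h2⟩ := h
  choose ext hext using fun f : C(Z, ℝ) => ContinuousMap.exists_restrict_eq hZ f
  have hval : ∀ f : C(Z, ℝ), ∀ z : Z, ext f z.1 = f z := by
    intro f z
    have := congrArg (fun g : C(Z, ℝ) => g z) (hext f)
    exact this
  refine ⟨ext '' F, ?_, ?_⟩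
  · intro x hx
    have : {f | f ∈ ext '' F ∧ f x ≠ 0} ⊆ ext '' {f | f ∈ F ∧ f ⟨x, hx⟩ ≠ 0} := by
      rintro f ⟨⟨g, hg, rfl⟩, hne⟩
      refine ⟨g, ⟨hg, ?_⟩, rfl⟩
      rw [← hval]; exact hne
    exact ((h1 ⟨x, hx⟩ (mem_univ _)).image _).mono this
  · intro x hx y hy hxy
    have : (⟨x, hx⟩ : Z) = ⟨y, hy⟩ := by
      apply h2 _ (mem_univ _) _ (mem_univ _)
      intro f hf
      rw [← hval f ⟨x, hx⟩, ← hval f ⟨y, hy⟩]
      exact hxy _ ⟨f, hf, rfl⟩
    exact congrArg Subtype.val this

/-- the main induction -/
theorem corson_aux (kap : Cardinal.{u}) : ∀ (X : Type u) [TopologicalSpace X] [CompactSpace X]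
    [T2Space X], Splits X → ∀ D : Set X, Dense D → #D = kap → CorsonOn (univ : Set X) := by
  induction kap using WellFoundedLT.induction with
  | ind kap ih =>
    intro X _ _ _ hS D hD hDk
    have hct : CTight X := hS.ctight
    have hcor : ∀ B : Set X, #B < kap → CorsonOn (closure B) := by
      intro B hB
      apply CorsonOn.of_subtype isClosed_closure
      have : CompactSpace (closure B) := isCompact_iff_compactSpace.1 isClosed_closure.isCompact
      let DY : Set (closure B) := {y | y.1 ∈ B}
      have hDY : Dense DY := by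
        intro y
        rw [closure_subtype]
        have : ((↑) : closure B → X) '' DY = B := by
          ext x
          constructor
          · rintro ⟨y, hy, rfl⟩; exact hy
          · intro hx; exact ⟨⟨x, subset_closure hx⟩, hx, rfl⟩
        rw [this]; exact y.2
      have hc : #DY ≤ #B := by
        refine Cardinal.mk_le_of_injective (f := fun y : DY => (⟨y.1.1, y.2⟩ : B)) ?_
        intro y z h
        have h' : y.1.1 = z.1.1 := congrArg (fun t : B => t.1) h
        exact Subtype.ext (Subtype.ext h')
      exact ih #DY (hc.trans_lt hB) (closure B) (hS.restrict _) DY hDY rfl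
    rcases le_or_gt kap ℵ₀ with hk | hk
    · exact Cap.corson le_rfl cap_aleph0 hS hD (hDk.le.trans hk)
    · let K := kap.ord.ToType
      have hK : #K = kap := Cardinal.mk_ord_toType _
      have hIio : ∀ k : K, #(Iio k) < #K := fun k => Cardinal.mk_Iio_lt k (by simp [K])
      have hKcof : (#K).ord.cof = Order.cof K := by
        rw [hK, Ordinal.cof_toType]
      have hne : Nonempty K := by
        rw [← Cardinal.mk_ne_zero_iff, hK]
        exact (Cardinal.aleph0_pos.trans hk).ne'
      obtain ⟨e⟩ : Nonempty (K ≃ D) := by rw [← Cardinal.eq, hK, hDk]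
      let d : K → X := fun k => (e k).1
      have hd : DenseRange d := by
        have : range d = D := by
          ext x
          constructor
          · rintro ⟨k, rfl⟩; exact (e k).2
          · intro hx
            obtain ⟨k, hk⟩ := e.surjective ⟨x, hx⟩
            exact ⟨k, by simp [d, hk]⟩
        rw [DenseRange, this]; exact hD
      rcases le_or_gt (Order.cof K) ℵ₀ with hc | hc
      · -- countable cofinality
        have h1 : ℵ₁ < kap := by
          have h2 : ℵ₁ ≤ kap := by
            rw [← Cardinal.succ_aleph0]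
            exact Order.succ_le_of_lt hk
          refine lt_of_le_of_ne h2 ?_
          rintro rfl
          rw [← hKcof, hK, Cardinal.isRegular_aleph_one.cof_ord] at hc
          exact absurd hc (not_le.2 Cardinal.aleph0_lt_aleph_one)
        refine Cap.corson hk.le (cap_cof_omega hct h1 hcor ?_) hS hD hDk.le
        obtain ⟨s, hs, hscard⟩ := Order.exists_cof_eq K
        rw [← hscard] at hc
        have hsc : s.Countable := Cardinal.le_aleph0_iff_set_countable.1 hc
        have hsne : s.Nonempty := hs.nonempty
        obtain ⟨a, ha⟩ := hsc.exists_eq_range hsne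
        refine ⟨K, hK, fun n => Iic (a n), ?_, ?_⟩
        · rw [eq_univ_iff_forall]
          intro k
          obtain ⟨k', hk', hle⟩ := hs k
          rw [ha] at hk'
          obtain ⟨n, rfl⟩ := hk'
          exact mem_iUnion.2 ⟨n, hle⟩
        · intro n
          have : Iic (a n) = Iio (a n) ∪ {a n} := by
            ext j; simp [le_iff_lt_or_eq]
          show #↥(Iic (a n)) < kap
          rw [this]
          refine (Cardinal.mk_union_le _ _).trans_lt ?_
          apply Cardinal.add_lt_of_lt hk.le
          · exact (hIio (a n)).trans_eq hK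
          · rw [Cardinal.mk_singleton]
            exact Cardinal.one_lt_aleph0.trans hk
      · rw [← hK] at hcor
        rcases eq_or_lt_of_le (Order.cof_le_cardinalMk K) with hreg | hsing
        · exact step_reg hct hS hIio hKcof hc hreg hcor d hd
        · exact step_sing hct hIio hKcof hc hsing hcor d hd

theorem Splits.corson {X : Type u} [TopologicalSpace X] [CompactSpace X] [T2Space X]
    (hS : Splits X) : CorsonOn (univ : Set X) :=
  corson_aux _ X hS univ dense_univ rfl

end Pool.Agent.Helper639.Cor
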