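import Mathlib
open Filter Topology Set
open scoped ZeroAtInfty

namespace Pool.Agent.Helper639.Eb

theorem c0_embed (F : Type) [TopologicalSpace F] [CompactSpace F] (Γ : Type) (v : F → Γ → ℝ)
    (hcont : ∀ γ, Continuous (fun f => v f γ)) (C : ℝ) (hC : ∀ f γ, |v f γ| ≤ C)
    (hfin : ∀ f, ∀ ε : ℝ, 0 < ε → {γ | ε ≤ |v f γ|}.Finite) (hinj : Function.Injective v) :
    ∃ (E : Type) (_ : NormedAddCommGroup E) (_ : NormedSpace ℝ E) (_ : CompleteSpace E)
      (e : F → WeakSpace ℝ E), Topology.IsEmbedding e := by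
  classical
  let _ : TopologicalSpace Γ := ⊥
  have _ : DiscreteTopology Γ := ⟨rfl⟩
  have htend : ∀ (u : Γ → ℝ), (∀ ε : ℝ, 0 < ε → {γ | ε ≤ |u γ|}.Finite) → Tendsto u (cocompact Γ) (𝓝 0) := by
    intro u hu
    rw [cocompact_eq_cofinite, Metric.tendsto_nhds]
    intro ε hε
    rw [Filter.eventually_cofinite]
    refine (hu ε hε).subset ?_
    intro γ hγ
    simp only [dist_zero_right, Real.norm_eq_abs, not_lt, Set.mem_ofPred_eq] at hγ
    exact hγ
  let x : F → C₀(Γ, ℝ) := fun f =>
    { toFun := v f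
      continuous_toFun := continuous_of_discreteTopology
      zero_at_infty' := htend _ (hfin f) }
  let δ : Γ → C₀(Γ, ℝ) := fun γ =>
    { toFun := Pi.single γ 1
      continuous_toFun := continuous_of_discreteTopology
      zero_at_infty' := htend _ (fun ε hε => (Set.finite_singleton γ).subset (by
        intro γ' hγ'
        by_contra hne
        have hne' : γ' ≠ γ := hne
        simp only [Pi.single_apply, if_neg hne', abs_zero, Set.mem_ofPred_eq] at hγ'
        linarith)) }
  have hδ : ∀ γ γ', δ γ γ' = if γ' = γ then 1 else 0 := by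
    intro γ γ'
    change (Pi.single γ (1 : ℝ) : Γ → ℝ) γ' = _
    rw [Pi.single_apply]
  have hsumapp : ∀ (s : Finset Γ) (y : C₀(Γ, ℝ)) (γ' : Γ), (∑ γ ∈ s, y γ • δ γ) γ' = if γ' ∈ s then y γ' else 0 := by
    intro s y γ'
    induction s using Finset.induction_on with
    | empty => simp
    | insert a s ha ih =>
      rw [Finset.sum_insert ha, ZeroAtInftyContinuousMap.add_apply, ih, ZeroAtInftyContinuousMap.smul_apply, hδ]
      by_cases h1 : γ' = a
      · subst h1
        simp [ha]
      · simp [h1]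
  have hhas : ∀ y : C₀(Γ, ℝ), (∀ ε : ℝ, 0 < ε → {γ | ε ≤ |y γ|}.Finite) → HasSum (fun γ => y γ • δ γ) y := by
    intro y hy
    unfold HasSum
    rw [SummationFilter.unconditional_filter, ZeroAtInftyContinuousMap.tendsto_iff_tendstoUniformly, Metric.tendstoUniformly_iff]
    intro ε hε
    filter_upwards [Filter.eventually_ge_atTop (hy ε hε).toFinset] with s hs γ'
    rw [hsumapp]
    by_cases h : γ' ∈ s
    · simp only [h, if_true, dist_self]; exact hε
    · simp only [h, if_false, dist_zero_right, Real.norm_eq_abs]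
      by_contra hcon
      push Not at hcon
      exact h (hs (by simpa using hcon))
  -- l1 representation of functionals
  have hl1 : ∀ φ : StrongDual ℝ C₀(Γ, ℝ), Summable (fun γ => |φ (δ γ)|) := by
    intro φ
    refine summable_of_sum_le (c := ‖φ‖) (fun γ => abs_nonneg _) fun s => ?_
    let sg : Γ → ℝ := fun γ => if 0 ≤ φ (δ γ) then 1 else -1
    have h1 : ∑ γ ∈ s, |φ (δ γ)| = φ (∑ γ ∈ s, sg γ • δ γ) := by
      rw [map_sum]
      refine Finset.sum_congr rfl fun γ _ => ?_
      rw [map_smul, smul_eq_mul]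
      by_cases h : 0 ≤ φ (δ γ)
      · simp [sg, h, abs_of_nonneg h]
      · simp only [sg, h, if_false, neg_mul, one_mul]
        exact abs_of_neg (not_le.mp h)
    have h2 : ‖∑ γ ∈ s, sg γ • δ γ‖ ≤ 1 := by
      rw [← ZeroAtInftyContinuousMap.norm_toBCF_eq_norm]
      refine (BoundedContinuousFunction.norm_le (by norm_num)).mpr fun γ' => ?_
      have h3 : (∑ γ ∈ s, sg γ • δ γ) γ' = if γ' ∈ s then sg γ' else 0 := by
        induction s using Finset.induction_on with
        | empty => simp
        | insert a s ha ih =>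
          have ih := ih (by
            rw [map_sum]
            refine Finset.sum_congr rfl fun γ _ => ?_
            rw [map_smul, smul_eq_mul]
            by_cases h : 0 ≤ φ (δ γ)
            · simp [sg, h, abs_of_nonneg h]
            · simp only [sg, h, if_false, neg_mul, one_mul]
              exact abs_of_neg (not_le.mp h))
          rw [Finset.sum_insert ha, ZeroAtInftyContinuousMap.add_apply, ih, ZeroAtInftyContinuousMap.smul_apply, hδ]
          by_cases h1 : γ' = a
          · subst h1
            simp [ha]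
          · simp [h1]
      change ‖(∑ γ ∈ s, sg γ • δ γ) γ'‖ ≤ 1
      rw [h3]
      by_cases h : γ' ∈ s
      · simp only [h, if_true, sg]
        split_ifs <;> simp
      · simp [h]
    rw [h1]
    calc φ (∑ γ ∈ s, sg γ • δ γ) ≤ ‖φ (∑ γ ∈ s, sg γ • δ γ)‖ := Real.le_norm_self _
      _ ≤ ‖φ‖ * ‖∑ γ ∈ s, sg γ • δ γ‖ := φ.le_opNorm _
      _ ≤ ‖φ‖ * 1 := by
        have h5 : 0 ≤ ‖φ‖ := norm_nonneg φ
        nlinarith
      _ = ‖φ‖ := mul_one _
  let e : F → WeakSpace ℝ C₀(Γ, ℝ) := fun f => toWeakSpace ℝ C₀(Γ, ℝ) (x f)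
  have he : Continuous e := by
    refine WeakBilin.continuous_of_continuous_eval _ fun φ => ?_
    have h1 : ∀ f, φ (x f) = ∑' γ, v f γ * φ (δ γ) := by
      intro f
      have h2 := (hhas (x f) (hfin f)).mapL φ
      rw [← h2.tsum_eq]
      refine tsum_congr fun γ => ?_
      rw [map_smul]
      rfl
    have h2 : Continuous (fun f => φ (x f)) := by
      simp only [h1]
      refine continuous_tsum (u := fun γ => C * |φ (δ γ)|) (fun γ => (hcont γ).mul continuous_const)
        ((hl1 φ).mul_left C) ?_
      intro γ f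
      rw [norm_mul, Real.norm_eq_abs, Real.norm_eq_abs]
      exact mul_le_mul_of_nonneg_right (hC f γ) (abs_nonneg _)
    exact h2
  refine ⟨C₀(Γ, ℝ), inferInstance, inferInstance, inferInstance, e, ?_⟩
  have hei : Function.Injective e := by
    intro f g hfg
    apply hinj
    have h1 : x f = x g := (toWeakSpace ℝ C₀(Γ, ℝ)).injective hfg
    funext γ
    exact DFunLike.congr_fun h1 γ
  exact (he.isClosedEmbedding hei).isEmbedding

end Pool.Agent.Helper639.Eb
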