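import Mathlib
import Pool.Agent.Helper639.AL
import Pool.Agent.Helper639.EbC0

open Set Topology Cardinal Filter

set_option linter.unusedSectionVars false
set_option linter.unusedVariables false

namespace Pool.Agent.Helper639.Ebl

/-- weakly compact sets in normed spaces have injective c₀-families -/
theorem c0_of_weak {Y : Type} [TopologicalSpace Y] [CompactSpace Y] {E : Type} [NormedAddCommGroup E]
    [NormedSpace ℝ E] (e : Y → WeakSpace ℝ E) (he : Continuous e) (hinj : Function.Injective e) :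
    ∃ (Γ : Type) (h : Y → Γ → ℝ), C0 h ∧ Function.Injective h := by
  let F : Type := {ψ : WeakDual ℝ E // ψ ∈ WeakDual.toStrongDual ⁻¹' Metric.closedBall (0 : StrongDual ℝ E) 1}
  have hF : CompactSpace F := isCompact_iff_compactSpace.mp
    (WeakDual.isCompact_closedBall (𝕜 := ℝ) (E := E) (0 : StrongDual ℝ E) 1)
  let φ : Y → F → ℝ := fun y ψ => ψ.1 ((toWeakSpace ℝ E).symm (e y))
  refine al φ (fun ψ => ?_) (fun y => ?_) ?_
  · have h1 : Continuous (fun x : WeakSpace ℝ E => (WeakDual.toStrongDual ψ.1) ((toWeakSpace ℝ E).symm x)) :=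
      WeakBilin.eval_continuous (topDualPairing ℝ E).flip (WeakDual.toStrongDual ψ.1)
    exact h1.comp he
  · exact (WeakDual.eval_continuous _).comp continuous_subtype_val
  · intro x y hxy
    by_contra hne
    have h1 : (toWeakSpace ℝ E).symm (e x) ≠ (toWeakSpace ℝ E).symm (e y) := by
      intro h2
      exact hne (hinj ((toWeakSpace ℝ E).symm.injective h2))
    obtain ⟨ψ, hψ⟩ := SeparatingDual.exists_separating_of_ne (R := ℝ) h1
    let ψ' : StrongDual ℝ E := (1 / (‖ψ‖ + 1)) • ψ
    have hpos : 0 < ‖ψ‖ + 1 := by positivity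
    have hψ' : ‖ψ'‖ ≤ 1 := by
      rw [norm_smul, Real.norm_of_nonneg (by positivity), one_div, inv_mul_le_iff₀ hpos]
      linarith
    have h3 := hxy ⟨StrongDual.toWeakDual ψ', by
      simp only [mem_preimage, mem_closedBall_zero_iff]
      exact hψ'⟩
    apply hψ
    have h4 : (1 / (‖ψ‖ + 1)) * ψ ((toWeakSpace ℝ E).symm (e x)) = (1 / (‖ψ‖ + 1)) * ψ ((toWeakSpace ℝ E).symm (e y)) := h3
    exact mul_left_cancel₀ (by positivity) h4

/-- Eberlein compacta given by an injective c₀-family have dense metrizable subspaces -/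
theorem C0.dense_metrizable {X : Type} [TopologicalSpace X] [CompactSpace X] {Γ : Type} {h : X → Γ → ℝ}
    (hh : C0 h) (hinj : Function.Injective h) : ∃ D : Set X, Dense D ∧ TopologicalSpace.MetrizableSpace D := by
  classical
  have hT2 : T2Space X := T2Space.of_injective_continuous hinj (continuous_pi hh.cont)
  have hemb : IsEmbedding h := ((continuous_pi hh.cont).isClosedEmbedding hinj).isEmbedding
  let q : ℕ → ℝ := fun n => 1 / ((n : ℝ) + 1)
  have hq : ∀ n, 0 < q n := fun n => by positivity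
  let A : ℕ → X → Set Γ := fun n x => {s | q n < |h x s|}
  have hA : ∀ n x, (A n x).Finite := fun n x => (hh.fin x (q n) (hq n)).subset fun s hs => (show q n ≤ |h x s| from le_of_lt (show q n < |h x s| from hs))
  have hopen : ∀ n (B : Finset Γ), IsOpen {y | ∀ s ∈ B, q n < |h y s|} := by
    intro n B
    have : {y | ∀ s ∈ B, q n < |h y s|} = ⋂ s ∈ B, {y | q n < |h y s|} := by
      ext y; simp
    rw [this]
    exact isOpen_biInter_finset fun s _ => isOpen_lt continuous_const (hh.cont s).abs
  let Z : ℕ × ℕ → Set X := fun p => {x | (A p.1 x).ncard ≤ p.2}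
  have hZ : ∀ p, IsClosed (Z p) := by
    intro p
    rw [← isOpen_compl_iff, isOpen_iff_forall_mem_open]
    intro x hx
    have hx' : p.2 < (A p.1 x).ncard := not_le.mp hx
    refine ⟨{y | ∀ s ∈ (hA p.1 x).toFinset, q p.1 < |h y s|}, ?_, hopen _ _, ?_⟩
    · intro y hy
      have h1 : A p.1 x ⊆ A p.1 y := fun s hs => hy s ((hA p.1 x).mem_toFinset.mpr hs)
      have h2 := Set.ncard_le_ncard h1 (hA p.1 y)
      exact not_le.mpr (lt_of_lt_of_le hx' h2)
    · intro s hs
      exact (hA p.1 x).mem_toFinset.mp hs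
  let D : Set X := ⋂ p, (frontier (Z p))ᶜ
  have hD : Dense D := by
    refine dense_iInter_of_isOpen (fun p => isClosed_frontier.isOpen_compl) (fun p => ?_)
    rw [← interior_eq_empty_iff_dense_compl]
    exact interior_frontier (hZ p)
  refine ⟨D, hD, ?_⟩
  -- neighbourhoods of small oscillation
  have hosc : ∀ x ∈ D, ∀ ε : ℝ, 0 < ε → ∀ᶠ y in 𝓝 x, ∀ s, |h y s - h x s| ≤ ε := by
    intro x hx ε hε
    obtain ⟨n, hn⟩ := exists_nat_one_div_lt (show (0 : ℝ) < ε / 2 by linarith)
    have hxZ : x ∈ Z (n, (A n x).ncard) := le_refl (A n x).ncard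
    have hxint : x ∈ interior (Z (n, (A n x).ncard)) := by
      have h1 := mem_iInter.mp hx (n, (A n x).ncard)
      by_contra hcon
      exact h1 ⟨subset_closure hxZ, hcon⟩
    have h1 : ∀ᶠ y in 𝓝 x, y ∈ interior (Z (n, (A n x).ncard)) := isOpen_interior.mem_nhds hxint
    have h2 : ∀ᶠ y in 𝓝 x, ∀ s ∈ (hA n x).toFinset, q n < |h y s| :=
      (hopen n _).mem_nhds (fun s hs => (hA n x).mem_toFinset.mp hs)
    have h3 : ∀ᶠ y in 𝓝 x, ∀ s ∈ (hA n x).toFinset, |h y s - h x s| ≤ ε := by
      refine (Filter.eventually_all_finset _).mpr fun s _ => ?_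
      have h4 : Tendsto (fun y => |h y s - h x s|) (𝓝 x) (𝓝 |h x s - h x s|) :=
        (((hh.cont s).tendsto x).sub tendsto_const_nhds).abs
      rw [sub_self, abs_zero] at h4
      exact (h4.eventually (gt_mem_nhds hε)).mono fun y hy => le_of_lt hy
    filter_upwards [h1, h2, h3] with y hy1 hy2 hy3 s
    have hy0 : y ∈ Z (n, (A n x).ncard) := interior_subset hy1
    have hy1' : (A n y).ncard ≤ (A n x).ncard := hy0
    have hsub : A n x ⊆ A n y := fun s hs => hy2 s ((hA n x).mem_toFinset.mpr hs)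
    have heq : A n x = A n y := Set.eq_of_subset_of_ncard_le hsub hy1' (hA n y)
    by_cases hs : s ∈ A n x
    · exact hy3 s ((hA n x).mem_toFinset.mpr hs)
    · have hs' : s ∉ A n y := by rwa [← heq]
      have e1 : |h x s| ≤ q n := not_lt.mp hs
      have e2 : |h y s| ≤ q n := not_lt.mp hs'
      have e3 : |h y s - h x s| ≤ |h y s| + |h x s| := abs_sub _ _
      have e4 : q n < ε / 2 := hn
      linarith
  -- the embedding
  let _ : TopologicalSpace Γ := ⊥
  have _ : DiscreteTopology Γ := ⟨rfl⟩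
  let H : D → BoundedContinuousFunction Γ ℝ := fun x =>
    BoundedContinuousFunction.ofNormedAddCommGroupDiscrete (h x.1) 1 (fun s => hh.bd _ _)
  have hHc : Continuous H := by
    rw [Metric.continuous_iff']
    intro x ε hε
    have h1 : ∀ᶠ y in 𝓝 x, ∀ s, |h y.1 s - h x.1 s| ≤ ε / 2 := by
      rw [nhds_subtype_eq_comap]
      exact (hosc x.1 x.2 (ε / 2) (by linarith)).comap _
    filter_upwards [h1] with y hy
    refine lt_of_le_of_lt ((BoundedContinuousFunction.dist_le (by linarith : (0 : ℝ) ≤ ε / 2)).mpr fun s => ?_)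
      (by linarith : ε / 2 < ε)
    rw [Real.dist_eq]
    exact hy s
  have hcoe : Continuous (fun (f : BoundedContinuousFunction Γ ℝ) (s : Γ) => f s) :=
    continuous_pi fun s => (BoundedContinuousFunction.lipschitz_eval_const s).continuous
  have hcomp : IsEmbedding ((fun (f : BoundedContinuousFunction Γ ℝ) (s : Γ) => f s) ∘ H) := by
    have h1 : ((fun (f : BoundedContinuousFunction Γ ℝ) (s : Γ) => f s) ∘ H) = h ∘ Subtype.val := by
      funext x; rfl
    rw [h1]
    exact hemb.comp IsEmbedding.subtypeVal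
  have hH : IsEmbedding H := IsEmbedding.of_comp hHc hcoe hcomp
  exact hH.metrizableSpace

end Pool.Agent.Helper639.Ebl
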