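import Mathlib
open Filter Topology Set

namespace Pool.Agent.Helper639.Eb

section Comb

variable {Ω : Type} [LinearOrder Ω]

/-- limit points of a subset of a well-order -/
def Acc (A : Set Ω) (δ : Ω) : Prop := (∃ x, x < δ) ∧ ∀ x < δ, ∃ y ∈ A, x < y ∧ y < δ

/-- all limit points lie in S -/
def IS (S : Set Ω) (A : Set Ω) : Prop := ∀ δ, Acc A δ → δ ∈ S

/-- stationarity -/
def Stat (S : Set Ω) : Prop := ∀ h : Ω → Ω, ∃ δ ∈ S, (∃ x, x < δ) ∧ ∀ x < δ, h x < δ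

theorem Acc.mono {A B : Set Ω} {δ : Ω} (h : A ⊆ B) (hA : Acc A δ) : Acc B δ :=
  ⟨hA.1, fun x hx => by obtain ⟨y, hy, h1⟩ := hA.2 x hx; exact ⟨y, h hy, h1⟩⟩

theorem IS.mono {S A B : Set Ω} (h : A ⊆ B) (hB : IS S B) : IS S A :=
  fun δ hδ => hB δ (hδ.mono h)

theorem Acc.union {A B : Set Ω} {δ : Ω} (h : Acc (A ∪ B) δ) : Acc A δ ∨ Acc B δ := by
  by_contra hcon
  push Not at hcon
  obtain ⟨hA, hB⟩ := hcon
  unfold Acc at hA hB
  push Not at hA hB
  obtain ⟨a, ha, hA⟩ := hA h.1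
  obtain ⟨b, hb, hB⟩ := hB h.1
  obtain ⟨y, hy, h1, h2⟩ := h.2 (max a b) (max_lt ha hb)
  rcases hy with hy | hy
  · exact absurd h2 (not_lt.mpr (hA y hy (lt_of_le_of_lt (le_max_left _ _) h1)))
  · exact absurd h2 (not_lt.mpr (hB y hy (lt_of_le_of_lt (le_max_right _ _) h1)))

theorem IS.union {S A B : Set Ω} (hA : IS S A) (hB : IS S B) : IS S (A ∪ B) := by
  intro δ hδ
  rcases hδ.union with h | h
  · exact hA δ h
  · exact hB δ h

theorem IS_empty (S : Set Ω) : IS S (∅ : Set Ω) := by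
  rintro δ ⟨⟨x, hx⟩, h⟩
  obtain ⟨y, hy, -⟩ := h x hx
  exact absurd hy (Set.notMem_empty y)

theorem IS_singleton (S : Set Ω) (a : Ω) : IS S ({a} : Set Ω) := by
  rintro δ ⟨⟨x, hx⟩, h⟩
  obtain ⟨y, hy, h1, h2⟩ := h x hx
  obtain ⟨y', hy', h1', h2'⟩ := h y h2
  rw [Set.mem_singleton_iff] at hy hy'
  subst hy
  subst hy'
  exact absurd h1' (lt_irrefl _)

theorem IS.insert {S A : Set Ω} (hA : IS S A) (a : Ω) : IS S (insert a A) := by
  rw [Set.insert_eq]
  exact (IS_singleton S a).union hA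

variable (hc : ∀ a : Ω, (Set.Iic a).Countable) (hu : ¬ (Set.univ : Set Ω).Countable)
include hc hu

theorem bdd_of_countable {D : Set Ω} (hD : D.Countable) : ∃ b, ∀ x ∈ D, x < b := by
  by_contra hcon
  push Not at hcon
  apply hu
  have : (Set.univ : Set Ω) ⊆ ⋃ x ∈ D, Set.Iic x := by
    intro b _
    obtain ⟨x, hx, hbx⟩ := hcon b
    simp only [Set.mem_iUnion]
    exact ⟨x, hx, hbx⟩
  exact (hD.biUnion fun x _ => hc x).mono this

variable [WellFoundedLT Ω]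

/-- closure points are unbounded -/
theorem exists_closed (h : Ω → Ω) (b : Ω) : ∃ δ, b < δ ∧ ∀ x < δ, h x < δ := by
  have h1 : ∀ x : Ω, ∃ y, x < y ∧ ∀ z ≤ x, h z < y := by
    intro x
    obtain ⟨y, hy⟩ := bdd_of_countable hc hu ((hc x).union ((hc x).image h))
    exact ⟨y, hy x (Or.inl le_rfl), fun z hz => hy _ (Or.inr ⟨z, hz, rfl⟩)⟩
  choose f hf1 hf2 using h1
  let s : ℕ → Ω := fun n => f^[n] b
  have hs : ∀ n, s (n + 1) = f (s n) := fun n => Function.iterate_succ_apply' f n b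
  obtain ⟨B, hB⟩ := bdd_of_countable hc hu (Set.countable_range s)
  let T : Set Ω := {y | ∀ n, s n < y}
  have hT : T.Nonempty := ⟨B, fun n => hB _ ⟨n, rfl⟩⟩
  refine ⟨WellFounded.min (wellFounded_lt) T hT, WellFounded.min_mem _ T hT 0, ?_⟩
  intro x hx
  have h2 : x ∉ T := fun hxT => WellFounded.not_lt_min _ T hxT hx
  have h3 : ∃ n, x ≤ s n := by
    by_contra hcon
    push Not at hcon
    exact h2 hcon
  obtain ⟨n, hn⟩ := h3
  calc h x < f (s n) := hf2 (s n) x hn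
    _ = s (n + 1) := (hs n).symm
    _ < _ := WellFounded.min_mem _ T hT (n + 1)

theorem exists_bistat (ι : Ω → ℕ → Bool) (hι : Function.Injective ι) : ∃ S : Set Ω, Stat S ∧ Stat Sᶜ := by
  by_contra hcon
  push Not at hcon
  have h1 : ∀ n : ℕ, ∃ (v : Bool) (h : Ω → Ω), ∀ δ, (∃ x, x < δ) → (∀ x < δ, h x < δ) → ι δ n = v := by
    intro n
    by_cases hS : Stat {δ | ι δ n = true}
    · have h2 := hcon _ hS
      unfold Stat at h2
      push Not at h2
      obtain ⟨h, hh⟩ := h2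
      refine ⟨true, h, fun δ hδ1 hδ2 => ?_⟩
      by_contra hne
      obtain ⟨x, hx, hx2⟩ := hh δ hne hδ1
      exact absurd (hδ2 x hx) (not_lt.mpr hx2)
    · unfold Stat at hS
      push Not at hS
      obtain ⟨h, hh⟩ := hS
      refine ⟨false, h, fun δ hδ1 hδ2 => ?_⟩
      by_contra hne
      rw [Bool.not_eq_false] at hne
      obtain ⟨x, hx, hx2⟩ := hh δ hne hδ1
      exact absurd (hδ2 x hx) (not_lt.mpr hx2)
  choose v h hh using h1
  have h2 : ∀ x : Ω, ∃ y, ∀ n, h n x < y := by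
    intro x
    obtain ⟨y, hy⟩ := bdd_of_countable hc hu (Set.countable_range fun n => h n x)
    exact ⟨y, fun n => hy _ ⟨n, rfl⟩⟩
  choose H hH using h2
  have h3 : ∀ δ, (∃ x, x < δ) → (∀ x < δ, H x < δ) → ι δ = v := by
    intro δ hδ1 hδ2
    funext n
    exact hh n δ hδ1 fun x hx => (hH x n).trans (hδ2 x hx)
  have hne : Nonempty Ω := by
    by_contra hemp
    rw [not_nonempty_iff] at hemp
    exact hu (Set.countable_univ_iff.mpr inferInstance)
  obtain ⟨b⟩ := hne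
  obtain ⟨δ1, hb1, hδ1⟩ := exists_closed hc hu H b
  obtain ⟨δ2, hb2, hδ2⟩ := exists_closed hc hu H δ1
  have := hι ((h3 δ1 ⟨b, hb1⟩ hδ1).trans (h3 δ2 ⟨δ1, hb2⟩ hδ2).symm)
  rw [this] at hb2
  exact lt_irrefl _ hb2

/-- well-founded smallness of finite sets relative to a family -/
inductive Small (𝒜 : Set (Set Ω)) : Set Ω → Prop
  | mk (F : Set Ω) (b : Ω) (h : ∀ a, b < a → insert a F ∈ 𝒜 → Small 𝒜 (insert a F)) : Small 𝒜 F

theorem small_empty {S : Set Ω} (hS : Stat Sᶜ) {𝒜 : Set (Set Ω)} (hher : ∀ A B, A ⊆ B → B ∈ 𝒜 → A ∈ 𝒜)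
    (hcpt : ∀ A : Set Ω, (∀ F ⊆ A, F.Finite → F ∈ 𝒜) → A ∈ 𝒜) (hIS : ∀ A ∈ 𝒜, IS S A) : Small 𝒜 ∅ := by
  by_contra hns
  have h1 : ∀ (F : Set Ω) (b : Ω), ∃ a, b < a ∧ (¬ Small 𝒜 F → insert a F ∈ 𝒜 ∧ ¬ Small 𝒜 (insert a F)) := by
    intro F b
    by_cases hF : Small 𝒜 F
    · obtain ⟨y, hy⟩ := bdd_of_countable hc hu (Set.countable_singleton b)
      exact ⟨y, hy b rfl, fun h => absurd hF h⟩
    · by_contra hcon
      push Not at hcon
      apply hF
      refine Small.mk F b fun a ha hin => ?_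
      by_contra hsm
      exact (hcon a ha).2 hin |> fun h => hsm h
  choose nx hnx1 hnx2 using h1
  have h2 : ∀ x : Ω, ∃ y, ∀ F : Set Ω, F.Finite → F ⊆ Set.Iic x → ∀ b ≤ x, nx F b < y := by
    intro x
    have hcF : {F : Set Ω | F.Finite ∧ F ⊆ Set.Iic x}.Countable := Set.countable_ofPred_finite_subset (hc x)
    obtain ⟨y, hy⟩ := bdd_of_countable hc hu ((hcF.prod (hc x)).image fun p : Set Ω × Ω => nx p.1 p.2)
    exact ⟨y, fun F hF hFx b hb => hy _ ⟨(F, b), ⟨⟨hF, hFx⟩, hb⟩, rfl⟩⟩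
  choose H hH using h2
  obtain ⟨δ, hδS, hδne, hδ⟩ := hS H
  have hcd : (Set.Iio δ).Countable := (hc δ).mono fun x hx => le_of_lt hx
  obtain ⟨e, he⟩ := hcd.exists_eq_range (by obtain ⟨x, hx⟩ := hδne; exact ⟨x, hx⟩)
  have hen : ∀ n, e n < δ := fun n => by
    have : e n ∈ Set.Iio δ := by rw [he]; exact ⟨n, rfl⟩
    exact this
  let F : ℕ → Set Ω := fun n => Nat.rec ∅ (fun n Fn => insert (nx Fn (e n)) Fn) n
  have hF0 : F 0 = ∅ := rfl
  have hFs : ∀ n, F (n + 1) = insert (nx (F n) (e n)) (F n) := fun n => rfl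
  have hFns : ∀ n, ¬ Small 𝒜 (F n) := by
    intro n
    induction n with
    | zero => exact hns
    | succ n ih => rw [hFs]; exact (hnx2 (F n) (e n) ih).2
  have hFin : ∀ n, F (n + 1) ∈ 𝒜 := fun n => by
    rw [hFs]; exact (hnx2 (F n) (e n) (hFns n)).1
  have hFfin : ∀ n, (F n).Finite := by
    intro n
    induction n with
    | zero => exact Set.finite_empty
    | succ n ih => rw [hFs]; exact ih.insert _
  have hFlt : ∀ n, ∃ x < δ, e n ≤ x ∧ F n ⊆ Set.Iic x := by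
    intro n
    induction n with
    | zero => exact ⟨e 0, hen 0, le_rfl, by rw [hF0]; exact Set.empty_subset _⟩
    | succ n ih =>
      obtain ⟨x, hx, hex, hFx⟩ := ih
      have h3 : nx (F n) (e n) < δ := (hH x (F n) (hFfin n) hFx (e n) hex).trans (hδ x hx)
      refine ⟨max (e (n + 1)) (max x (nx (F n) (e n))), max_lt (hen _) (max_lt hx h3), le_max_left _ _, ?_⟩
      rw [hFs]
      intro y hy
      rcases hy with rfl | hy
      · exact (le_max_right _ _).trans (le_max_right _ _)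
      · exact (hFx hy).trans ((le_max_left _ _).trans (le_max_right _ _))
  have hmono : Monotone F := monotone_nat_of_le_succ fun n => by rw [hFs]; exact Set.subset_insert _ _
  have hA : (⋃ n, F n) ∈ 𝒜 := by
    apply hcpt
    intro G hG hGfin
    have h3 : ∃ n, G ⊆ F n := by
      have := Set.Finite.induction_on_subset G hGfin (motive := fun G' _ => ∃ n, G' ⊆ F n)
        ⟨0, Set.empty_subset _⟩ ?_
      · exact this
      · rintro a s ha hs - ⟨n, hn⟩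
        obtain ⟨m, hm⟩ := Set.mem_iUnion.mp (hG ha)
        refine ⟨max n m, Set.insert_subset (hmono (le_max_right _ _) hm) (hn.trans (hmono (le_max_left _ _)))⟩
    obtain ⟨n, hn⟩ := h3
    exact hher _ _ (hn.trans (hmono (Nat.le_succ n))) (hFin n)
  have hacc : Acc (⋃ n, F n) δ := by
    refine ⟨hδne, fun x hx => ?_⟩
    have hx' : x ∈ Set.range e := by rw [← he]; exact hx
    obtain ⟨n, rfl⟩ := hx'
    refine ⟨nx (F n) (e n), Set.mem_iUnion.mpr ⟨n + 1, by rw [hFs]; exact Set.mem_insert _ _⟩, hnx1 _ _, ?_⟩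
    obtain ⟨y, hy, hey, hFy⟩ := hFlt n
    exact (hH y (F n) (hFfin n) hFy (e n) hey).trans (hδ y hy)
  exact hδS (hIS _ hA δ hacc)

theorem small_bound {𝒜 : Set (Set Ω)} (hher : ∀ A B, A ⊆ B → B ∈ 𝒜 → A ∈ 𝒜) {F : Set Ω} (hF : Small 𝒜 F) :
    ∃ h : Ω → Ω, ∀ a : ℕ → Ω, (∀ n, h (a n) < a (n + 1)) → F ∪ Set.range a ∉ 𝒜 := by
  induction hF with
  | mk F b _ ih =>
    have h1 : ∀ a : Ω, ∃ h : Ω → Ω, b < a → insert a F ∈ 𝒜 → ∀ a' : ℕ → Ω, (∀ n, h (a' n) < a' (n + 1)) →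
        (insert a F) ∪ Set.range a' ∉ 𝒜 := by
      intro a
      by_cases hba : b < a ∧ insert a F ∈ 𝒜
      · obtain ⟨h, hh⟩ := ih a hba.1 hba.2
        exact ⟨h, fun _ _ => hh⟩
      · exact ⟨id, fun h2 h3 => absurd ⟨h2, h3⟩ hba⟩
    choose h hh using h1
    have h2 : ∀ x : Ω, ∃ y, b < y ∧ x < y ∧ ∀ a ≤ x, h a x < y := by
      intro x
      obtain ⟨y, hy⟩ := bdd_of_countable hc hu
        (((Set.countable_singleton b).union (Set.countable_singleton x)).union ((hc x).image fun a => h a x))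
      exact ⟨y, hy b (Or.inl (Or.inl rfl)), hy x (Or.inl (Or.inr rfl)), fun a ha => hy _ (Or.inr ⟨a, ha, rfl⟩)⟩
    choose H hHb hHx hHa using h2
    refine ⟨H, fun a ha hmem => ?_⟩
    have hba : b < a 1 := (hHb (a 0)).trans (ha 0)
    have hmono : StrictMono a := strictMono_nat_of_lt_succ fun n => (hHx (a n)).trans (ha n)
    have hin : insert (a 1) F ∈ 𝒜 := by
      refine hher _ _ ?_ hmem
      exact Set.insert_subset (Or.inr ⟨1, rfl⟩) Set.subset_union_left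
    refine hh (a 1) hba hin (fun n => a (n + 2)) ?_ ?_
    · intro n
      have h3 : a 1 ≤ a (n + 2) := hmono.monotone (by omega)
      exact (hHa (a (n + 2)) (a 1) h3).trans (ha (n + 2))
    · refine hher _ _ ?_ hmem
      rintro x (hx | ⟨n, rfl⟩)
      · rcases hx with rfl | hx
        · exact Or.inr ⟨1, rfl⟩
        · exact Or.inl hx
      · exact Or.inr ⟨n + 2, rfl⟩

/-- colouring from a bound function -/
theorem exists_colour (h : Ω → Ω) : ∃ e : Ω → ℕ, ∀ A : Set Ω, ∀ n, (A ∩ e ⁻¹' {n}).Infinite →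
    ∃ a : ℕ → Ω, Set.range a ⊆ A ∧ ∀ k, h (a k) < a (k + 1) := by
  let T : Ω → Set Ω := fun x => {δ | x < δ ∧ ∀ y < δ, h y < δ}
  have hT : ∀ x, (T x).Nonempty := fun x => exists_closed hc hu h x
  let γ : Ω → Ω := fun x => WellFounded.min (wellFounded_lt) (T x) (hT x)
  have hγ1 : ∀ x, x < γ x := fun x => (WellFounded.min_mem _ (T x) (hT x)).1
  have hγ2 : ∀ x, ∀ y < γ x, h y < γ x := fun x => (WellFounded.min_mem _ (T x) (hT x)).2
  have hγ3 : ∀ x y, x < y → γ x ≠ γ y → h x < y := by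
    intro x y hxy hne
    have h1 : γ x ≤ y := by
      by_contra hlt
      push Not at hlt
      apply hne
      apply le_antisymm
      · by_contra h2
        push Not at h2
        exact WellFounded.not_lt_min _ (T x) ⟨hxy.trans (hγ1 y), hγ2 y⟩ h2
      · by_contra h2
        push Not at h2
        exact WellFounded.not_lt_min _ (T y) ⟨hlt, hγ2 x⟩ h2
    exact (hγ2 x x (hγ1 x)).trans_le h1
  have hinj : ∀ δ : Ω, ∃ f : Ω → ℕ, Set.InjOn f (Set.Iic δ) := fun δ => Set.countable_iff_exists_injOn.mp (hc δ)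
  choose f hf using hinj
  refine ⟨fun x => f (γ x) x, fun A n hinf => ?_⟩
  let ν := Set.Infinite.natEmbedding _ hinf
  obtain ⟨g, hg⟩ := exists_increasing_or_nonincreasing_subseq (fun x y : Ω => x < y)
    (fun k => (ν k : Ω))
  have hval : Function.Injective (fun k => (ν k : Ω)) := fun a b hab =>
    ν.injective (Subtype.ext hab)
  rcases hg with hg | hg
  · refine ⟨fun k => (ν (g k) : Ω), ?_, ?_⟩
    · rintro _ ⟨k, rfl⟩
      exact (ν (g k)).2.1
    · intro k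
      have hlt := hg k (k + 1) (Nat.lt_succ_self k)
      apply hγ3 _ _ hlt
      intro heq
      have e1 : f (γ (ν (g k) : Ω)) (ν (g k) : Ω) = n := (ν (g k)).2.2
      have e2 : f (γ (ν (g (k + 1)) : Ω)) (ν (g (k + 1)) : Ω) = n :=
        (ν (g (k + 1))).2.2
      rw [← heq] at e2
      have e3 := hf (γ (ν (g k) : Ω)) (le_of_lt (hγ1 _))
        (le_of_lt (by rw [heq]; exact hγ1 _)) (e1.trans e2.symm)
      exact absurd e3 (ne_of_lt hlt)
  · exfalso
    have hdec : ∀ k, (ν (g (k + 1)) : Ω) < (ν (g k) : Ω) := by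
      intro k
      have h1 := hg k (k + 1) (Nat.lt_succ_self k)
      push Not at h1
      refine lt_of_le_of_ne h1 fun heq => ?_
      have := g.injective (hval heq)
      omega
    have hne : (Set.range (fun k => (ν (g k) : Ω))).Nonempty := ⟨_, ⟨0, rfl⟩⟩
    obtain ⟨k, hk⟩ := WellFounded.min_mem (wellFounded_lt (α := Ω)) (Set.range (fun k => (ν (g k) : Ω))) hne
    refine WellFounded.not_lt_min (wellFounded_lt (α := Ω)) (Set.range (fun k => (ν (g k) : Ω)))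
      (x := (ν (g (k + 1)) : Ω)) ⟨k + 1, rfl⟩ ?_
    rw [← hk]
    exact hdec k

theorem colour {S : Set Ω} (hS : Stat Sᶜ) {𝒜 : Set (Set Ω)} (hher : ∀ A B, A ⊆ B → B ∈ 𝒜 → A ∈ 𝒜)
    (hcpt : ∀ A : Set Ω, (∀ F ⊆ A, F.Finite → F ∈ 𝒜) → A ∈ 𝒜) (hIS : ∀ A ∈ 𝒜, IS S A) :
    ∃ e : Ω → ℕ, ∀ A ∈ 𝒜, ∀ n, (A ∩ e ⁻¹' {n}).Finite := by
  obtain ⟨h, hh⟩ := small_bound hc hu hher (small_empty hc hu hS hher hcpt hIS)
  obtain ⟨e, he⟩ := exists_colour hc hu h
  refine ⟨e, fun A hA n => ?_⟩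
  by_contra hinf
  obtain ⟨a, ha1, ha2⟩ := he A n hinf
  exact hh a ha2 (hher _ _ (by rw [Set.empty_union]; exact ha1) hA)


/-- conditions: sets in the ideal bounded by an ordinal -/
abbrev PP (S : Set Ω) := {p : Set Ω × Ω // (∀ x ∈ p.1, x < p.2) ∧ IS S p.1}

omit hc hu [WellFoundedLT Ω] in
/-- end extension -/
def Ext {S : Set Ω} (q p : PP S) : Prop := p.1.2 ≤ q.1.2 ∧ ∀ x < p.1.2, (x ∈ q.1.1 ↔ x ∈ p.1.1)

omit hc hu [WellFoundedLT Ω] in
theorem Ext.refl {S : Set Ω} (p : PP S) : Ext p p := ⟨le_rfl, fun _ _ => Iff.rfl⟩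

omit hc hu [WellFoundedLT Ω] in
theorem Ext.trans {S : Set Ω} {r q p : PP S} (h1 : Ext r q) (h2 : Ext q p) : Ext r p :=
  ⟨h2.1.trans h1.1, fun x hx => (h1.2 x (hx.trans_le h2.1)).trans (h2.2 x hx)⟩

omit hc hu [WellFoundedLT Ω] in
theorem Ext.sub {S : Set Ω} {q p : PP S} (h : Ext q p) {x : Ω} (hx : x ∈ p.1.1) : x ∈ q.1.1 :=
  (h.2 x (p.2.1 x hx)).mpr hx

omit hc hu [WellFoundedLT Ω] in
theorem chain_ext {S : Set Ω} {s : ℕ → PP S} (h : ∀ n, Ext (s (n + 1)) (s n)) {m n : ℕ} (hmn : m ≤ n) :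
    Ext (s n) (s m) := by
  induction n, hmn using Nat.le_induction with
  | base => exact Ext.refl _
  | succ n _ ih => exact (h n).trans ih

omit [WellFoundedLT Ω] in
theorem fusion {S : Set Ω} (hS : Stat S) (e : ℕ → PP S → PP S) (he : ∀ n p, Ext (e n p) p) (p0 : PP S) :
    ∃ s : ℕ → PP S, s 0 = p0 ∧ (∀ n, Ext (s (n + 1)) (e n (s n))) ∧ ∃ q, ∀ n, Ext q (s n) := by
  have hup : ∀ x : Ω, ∃ y, x < y := fun x => by
    obtain ⟨y, hy⟩ := bdd_of_countable hc hu (Set.countable_singleton x)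
    exact ⟨y, hy x rfl⟩
  choose up hup using hup
  let ext : PP S → Ω → PP S := fun p x => ⟨(p.1.1, max p.1.2 (up x)), fun y hy =>
    (p.2.1 y hy).trans_le (le_max_left _ _), p.2.2⟩
  have hext : ∀ p x, Ext (ext p x) p := fun p x => ⟨le_max_left _ _, fun _ _ => Iff.rfl⟩
  have hext2 : ∀ p x, x < (ext p x).1.2 := fun p x => (hup x).trans_le (le_max_right _ _)
  let op : ℕ ⊕ Ω → PP S → PP S := fun i p => match i with
    | Sum.inl n => e n p
    | Sum.inr x => ext p x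
  let run : List (ℕ ⊕ Ω) → PP S := fun l => l.foldr op p0
  have hH : ∀ x : Ω, ∃ y, ∀ l : List (ℕ ⊕ Ω), (∀ z, Sum.inr z ∈ l → z ≤ x) → (run l).1.2 < y := by
    intro x
    have hcx : Countable (Set.Iic x) := hc x
    let g : List (ℕ ⊕ Set.Iic x) → Ω := fun l => (run (l.map (Sum.map id Subtype.val))).1.2
    obtain ⟨y, hy⟩ := bdd_of_countable hc hu (Set.countable_range g)
    refine ⟨y, fun l hl => ?_⟩
    apply hy
    have : ∃ l' : List (ℕ ⊕ Set.Iic x), l'.map (Sum.map id Subtype.val) = l := by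
      clear hy
      induction l with
      | nil => exact ⟨[], rfl⟩
      | cons a l ih =>
        obtain ⟨l', hl'⟩ := ih fun z hz => hl z (List.mem_cons_of_mem _ hz)
        rcases a with n | z
        · exact ⟨Sum.inl n :: l', by simp [hl']⟩
        · exact ⟨Sum.inr ⟨z, hl z List.mem_cons_self⟩ :: l', by simp [hl']⟩
    obtain ⟨l', rfl⟩ := this
    exact ⟨l', rfl⟩
  choose H hH using hH
  obtain ⟨δ, hδS, hδne, hδ⟩ := hS H
  have hcd : (Set.Iio δ).Countable := (hc δ).mono fun x hx => le_of_lt hx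
  obtain ⟨en, hen⟩ := hcd.exists_eq_range (by obtain ⟨x, hx⟩ := hδne; exact ⟨x, hx⟩)
  have hen1 : ∀ n, en n < δ := fun n => by
    have : en n ∈ Set.Iio δ := by rw [hen]; exact ⟨n, rfl⟩
    exact this
  have hen2 : ∀ x < δ, ∃ n, en n = x := fun x hx => by
    have : x ∈ Set.range en := by rw [← hen]; exact hx
    exact this
  let L : ℕ → List (ℕ ⊕ Ω) := fun n => Nat.rec [] (fun n l => Sum.inr (en n) :: Sum.inl n :: l) n
  have hLs : ∀ n, L (n + 1) = Sum.inr (en n) :: Sum.inl n :: L n := fun n => rfl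
  let s : ℕ → PP S := fun n => run (L n)
  have hss : ∀ n, s (n + 1) = ext (e n (s n)) (en n) := fun n => rfl
  have hLb : ∀ n, ∃ x < δ, ∀ z, Sum.inr z ∈ L n → z ≤ x := by
    intro n
    induction n with
    | zero =>
      obtain ⟨x, hx⟩ := hδne
      exact ⟨x, hx, fun z hz => absurd hz (List.not_mem_nil)⟩
    | succ n ih =>
      obtain ⟨x, hx, hxz⟩ := ih
      refine ⟨max x (en n), max_lt hx (hen1 n), fun z hz => ?_⟩
      rw [hLs] at hz
      simp only [List.mem_cons, Sum.inr.injEq, reduceCtorEq, false_or] at hz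
      rcases hz with rfl | hz
      · exact le_max_right _ _
      · exact (hxz z hz).trans (le_max_left _ _)
  have hsδ : ∀ n, (s n).1.2 < δ := by
    intro n
    obtain ⟨x, hx, hxz⟩ := hLb n
    exact (hH x (L n) hxz).trans (hδ x hx)
  have hstep : ∀ n, Ext (s (n + 1)) (e n (s n)) := fun n => by rw [hss]; exact hext _ _
  have hchain : ∀ n, Ext (s (n + 1)) (s n) := fun n => (hstep n).trans (he n _)
  have hbig : ∀ x < δ, ∃ n, x < (s n).1.2 := by
    intro x hx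
    obtain ⟨n, rfl⟩ := hen2 x hx
    exact ⟨n + 1, by rw [hss]; exact hext2 _ _⟩
  have hcoh : ∀ n m x, x < (s m).1.2 → x ∈ (s n).1.1 → x ∈ (s m).1.1 := by
    intro n m x hx hxn
    rcases le_total m n with h | h
    · exact ((chain_ext hchain h).2 x hx).mp hxn
    · exact (chain_ext hchain h).sub hxn
  refine ⟨s, rfl, hstep, ⟨(⋃ n, (s n).1.1, δ), ?_, ?_⟩, ?_⟩
  · intro x hx
    obtain ⟨n, hn⟩ := Set.mem_iUnion.mp hx
    exact ((s n).2.1 x hn).trans (hsδ n)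
  · intro μ hμ
    rcases lt_trichotomy μ δ with h | h | h
    · obtain ⟨m, hm⟩ := hbig μ h
      apply (s m).2.2 μ
      refine ⟨hμ.1, fun x hx => ?_⟩
      obtain ⟨y, hy, h1, h2⟩ := hμ.2 x hx
      obtain ⟨n, hn⟩ := Set.mem_iUnion.mp hy
      exact ⟨y, hcoh n m y (h2.trans hm) hn, h1, h2⟩
    · rw [h]; exact hδS
    · obtain ⟨y, hy, h1, h2⟩ := hμ.2 δ h
      obtain ⟨n, hn⟩ := Set.mem_iUnion.mp hy
      exact absurd ((s n).2.1 y hn) (not_lt.mpr ((hsδ n).le.trans h1.le))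
  · intro n
    refine ⟨(hsδ n).le, fun x hx => ⟨fun h => ?_, fun h => Set.mem_iUnion.mpr ⟨n, h⟩⟩⟩
    obtain ⟨m, hm⟩ := Set.mem_iUnion.mp h
    exact hcoh m n x hx hm

omit [WellFoundedLT Ω] in
theorem mono_seq {S : Set Ω} (hS : Stat S) (c : Ω → Set Ω → ℕ) :
    ∃ (k : ℕ) (ξ : ℕ → Ω) (G : ℕ → Set Ω), StrictMono ξ ∧ (∀ n, IS S (G n)) ∧ (∀ n m, n < m → ξ m ∈ G n) ∧
      ∀ n, c (ξ n) (G n) = k := by
  have hne : Nonempty Ω := by
    by_contra hemp
    rw [not_nonempty_iff] at hemp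
    exact hu (Set.countable_univ_iff.mpr inferInstance)
  obtain ⟨b0⟩ := hne
  let Φ : ℕ → Ω → PP S → Prop := fun k ξ p => ∀ r, Ext r p → ∃ s, Ext s r ∧ c ξ (s.1.1 ∩ Set.Ioi ξ) = k
  have hΦ : ∀ k ξ p q, Ext q p → Φ k ξ p → Φ k ξ q := fun k ξ p q hq h r hr => h r (hr.trans hq)
  -- step 1
  have step1 : ∀ ξ p, ∃ k q, Ext q p ∧ Φ k ξ q := by
    intro ξ p
    by_contra hcon
    push Not at hcon
    have h1 : ∀ (k : ℕ) (q : PP S), ∃ r, Ext r q ∧ (Ext q p → ∀ s, Ext s r → c ξ (s.1.1 ∩ Set.Ioi ξ) ≠ k) := by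
      intro k q
      by_cases hq : Ext q p
      · have h2 := hcon k q hq
        simp only [Φ] at h2
        push Not at h2
        obtain ⟨r, hr, hr2⟩ := h2
        exact ⟨r, hr, fun _ => hr2⟩
      · exact ⟨q, Ext.refl q, fun h => absurd h hq⟩
    choose e he1 he2 using h1
    obtain ⟨s, hs0, hs1, q, hq⟩ := fusion hc hu hS e he1 p
    have hsp : ∀ n, Ext (s n) p := by
      intro n
      induction n with
      | zero => rw [hs0]; exact Ext.refl _
      | succ n ih => exact ((hs1 n).trans (he1 _ _)).trans ih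
    have h3 := he2 (c ξ (q.1.1 ∩ Set.Ioi ξ)) (s (c ξ (q.1.1 ∩ Set.Ioi ξ))) (hsp _) q
      ((hq _).trans (hs1 _))
    exact h3 rfl
  -- step 2
  have step2 : ∃ (p0 : PP S) (k : ℕ), ∀ p, Ext p p0 → ∀ α, ∃ q, Ext q p ∧ ∃ ξ, α < ξ ∧ ξ ∈ q.1.1 ∧ Φ k ξ q := by
    by_contra hcon
    push Not at hcon
    have h1 : ∀ (k : ℕ) (p : PP S), ∃ p', Ext p' p ∧ ∃ α, ∀ q, Ext q p' → ∀ ξ, α < ξ → ξ ∈ q.1.1 → ¬ Φ k ξ q := by
      intro k p
      obtain ⟨p', hp', α, hα⟩ := hcon p k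
      exact ⟨p', hp', α, fun q hq ξ h2 h3 => hα q hq ξ h2 h3⟩
    choose e he1 α hα using h1
    obtain ⟨s, hs0, hs1, q, hq⟩ := fusion hc hu hS e he1 ⟨(∅, b0), fun x hx => absurd hx (Set.notMem_empty x), IS_empty S⟩
    obtain ⟨ξ, hξ⟩ := bdd_of_countable hc hu ((Set.countable_range fun k => α k (s k)).union (Set.countable_singleton q.1.2))
    have hξq : q.1.2 < ξ := hξ _ (Or.inr rfl)
    have hξα : ∀ k, α k (s k) < ξ := fun k => hξ _ (Or.inl ⟨k, rfl⟩)
    obtain ⟨ζ, hζ⟩ := bdd_of_countable hc hu (Set.countable_singleton ξ)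
    have hζ : ξ < ζ := hζ ξ rfl
    let q' : PP S := ⟨(insert ξ q.1.1, ζ), by
      intro x hx
      rcases hx with rfl | hx
      · exact hζ
      · exact (q.2.1 x hx).trans (hξq.trans hζ), q.2.2.insert ξ⟩
    have hq' : Ext q' q := by
      refine ⟨(hξq.trans hζ).le, fun x hx => ⟨fun h => ?_, fun h => Or.inr h⟩⟩
      rcases h with rfl | h
      · exact absurd hx (not_lt.mpr hξq.le)
      · exact h
    obtain ⟨k, q'', hq'', hΦ''⟩ := step1 ξ q'
    refine hα k (s k) q'' ?_ ξ (hξα k) (hq''.sub (Set.mem_insert _ _)) hΦ''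
    exact (hq''.trans hq').trans ((hq (k + 1)).trans (hs1 k))
  obtain ⟨p0, k, hp0⟩ := step2
  have h1 : ∀ (_ : ℕ) (p : PP S), ∃ q, Ext q p ∧ ∃ ξ, Ext p p0 → (p.1.2 < ξ ∧ ξ ∈ q.1.1 ∧ Φ k ξ q) := by
    intro _ p
    by_cases hp : Ext p p0
    · obtain ⟨q, hq, ξ, h2⟩ := hp0 p hp p.1.2
      exact ⟨q, hq, ξ, fun _ => h2⟩
    · exact ⟨p, Ext.refl p, b0, fun h => absurd h hp⟩
  choose e he1 x hx using h1
  obtain ⟨s, hs0, hs1, q, hq⟩ := fusion hc hu hS e he1 p0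
  have hsp : ∀ n, Ext (s n) p0 := by
    intro n
    induction n with
    | zero => rw [hs0]; exact Ext.refl _
    | succ n ih => exact ((hs1 n).trans (he1 _ _)).trans ih
  let ξ : ℕ → Ω := fun n => x n (s n)
  have hξ1 : ∀ n, (s n).1.2 < ξ n := fun n => (hx n (s n) (hsp n)).1
  have hξ2 : ∀ n, ξ n ∈ (s (n + 1)).1.1 := fun n => (hs1 n).sub (hx n (s n) (hsp n)).2.1
  have hξ3 : ∀ n, Φ k (ξ n) q := fun n => hΦ _ _ _ _ ((hq (n + 1)).trans (hs1 n)) (hx n (s n) (hsp n)).2.2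
  have hmono : StrictMono ξ := strictMono_nat_of_lt_succ fun n =>
    ((s (n + 1)).2.1 _ (hξ2 n)).trans (hξ1 (n + 1))
  have h4 : ∀ n, ∃ r : PP S, Ext r q ∧ c (ξ n) (r.1.1 ∩ Set.Ioi (ξ n)) = k := fun n => hξ3 n q (Ext.refl q)
  choose r hr1 hr2 using h4
  refine ⟨k, ξ, fun n => (r n).1.1 ∩ Set.Ioi (ξ n), hmono, ?_, ?_, hr2⟩
  · intro n
    exact (r n).2.2.mono Set.inter_subset_left
  · intro n m hnm
    exact ⟨(hr1 n).sub ((hq (m + 1)).sub (hξ2 m)), hmono hnm⟩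

end Comb

end Pool.Agent.Helper639.Eb
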