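import Mathlib
import Pool.Agent.Helper639.EbComb
import Pool.Agent.Helper639.EbC0
open Filter Topology Set

set_option linter.unusedSectionVars false
set_option linter.unusedVariables false

namespace Pool.Agent.Helper639.Eb

section Space
variable {Ω : Type} [LinearOrder Ω]

/-- the space with one non-isolated point whose neighbourhoods are given by the ideal -/
def XS (_S : Set Ω) : Type := Option Ω

/-- the non-isolated point -/
def pt (S : Set Ω) : XS S := (none : Option Ω)

/-- the isolated points -/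
def iso (S : Set Ω) (a : Ω) : XS S := (some a : Option Ω)

theorem iso_inj (S : Set Ω) {a b : Ω} (h : iso S a = iso S b) : a = b := Option.some_injective _ h

theorem iso_ne_pt (S : Set Ω) (a : Ω) : iso S a ≠ pt S := Option.some_ne_none a

theorem XS_cases (S : Set Ω) (x : XS S) : x = pt S ∨ ∃ a, x = iso S a := by
  rcases (x : Option Ω) with _ | a
  · exact Or.inl rfl
  · exact Or.inr ⟨a, rfl⟩

instance (S : Set Ω) : TopologicalSpace (XS S) where
  IsOpen U := pt S ∈ U → IS S {x : Ω | iso S x ∉ U}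
  isOpen_univ := by
    intro _
    refine (IS_empty S).mono ?_
    intro x hx
    exact absurd (Set.mem_univ _) hx
  isOpen_inter := by
    intro U V hU hV h
    refine ((hU h.1).union (hV h.2)).mono ?_
    intro x hx
    by_cases h1 : iso S x ∈ U
    · exact Or.inr (fun h2 => hx ⟨h1, h2⟩)
    · exact Or.inl h1
  isOpen_sUnion := by
    intro s hs h
    obtain ⟨U, hU, hpU⟩ := h
    refine (hs U hU hpU).mono ?_
    intro x hx h2
    exact hx ⟨U, hU, h2⟩

theorem isOpen_XS {S : Set Ω} {U : Set (XS S)} : IsOpen U ↔ (pt S ∈ U → IS S {x : Ω | iso S x ∉ U}) := Iff.rfl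

theorem isOpen_iso (S : Set Ω) (a : Ω) : IsOpen ({iso S a} : Set (XS S)) := by
  rw [isOpen_XS]
  intro h
  exact absurd h.symm (iso_ne_pt S a)

theorem isClosed_iso (S : Set Ω) (a : Ω) : IsClosed ({iso S a} : Set (XS S)) := by
  rw [← isOpen_compl_iff, isOpen_XS]
  intro _
  refine (IS_singleton S a).mono ?_
  intro x hx
  by_contra hne
  apply hx
  intro h
  exact hne (iso_inj S h)

theorem isOpen_of_notMem {S : Set Ω} {U : Set (XS S)} (h : pt S ∉ U) : IsOpen U := by
  rw [isOpen_XS]
  intro h'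
  exact absurd h' h

theorem isClosed_pt (S : Set Ω) : IsClosed ({pt S} : Set (XS S)) := by
  rw [← isOpen_compl_iff]
  exact isOpen_of_notMem (fun h => h rfl)

instance (S : Set Ω) : T1Space (XS S) := by
  refine ⟨fun x => ?_⟩
  rcases XS_cases S x with h | ⟨a, h⟩
  · subst h; exact isClosed_pt S
  · subst h; exact isClosed_iso S a

instance (S : Set Ω) : T35Space (XS S) := by
  have h1 : CompletelyRegularSpace (XS S) := by
    refine ⟨?_⟩
    intro x K hK hx
    have h2 : ∃ U : Set (XS S), IsClopen U ∧ K ⊆ U ∧ x ∉ U := by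
      rcases XS_cases S x with h | ⟨a, h⟩
      · subst h
        exact ⟨K, ⟨hK, isOpen_of_notMem hx⟩, Subset.rfl, hx⟩
      · subst h
        refine ⟨{iso S a}ᶜ, ⟨(isOpen_iso S a).isClosed_compl, (isClosed_iso S a).isOpen_compl⟩, ?_, ?_⟩
        · intro y hy h
          rw [Set.mem_singleton_iff] at h
          exact hx (h ▸ hy)
        · intro h
          exact h rfl
    obtain ⟨U, hU, hKU, hxU⟩ := h2
    classical
    refine ⟨fun y => if y ∈ U then 1 else 0, ?_, ?_, ?_⟩
    · refine continuous_const.if (fun a ha => ?_) continuous_const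
      have ha' : a ∈ frontier U := ha
      rw [hU.frontier_eq] at ha'
      exact absurd ha' (Set.notMem_empty a)
    · simp [hxU]
    · intro y hy
      simp [hKU hy]
  exact T35Space.mk

theorem IS_of_continuous {S : Set Ω} {f : XS S → ℝ} (hf : Continuous f) {ε : ℝ} (hε : 0 < ε) :
    IS S {x : Ω | ε ≤ |f (iso S x) - f (pt S)|} := by
  have h1 : IsOpen (f ⁻¹' (Metric.ball (f (pt S)) ε)) := Metric.isOpen_ball.preimage hf
  refine (isOpen_XS.mp h1 (by simp [hε])).mono ?_
  intro x hx h
  rw [Set.mem_preimage, Metric.mem_ball, Real.dist_eq] at h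
  exact absurd hx (not_le.mpr h)

/-- soft thresholding -/
noncomputable def soft (c s : ℝ) : ℝ := s - max (-c) (min c s)

theorem soft_continuous (c : ℝ) : Continuous (soft c) := by
  unfold soft
  fun_prop

theorem soft_close {c : ℝ} (hc : 0 ≤ c) (s : ℝ) : |s - soft c s| ≤ c := by
  unfold soft
  rw [sub_sub_cancel, abs_le]
  refine ⟨le_max_left _ _, max_le (by linarith) (min_le_left _ _)⟩

theorem soft_zero {c : ℝ} {s : ℝ} (h : |s| ≤ c) : soft c s = 0 := by
  rw [abs_le] at h
  unfold soft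
  rw [min_eq_right h.2, max_eq_right h.1, sub_self]

theorem soft_eq {s t : ℝ} (h : ∀ m : ℕ, soft (1 / (m + 1)) s = soft (1 / (m + 1)) t) : s = t := by
  by_contra hne
  have h1 : 0 < |s - t| / 2 := by
    have := abs_pos.mpr (sub_ne_zero.mpr hne)
    linarith
  obtain ⟨m, hm⟩ := exists_nat_one_div_lt h1
  have h2 := soft_close (c := 1 / ((m : ℝ) + 1)) (by positivity) s
  have h3 := soft_close (c := 1 / ((m : ℝ) + 1)) (by positivity) t
  rw [h m] at h2
  have h4 : |s - t| ≤ |s - soft (1 / ((m : ℝ) + 1)) t| + |t - soft (1 / ((m : ℝ) + 1)) t| := by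
    rw [abs_sub_comm t]
    exact abs_sub_le _ _ _
  linarith

variable (hc : ∀ a : Ω, (Set.Iic a).Countable) (hu : ¬ (Set.univ : Set Ω).Countable)
variable [WellFoundedLT Ω]

theorem arctan_bd (x : ℝ) : |Real.arctan x| ≤ 2 := by
  have h1 := Real.arctan_lt_pi_div_two x
  have h2 := Real.neg_pi_div_two_lt_arctan x
  have h3 := Real.pi_le_four
  rw [abs_le]
  constructor <;> linarith

include hc hu in
theorem emb_X {S : Set Ω} (hS : Stat Sᶜ) (F : Set (XS S → ℝ)) (hF : ∀ f ∈ F, Continuous f)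
    (hcomp : IsCompact F) :
    ∃ (E : Type) (_ : NormedAddCommGroup E) (_ : NormedSpace ℝ E) (_ : CompleteSpace E)
      (e : F → WeakSpace ℝ E), Topology.IsEmbedding e := by
  classical
  let A : ℕ → Set (Set Ω) := fun m => {A | ∃ f ∈ F, ∀ x ∈ A, 1 / ((m : ℝ) + 1) ≤ |f (iso S x) - f (pt S)|}
  have hher : ∀ m, ∀ B C, B ⊆ C → C ∈ A m → B ∈ A m := by
    rintro m B C hBC ⟨f, hf, h⟩
    exact ⟨f, hf, fun x hx => h x (hBC hx)⟩
  have hev : ∀ x : XS S, Continuous (fun f : XS S → ℝ => f x) := fun x => continuous_apply x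
  have hcpt : ∀ m, ∀ B : Set Ω, (∀ G ⊆ B, G.Finite → G ∈ A m) → B ∈ A m := by
    intro m B hB
    have h1 := hcomp.inter_iInter_nonempty
      (fun x : B => {f : XS S → ℝ | 1 / ((m : ℝ) + 1) ≤ |f (iso S x) - f (pt S)|})
      (fun x => isClosed_le continuous_const (((hev _).sub (hev _)).abs)) (by
        intro u
        obtain ⟨f, hf, h⟩ := hB (((↑) : B → Ω) '' (u : Set B)) (by rintro _ ⟨x, _, rfl⟩; exact x.2)
          (u.finite_toSet.image _)
        refine ⟨f, hf, ?_⟩
        simp only [Set.mem_iInter]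
        intro x hx
        exact h x ⟨x, hx, rfl⟩)
    obtain ⟨f, hf, h⟩ := h1
    simp only [Set.mem_iInter] at h
    exact ⟨f, hf, fun x hx => h ⟨x, hx⟩⟩
  have hIS : ∀ m, ∀ B ∈ A m, IS S B := by
    rintro m B ⟨f, hf, h⟩
    exact (IS_of_continuous (hF f hf) (by positivity)).mono h
  choose e he using fun m => colour hc hu hS (hher m) (hcpt m) (hIS m)
  let v : F → Option (ℕ × Ω) → ℝ := fun f γ => match γ with
    | none => Real.arctan (f.1 (pt S))
    | some p => Real.arctan (soft (1 / ((p.1 : ℝ) + 1)) (f.1 (iso S p.2) - f.1 (pt S))) /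
        (((p.1 : ℝ) + 1) * ((e p.1 p.2 : ℝ) + 1))
  have hcc : CompactSpace F := isCompact_iff_compactSpace.mp hcomp
  have hev' : ∀ x : XS S, Continuous (fun f : F => f.1 x) := fun x => (hev x).comp continuous_subtype_val
  have hden : ∀ p : ℕ × Ω, (1 : ℝ) ≤ (((p.1 : ℝ) + 1) * ((e p.1 p.2 : ℝ) + 1)) := by
    intro p
    have h1 : (0 : ℝ) ≤ p.1 := Nat.cast_nonneg _
    have h2 : (0 : ℝ) ≤ e p.1 p.2 := Nat.cast_nonneg _
    nlinarith
  refine c0_embed F (Option (ℕ × Ω)) v ?_ 2 ?_ ?_ ?_
  · rintro (_ | p)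
    · exact Real.continuous_arctan.comp (hev' _)
    · exact (Real.continuous_arctan.comp ((soft_continuous _).comp ((hev' _).sub (hev' _)))).div_const _
  · rintro f (_ | p)
    · exact arctan_bd _
    · change |_ / _| ≤ _
      rw [abs_div, abs_of_pos (lt_of_lt_of_le one_pos (hden p))]
      exact (div_le_self (abs_nonneg _) (hden p)).trans (arctan_bd _)
  · intro f ε hε
    obtain ⟨N, hN⟩ := exists_nat_gt (2 / ε)
    have hfin : ({none} ∪ ⋃ m ∈ Set.Iio N, ⋃ n ∈ Set.Iio N,
        (fun x : Ω => some ((m, x) : ℕ × Ω)) '' ({x : Ω | 1 / ((m : ℝ) + 1) ≤ |f.1 (iso S x) - f.1 (pt S)|} ∩ e m ⁻¹' {n}) :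
          Set (Option (ℕ × Ω))).Finite := by
      refine (Set.finite_singleton _).union ?_
      refine (Set.finite_Iio N).biUnion fun m _ => (Set.finite_Iio N).biUnion fun n _ => ?_
      exact (he m _ ⟨f.1, f.2, fun x hx => hx⟩ n).image _
    refine hfin.subset ?_
    rintro (_ | p) hp
    · exact Or.inl rfl
    · right
      have hp' : ε ≤ |Real.arctan (soft (1 / ((p.1 : ℝ) + 1)) (f.1 (iso S p.2) - f.1 (pt S))) /
        (((p.1 : ℝ) + 1) * ((e p.1 p.2 : ℝ) + 1))| := hp
      rw [abs_div, abs_of_pos (lt_of_lt_of_le one_pos (hden p)), le_div_iff₀ (lt_of_lt_of_le one_pos (hden p))] at hp'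
      have h1 : (0 : ℝ) ≤ p.1 := Nat.cast_nonneg _
      have h2 : (0 : ℝ) ≤ e p.1 p.2 := Nat.cast_nonneg _
      have h3 := arctan_bd (soft (1 / ((p.1 : ℝ) + 1)) (f.1 (iso S p.2) - f.1 (pt S)))
      have h4 : (((p.1 : ℝ) + 1) * ((e p.1 p.2 : ℝ) + 1)) ≤ 2 / ε := by
        rw [le_div_iff₀ hε]
        linarith
      have h5 : (p.1 : ℝ) < N := by nlinarith
      have h6 : (e p.1 p.2 : ℝ) < N := by nlinarith
      simp only [Set.mem_iUnion, Set.mem_Iio]
      refine ⟨p.1, by exact_mod_cast h5, e p.1 p.2, by exact_mod_cast h6, p.2, ⟨?_, rfl⟩, rfl⟩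
      by_contra hcon
      have hcon' : |f.1 (iso S p.2) - f.1 (pt S)| ≤ 1 / ((p.1 : ℝ) + 1) := (not_le.mp hcon).le
      rw [soft_zero hcon', Real.arctan_zero, abs_zero] at hp'
      have := hden p
      nlinarith
  · intro f g hfg
    have h1 : f.1 (pt S) = g.1 (pt S) := Real.arctan_injective (congrFun hfg none)
    apply Subtype.ext
    funext x
    rcases XS_cases S x with h | ⟨a, h⟩
    · subst h; exact h1
    · subst h
      have h2 : f.1 (iso S a) - f.1 (pt S) = g.1 (iso S a) - g.1 (pt S) := by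
        apply soft_eq
        intro m
        have h3 := congrFun hfg (some (m, a))
        have h4 := (div_left_inj' (lt_of_lt_of_le one_pos (hden (m, a))).ne').mp h3
        exact Real.arctan_injective h4
      linarith

end Space

end Pool.Agent.Helper639.Eb
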