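import Mathlib
import Pool.Agent.Helper639.EbX
open Filter Topology Set

set_option linter.unusedSectionVars false
set_option linter.unusedVariables false

namespace Pool.Agent.Helper639.Eb

section Sep

variable {E : Type} [NormedAddCommGroup E] [NormedSpace ℝ E]

/-- evaluation of a functional at a point of the space with its weak topology -/
noncomputable def ev (φ : StrongDual ℝ E) (x : WeakSpace ℝ E) : ℝ := φ ((toWeakSpace ℝ E).symm x)

theorem ev_continuous (φ : StrongDual ℝ E) : Continuous (ev φ) :=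
  WeakBilin.eval_continuous (topDualPairing ℝ E).flip φ

theorem ev_sep {x y : WeakSpace ℝ E} (h : x ≠ y) : ∃ φ : StrongDual ℝ E, 1 < |ev φ x - ev φ y| := by
  have h1 : (toWeakSpace ℝ E).symm x ≠ (toWeakSpace ℝ E).symm y := by
    intro h2
    exact h ((toWeakSpace ℝ E).symm.injective h2)
  obtain ⟨φ, hφ⟩ := SeparatingDual.exists_separating_of_ne (R := ℝ) h1
  have h2 : 0 < |ev φ x - ev φ y| := abs_pos.mpr (sub_ne_zero.mpr hφ)
  refine ⟨(2 / |ev φ x - ev φ y|) • φ, ?_⟩
  have h3 : ev ((2 / |ev φ x - ev φ y|) • φ) x - ev ((2 / |ev φ x - ev φ y|) • φ) y =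
      (2 / |ev φ x - ev φ y|) * (ev φ x - ev φ y) := by
    unfold ev
    simp only [smul_apply, smul_eq_mul]
    ring
  rw [h3, abs_mul, abs_div, abs_abs, div_mul_cancel₀ _ h2.ne']
  norm_num

theorem finite_sep {B : Type} [TopologicalSpace B] [CompactSpace B] (e : B → WeakSpace ℝ E)
    (he : Continuous e) (hinj : Function.Injective e) (Q : Set (B × B)) (hQ : IsClosed Q)
    (hd : ∀ p ∈ Q, p.1 ≠ p.2) : ∃ (N : ℕ) (φ : ℕ → StrongDual ℝ E), (∀ i, ‖φ i‖ ≤ N) ∧
      ∀ p ∈ Q, ∃ i < N, 1 < |ev (φ i) (e p.1) - ev (φ i) (e p.2)| := by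
  classical
  obtain ⟨t, ht⟩ := hQ.isCompact.elim_finite_subcover
    (fun φ : StrongDual ℝ E => {p : B × B | 1 < |ev φ (e p.1) - ev φ (e p.2)|})
    (fun φ => isOpen_lt continuous_const
      ((((ev_continuous φ).comp (he.comp continuous_fst)).sub
        ((ev_continuous φ).comp (he.comp continuous_snd))).abs)) (by
      intro p hp
      obtain ⟨φ, hφ⟩ := ev_sep (hinj.ne (hd p hp))
      exact Set.mem_iUnion.mpr ⟨φ, hφ⟩)
  refine ⟨max t.card ⌈∑ φ ∈ t, ‖φ‖⌉₊, fun i => if h : i < t.card then (t.equivFin.symm ⟨i, h⟩).1 else 0, ?_, ?_⟩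
  · intro i
    by_cases h : i < t.card
    · simp only [h, dif_pos]
      have h1 : ‖(t.equivFin.symm ⟨i, h⟩).1‖ ≤ ∑ φ ∈ t, ‖φ‖ :=
        Finset.single_le_sum (f := fun φ : StrongDual ℝ E => ‖φ‖) (fun φ _ => norm_nonneg φ)
          (t.equivFin.symm ⟨i, h⟩).2
      have h2 := Nat.le_ceil (∑ φ ∈ t, ‖φ‖)
      have h3 : ((⌈∑ φ ∈ t, ‖φ‖⌉₊ : ℕ) : ℝ) ≤ ((max t.card ⌈∑ φ ∈ t, ‖φ‖⌉₊ : ℕ) : ℝ) := by
        exact_mod_cast le_max_right _ _
      exact h1.trans (h2.trans h3)
    · simp only [h, dif_neg, not_false_eq_true, norm_zero]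
      exact Nat.cast_nonneg _
  · intro p hp
    obtain ⟨φ, h1⟩ := Set.mem_iUnion.mp (ht hp)
    obtain ⟨hφ, h2⟩ := Set.mem_iUnion.mp h1
    refine ⟨t.equivFin ⟨φ, hφ⟩, lt_of_lt_of_le (t.equivFin ⟨φ, hφ⟩).2 (le_max_left _ _), ?_⟩
    have h3 : ((t.equivFin ⟨φ, hφ⟩ : Fin t.card) : ℕ) < t.card := (t.equivFin ⟨φ, hφ⟩).2
    simp only [h3, dif_pos, Fin.eta, Equiv.symm_apply_apply]
    exact h2

/-- limits of bounded sequences of functionals along an ultrafilter -/
theorem ultra_lim (𝒰 : Ultrafilter ℕ) (N : ℝ) (φ : ℕ → StrongDual ℝ E) (hφ : ∀ n, ‖φ n‖ ≤ N) :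
    ∃ ψ : StrongDual ℝ E, ∀ x : WeakSpace ℝ E, Tendsto (fun n => ev (φ n) x) 𝒰 (𝓝 (ev ψ x)) := by
  obtain ⟨ψ, -, hψ⟩ := (WeakDual.isCompact_closedBall (𝕜 := ℝ) (E := E) (0 : StrongDual ℝ E) N).ultrafilter_le_nhds
    (𝒰.map (fun n => StrongDual.toWeakDual (φ n))) (by
      rw [Filter.le_principal_iff, Ultrafilter.mem_coe, Ultrafilter.mem_map]
      refine Filter.Eventually.of_forall (f := (𝒰 : Filter ℕ)) ?_
      intro n
      simp only [Set.mem_preimage, mem_closedBall_zero_iff]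
      exact hφ n)
  refine ⟨WeakDual.toStrongDual ψ, fun x => ?_⟩
  have h1 : Continuous (fun θ : WeakDual ℝ E => θ ((toWeakSpace ℝ E).symm x)) := WeakDual.eval_continuous _
  have h2 : Tendsto (fun n => StrongDual.toWeakDual (φ n)) 𝒰 (𝓝 ψ) := hψ
  exact (h1.tendsto ψ).comp h2

end Sep

section Prod
variable {Ω : Type} [LinearOrder Ω]

/-- the discrete set of labels -/
def DD (Ω : Type) : Type := Set Ω

instance : TopologicalSpace (DD Ω) := ⊥
instance : DiscreteTopology (DD Ω) := ⟨rfl⟩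

/-- the compact factor -/
abbrev KK (Ω : Type) : Type := OnePoint (DD Ω)

theorem isOpen_lab (d : DD Ω) : IsOpen ({(OnePoint.some d : KK Ω)} : Set (KK Ω)) := by
  rw [← Set.image_singleton]
  exact OnePoint.isOpen_image_coe.mpr (isOpen_discrete _)

/-- the labels -/
def lab (G : Set Ω) : KK Ω := OnePoint.some (X := DD Ω) G

theorem lab_inj {G H : Set Ω} (h : lab G = lab H) : G = H := OnePoint.coe_injective (X := DD Ω) h

/-- the labelled points -/
def q (S : Set Ω) (x : Ω) (G : Set Ω) : XS S × KK Ω := (iso S x, lab G)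

theorem q_inj {S : Set Ω} {x y : Ω} {G H : Set Ω} (h : q S x G = q S y H) : x = y ∧ G = H :=
  ⟨iso_inj S (congrArg Prod.fst h), lab_inj (congrArg Prod.snd h)⟩

/-- the support condition -/
def Good {S : Set Ω} (p : XS S × KK Ω) : Prop := ∃ x G, p = q S x G ∧ IS S G

/-- the compatibility condition -/
def Compat {S : Set Ω} (p p' : XS S × KK Ω) : Prop :=
  p = p' ∨ ∃ x G y H, p = q S x G ∧ p' = q S y H ∧ ((x < y ∧ y ∈ G) ∨ (y < x ∧ x ∈ H))

/-- the compact set of functions -/
def BB (S : Set Ω) : Set (XS S × KK Ω → ℝ) :=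
  {f | (∀ p, f p = 0 ∨ f p = 1) ∧ (∀ p, ¬ Good p → f p = 0) ∧ (∀ p p', ¬ Compat p p' → f p * f p' = 0)}

theorem BB_compact (S : Set Ω) : IsCompact (BB S) := by
  have h1 : IsCompact (Set.pi Set.univ (fun _ : XS S × KK Ω => ({0, 1} : Set ℝ))) :=
    isCompact_univ_pi (fun _ => (Set.toFinite _).isCompact)
  have hev : ∀ p : XS S × KK Ω, Continuous (fun f : XS S × KK Ω → ℝ => f p) := fun p => continuous_apply p
  refine h1.of_isClosed_subset ?_ ?_
  · have h2 : BB S = (⋂ p, {f | f p = 0} ∪ {f | f p = 1}) ∩ ((⋂ p, ⋂ (_ : ¬ Good p), {f | f p = 0}) ∩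
        (⋂ p, ⋂ p', ⋂ (_ : ¬ Compat p p'), {f | f p * f p' = 0})) := by
      ext f
      simp only [BB, Set.mem_inter_iff, Set.mem_iInter, Set.mem_union, Set.mem_ofPred_eq]
    rw [h2]
    refine IsClosed.inter ?_ (IsClosed.inter ?_ ?_)
    · exact isClosed_iInter fun p => (isClosed_eq (hev p) continuous_const).union (isClosed_eq (hev p) continuous_const)
    · exact isClosed_iInter fun p => isClosed_iInter fun _ => isClosed_eq (hev p) continuous_const
    · exact isClosed_iInter fun p => isClosed_iInter fun p' => isClosed_iInter fun _ =>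
        isClosed_eq ((hev p).mul (hev p')) continuous_const
  · intro f hf p _
    rcases hf.1 p with h | h
    · exact Or.inl h
    · exact Or.inr h

variable [WellFoundedLT Ω]

theorem BB_continuous {S : Set Ω} {f : XS S × KK Ω → ℝ} (hf : f ∈ BB S) : Continuous f := by
  obtain ⟨h01, hgood, hcomp⟩ := hf
  have hone : ∀ p, f p ≠ 0 → f p = 1 := fun p hp => (h01 p).resolve_left hp
  have hg : ∀ p, f p ≠ 0 → Good p := fun p hp => by
    by_contra h
    exact hp (hgood p h)
  have hcm : ∀ p p', f p ≠ 0 → f p' ≠ 0 → Compat p p' := fun p p' hp hp' => by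
    by_contra h
    rcases mul_eq_zero.mp (hcomp p p' h) with h1 | h1
    · exact hp h1
    · exact hp' h1
  refine IsLocallyConstant.continuous ?_
  rw [IsLocallyConstant.iff_exists_open]
  rintro ⟨x, k⟩
  by_cases h0 : f (x, k) = 0
  · rcases XS_cases S x with h | ⟨a, h⟩
    · subst h
      by_cases hne : ∃ a G, f (q S a G) ≠ 0
      · -- minimal element
        obtain ⟨a, ⟨G, haG⟩, hmin⟩ := WellFounded.has_min (wellFounded_lt (α := Ω)) {a : Ω | ∃ G, f (q S a G) ≠ 0} hne
        have hIS : IS S (insert a G) := by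
          obtain ⟨a', G', h1, h2⟩ := hg _ haG
          obtain ⟨-, rfl⟩ := q_inj h1
          exact h2.insert a
        refine ⟨{x : XS S | x ∉ iso S '' (insert a G)} ×ˢ Set.univ, ?_, ?_, ?_⟩
        · refine IsOpen.prod ?_ isOpen_univ
          rw [isOpen_XS]
          intro _
          refine hIS.mono ?_
          intro b hb
          simp only [Set.mem_ofPred_eq, not_not] at hb
          obtain ⟨c, hc1, hc2⟩ := hb
          exact iso_inj S hc2 ▸ hc1
        · refine ⟨?_, Set.mem_univ _⟩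
          rintro ⟨c, -, hc2⟩
          exact iso_ne_pt S c hc2
        · rintro ⟨x', k'⟩ ⟨hx', -⟩
          rw [h0]
          by_contra hne'
          obtain ⟨b, H, h1, h2⟩ := hg _ hne'
          rw [h1] at hne'
          have hb : b = a ∨ b ∈ G := by
            rcases hcm _ _ haG hne' with h3 | ⟨c, G1, d, H1, h3, h4, h5⟩
            · exact Or.inl (q_inj h3).1.symm
            · obtain ⟨rfl, rfl⟩ := q_inj h3
              obtain ⟨rfl, rfl⟩ := q_inj h4
              rcases h5 with h5 | h5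
              · exact Or.inr h5.2
              · exact absurd h5.1 (hmin b ⟨H, hne'⟩)
          apply hx'
          refine ⟨b, hb, ?_⟩
          exact (congrArg Prod.fst h1).symm
      · push Not at hne
        refine ⟨Set.univ, isOpen_univ, Set.mem_univ _, ?_⟩
        intro p _
        rw [h0]
        by_contra hne'
        obtain ⟨b, H, h1, h2⟩ := hg _ hne'
        rw [h1] at hne'
        exact hne' (hne b H)
    · subst h
      by_cases hne : ∃ G, f (q S a G) ≠ 0
      · obtain ⟨G, hG⟩ := hne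
        refine ⟨{iso S a} ×ˢ {lab G}ᶜ, (isOpen_iso S a).prod isClosed_singleton.isOpen_compl, ?_, ?_⟩
        · refine ⟨rfl, ?_⟩
          intro h
          rw [Set.mem_singleton_iff] at h
          apply hG
          change f (iso S a, lab G) = 0
          rw [← h]
          exact h0
        · rintro ⟨x', k'⟩ ⟨hx', hk'⟩
          rw [h0]
          by_contra hne'
          obtain ⟨b, H, h1, h2⟩ := hg _ hne'
          have hx'' : x' = iso S a := hx'
          have h3 := congrArg Prod.fst h1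
          have h4 : b = a := iso_inj S (h3.symm.trans hx'')
          subst h4
          rw [h1] at hne'
          rcases hcm _ _ hG hne' with h5 | ⟨c, G1, d, H1, h5, h6, h7⟩
          · apply hk'
            rw [Set.mem_singleton_iff]
            exact (congrArg Prod.snd h1).trans (congrArg Prod.snd h5).symm
          · obtain ⟨rfl, rfl⟩ := q_inj h5
            obtain ⟨rfl, rfl⟩ := q_inj h6
            rcases h7 with h7 | h7 <;> exact absurd h7.1 (lt_irrefl _)
      · push Not at hne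
        refine ⟨{iso S a} ×ˢ Set.univ, (isOpen_iso S a).prod isOpen_univ, ⟨rfl, Set.mem_univ _⟩, ?_⟩
        rintro ⟨x', k'⟩ ⟨hx', -⟩
        rw [h0]
        by_contra hne'
        obtain ⟨b, H, h1, h2⟩ := hg _ hne'
        have hx'' : x' = iso S a := hx'
        have h3 := congrArg Prod.fst h1
        have h4 : b = a := iso_inj S (h3.symm.trans hx'')
        subst h4
        rw [h1] at hne'
        exact hne' (hne H)
  · obtain ⟨b, H, h1, h2⟩ := hg _ h0
    refine ⟨{(x, k)}, ?_, rfl, ?_⟩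
    · rw [h1]
      have h3 : ({q S b H} : Set (XS S × KK Ω)) = {iso S b} ×ˢ {lab H} := by
        rw [Set.singleton_prod_singleton]
        rfl
      rw [h3]
      refine (isOpen_iso S b).prod ?_
      exact isOpen_lab H
    · intro p hp
      rw [Set.mem_singleton_iff.mp hp]


variable (hc : ∀ a : Ω, (Set.Iic a).Countable) (hu : ¬ (Set.univ : Set Ω).Countable)
include hc hu in
theorem not_emb {S : Set Ω} (hS : Stat S) {E : Type} [NormedAddCommGroup E] [NormedSpace ℝ E]
    (e : BB S → WeakSpace ℝ E) (he : Topology.IsEmbedding e) : False := by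
  classical
  have hcc : CompactSpace (BB S) := isCompact_iff_compactSpace.mp (BB_compact S)
  have hev : ∀ p : XS S × KK Ω, Continuous (fun f : BB S => f.1 p) := fun p =>
    (continuous_apply p).comp continuous_subtype_val
  -- separation for each point
  have h1 : ∀ (x : Ω) (G : Set Ω), ∃ (N : ℕ) (φ : ℕ → StrongDual ℝ E), (∀ i, ‖φ i‖ ≤ N) ∧
      ∀ f f' : BB S, f.1 (q S x G) = 1 → f'.1 (q S x G) = 0 →
        ∃ i < N, 1 < |ev (φ i) (e f) - ev (φ i) (e f')| := by
    intro x G
    obtain ⟨N, φ, h2, h3⟩ := finite_sep e he.continuous he.injective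
      {p : BB S × BB S | p.1.1 (q S x G) = 1 ∧ p.2.1 (q S x G) = 0}
      ((isClosed_eq ((hev _).comp continuous_fst) continuous_const).inter
        (isClosed_eq ((hev _).comp continuous_snd) continuous_const)) (by
        rintro ⟨f, f'⟩ ⟨hp1, hp2⟩ heq
        simp only at heq hp1 hp2
        rw [heq, hp2] at hp1
        exact zero_ne_one hp1)
    exact ⟨N, φ, h2, fun f f' hf hf' => h3 (f, f') ⟨hf, hf'⟩⟩
  choose c φ hφ hsep using h1
  obtain ⟨N, ξ, G, hξ, hG, hmem, hcN⟩ := mono_seq hc hu hS c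
  -- the functions
  let ind : Set ℕ → (XS S × KK Ω → ℝ) := fun M p => if ∃ n ∈ M, p = q S (ξ n) (G n) then 1 else 0
  have hind0 : ∀ M p, ind M p ≠ 0 → ∃ n ∈ M, p = q S (ξ n) (G n) := by
    intro M p hp
    by_contra h
    exact hp (if_neg h)
  have hindB : ∀ M, ind M ∈ BB S := by
    intro M
    refine ⟨?_, ?_, ?_⟩
    · intro p
      by_cases h : ∃ n ∈ M, p = q S (ξ n) (G n)
      · exact Or.inr (if_pos h)
      · exact Or.inl (if_neg h)
    · intro p hp
      by_contra h
      obtain ⟨n, -, hn⟩ := hind0 M p h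
      exact hp ⟨ξ n, G n, hn, hG n⟩
    · intro p p' hp
      by_contra h
      obtain ⟨n, -, hn⟩ := hind0 M p (left_ne_zero_of_mul h)
      obtain ⟨m, -, hm⟩ := hind0 M p' (right_ne_zero_of_mul h)
      apply hp
      rcases lt_trichotomy n m with hlt | heq | hlt
      · exact Or.inr ⟨ξ n, G n, ξ m, G m, hn, hm, Or.inl ⟨hξ hlt, hmem n m hlt⟩⟩
      · left
        rw [hn, hm, heq]
      · exact Or.inr ⟨ξ n, G n, ξ m, G m, hn, hm, Or.inr ⟨hξ hlt, hmem m n hlt⟩⟩
  let g : BB S := ⟨ind Set.univ, hindB _⟩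
  let h : ℕ → BB S := fun m => ⟨ind (Set.Iio m), hindB _⟩
  have hg1 : ∀ n, g.1 (q S (ξ n) (G n)) = 1 := fun n => if_pos ⟨n, Set.mem_univ _, rfl⟩
  have hh0 : ∀ m n, m ≤ n → (h m).1 (q S (ξ n) (G n)) = 0 := by
    intro m n hmn
    refine if_neg ?_
    rintro ⟨k, hk, heq⟩
    have := hξ.injective (q_inj heq).1
    subst this
    exact absurd hk (not_lt.mpr hmn)
  have hconv : Tendsto h atTop (𝓝 g) := by
    rw [tendsto_subtype_rng, tendsto_pi_nhds]
    intro p
    by_cases hp : ∃ n, p = q S (ξ n) (G n)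
    · obtain ⟨n, hn⟩ := hp
      refine tendsto_const_nhds.congr' ?_
      filter_upwards [Filter.eventually_gt_atTop n] with m hm
      have e1 : g.1 p = 1 := by rw [hn]; exact hg1 n
      have e2 : (h m).1 p = 1 := if_pos ⟨n, hm, hn⟩
      rw [e1, e2]
    · have e1 : g.1 p = 0 := if_neg (fun ⟨n, _, hn⟩ => hp ⟨n, hn⟩)
      rw [e1]
      refine tendsto_const_nhds.congr' ?_
      filter_upwards with m
      exact (if_neg (fun ⟨n, _, hn⟩ => hp ⟨n, hn⟩)).symm
  -- limits
  have hlim : ∀ i, ∃ ψ : StrongDual ℝ E, ∀ x : WeakSpace ℝ E,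
      Tendsto (fun n => ev (φ (ξ n) (G n) i) x) (hyperfilter ℕ) (𝓝 (ev ψ x)) := by
    intro i
    refine ultra_lim (hyperfilter ℕ) N (fun n => φ (ξ n) (G n) i) (fun n => ?_)
    have := hφ (ξ n) (G n) i
    rw [hcN n] at this
    exact this
  choose ψ hψ using hlim
  have h4 : ∀ m, ∃ i < N, 1 ≤ |ev (ψ i) (e g) - ev (ψ i) (e (h m))| := by
    intro m
    by_contra hcon
    push Not at hcon
    have h5 : ∀ i < N, ∀ᶠ n in (hyperfilter ℕ : Filter ℕ),
        |ev (φ (ξ n) (G n) i) (e g) - ev (φ (ξ n) (G n) i) (e (h m))| < 1 := by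
      intro i hi
      exact (((hψ i (e g)).sub (hψ i (e (h m)))).abs).eventually (gt_mem_nhds (hcon i hi))
    have h6 : ∀ᶠ n in (hyperfilter ℕ : Filter ℕ), ∀ i ∈ Finset.range N,
        |ev (φ (ξ n) (G n) i) (e g) - ev (φ (ξ n) (G n) i) (e (h m))| < 1 :=
      (Filter.eventually_all_finset _).mpr (fun i hi => h5 i (Finset.mem_range.mp hi))
    have h7 : ∀ᶠ n in (hyperfilter ℕ : Filter ℕ), m ≤ n :=
      (Filter.eventually_ge_atTop m).filter_mono (by
        rw [← Nat.cofinite_eq_atTop]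
        exact hyperfilter_le_cofinite)
    obtain ⟨n, hn1, hn2⟩ := (h6.and h7).exists
    obtain ⟨i, hi, h8⟩ := hsep (ξ n) (G n) g (h m) (hg1 n) (hh0 m n hn2)
    rw [hcN n] at hi
    exact absurd h8 (not_lt.mpr (hn1 i (Finset.mem_range.mpr hi)).le)
  have h9 : ∀ᶠ m in (atTop : Filter ℕ), ∀ i ∈ Finset.range N, |ev (ψ i) (e g) - ev (ψ i) (e (h m))| < 1 := by
    refine (Filter.eventually_all_finset _).mpr (fun i _ => ?_)
    have h10 : Tendsto (fun m => |ev (ψ i) (e g) - ev (ψ i) (e (h m))|) atTop (𝓝 |ev (ψ i) (e g) - ev (ψ i) (e g)|) := by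
      have h11 : Tendsto (fun m => ev (ψ i) (e (h m))) atTop (𝓝 (ev (ψ i) (e g))) :=
        (((ev_continuous (ψ i)).comp he.continuous).tendsto g).comp hconv
      exact (tendsto_const_nhds.sub h11).abs
    rw [sub_self, abs_zero] at h10
    exact h10.eventually (gt_mem_nhds one_pos)
  obtain ⟨m, hm⟩ := h9.exists
  obtain ⟨i, hi, h12⟩ := h4 m
  exact absurd h12 (not_le.mpr (hm i (Finset.mem_range.mpr hi)))

end Prod

end Pool.Agent.Helper639.Eb
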