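import Mathlib

open Set Filter Topology Cardinal

namespace Pool.Agent.Helper639.Gu

/-- iterated power sets of `ℕ` -/
def P : ℕ → Type
  | 0 => ℕ
  | n + 1 => Set (P n)

/-- their disjoint union -/
abbrev V : Type := Σ n, P n

/-- sequences in `V` -/
abbrev B : Type := ℕ → V

theorem setV_le : #(Set V) ≤ #B := by
  let Φ : Set V → B := fun U n => ⟨n + 1, ({p : P n | (⟨n, p⟩ : V) ∈ U} : Set (P n))⟩
  refine Cardinal.mk_le_of_injective (f := Φ) ?_
  intro U U' h
  ext ⟨n, p⟩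
  have h1 := congrFun h n
  simp only [Φ] at h1
  have h2 : ({p : P n | (⟨n, p⟩ : V) ∈ U} : Set (P n)) = {p : P n | (⟨n, p⟩ : V) ∈ U'} := by
    have := Sigma.mk.inj h1
    exact eq_of_heq this.2
  constructor
  · intro hp
    have : p ∈ ({p : P n | (⟨n, p⟩ : V) ∈ U} : Set (P n)) := hp
    rw [h2] at this
    exact this
  · intro hp
    have : p ∈ ({p : P n | (⟨n, p⟩ : V) ∈ U'} : Set (P n)) := hp
    rw [← h2] at this
    exact this

instance : Infinite V := by
  have : Function.Injective (fun n : ℕ => (⟨0, n⟩ : V)) := by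
    intro a b h
    have := Sigma.mk.inj h
    exact eq_of_heq this.2
  exact Infinite.of_injective _ this

theorem setN_le : #(Set (ℕ × ℕ)) ≤ #V := by
  have h1 : #(Set (ℕ × ℕ)) = #(Set ℕ) := Cardinal.mk_congr (Equiv.Set.congr (Equiv.refl _ |>.trans (Denumerable.eqv (ℕ × ℕ))))
  rw [h1]
  have : Function.Injective (fun s : Set ℕ => (⟨1, s⟩ : V)) := by
    intro a b h
    have := Sigma.mk.inj h
    exact eq_of_heq this.2
  exact Cardinal.mk_le_of_injective this

theorem prod_le : #(Set (ℕ × ℕ) × List V) ≤ #V := by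
  rw [Cardinal.mk_prod, Cardinal.lift_id, Cardinal.lift_id, Cardinal.mk_list_eq_mk]
  calc #(Set (ℕ × ℕ)) * #V ≤ #V * #V := mul_le_mul_left setN_le _
    _ = #V := Cardinal.mul_eq_self (Cardinal.aleph0_le_mk V)

/-- there is a set of sequences that is not a union of continuum many closed sets -/
theorem exists_S : ∃ S : Set B, ∀ ρ : B → Set (ℕ × ℕ), ∃ s, s ∉ S ∧ ∃ r, ∀ m : ℕ, ∃ x ∈ S, ρ x = r ∧
    ∀ i < m, x i = s i := by
  by_contra hcon
  push Not at hcon
  choose ρ hρ using hcon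
  let Φ : Set B → Set (Set (ℕ × ℕ) × List V) := fun S =>
    {p | ∃ x ∈ S, ρ S x = p.1 ∧ ∃ m : ℕ, p.2 = List.ofFn (fun i : Fin m => x i)}
  have hsub : ∀ S S', Φ S = Φ S' → S ⊆ S' := by
    intro S S' h s hs
    by_contra hsS'
    obtain ⟨m, hm⟩ := hρ S' s hsS' (ρ S s)
    have h1 : ((ρ S s, List.ofFn (fun i : Fin m => s i)) : Set (ℕ × ℕ) × List V) ∈ Φ S :=
      ⟨s, hs, rfl, m, rfl⟩
    rw [h] at h1
    obtain ⟨x, hx, hx1, m', hm'⟩ := h1
    have hmm : m = m' := by
      have := congrArg List.length hm'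
      simpa using this
    subst hmm
    obtain ⟨i, hi, hne⟩ := hm x hx hx1
    have h2 := List.ofFn_injective hm'
    exact hne (congrFun h2 ⟨i, hi⟩).symm
  have hinj : Function.Injective Φ := fun S S' h =>
    Set.Subset.antisymm (hsub S S' h) (hsub S' S h.symm)
  have h1 : #(Set B) ≤ #(Set (Set (ℕ × ℕ) × List V)) := Cardinal.mk_le_of_injective hinj
  have h2 : #(Set (Set (ℕ × ℕ) × List V)) ≤ #(Set V) := by
    rw [Cardinal.mk_set, Cardinal.mk_set]
    exact Cardinal.power_le_power_left two_ne_zero prod_le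
  have h3 : #(Set B) ≤ #B := h1.trans (h2.trans setV_le)
  rw [Cardinal.mk_set] at h3
  exact absurd h3 (not_le.mpr (Cardinal.cantor _))

/-- index set: a point outside of `S`, with a sequence in `S` converging to it -/
def Tp (S : Set B) : Type := {p : B × (ℕ → B) // p.1 ∉ S ∧ ∀ m, p.2 m ∈ S ∧ ∀ i < m, p.2 m i = p.1 i}

/-- first difference -/
noncomputable def D (s x : B) : ℕ := PiNat.firstDiff s x

theorem D_ne {s x : B} (h : s ≠ x) : s (D s x) ≠ x (D s x) := PiNat.apply_firstDiff_ne h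

theorem D_le {s x : B} {i : ℕ} (h : s i ≠ x i) : D s x ≤ i := by
  by_contra hlt
  push Not at hlt
  exact h (PiNat.apply_eq_of_lt_firstDiff hlt)

theorem le_D {s x : B} (h : s ≠ x) {m : ℕ} (hm : ∀ i < m, s i = x i) : m ≤ D s x := by
  by_contra hlt
  push Not at hlt
  exact D_ne h (hm _ hlt)

variable {S : Set B}

/-- the admissible sets of indices -/
def Adm (A : Set (Tp S)) : Prop :=
  A = ∅ ∨ ∃ x ∈ S, (∀ a ∈ A, x ∈ range a.1.2) ∧ InjOn (fun a : Tp S => D a.1.1 x) A

theorem Adm.mono {A A' : Set (Tp S)} (h : Adm A') (hA : A ⊆ A') : Adm A := by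
  rcases h with h | ⟨x, hx, h1, h2⟩
  · left
    rw [h] at hA
    exact subset_empty_iff.mp hA
  · exact Or.inr ⟨x, hx, fun a ha => h1 a (hA ha), h2.mono hA⟩

theorem Adm.countable {A : Set (Tp S)} (h : Adm A) : A.Countable := by
  rcases h with h | ⟨x, hx, h1, h2⟩
  · rw [h]; exact countable_empty
  · exact Set.countable_iff_exists_injOn.mpr ⟨_, h2⟩

theorem adm_single (a : Tp S) : Adm ({a} : Set (Tp S)) := by
  refine Or.inr ⟨a.1.2 0, (a.2.2 0).1, ?_, Set.injOn_singleton _ _⟩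
  rintro b rfl
  exact ⟨0, rfl⟩

theorem inter_finite {a b : Tp S} (h : a.1.1 ≠ b.1.1) : (range a.1.2 ∩ range b.1.2).Finite := by
  obtain ⟨i, hi⟩ : ∃ i, a.1.1 i ≠ b.1.1 i := Function.ne_iff.mp h
  refine (((Set.finite_Iic i).image a.1.2).union ((Set.finite_Iic i).image b.1.2)).subset ?_
  rintro _ ⟨⟨m, rfl⟩, ⟨m', hm'⟩⟩
  by_cases h1 : m ≤ i
  · exact Or.inl ⟨m, h1, rfl⟩
  by_cases h2 : m' ≤ i
  · exact Or.inr ⟨m', h2, hm'⟩
  exfalso
  push Not at h1 h2
  apply hi
  rw [← (a.2.2 m).2 i h1, ← (b.2.2 m').2 i h2, hm']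

theorem adm_of_finite {A : Set (Tp S)} (h : ∀ F ⊆ A, F.Finite → Adm F) : Adm A := by
  classical
  by_cases hsub : A.Subsingleton
  · exact h A le_rfl hsub.finite
  rw [Set.not_subsingleton_iff] at hsub
  obtain ⟨a, ha, b, hb, hab⟩ := hsub
  have hpair : ({a, b} : Set (Tp S)) ⊆ A := by
    rintro c (rfl | rfl)
    · exact ha
    · exact hb
  have hne : a.1.1 ≠ b.1.1 := by
    rcases h {a, b} hpair (by simp) with h1 | ⟨x, hx, h1, h2⟩
    · exact absurd h1 (Set.insert_nonempty a {b}).ne_empty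
    · intro heq
      exact hab (h2 (Set.mem_insert a {b}) (Set.mem_insert_of_mem a rfl)
        (show D a.1.1 x = D b.1.1 x by rw [heq]))
  by_contra hcon
  have hw : ∀ x ∈ range a.1.2 ∩ range b.1.2, ∃ W : Set (Tp S), W ⊆ A ∧ W.Finite ∧
      ¬ ((∀ c ∈ W, x ∈ range c.1.2) ∧ InjOn (fun c : Tp S => D c.1.1 x) W) := by
    intro x hx
    have hxS : x ∈ S := by
      obtain ⟨m, rfl⟩ := hx.1
      exact (a.2.2 m).1
    by_cases h1 : ∀ c ∈ A, x ∈ range c.1.2
    · have h2 : ¬ InjOn (fun c : Tp S => D c.1.1 x) A := fun h2 => hcon (Or.inr ⟨x, hxS, h1, h2⟩)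
      unfold InjOn at h2
      push Not at h2
      obtain ⟨c, hc, d, hd, hcd, hne⟩ := h2
      refine ⟨{c, d}, ?_, by simp, ?_⟩
      · rintro e (rfl | rfl)
        · exact hc
        · exact hd
      · rintro ⟨-, h3⟩
        exact hne (h3 (Set.mem_insert c {d}) (Set.mem_insert_of_mem c rfl) hcd)
    · push Not at h1
      obtain ⟨c, hc, hcx⟩ := h1
      refine ⟨{c}, singleton_subset_iff.mpr hc, Set.finite_singleton c, ?_⟩
      rintro ⟨h3, -⟩
      exact hcx (h3 c rfl)
  choose! W hW1 hW2 hW3 using hw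
  have hfin := inter_finite hne
  let F : Set (Tp S) := {a, b} ∪ ⋃ x ∈ range a.1.2 ∩ range b.1.2, W x
  have hFA : F ⊆ A := by
    refine union_subset hpair ?_
    exact iUnion₂_subset hW1
  have hFf : F.Finite := (by simp : ({a, b} : Set (Tp S)).Finite).union (hfin.biUnion hW2)
  rcases h F hFA hFf with h1 | ⟨x, hx, h1, h2⟩
  · have : a ∈ F := Or.inl (Set.mem_insert a {b})
    rw [h1] at this
    exact this
  · have hxa : x ∈ range a.1.2 ∩ range b.1.2 :=
      ⟨h1 a (Or.inl (Set.mem_insert a {b})), h1 b (Or.inl (Set.mem_insert_of_mem a rfl))⟩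
    have hsubF : W x ⊆ F := by
      refine subset_union_of_subset_right ?_ _
      exact subset_biUnion_of_mem (u := W) hxa
    exact hW3 x hxa ⟨fun c hc => h1 c (hsubF hc), h2.mono hsubF⟩

/-- the compact space -/
abbrev XX (S : Set B) : Type := {χ : Tp S → Bool // Adm {a | χ a = true}}

theorem isClosed_adm : IsClosed {χ : Tp S → Bool | Adm {a | χ a = true}} := by
  rw [← isOpen_compl_iff, isOpen_iff_forall_mem_open]
  intro χ hχ
  have h1 : ∃ F : Set (Tp S), F ⊆ {a | χ a = true} ∧ F.Finite ∧ ¬ Adm F := by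
    by_contra hcon
    push Not at hcon
    exact hχ (adm_of_finite fun F hF hf => hcon F hF hf)
  obtain ⟨F, hF, hFf, hFA⟩ := h1
  refine ⟨⋂ a ∈ F, {ψ | ψ a = true}, ?_, ?_, ?_⟩
  · intro ψ hψ hadm
    apply hFA
    refine Adm.mono hadm fun a ha => ?_
    exact mem_iInter₂.mp hψ a ha
  · refine hFf.isOpen_biInter fun a _ => ?_
    have hc : Continuous (fun ψ : Tp S → Bool => ψ a) := continuous_apply a
    exact (isOpen_discrete ({true} : Set Bool)).preimage hc
  · exact mem_iInter₂.mpr fun a ha => hF ha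

instance : CompactSpace (XX S) := isCompact_iff_compactSpace.mp isClosed_adm.isCompact

instance : T2Space (XX S) := inferInstance

end Pool.Agent.Helper639.Gu
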