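import Pool.Agent.Helper639.GuA
import Pool.Agent.Helper535.S

open Set Filter Topology Cardinal

namespace Pool.Agent.Helper639.Gu

open Pool.Agent.Helper535

variable {S : Set B}

/-- the coordinate functions -/
noncomputable def prj (a : Tp S) : C(XX S, ℝ) :=
  ⟨fun χ => if χ.1 a = true then 1 else 0, by
    have h1 : Continuous (fun χ : XX S => χ.1 a) := (continuous_apply a).comp continuous_subtype_val
    exact (continuous_of_discreteTopology (f := fun b : Bool => if b = true then (1 : ℝ) else 0)).comp h1⟩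

theorem prj_apply (a : Tp S) (χ : XX S) : prj a χ = if χ.1 a = true then 1 else 0 := rfl

/-- the characteristic function of an admissible set -/
noncomputable def chr (A : Set (Tp S)) (hA : Adm A) : XX S := by
  classical
  exact ⟨fun a => decide (a ∈ A), by simpa using hA⟩

theorem chr_apply (A : Set (Tp S)) (hA : Adm A) (a : Tp S) : (chr A hA).1 a = true ↔ a ∈ A := by
  simp [chr]

/-- the space is not Gul'ko compact -/
theorem not_usco (hS : ∀ ρ : B → Set (ℕ × ℕ), ∃ s, s ∉ S ∧ ∃ r, ∀ m : ℕ, ∃ x ∈ S, ρ x = r ∧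
    ∀ i < m, x i = s i) {E : Type*} [TopologicalSpace E] [SecondCountableTopology E]
    (ζ : C(XX S, ℝ) → E) : ¬ Usco E (XX S) ζ := by
  classical
  intro H
  obtain ⟨O, hO⟩ : ∃ O : ℕ → Set E, TopologicalSpace.IsTopologicalBasis (range O) := by
    obtain ⟨b, hb1, hb2, hb3⟩ := TopologicalSpace.exists_countable_basis E
    have hne : b.Nonempty := by
      by_contra hemp
      rw [Set.not_nonempty_iff_eq_empty] at hemp
      obtain ⟨U, hU, -⟩ := hb3.exists_subset_of_mem_open (mem_univ (ζ 0)) isOpen_univ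
      rw [hemp] at hU
      exact hU
    obtain ⟨O, hO⟩ := hb1.exists_eq_range hne
    exact ⟨O, hO ▸ hb3⟩
  let ρ : B → Set (ℕ × ℕ) := fun x => {p | ∃ a : Tp S, x ∈ range a.1.2 ∧ ζ (prj a) ∈ O p.1 ∧ p.2 ≤ D a.1.1 x}
  obtain ⟨s, hs, r, hr⟩ := hS ρ
  choose t ht1 ht2 ht3 using hr
  let a0 : Tp S := ⟨(s, t), hs, fun m => ⟨ht1 m, ht3 m⟩⟩
  let x : B := t 0
  have hx : x ∈ S := ht1 0
  have h1 : ∀ n M, ζ (prj a0) ∈ O n → ∃ a : Tp S, x ∈ range a.1.2 ∧ ζ (prj a) ∈ O n ∧ M ≤ D a.1.1 x := by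
    intro n M hn
    have h2 : ((n, M) : ℕ × ℕ) ∈ ρ (t M) := by
      refine ⟨a0, ⟨M, rfl⟩, hn, le_D (s := s) (x := t M) ?_ fun i hi => (ht3 M i hi).symm⟩
      intro heq
      exact hs (heq ▸ ht1 M)
    rw [ht2 M, ← ht2 0] at h2
    exact h2
  obtain ⟨W, hW⟩ := (𝓝 (ζ (prj a0))).exists_antitone_basis
  have h2 : ∀ i M, ∃ a : Tp S, x ∈ range a.1.2 ∧ ζ (prj a) ∈ W i ∧ M ≤ D a.1.1 x := by
    intro i M
    obtain ⟨U, ⟨n, rfl⟩, hU1, hU2⟩ := hO.mem_nhds_iff.mp (hW.1.mem_of_mem (i := i) trivial)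
    obtain ⟨a, ha1, ha2, ha3⟩ := h1 n M hU1
    exact ⟨a, ha1, hU2 ha2, ha3⟩
  choose f hf1 hf2 hf3 using h2
  let a : ℕ → Tp S := fun n => Nat.rec (f 0 0) (fun i ai => f (i + 1) (D ai.1.1 x + 1)) n
  have ha : ∀ n, a (n + 1) = f (n + 1) (D (a n).1.1 x + 1) := fun n => rfl
  have hax : ∀ n, x ∈ range (a n).1.2 := by
    intro n
    cases n with
    | zero => exact hf1 0 0
    | succ n => rw [ha]; exact hf1 _ _
  have haW : ∀ n, ζ (prj (a n)) ∈ W n := by
    intro n
    cases n with
    | zero => exact hf2 0 0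
    | succ n => rw [ha]; exact hf2 _ _
  have hmono : StrictMono fun n => D (a n).1.1 x := by
    refine strictMono_nat_of_lt_succ fun n => ?_
    have := hf3 (n + 1) (D (a n).1.1 x + 1)
    rw [← ha] at this
    exact this
  have hinj : Function.Injective a := fun i j hij => hmono.injective (by simp only [hij])
  have hadm : Adm (range a) := by
    refine Or.inr ⟨x, hx, ?_, ?_⟩
    · rintro _ ⟨n, rfl⟩
      exact hax n
    · rintro _ ⟨i, rfl⟩ _ ⟨j, rfl⟩ hij
      rw [hmono.injective hij]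
  let 𝓤 : Ultrafilter C(XX S, ℝ) := (hyperfilter ℕ).map fun n => prj (a n)
  have h3 : Tendsto ζ 𝓤 (𝓝 (ζ (prj a0))) := by
    rw [Ultrafilter.coe_map, Filter.tendsto_map'_iff]
    have h4 : Tendsto (ζ ∘ fun n => prj (a n)) atTop (𝓝 (ζ (prj a0))) := by
      rw [hW.1.tendsto_right_iff]
      intro i _
      filter_upwards [eventually_ge_atTop i] with n hn
      exact hW.2 hn (haW n)
    refine h4.mono_left ?_
    rw [← Nat.cofinite_eq_atTop]
    exact hyperfilter_le_cofinite
  obtain ⟨g, hg⟩ := H _ 𝓤 h3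
  have hFadm : ∀ k, Adm (a '' Iio k) := fun k => hadm.mono (image_subset_range _ _)
  -- values at the finite subsets
  have h5 : ∀ k, g (chr _ (hFadm k)) = 0 := by
    intro k
    have h6 := hg (chr _ (hFadm k))
    rw [Ultrafilter.coe_map, Filter.tendsto_map'_iff] at h6
    have h7 : Tendsto ((fun f : C(XX S, ℝ) => f (chr _ (hFadm k))) ∘ fun n => prj (a n)) (hyperfilter ℕ) (𝓝 0) := by
      refine tendsto_const_nhds.congr' ?_
      have h8 : ∀ᶠ n in (hyperfilter ℕ : Filter ℕ), k ≤ n := by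
        have : ∀ᶠ n in (atTop : Filter ℕ), k ≤ n := eventually_ge_atTop k
        rw [← Nat.cofinite_eq_atTop] at this
        exact hyperfilter_le_cofinite this
      filter_upwards [h8] with n hn
      simp only [Function.comp]
      rw [prj_apply, if_neg]
      rw [chr_apply]
      rintro ⟨j, hj, hja⟩
      have := hinj hja
      subst this
      exact absurd hj (not_lt.mpr hn)
    exact tendsto_nhds_unique h6 h7
  have h9 : g (chr _ hadm) = 1 := by
    have h6 := hg (chr _ hadm)
    rw [Ultrafilter.coe_map, Filter.tendsto_map'_iff] at h6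
    have h7 : Tendsto ((fun f : C(XX S, ℝ) => f (chr _ hadm)) ∘ fun n => prj (a n)) (hyperfilter ℕ) (𝓝 1) := by
      refine tendsto_const_nhds.congr ?_
      intro n
      simp only [Function.comp]
      rw [prj_apply, if_pos]
      rw [chr_apply]
      exact ⟨n, rfl⟩
    exact tendsto_nhds_unique h6 h7
  have h10 : Tendsto (fun k => chr _ (hFadm k)) atTop (𝓝 (chr _ hadm)) := by
    rw [tendsto_subtype_rng, tendsto_pi_nhds]
    intro b
    refine tendsto_const_nhds.congr' ?_
    by_cases hb : b ∈ range a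
    · obtain ⟨n, rfl⟩ := hb
      filter_upwards [eventually_gt_atTop n] with k hk
      have e1 : (chr _ hadm).1 (a n) = true := (chr_apply _ _ _).mpr ⟨n, rfl⟩
      have e2 : (chr _ (hFadm k)).1 (a n) = true := (chr_apply _ _ _).mpr ⟨n, hk, rfl⟩
      rw [e1, e2]
    · refine Eventually.of_forall fun k => ?_
      have e1 : (chr _ hadm).1 b = false := by
        rw [← Bool.not_eq_true, chr_apply]; exact hb
      have e2 : (chr _ (hFadm k)).1 b = false := by
        rw [← Bool.not_eq_true, chr_apply]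
        rintro ⟨n, -, rfl⟩
        exact hb ⟨n, rfl⟩
      rw [e1]
      exact e2.symm
  have h11 := (g.continuous.tendsto _).comp h10
  have h12 : Tendsto (fun _ : ℕ => (0 : ℝ)) atTop (𝓝 1) := by
    rw [← h9]
    refine h11.congr fun k => ?_
    simp only [Function.comp]
    exact h5 k
  exact zero_ne_one (tendsto_nhds_unique tendsto_const_nhds h12)

end Pool.Agent.Helper639.Gu
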