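import Pool.Agent.Helper639.GuB
import Pool.Agent.Helper535.W

open Set Filter Topology Cardinal

namespace Pool.Agent.Helper639.Gu

open Pool.Agent.Helper535

variable {S : Set B}

/-- spaces living on few coordinates are Gul'ko compact -/
theorem gs_small {T0 : Set (Tp S)} (hT : #T0 ≤ continuum) :
    ∃ (E : Type) (_ : TopologicalSpace E) (_ : SecondCountableTopology E), ∀ (L : Type) [TopologicalSpace L]
      (j : L → XX S), Continuous j → Function.Injective j → (∀ y, ∀ a, (j y).1 a = true → a ∈ T0) →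
      GS E L := by
  classical
  let V0 : Set V := {v | ∃ a ∈ T0, ∃ i, a.1.1 i = v}
  have hV0 : #V0 ≤ #(ℕ → Bool) := by
    let F : T0 × ℕ → V0 := fun p => ⟨p.1.1.1.1 p.2, p.1.1, p.1.2, p.2, rfl⟩
    have hF : Function.Surjective F := by
      rintro ⟨v, a, ha, i, hi⟩
      exact ⟨(⟨a, ha⟩, i), Subtype.ext hi⟩
    refine (Cardinal.mk_le_of_surjective hF).trans ?_
    have h1 : #(ℕ → Bool) = continuum := by simp
    rw [h1, Cardinal.mk_prod, Cardinal.lift_id, Cardinal.lift_id, Cardinal.mk_nat]
    calc #T0 * ℵ₀ ≤ continuum * ℵ₀ := mul_le_mul_left hT _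
      _ = continuum := by simp
  obtain ⟨emb⟩ := Cardinal.le_def _ _ |>.mp hV0
  let g : V → (ℕ → Bool) := fun v => if h : v ∈ V0 then emb ⟨v, h⟩ else fun _ => false
  have hg : InjOn g V0 := by
    intro v hv w hw h
    simp only [g, dif_pos hv, dif_pos hw] at h
    have := emb.injective h
    exact congrArg Subtype.val this
  let E0 : Set (ℕ → (ℕ → Bool)) := {w | ∃ s : B, s ∉ S ∧ (∀ i, s i ∈ V0) ∧ w = fun i => g (s i)}
  refine ⟨E0, inferInstance, inferInstance, ?_⟩
  intro L _ j hj hinj hsupp
  let e : T0 → E0 := fun a => ⟨fun i => g (a.1.1.1 i), a.1.1.1, a.1.2.1, fun i => ⟨a.1, a.2, i, rfl⟩, rfl⟩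
  let J : C(L, XX S) := ⟨j, hj⟩
  have hval : ∀ (a : Tp S) (y : L), (prj a).comp J y = if (j y).1 a = true then 1 else 0 := fun a y => rfl
  refine ⟨T0, fun a => (prj a.1).comp J, e, ⟨?_, ?_⟩, ?_⟩
  · intro a y
    rw [hval]
    split_ifs <;> simp
  · rintro y ⟨w, s, hs, hsV, rfl⟩ ε hε
    have hsub : ∀ a : T0, ε ≤ |(prj a.1).comp J y| → (j y).1 a.1 = true := by
      intro a ha
      by_contra hne
      rw [hval, if_neg hne, abs_zero] at ha
      exact absurd hε (not_lt.mpr ha)
    rcases (j y).2 with hemp | ⟨x, hx, h1, h2⟩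
    · refine ⟨univ, univ_mem, ?_⟩
      refine Set.finite_empty.subset ?_
      rintro a ⟨-, ha⟩
      have h3 : a.1 ∈ {a | (j y).1 a = true} := hsub a ha
      rw [hemp] at h3
      exact h3
    · have hsx : s ≠ x := fun h => hs (h ▸ hx)
      obtain ⟨i, hi⟩ : ∃ i, s i ≠ x i := Function.ne_iff.mp hsx
      have hfin : {a : T0 | (j y).1 a.1 = true ∧ D a.1.1.1 x ≤ i}.Finite := by
        refine Set.Finite.of_finite_image (f := fun a : T0 => D a.1.1.1 x) ?_ ?_
        · refine (Set.finite_Iic i).subset ?_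
          rintro _ ⟨a, ha, rfl⟩
          exact ha.2
        · intro a ha b hb hab
          exact Subtype.ext (h2 ha.1 hb.1 hab)
      by_cases hxi : x i ∈ V0
      · have hgne : g (s i) ≠ g (x i) := fun h => hi (hg (hsV i) hxi h)
        refine ⟨{w : E0 | w.1 i ≠ g (x i)}, ?_, ?_⟩
        · have hc : Continuous (fun w : E0 => w.1 i) := (continuous_apply i).comp continuous_subtype_val
          exact (isOpen_ne_fun hc continuous_const).mem_nhds hgne
        · refine hfin.subset ?_
          rintro a ⟨ha1, ha2⟩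
          refine ⟨hsub a ha2, D_le fun h => ha1 ?_⟩
          show g (a.1.1.1 i) = g (x i)
          rw [h]
      · refine ⟨univ, univ_mem, ?_⟩
        refine hfin.subset ?_
        rintro a ⟨-, ha2⟩
        refine ⟨hsub a ha2, D_le fun h => hxi ?_⟩
        exact ⟨a.1, a.2, i, h⟩
  · intro y z hyz
    apply hinj
    apply Subtype.ext
    funext a
    by_cases ha : a ∈ T0
    · have h1 := hyz ⟨a, ha⟩
      rw [hval, hval] at h1
      by_cases h2 : (j y).1 a = true <;> by_cases h3 : (j z).1 a = true
      · rw [h2, h3]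
      · rw [if_pos h2, if_neg h3] at h1; exact absurd h1 one_ne_zero
      · rw [if_neg h2, if_pos h3] at h1; exact absurd h1.symm one_ne_zero
      · rw [Bool.not_eq_true] at h2 h3; rw [h2, h3]
    · have h2 : (j y).1 a = false := by
        rw [← Bool.not_eq_true]; exact fun h => ha (hsupp y a h)
      have h3 : (j z).1 a = false := by
        rw [← Bool.not_eq_true]; exact fun h => ha (hsupp z a h)
      rw [h2, h3]

/-- the closure of a small set lives on few coordinates -/
theorem small_coords {A : Set (XX S)} (hA : #A ≤ continuum) :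
    ∃ T0 : Set (Tp S), #T0 ≤ continuum ∧ ∀ y ∈ closure A, ∀ a, y.1 a = true → a ∈ T0 := by
  classical
  let T0 : Set (Tp S) := {a | ∃ y ∈ A, y.1 a = true}
  refine ⟨T0, ?_, ?_⟩
  · have h1 : ∀ y : A, ∃ f : Tp S → ℕ, InjOn f {a | y.1.1 a = true} := fun y =>
      Set.countable_iff_exists_injOn.mp y.1.2.countable
    choose f hf using h1
    have h2 : ∀ a : T0, ∃ y : A, y.1.1 a.1 = true := by
      rintro ⟨a, y, hy, hya⟩
      exact ⟨⟨y, hy⟩, hya⟩
    choose u hu using h2
    have h3 : Function.Injective (fun a : T0 => (u a, f (u a) a.1)) := by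
      intro a b hab
      simp only [Prod.mk.injEq] at hab
      obtain ⟨h4, h5⟩ := hab
      apply Subtype.ext
      refine hf (u a) (hu a) ?_ ?_
      · show (u a).1.1 b.1 = true
        rw [h4]; exact hu b
      · rw [h5, h4]
    refine (Cardinal.mk_le_of_injective h3).trans ?_
    rw [Cardinal.mk_prod, Cardinal.lift_id, Cardinal.lift_id, Cardinal.mk_nat]
    calc #A * ℵ₀ ≤ continuum * ℵ₀ := mul_le_mul_left hA _
      _ = continuum := by simp
  · have h1 : IsClosed {y : XX S | ∀ a, a ∉ T0 → y.1 a = false} := by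
      have : {y : XX S | ∀ a, a ∉ T0 → y.1 a = false} = ⋂ a ∈ {a | a ∉ T0}, {y : XX S | y.1 a = false} := by
        ext y
        simp
      rw [this]
      refine isClosed_biInter fun a _ => ?_
      exact isClosed_eq ((continuous_apply a).comp continuous_subtype_val) continuous_const
    have h2 : closure A ⊆ {y : XX S | ∀ a, a ∉ T0 → y.1 a = false} := by
      refine closure_minimal ?_ h1
      intro y hy a ha
      rw [← Bool.not_eq_true]
      exact fun h => ha ⟨y, hy, h⟩
    intro y hy a hya
    by_contra hT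
    rw [h2 hy a hT] at hya
    exact Bool.false_ne_true hya

end Pool.Agent.Helper639.Gu
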