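import Pool.Agent.Helper639.GuC

open Set Filter Topology Cardinal

namespace Pool.Agent.Helper639.Gu

open Pool.Agent.Helper535

/-- intersection with a closed set -/
theorem LSg_inter_closed {K : Type*} [TopologicalSpace K] {A Z : Set K} (hA : LSg A) (hZ : IsClosed Z) :
    LSg (A ∩ Z) := by
  obtain ⟨𝓒, a1, a2, a3, a4⟩ := hA
  refine ⟨(fun C => C ∩ Z) '' 𝓒, a1.image _, ?_, ?_, ?_⟩
  · rintro _ ⟨C, hC, rfl⟩
    exact (a2 C hC).inter hZ
  · rintro a ⟨ha, haZ⟩
    obtain ⟨C, hC, haC, hcpt⟩ := a3 a ha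
    exact ⟨C ∩ Z, ⟨C, hC, rfl⟩, ⟨haC, haZ⟩, hcpt.inter_right hZ⟩
  · rintro a ⟨ha, haZ⟩ b hb
    by_cases hbZ : b ∈ Z
    · have hbA : b ∉ A := fun h => hb ⟨h, hbZ⟩
      obtain ⟨C, hC, haC, hbC⟩ := a4 a ha b hbA
      exact ⟨C ∩ Z, ⟨C, hC, rfl⟩, ⟨haC, haZ⟩, fun h => hbC h.1⟩
    · obtain ⟨C, hC, haC, -⟩ := a3 a ha
      exact ⟨C ∩ Z, ⟨C, hC, rfl⟩, ⟨haC, haZ⟩, fun h => hbZ h.2⟩

/-- closed subsets of (compact) x (separable metrizable) -/
def Form {X : Type} (A : Set (X → ℝ)) : Prop :=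
  ∃ (ι : Type) (F : Set ((ι → unitInterval) × (ℕ → unitInterval)))
          (g : (ι → unitInterval) × (ℕ → unitInterval) → (X → ℝ)),
          F = closure F ∩ (Set.univ ×ˢ (Prod.snd '' F)) ∧ ContinuousOn g F ∧ g '' F = A

theorem form_of_LSg {X : Type} {A : Set (X → ℝ)} (hA : LSg A) : Form A := by
  classical
  let j : (X → ℝ) → (X → unitInterval) := fun f x => unitInterval.sigmoid (f x)
  have hj : IsInducing j := IsInducing.piMap fun _ => Topology.isEmbedding_sigmoid.isInducing
  have hjinj : Function.Injective j := by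
    intro f f' h
    funext x
    exact Topology.isEmbedding_sigmoid.injective (congrFun h x)
  obtain ⟨𝓒, a1, a2, a3, a4⟩ := hA.image hj.continuous
  obtain ⟨C, hC⟩ := (a1.insert Set.univ).exists_eq_range ⟨Set.univ, mem_insert _ _⟩
  have hCcl : ∀ n, IsClosed (C n) := by
    intro n
    have : C n ∈ insert Set.univ 𝓒 := by rw [hC]; exact ⟨n, rfl⟩
    rcases this with h | h
    · rw [h]; exact isClosed_univ
    · exact a2 _ h
  let M0 : Set (ℕ → unitInterval) := {σ | ∀ y, (∀ n, σ n = 1 → y ∈ C n) → y ∈ j '' A}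
  let Q : Set ((X → unitInterval) × (ℕ → unitInterval)) := {p | ∀ n, p.2 n = 0 ∨ (p.2 n = 1 ∧ p.1 ∈ C n)}
  have hQ : IsClosed Q := by
    have : Q = ⋂ n, {p : (X → unitInterval) × (ℕ → unitInterval) | p.2 n = 0} ∪
        ({p : (X → unitInterval) × (ℕ → unitInterval) | p.2 n = 1} ∩ {p | p.1 ∈ C n}) := by
      ext p
      simp [Q]
    rw [this]
    refine isClosed_iInter fun n => ?_
    have hc : Continuous (fun p : (X → unitInterval) × (ℕ → unitInterval) => p.2 n) :=
      (continuous_apply n).comp continuous_snd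
    exact (isClosed_eq hc continuous_const).union
      ((isClosed_eq hc continuous_const).inter ((hCcl n).preimage continuous_fst))
  let F : Set ((X → unitInterval) × (ℕ → unitInterval)) := {p | p ∈ Q ∧ p.2 ∈ M0}
  have hFj : ∀ p ∈ F, p.1 ∈ j '' A := by
    rintro p ⟨hp1, hp2⟩
    refine hp2 p.1 fun n hn => ?_
    rcases hp1 n with h | h
    · rw [h] at hn
      exact absurd hn zero_ne_one
    · exact h.2
  refine ⟨X, F, fun p => Function.invFun j p.1, ?_, ?_, ?_⟩
  · apply Subset.antisymm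
    · intro p hp
      exact ⟨subset_closure hp, mem_univ _, ⟨p, hp, rfl⟩⟩
    · rintro p ⟨hp1, -, ⟨q, hq, hqp⟩⟩
      have h1 : closure F ⊆ Q := closure_minimal (fun p hp => hp.1) hQ
      exact ⟨h1 hp1, hqp ▸ hq.2⟩
  · rw [continuousOn_iff_continuous_domRestrict, hj.continuous_iff]
    have h1 : (j ∘ F.domRestrict fun p => Function.invFun j p.1) = fun p : F => p.1.1 := by
      funext p
      obtain ⟨f, hf, hfp⟩ := hFj p.1 p.2
      show j (Function.invFun j p.1.1) = p.1.1
      rw [← hfp, Function.leftInverse_invFun hjinj f]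
    rw [h1]
    exact continuous_fst.comp continuous_subtype_val
  · apply Subset.antisymm
    · rintro _ ⟨p, hp, rfl⟩
      obtain ⟨f, hf, hfp⟩ := hFj p hp
      show Function.invFun j p.1 ∈ A
      rw [← hfp, Function.leftInverse_invFun hjinj f]
      exact hf
    · intro f hf
      refine ⟨(j f, fun n => if j f ∈ C n then 1 else 0), ⟨?_, ?_⟩, ?_⟩
      · intro n
        by_cases h : j f ∈ C n
        · right; simp [h]
        · left; simp [h]
      · intro y hy
        by_contra hyA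
        obtain ⟨C', hC', h1, h2⟩ := a4 (j f) ⟨f, hf, rfl⟩ y hyA
        have h3 : C' ∈ range C := by rw [← hC]; exact mem_insert_of_mem _ hC'
        obtain ⟨n, rfl⟩ := h3
        apply h2
        apply hy n
        simp [h1]
      · exact Function.leftInverse_invFun hjinj f

theorem usco_of_form {X : Type} [TopologicalSpace X] (h : Form {f : X → ℝ | Continuous f}) :
    ∃ (E : Type) (_ : TopologicalSpace E) (_ : SecondCountableTopology E)
      (ζ : C(X, ℝ) → E), Usco E X ζ := by
  obtain ⟨ι, F, g, hF, hg, him⟩ := h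
  have hw : ∀ f : C(X, ℝ), ∃ p ∈ F, g p = f := by
    intro f
    have : (f : X → ℝ) ∈ g '' F := by rw [him]; exact f.continuous
    exact this
  choose w hwF hwg using hw
  refine ⟨(Prod.snd '' F : Set (ℕ → unitInterval)), inferInstance, inferInstance,
    fun f => ⟨(w f).2, w f, hwF f, rfl⟩, ?_⟩
  rintro ⟨z, hz⟩ 𝓤 h𝓤
  have h1 : Tendsto (fun f => (w f).2) 𝓤 (𝓝 z) := (continuous_subtype_val.tendsto _).comp h𝓤
  obtain ⟨y, -, hy⟩ := (isCompact_univ (X := ι → unitInterval)).ultrafilter_le_nhds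
    (𝓤.map fun f => (w f).1) (by simp)
  have h2 : Tendsto (fun f => (w f).1) 𝓤 (𝓝 y) := hy
  have h3 : Tendsto w 𝓤 (𝓝 (y, z)) := h2.prodMk_nhds h1
  have h4 : (y, z) ∈ F := by
    rw [hF]
    refine ⟨?_, mem_univ _, hz⟩
    exact mem_closure_of_tendsto h3 (Eventually.of_forall hwF)
  have h5 : Tendsto w 𝓤 (𝓝[F] (y, z)) := tendsto_nhdsWithin_of_tendsto_nhds_of_eventually_within _ h3
    (Eventually.of_forall hwF)
  have h6 := (hg (y, z) h4).tendsto.comp h5
  have h7 : Continuous (g (y, z)) := by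
    have : g (y, z) ∈ {f : X → ℝ | Continuous f} := by rw [← him]; exact ⟨_, h4, rfl⟩
    exact this
  refine ⟨⟨g (y, z), h7⟩, fun x => ?_⟩
  have h8 := (continuous_apply x).tendsto (g (y, z)) |>.comp h6
  refine h8.congr fun f => ?_
  simp only [Function.comp, hwg]

variable {S : Set B}

/-- continuous functions depend on countably many coordinates -/
theorem depend (f : XX S → ℝ) (hf : Continuous f) : ∃ T : Set (Tp S), T.Countable ∧
    ∀ χ ψ : XX S, (∀ a ∈ T, χ.1 a = ψ.1 a) → f χ = f ψ := by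
  classical
  have h1 : ∀ ε : ℝ, 0 < ε → ∃ T : Finset (Tp S), ∀ χ ψ : XX S, (∀ a ∈ T, χ.1 a = ψ.1 a) → |f χ - f ψ| ≤ ε := by
    intro ε hε
    have h2 : ∀ χ : XX S, ∃ T : Finset (Tp S), ∀ ψ : XX S, (∀ a ∈ T, ψ.1 a = χ.1 a) → |f ψ - f χ| < ε / 2 := by
      intro χ
      have h3 : IsOpen {ψ : XX S | |f ψ - f χ| < ε / 2} :=
        isOpen_lt (by fun_prop) continuous_const
      obtain ⟨U, hU, hUe⟩ := isOpen_induced_iff.mp h3
      have h4 : χ.1 ∈ U := by
        have : χ ∈ Subtype.val ⁻¹' U := by rw [hUe]; simpa using by linarith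
        exact this
      obtain ⟨I, u, hu1, hu2⟩ := isOpen_pi_iff.mp hU χ.1 h4
      refine ⟨I, fun ψ hψ => ?_⟩
      have : ψ ∈ Subtype.val ⁻¹' U := by
        apply hu2
        intro a ha
        rw [hψ a ha]
        exact (hu1 a ha).2
      rw [hUe] at this
      exact this
    choose T hT using h2
    obtain ⟨t, -, ht⟩ := (isCompact_univ (X := XX S)).elim_nhds_subcover
      (fun χ => {ψ : XX S | ∀ a ∈ T χ, ψ.1 a = χ.1 a}) (by
        intro χ _
        have : IsOpen {ψ : XX S | ∀ a ∈ T χ, ψ.1 a = χ.1 a} := by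
          have e : {ψ : XX S | ∀ a ∈ T χ, ψ.1 a = χ.1 a} = ⋂ a ∈ T χ, {ψ : XX S | ψ.1 a = χ.1 a} := by
            ext ψ; simp
          rw [e]
          refine isOpen_biInter_finset fun a _ => ?_
          have hc : Continuous (fun ψ : XX S => ψ.1 a) := (continuous_apply a).comp continuous_subtype_val
          exact (isOpen_discrete ({χ.1 a} : Set Bool)).preimage hc
        exact this.mem_nhds fun a _ => rfl)
    refine ⟨t.biUnion T, fun χ ψ hχψ => ?_⟩
    have h5 : χ ∈ ⋃ χ ∈ t, {ψ : XX S | ∀ a ∈ T χ, ψ.1 a = χ.1 a} := ht (mem_univ χ)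
    rw [mem_iUnion₂] at h5
    obtain ⟨θ, hθ, h6⟩ := h5
    have h7 := hT θ χ h6
    have h8 := hT θ ψ (by
      intro a ha
      rw [← hχψ a (Finset.mem_biUnion.mpr ⟨θ, hθ, ha⟩)]
      exact h6 a ha)
    have h9 : f χ - f ψ = (f χ - f θ) - (f ψ - f θ) := by ring
    rw [h9]
    calc |(f χ - f θ) - (f ψ - f θ)| ≤ |f χ - f θ| + |f ψ - f θ| := abs_sub _ _
      _ ≤ ε := by linarith
  choose T hT using fun n : ℕ => h1 (1 / ((n : ℝ) + 1)) (by positivity)
  refine ⟨⋃ n, (T n : Set (Tp S)), countable_iUnion fun n => (T n).countable_toSet, fun χ ψ h => ?_⟩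
  have h2 : ∀ n : ℕ, |f χ - f ψ| ≤ 1 / ((n : ℝ) + 1) := fun n =>
    hT n χ ψ fun a ha => h a (mem_iUnion.mpr ⟨n, ha⟩)
  have h3 : |f χ - f ψ| ≤ 0 := ge_of_tendsto' tendsto_one_div_add_atTop_nhds_zero_nat h2
  have h4 := abs_nonpos_iff.mp h3
  linarith

theorem closure_LSg {A : Set (XX S → ℝ)} (hAc : ∀ f ∈ A, Continuous f) (hA : #A ≤ continuum) :
    LSg (closure A ∩ {f : XX S → ℝ | Continuous f}) := by
  classical
  choose T hT1 hT2 using fun f : A => depend f.1 (hAc f.1 f.2)
  let T0 : Set (Tp S) := ⋃ f : A, T f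
  have hT0 : #T0 ≤ continuum := by
    have h1 : ∀ f : A, ∃ c : Tp S → ℕ, InjOn c (T f) := fun f => Set.countable_iff_exists_injOn.mp (hT1 f)
    choose c hc using h1
    have h2 : ∀ a : T0, ∃ f : A, a.1 ∈ T f := fun a => mem_iUnion.mp a.2
    choose u hu using h2
    have h3 : Function.Injective (fun a : T0 => (u a, c (u a) a.1)) := by
      intro a b hab
      simp only [Prod.mk.injEq] at hab
      obtain ⟨h4, h5⟩ := hab
      apply Subtype.ext
      refine hc (u a) (hu a) ?_ ?_
      · rw [h4]; exact hu b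
      · rw [h5, h4]
    refine (Cardinal.mk_le_of_injective h3).trans ?_
    rw [Cardinal.mk_prod, Cardinal.lift_id, Cardinal.lift_id, Cardinal.mk_nat]
    calc #A * ℵ₀ ≤ continuum * ℵ₀ := mul_le_mul_left hA _
      _ = continuum := by simp
  obtain ⟨E, _, _, hE⟩ := gs_small hT0
  let X0 : Set (XX S) := {χ | ∀ a, χ.1 a = true → a ∈ T0}
  have hX0 : IsClosed X0 := by
    have : X0 = ⋂ a ∈ {a | a ∉ T0}, {y : XX S | y.1 a = false} := by
      ext y
      simp only [X0, mem_ofPred_eq, mem_iInter]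
      constructor
      · intro h a ha
        rw [← Bool.not_eq_true]
        exact fun h' => ha (h a h')
      · intro h a ha
        by_contra hn
        rw [h a hn] at ha
        exact Bool.false_ne_true ha
    rw [this]
    refine isClosed_biInter fun a _ => ?_
    exact isClosed_eq ((continuous_apply a).comp continuous_subtype_val) continuous_const
  have hcpt : CompactSpace X0 := isCompact_iff_compactSpace.mp hX0.isCompact
  have hGS : GS E X0 := hE X0 Subtype.val continuous_subtype_val Subtype.val_injective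
    (fun y a h => y.2 a h)
  let r : XX S → X0 := fun χ => ⟨⟨fun a => if a ∈ T0 then χ.1 a else false, by
    refine Adm.mono χ.2 fun a ha => ?_
    by_cases h : a ∈ T0
    · simpa [h] using ha
    · simp [h] at ha⟩, by
    intro a ha
    by_contra h
    simp [h] at ha⟩
  have hr1 : ∀ χ a, a ∈ T0 → (r χ).1.1 a = χ.1 a := by
    intro χ a ha
    show (if a ∈ T0 then χ.1 a else false) = χ.1 a
    rw [if_pos ha]
  have hrc : Continuous r := by
    refine Continuous.subtype_mk (Continuous.subtype_mk (continuous_pi fun a => ?_) _) _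
    by_cases h : a ∈ T0
    · simp only [h, if_true]
      exact (continuous_apply a).comp continuous_subtype_val
    · simp only [h, if_false]
      exact continuous_const
  let R : (X0 → ℝ) → (XX S → ℝ) := fun h χ => h (r χ)
  have hR : Continuous R := continuous_pi fun χ => continuous_apply (r χ)
  have h1 : LSg (R '' {f : X0 → ℝ | Continuous f}) := (LSg_continuous hGS).image hR
  have h2 : closure A ∩ {f : XX S → ℝ | Continuous f} = R '' {f : X0 → ℝ | Continuous f} ∩ closure A := by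
    apply Subset.antisymm
    · rintro f ⟨hf1, hf2⟩
      refine ⟨⟨fun χ => f χ.1, hf2.comp continuous_subtype_val, ?_⟩, hf1⟩
      funext χ
      show f (r χ).1 = f χ
      have h3 : IsClosed {f : XX S → ℝ | f (r χ).1 = f χ} :=
        isClosed_eq (continuous_apply _) (continuous_apply _)
      have h4 : closure A ⊆ {f : XX S → ℝ | f (r χ).1 = f χ} := by
        refine closure_minimal ?_ h3
        intro f hf
        exact hT2 ⟨f, hf⟩ _ _ fun a ha => hr1 χ a (mem_iUnion.mpr ⟨⟨f, hf⟩, ha⟩)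
      exact h4 hf1
    · rintro _ ⟨⟨h, hh, rfl⟩, hcl⟩
      exact ⟨hcl, hh.comp hrc⟩
  rw [h2]
  exact LSg_inter_closed h1 isClosed_closure

end Pool.Agent.Helper639.Gu
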