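import Pool.Agent.Helper639.GuD

open Set Filter Topology Cardinal

namespace Pool.Agent.Helper639.InsG

open Pool.Agent.Helper535 Pool.Agent.Helper639.Gu

/-- Lindelof Sigma spaces: continuous images of closed subspaces of `K × M`, `K` compact
Hausdorff and `M` separable metrizable -/
def LindelofSigma (Z : Type) [TopologicalSpace Z] : Prop :=
  ∃ (K M : Type) (_ : TopologicalSpace K) (_ : TopologicalSpace M),
    CompactSpace K ∧ T2Space K ∧ TopologicalSpace.MetrizableSpace M ∧
      TopologicalSpace.SeparableSpace M ∧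
      ∃ (F : Set (K × M)) (g : F → Z), IsClosed F ∧ Continuous g ∧ Function.Surjective g

/-- the space of continuous real functions, as a subspace of the product -/
abbrev Cp (X : Type) [TopologicalSpace X] : Type := {f : X → ℝ // Continuous f}

theorem LindelofSigma.image {Z W : Type} [TopologicalSpace Z] [TopologicalSpace W]
    (h : LindelofSigma Z) (φ : Z → W) (hφ : Continuous φ) (hs : Function.Surjective φ) :
    LindelofSigma W := by
  obtain ⟨K, M, _, _, h1, h2, h3, h4, F, g, hF, hg, hgs⟩ := h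
  exact ⟨K, M, _, _, h1, h2, h3, h4, F, φ ∘ g, hF, hφ.comp hg, hs.comp hgs⟩

theorem ls_of_form {X : Type} {A : Set (X → ℝ)} (h : Form A) : LindelofSigma A := by
  obtain ⟨ι, F, g, hF, hg, him⟩ := h
  let φ : (ι → unitInterval) × (Prod.snd '' F : Set (ℕ → unitInterval)) →
      (ι → unitInterval) × (ℕ → unitInterval) := fun p => (p.1, p.2.1)
  have hφ : Continuous φ := by fun_prop
  have hmem : ∀ p, φ p ∈ F ↔ φ p ∈ closure F := by
    intro p
    constructor
    · intro h; exact subset_closure h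
    · intro h
      rw [hF]
      exact ⟨h, mem_univ _, p.2.2⟩
  refine ⟨ι → unitInterval, (Prod.snd '' F : Set (ℕ → unitInterval)), inferInstance, inferInstance,
    inferInstance, inferInstance, inferInstance, inferInstance, φ ⁻¹' F,
    fun p => ⟨g (φ p.1), ?_⟩, ?_, ?_, ?_⟩
  · rw [← him]; exact ⟨_, p.2, rfl⟩
  · have : φ ⁻¹' F = φ ⁻¹' (closure F) := by ext p; exact hmem p
    rw [this]
    exact isClosed_closure.preimage hφ
  · refine Continuous.subtype_mk ?_ _
    have h1 : Continuous (fun p : φ ⁻¹' F => (⟨φ p.1, p.2⟩ : F)) :=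
      (hφ.comp continuous_subtype_val).subtype_mk _
    exact (continuousOn_iff_continuous_restrict.mp hg).comp h1
  · rintro ⟨f, hf⟩
    rw [← him] at hf
    obtain ⟨⟨a, b⟩, hp, rfl⟩ := hf
    exact ⟨⟨(a, ⟨b, (a, b), hp, rfl⟩), hp⟩, rfl⟩

theorem usco_of_ls {X : Type} [TopologicalSpace X] (h : LindelofSigma (Cp X)) :
    ∃ (E : Type) (_ : TopologicalSpace E) (_ : SecondCountableTopology E)
      (ζ : C(X, ℝ) → E), Usco E X ζ := by
  obtain ⟨K, M, _, _, hK, hK2, hM, hMs, F, g, hF, hg, hgs⟩ := h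
  have hM2 : SecondCountableTopology M := by
    let _ := TopologicalSpace.metrizableSpaceMetric M
    exact UniformSpace.secondCountable_of_separable M
  choose w hw using fun f : C(X, ℝ) => hgs ⟨f, f.continuous⟩
  refine ⟨M, inferInstance, hM2, fun f => (w f).1.2, ?_⟩
  intro z 𝓤 h𝓤
  obtain ⟨y, -, hy⟩ := (isCompact_univ (X := K)).ultrafilter_le_nhds
    (𝓤.map fun f => (w f).1.1) (by simp)
  have h2 : Tendsto (fun f => (w f).1.1) 𝓤 (𝓝 y) := hy
  have h3 : Tendsto (fun f => (w f).1) 𝓤 (𝓝 (y, z)) := h2.prodMk_nhds h𝓤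
  have h4 : (y, z) ∈ F := hF.mem_of_tendsto h3 (Eventually.of_forall fun f => (w f).2)
  have h5 : Tendsto w 𝓤 (𝓝 ⟨(y, z), h4⟩) := by
    rw [tendsto_subtype_rng]
    exact h3
  have h6 : Tendsto (fun f => g (w f)) 𝓤 (𝓝 (g ⟨(y, z), h4⟩)) := (hg.tendsto _).comp h5
  refine ⟨⟨(g ⟨(y, z), h4⟩).1, (g ⟨(y, z), h4⟩).2⟩, fun x => ?_⟩
  have h7 : Tendsto (fun f => (g (w f)).1 x) 𝓤 (𝓝 ((g ⟨(y, z), h4⟩).1 x)) :=
    (((continuous_apply x).comp continuous_subtype_val).tendsto _).comp h6
  refine h7.congr fun f => ?_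
  rw [hw]

theorem ls_closure {X : Type} [TopologicalSpace X] (A : Set (Cp X))
    (h : LindelofSigma ↥(closure (Subtype.val '' A) ∩ {f : X → ℝ | Continuous f})) :
    LindelofSigma ↥(closure A) := by
  refine h.image (fun f => ⟨⟨f.1, f.2.2⟩, ?_⟩) ?_ ?_
  · rw [closure_subtype]; exact f.2.1
  · exact (continuous_subtype_val.subtype_mk _).subtype_mk _
  · rintro ⟨f, hf⟩
    exact ⟨⟨f.1, by rw [closure_subtype] at hf; exact ⟨hf, f.2⟩⟩, rfl⟩

theorem main : ∃ (X : Type) (_ : TopologicalSpace X), CompactSpace X ∧ T2Space X ∧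
    ¬ LindelofSigma (Cp X) ∧
    (∀ A : Set X, #A ≤ continuum → LindelofSigma (Cp (closure A))) ∧
    (∀ A : Set (Cp X), #A ≤ continuum → LindelofSigma (closure A)) := by
  obtain ⟨S, hS⟩ := exists_S
  refine ⟨XX S, inferInstance, inferInstance, inferInstance, ?_, ?_, ?_⟩
  · intro h
    obtain ⟨E, _, _, ζ, hζ⟩ := usco_of_ls h
    exact not_usco hS ζ hζ
  · intro A hA
    obtain ⟨T0, hT0, hcl⟩ := small_coords hA
    obtain ⟨E, _, _, hE⟩ := gs_small hT0
    have hcpt : CompactSpace (closure A) := isCompact_iff_compactSpace.mp isClosed_closure.isCompact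
    have h1 : GS E (closure A) := hE (closure A) Subtype.val continuous_subtype_val
      Subtype.val_injective (fun y a hya => hcl y.1 y.2 a hya)
    exact ls_of_form (form_of_LSg (LSg_continuous h1))
  · intro A hA
    apply ls_closure
    exact ls_of_form (form_of_LSg (closure_LSg (by rintro _ ⟨f, -, rfl⟩; exact f.2)
      (mk_image_le.trans hA)))

end Pool.Agent.Helper639.InsG
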