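import Mathlib

open Set Cardinal

namespace Pool.Agent.Helper639.K

/-- finite partial functions to `Bool`, as finite sets of pairs -/
abbrev Cnd (κ : Type) := Finset (κ × Bool)

def Sat {κ : Type} (x : κ → Bool) (p : Cnd κ) : Prop := ∀ e ∈ p, x e.1 = e.2

def Con {κ : Type} (p : Cnd κ) : Prop := ∀ k, (k, true) ∈ p → (k, false) ∈ p → False

theorem Sat.con {κ : Type} {x : κ → Bool} {p : Cnd κ} (h : Sat x p) : Con p := by
  intro k h1 h2
  have e1 := h _ h1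
  have e2 := h _ h2
  simp only at e1 e2
  rw [e1] at e2
  exact Bool.noConfusion e2

theorem Sat.mono {κ : Type} {x : κ → Bool} {p q : Cnd κ} (h : Sat x q) (hpq : p ⊆ q) : Sat x p :=
  fun e he => h e (hpq he)

theorem Con.mono {κ : Type} {p q : Cnd κ} (h : Con q) (hpq : p ⊆ q) : Con p :=
  fun k h1 h2 => h k (hpq h1) (hpq h2)

theorem Sat.union {κ : Type} [DecidableEq κ] {x : κ → Bool} {p q : Cnd κ} (h : Sat x p) (h' : Sat x q) :
    Sat x (p ∪ q) := by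
  intro e he
  rcases Finset.mem_union.mp he with he | he
  · exact h e he
  · exact h' e he

theorem Con.exists_sat {κ : Type} {p : Cnd κ} (h : Con p) : ∃ x : κ → Bool, Sat x p := by
  classical
  refine ⟨fun k => decide ((k, true) ∈ p), ?_⟩
  rintro ⟨k, b⟩ he
  cases b with
  | true => simpa using he
  | false =>
    simp only [decide_eq_false_iff_not]
    exact fun h1 => h k h1 he

/-- predense families -/
def PD {κ : Type} (𝒟 : Set (Cnd κ)) : Prop := ∀ p : Cnd κ, Con p → ∃ r ∈ 𝒟, ∃ x : κ → Bool, Sat x p ∧ Sat x r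

theorem generic {κ : Type} {𝓛 : Set (Set (Cnd κ))} (hL : 𝓛.Countable) {p : Cnd κ} (hp : Con p) :
    ∃ x : κ → Bool, Sat x p ∧ ∀ 𝒟 ∈ 𝓛, PD 𝒟 → ∃ r ∈ 𝒟, Sat x r := by
  classical
  obtain ⟨D, hD⟩ := (hL.insert ∅).exists_eq_range ⟨∅, mem_insert _ _⟩
  have hstep : ∀ (n : ℕ) (q : {q : Cnd κ // Con q}), ∃ q' : {q : Cnd κ // Con q}, q.1 ⊆ q'.1 ∧
      (PD (D n) → ∃ r ∈ D n, r ⊆ q'.1) := by
    intro n q
    by_cases h : PD (D n)
    · obtain ⟨r, hr, x, h1, h2⟩ := h q.1 q.2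
      exact ⟨⟨q.1 ∪ r, (h1.union h2).con⟩, Finset.subset_union_left, fun _ => ⟨r, hr, Finset.subset_union_right⟩⟩
    · exact ⟨q, Finset.Subset.refl _, fun h' => absurd h' h⟩
  choose f hf1 hf2 using hstep
  let s : ℕ → {q : Cnd κ // Con q} := fun n => Nat.rec ⟨p, hp⟩ (fun n q => f n q) n
  have hs : ∀ n, s (n + 1) = f n (s n) := fun n => rfl
  have hmono : Monotone fun n => (s n).1 := monotone_nat_of_le_succ fun n => by rw [hs]; exact hf1 _ _
  have hsat : ∀ n, Sat (fun k => decide (∃ n, (k, true) ∈ (s n).1)) (s n).1 := by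
    intro n
    rintro ⟨k, b⟩ he
    cases b with
    | true => simp only [decide_eq_true_eq]; exact ⟨n, he⟩
    | false =>
      simp only [decide_eq_false_iff_not]
      rintro ⟨m, hm⟩
      exact (s (max m n)).2 k (hmono (le_max_left m n) hm) (hmono (le_max_right m n) he)
  refine ⟨_, hsat 0, ?_⟩
  intro 𝒟 h𝒟 hPD
  have : 𝒟 ∈ range D := by rw [← hD]; exact mem_insert_of_mem _ h𝒟
  obtain ⟨n, rfl⟩ := this
  obtain ⟨r, hr, hsub⟩ := hf2 n (s n) hPD
  refine ⟨r, hr, (hsat (n + 1)).mono ?_⟩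
  rw [hs]; exact hsub

theorem exists_rec {Ω X : Type} [LinearOrder Ω] [WellFoundedLT Ω] [Nonempty X] (P : Ω → (Ω → X) → X → Prop)
    (hex : ∀ α g, ∃ x, P α g x) (hcongr : ∀ α g g' x, (∀ β < α, g β = g' β) → P α g x → P α g' x) :
    ∃ G : Ω → X, ∀ α, P α G (G α) := by
  classical
  choose f hf using hex
  let F : (α : Ω) → ((β : Ω) → β < α → X) → X := fun α prev =>
    f α (fun β => if h : β < α then prev β h else Classical.arbitrary X)
  let G : Ω → X := WellFounded.fix (wellFounded_lt (α := Ω)) F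
  have hG : ∀ α, G α = f α (fun β => if β < α then G β else Classical.arbitrary X) := by
    intro α
    have := WellFounded.fix_eq (wellFounded_lt (α := Ω)) F α
    simp only [F] at this
    simpa [G, F] using this
  refine ⟨G, fun α => ?_⟩
  have h1 := hf α (fun β => if β < α then G β else Classical.arbitrary X)
  rw [← hG] at h1
  refine hcongr _ _ _ _ ?_ h1
  intro β hβ
  simp [hβ]

variable {Ω : Type} [LinearOrder Ω]

/-- the two-variable function coded by rows and columns -/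
def WW (tau : Ω → Bool) (g : Ω → (Ω → Bool) × (Ω → Bool)) (a b : Ω) : Bool :=
  if b < a then (g a).1 b else if a < b then (tau a && (g b).2 a) else true

open Classical in
/-- truncation -/
noncomputable def tr (W : Ω → Ω → Bool) (α : Ω) (a b : Ω) : Bool := if a < α ∧ b < α then W a b else false

open Classical in
/-- the part of a condition at an index -/
noncomputable def part (j : ℕ) (q : Cnd (ℕ × Ω)) : Cnd Ω :=
  (q.filter (fun e => e.1.1 = j)).image (fun e => (e.1.2, e.2))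

theorem mem_part {j : ℕ} {q : Cnd (ℕ × Ω)} {e : Ω × Bool} : e ∈ part j q ↔ ((j, e.1), e.2) ∈ q := by
  classical
  unfold part
  constructor
  · intro h
    obtain ⟨e', h1, h2⟩ := Finset.mem_image.mp h
    obtain ⟨h3, h4⟩ := Finset.mem_filter.mp h1
    obtain ⟨⟨j', ξ⟩, b⟩ := e'
    simp only at h4 h2
    subst h4
    rw [← h2]
    exact h3
  · intro h
    exact Finset.mem_image.mpr ⟨((j, e.1), e.2), Finset.mem_filter.mpr ⟨h, rfl⟩, rfl⟩

/-- sections of a family of conditions -/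
def sec (W : Ω → Ω → Bool) (A : ℕ → Cnd (ℕ × Ω)) (v : Finset (ℕ × Ω)) (j0 : ℕ) : Set (Cnd Ω) :=
  {r | ∃ i, r = part j0 (A i) ∧ ∀ e ∈ A i, e.1.1 ≠ j0 → ∃ a, (e.1.1, a) ∈ v ∧ W a e.1.2 = e.2}

open Classical in
/-- families of conditions for the columns -/
def fam (W : Ω → Ω → Bool) (T : ℕ → ℕ → Ω) (h : Cnd (Ω × ℕ)) (ε : Cnd ℕ) (n : ℕ) : Set (Cnd Ω) :=
  {r | ∃ i ≥ n, (∀ e ∈ h, W (T i e.1.2) e.1.1 = e.2) ∧ r = ε.image (fun e => (T i e.1, e.2))}

/-- requirement at stage `α` -/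
def Req (e1 : Ω → ℕ → Cnd (ℕ × Ω)) (e2 : Ω → ℕ → ℕ → Ω) (pp : Ω → Cnd Ω) (α : Ω) (W : Ω → Ω → Bool)
    (x : (Ω → Bool) × (Ω → Bool)) : Prop :=
  (Con (pp α) → (∀ e ∈ pp α, e.1 < α) → Sat x.1 (pp α)) ∧
  (∀ η < α, ∀ v : Finset (ℕ × Ω), (∀ e ∈ v, e.2 < α) → ∀ j0, (∀ i, ∀ e ∈ e1 η i, e.1.2 < α) →
    PD (sec W (e1 η) v j0) → ∃ r ∈ sec W (e1 η) v j0, Sat x.1 r) ∧
  (∀ η < α, (∀ i j, e2 η i j < α) → ∀ h : Cnd (Ω × ℕ), (∀ e ∈ h, e.1.1 < α) → ∀ ε n,
    PD (fam W (e2 η) h ε n) → ∃ r ∈ fam W (e2 η) h ε n, Sat x.2 r)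

theorem countable_finset {β : Type} {C : Set β} (hC : C.Countable) :
    {v : Finset β | ∀ e ∈ v, e ∈ C}.Countable := by
  have : Countable C := hC
  refine (Set.countable_range (fun v : Finset C => v.map (Function.Embedding.subtype _))).mono ?_
  intro v hv
  classical
  refine ⟨v.subtype (· ∈ C), ?_⟩
  simp only
  rw [Finset.subtype_map]
  exact Finset.filter_true_of_mem hv

theorem req_exists (hc : ∀ a : Ω, (Set.Iic a).Countable) (e1 : Ω → ℕ → Cnd (ℕ × Ω)) (e2 : Ω → ℕ → ℕ → Ω)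
    (pp : Ω → Cnd Ω) (α : Ω) (W : Ω → Ω → Bool) : ∃ x, Req e1 e2 pp α W x := by
  classical
  have hIio : (Set.Iio α).Countable := (hc α).mono fun x hx => le_of_lt hx
  have hv : {v : Finset (ℕ × Ω) | ∀ e ∈ v, e ∈ {e : ℕ × Ω | e.2 < α}}.Countable := by
    apply countable_finset
    have : {e : ℕ × Ω | e.2 < α} = Set.univ ×ˢ Set.Iio α := by ext e; simp
    rw [this]
    exact Set.countable_univ.prod hIio
  have hh : {h : Cnd (Ω × ℕ) | ∀ e ∈ h, e ∈ {e : (Ω × ℕ) × Bool | e.1.1 < α}}.Countable := by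
    apply countable_finset
    have : {e : (Ω × ℕ) × Bool | e.1.1 < α} = (Set.Iio α ×ˢ Set.univ) ×ˢ Set.univ := by ext e; simp
    rw [this]
    exact (hIio.prod Set.countable_univ).prod Set.countable_univ
  let L1 : Set (Set (Cnd Ω)) := (fun t : Ω × Finset (ℕ × Ω) × ℕ => sec W (e1 t.1) t.2.1 t.2.2) ''
    (Set.Iio α ×ˢ ({v : Finset (ℕ × Ω) | ∀ e ∈ v, e ∈ {e : ℕ × Ω | e.2 < α}} ×ˢ Set.univ))
  let L2 : Set (Set (Cnd Ω)) := (fun t : Ω × Cnd (Ω × ℕ) × Cnd ℕ × ℕ => fam W (e2 t.1) t.2.1 t.2.2.1 t.2.2.2) ''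
    (Set.Iio α ×ˢ ({h : Cnd (Ω × ℕ) | ∀ e ∈ h, e ∈ {e : (Ω × ℕ) × Bool | e.1.1 < α}} ×ˢ (Set.univ ×ˢ Set.univ)))
  have hL1 : L1.Countable := (hIio.prod (hv.prod Set.countable_univ)).image _
  have hL2 : L2.Countable := (hIio.prod (hh.prod (Set.countable_univ.prod Set.countable_univ))).image _
  have hempty : Con (∅ : Cnd Ω) := fun k h1 _ => absurd h1 (Finset.notMem_empty _)
  obtain ⟨x1, hx1, hx1'⟩ : ∃ x : Ω → Bool, (Con (pp α) → Sat x (pp α)) ∧ ∀ 𝒟 ∈ L1, PD 𝒟 → ∃ r ∈ 𝒟, Sat x r := by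
    by_cases h : Con (pp α)
    · obtain ⟨x, h1, h2⟩ := generic hL1 h
      exact ⟨x, fun _ => h1, h2⟩
    · obtain ⟨x, h1, h2⟩ := generic hL1 hempty
      exact ⟨x, fun h' => absurd h' h, h2⟩
  obtain ⟨x2, -, hx2⟩ := generic hL2 hempty
  refine ⟨(x1, x2), fun h _ => hx1 h, ?_, ?_⟩
  · intro η hη v hv' j0 _ hPD
    exact hx1' _ ⟨(η, v, j0), ⟨hη, hv', trivial⟩, rfl⟩ hPD
  · intro η hη _ h hh' ε n hPD
    exact hx2 _ ⟨(η, h, ε, n), ⟨hη, hh', trivial, trivial⟩, rfl⟩ hPD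

/-- the generic function -/
theorem exists_w [WellFoundedLT Ω] (hc : ∀ a : Ω, (Set.Iic a).Countable) (e1 : Ω → ℕ → Cnd (ℕ × Ω))
    (e2 : Ω → ℕ → ℕ → Ω) (tau : Ω → Bool) (pp : Ω → Cnd Ω) :
    ∃ w : Ω → Ω → Bool,
      (∀ α, w α α = true) ∧
      (∀ α ξ, tau α = false → α < ξ → w α ξ = false) ∧
      (∀ α, Con (pp α) → (∀ e ∈ pp α, e.1 < α) → Sat (w α) (pp α)) ∧
      (∀ α, ∀ η < α, ∀ v : Finset (ℕ × Ω), (∀ e ∈ v, e.2 < α) → ∀ j0, (∀ i, ∀ e ∈ e1 η i, e.1.2 < α) →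
        PD (sec w (e1 η) v j0) → ∃ r ∈ sec w (e1 η) v j0, Sat (w α) r) ∧
      (∀ ξ, ∀ η < ξ, (∀ i j, e2 η i j < ξ) → ∀ h : Cnd (Ω × ℕ), (∀ e ∈ h, e.1.1 < ξ) → ∀ ε n,
        (∀ i, ∀ e ∈ ε, tau (e2 η i e.1) = true) →
        PD (fam w (e2 η) h ε n) → ∃ i ≥ n, (∀ e ∈ h, w (e2 η i e.1.2) e.1.1 = e.2) ∧
          ∀ e ∈ ε, w (e2 η i e.1) ξ = e.2) := by
  classical
  obtain ⟨G, hG⟩ := exists_rec (Ω := Ω) (X := (Ω → Bool) × (Ω → Bool))
    (fun α g x => Req e1 e2 pp α (tr (WW tau g) α) x) (fun α g => req_exists hc e1 e2 pp α _) (by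
      intro α g g' x hgg h
      have : tr (WW tau g) α = tr (WW tau g') α := by
        funext a b
        unfold tr
        by_cases hab : a < α ∧ b < α
        · rw [if_pos hab, if_pos hab]
          unfold WW
          rw [hgg a hab.1, hgg b hab.2]
        · rw [if_neg hab, if_neg hab]
      rw [← this]
      exact h)
  have htr : ∀ α a b, a < α → b < α → tr (WW tau G) α a b = WW tau G a b := by
    intro α a b ha hb
    unfold tr
    rw [if_pos ⟨ha, hb⟩]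
  have hrow : ∀ α ξ, ξ < α → WW tau G α ξ = (G α).1 ξ := by
    intro α ξ h
    unfold WW
    rw [if_pos h]
  have hcol : ∀ α ξ, α < ξ → WW tau G α ξ = (tau α && (G ξ).2 α) := by
    intro α ξ h
    unfold WW
    rw [if_neg (not_lt.mpr h.le), if_pos h]
  refine ⟨WW tau G, ?_, ?_, ?_, ?_, ?_⟩
  · intro α
    unfold WW
    simp
  · intro α ξ ht hlt
    rw [hcol α ξ hlt, ht]
    rfl
  · intro α h1 h2 e he
    rw [hrow α e.1 (h2 e he)]
    exact (hG α).1 h1 h2 e he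
  · intro α η hη v hv j0 hs hPD
    have hsec : sec (tr (WW tau G) α) (e1 η) v j0 = sec (WW tau G) (e1 η) v j0 := by
      ext r
      constructor
      · rintro ⟨i, h1, h2⟩
        refine ⟨i, h1, fun e he hne => ?_⟩
        obtain ⟨a, ha, hw⟩ := h2 e he hne
        exact ⟨a, ha, by rw [← htr α a e.1.2 (hv _ ha) (hs i e he)]; exact hw⟩
      · rintro ⟨i, h1, h2⟩
        refine ⟨i, h1, fun e he hne => ?_⟩
        obtain ⟨a, ha, hw⟩ := h2 e he hne
        exact ⟨a, ha, by rw [htr α a e.1.2 (hv _ ha) (hs i e he)]; exact hw⟩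
    have h1 := (hG α).2.1 η hη v hv j0 hs
    rw [hsec] at h1
    obtain ⟨r, hr, hsat⟩ := h1 hPD
    refine ⟨r, hr, fun e he => ?_⟩
    obtain ⟨i, hi, -⟩ := hr
    have h2 : e.1 < α := by
      rw [hi, mem_part] at he
      exact hs i _ he
    rw [hrow α e.1 h2]
    exact hsat e he
  · intro ξ η hη hb h hh ε n htau hPD
    have hfam : fam (tr (WW tau G) ξ) (e2 η) h ε n = fam (WW tau G) (e2 η) h ε n := by
      ext r
      constructor
      · rintro ⟨i, h1, h2, h3⟩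
        refine ⟨i, h1, fun e he => ?_, h3⟩
        rw [← htr ξ _ _ (hb i e.1.2) (hh e he)]
        exact h2 e he
      · rintro ⟨i, h1, h2, h3⟩
        refine ⟨i, h1, fun e he => ?_, h3⟩
        rw [htr ξ _ _ (hb i e.1.2) (hh e he)]
        exact h2 e he
    have h1 := (hG ξ).2.2 η hη hb h hh ε n
    rw [hfam] at h1
    obtain ⟨r, ⟨i, hi, h2, h3⟩, hsat⟩ := h1 hPD
    refine ⟨i, hi, h2, fun e he => ?_⟩
    rw [hcol _ _ (hb i e.1), htau i e he, Bool.true_and]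
    have := hsat (e2 η i e.1, e.2) (by rw [h3]; exact Finset.mem_image_of_mem _ he)
    exact this

end Pool.Agent.Helper639.K
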