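import Pool.Agent.Helper639.KA
import Pool.Agent.Helper639.EbComb

open Set Cardinal

namespace Pool.Agent.Helper639.K

variable {Ω : Type} [LinearOrder Ω]

/-- compatible conditions with a common point -/
theorem con_of_union {κ : Type} {p q : Cnd κ} (hp : Con p) (hq : Con q)
    (h : ∀ k b, (k, b) ∈ p → (k, !b) ∉ q) : ∃ x : κ → Bool, Sat x p ∧ Sat x q := by
  classical
  have : Con (p ∪ q) := by
    intro k h1 h2
    rcases Finset.mem_union.mp h1 with h1 | h1 <;> rcases Finset.mem_union.mp h2 with h2 | h2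
    · exact hp k h1 h2
    · exact h k true h1 h2
    · exact h k false h2 h1
    · exact hq k h1 h2
  obtain ⟨x, hx⟩ := this.exists_sat
  exact ⟨x, hx.mono Finset.subset_union_left, hx.mono Finset.subset_union_right⟩

/-- the properties of the generic function -/
structure Gen (w : Ω → Ω → Bool) (tau : Ω → Bool) : Prop where
  diag : ∀ α, w α α = true
  dtype : ∀ α ξ, tau α = false → α < ξ → w α ξ = false
  pt : ∀ (b : Bool) (p : Cnd Ω), Con p → ∀ γ, ∃ α, γ < α ∧ tau α = b ∧ Sat (w α) p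
  luz : ∀ (J : Finset ℕ) (𝒜 : Set (Cnd (ℕ × Ω))), 𝒜.Countable → (∀ q ∈ 𝒜, ∀ e ∈ q, e.1.1 ∈ J) → PD 𝒜 →
    ∃ γ, ∀ u : ℕ → Ω, Set.InjOn u J → (∀ j ∈ J, γ < u j) → ∃ q ∈ 𝒜, ∀ e ∈ q, w (u e.1.1) e.1.2 = e.2
  hfd : ∀ (T : ℕ → ℕ → Ω) (m : ℕ), (∀ i i' j j', j < m → j' < m → T i j = T i' j' → i = i' ∧ j = j') →
    (∀ i j, j < m → tau (T i j) = true) → ∃ γ, ∀ P : Cnd (Ω × ℕ), Con P → (∀ e ∈ P, γ < e.1.1 ∧ e.1.2 < m) →
      ∀ n, ∃ i, n ≤ i ∧ ∀ e ∈ P, w (T i e.1.2) e.1.1 = e.2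

set_option linter.unusedSectionVars false
variable [WellFoundedLT Ω]

theorem luz_aux (hc : ∀ a : Ω, (Set.Iic a).Countable) (hu : ¬ (Set.univ : Set Ω).Countable)
    {e1 : Ω → ℕ → Cnd (ℕ × Ω)} (he1 : Function.Surjective e1) {w : Ω → Ω → Bool}
    (hR : ∀ α, ∀ η < α, ∀ v : Finset (ℕ × Ω), (∀ e ∈ v, e.2 < α) → ∀ j0, (∀ i, ∀ e ∈ e1 η i, e.1.2 < α) →
        PD (sec w (e1 η) v j0) → ∃ r ∈ sec w (e1 η) v j0, Sat (w α) r) :
    ∀ (n : ℕ) (J : Finset ℕ), J.card = n → ∀ (𝒜 : Set (Cnd (ℕ × Ω))), 𝒜.Countable →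
      (∀ q ∈ 𝒜, ∀ e ∈ q, e.1.1 ∈ J) → PD 𝒜 →
      ∃ γ, ∀ u : ℕ → Ω, Set.InjOn u J → (∀ j ∈ J, γ < u j) → ∃ q ∈ 𝒜, ∀ e ∈ q, w (u e.1.1) e.1.2 = e.2 := by
  classical
  intro n
  induction n with
  | zero =>
    intro J hJ 𝒜 h𝒜 hidx hPD
    have hJ : J = ∅ := Finset.card_eq_zero.mp hJ
    subst hJ
    obtain ⟨r, hr, -⟩ := hPD ∅ (fun k h1 _ => absurd h1 (Finset.notMem_empty _))
    obtain ⟨b, -⟩ := Eb.bdd_of_countable hc hu (D := (∅ : Set Ω)) Set.countable_empty
    exact ⟨b, fun u _ _ => ⟨r, hr, fun e he => absurd (hidx r hr e he) (Finset.notMem_empty _)⟩⟩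
  | succ n ih =>
    intro J hJ 𝒜 h𝒜 hidx hPD
    -- enumerate
    have hne : 𝒜.Nonempty := by
      obtain ⟨r, hr, -⟩ := hPD ∅ (fun k h1 _ => absurd h1 (Finset.notMem_empty _))
      exact ⟨r, hr⟩
    obtain ⟨A, hA⟩ := h𝒜.exists_eq_range hne
    obtain ⟨η, hη⟩ := he1 A
    -- the support
    let S : Set Ω := ⋃ q ∈ 𝒜, (fun e : (ℕ × Ω) × Bool => e.1.2) '' (q : Set ((ℕ × Ω) × Bool))
    have hS : S.Countable := h𝒜.biUnion fun q _ => (q.finite_toSet.image _).countable
    -- the families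
    let ℬ : Cnd Ω → ℕ → Set (Cnd (ℕ × Ω)) := fun p0 j0 =>
      {q | ∃ r ∈ 𝒜, (∃ x, Sat x p0 ∧ Sat x (part j0 r)) ∧ q = r.filter (fun e => e.1.1 ≠ j0)}
    have hℬc : ∀ p0 j0, (ℬ p0 j0).Countable := by
      intro p0 j0
      refine (h𝒜.image (fun r => r.filter (fun e => e.1.1 ≠ j0))).mono ?_
      rintro q ⟨r, hr, -, rfl⟩
      exact ⟨r, hr, rfl⟩
    have hℬ : ∀ p0 j0, Con p0 → PD (ℬ p0 j0) := by
      intro p0 j0 hp0 p hp
      obtain ⟨x0, hx0⟩ := hp0.exists_sat
      obtain ⟨x1, hx1⟩ := hp.exists_sat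
      -- combined condition
      let p' : Cnd (ℕ × Ω) := p.filter (fun e => e.1.1 ≠ j0) ∪ p0.image (fun e => ((j0, e.1), e.2))
      have hp' : Sat (fun k : ℕ × Ω => if k.1 = j0 then x0 k.2 else x1 k) p' := by
        intro e he
        rcases Finset.mem_union.mp he with he | he
        · obtain ⟨h1, h2⟩ := Finset.mem_filter.mp he
          simp only [h2, if_false]
          exact hx1 e h1
        · obtain ⟨e', h1, h2⟩ := Finset.mem_image.mp he
          rw [← h2]
          simp only [if_true]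
          exact hx0 e' h1
      obtain ⟨r, hr, x, h1, h2⟩ := hPD p' hp'.con
      refine ⟨r.filter (fun e => e.1.1 ≠ j0), ⟨r, hr, ⟨fun ξ => x (j0, ξ), ?_, ?_⟩, rfl⟩,
        fun k => if k.1 = j0 then x1 k else x k, ?_, ?_⟩
      · intro e he
        exact h1 ((j0, e.1), e.2) (Finset.mem_union_right _ (Finset.mem_image.mpr ⟨e, he, rfl⟩))
      · intro e he
        rw [mem_part] at he
        exact h2 _ he
      · intro e he
        by_cases hj : e.1.1 = j0
        · simp only [hj, if_true]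
          exact hx1 e he
        · simp only [hj, if_false]
          exact h1 e (Finset.mem_union_left _ (Finset.mem_filter.mpr ⟨he, hj⟩))
      · intro e he
        obtain ⟨h3, h4⟩ := Finset.mem_filter.mp he
        simp only [h4, if_false]
        exact h2 e h3
    have hγ : ∀ (p0 : Cnd Ω) (j0 : ℕ), ∃ γ, Con p0 → j0 ∈ J → ∀ u : ℕ → Ω, Set.InjOn u (J.erase j0 : Finset ℕ) →
        (∀ j ∈ J.erase j0, γ < u j) → ∃ q ∈ ℬ p0 j0, ∀ e ∈ q, w (u e.1.1) e.1.2 = e.2 := by
      intro p0 j0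
      by_cases h : Con p0 ∧ j0 ∈ J
      · obtain ⟨γ, hγ⟩ := ih (J.erase j0) (by rw [Finset.card_erase_of_mem h.2, hJ]; rfl) (ℬ p0 j0) (hℬc p0 j0)
          (by
            rintro q ⟨r, hr, -, rfl⟩ e he
            obtain ⟨h3, h4⟩ := Finset.mem_filter.mp he
            exact Finset.mem_erase.mpr ⟨h4, hidx r hr e h3⟩) (hℬ p0 j0 h.1)
        exact ⟨γ, fun _ _ => hγ⟩
      · obtain ⟨b, -⟩ := Eb.bdd_of_countable hc hu (D := (∅ : Set Ω)) Set.countable_empty
        exact ⟨b, fun h1 h2 => absurd ⟨h1, h2⟩ h⟩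
    choose g hg using hγ
    have hcount : {v : Cnd Ω | ∀ e ∈ v, e ∈ S ×ˢ (Set.univ : Set Bool)}.Countable :=
      countable_finset (hS.prod Set.countable_univ)
    obtain ⟨γ, hγ⟩ := Eb.bdd_of_countable hc hu (D := (insert η S) ∪
      (fun t : Cnd Ω × ℕ => g t.1 t.2) '' ({v : Cnd Ω | ∀ e ∈ v, e ∈ S ×ˢ (Set.univ : Set Bool)} ×ˢ Set.univ))
      ((hS.insert η).union ((hcount.prod Set.countable_univ).image _))
    refine ⟨γ, fun u huJ hulo => ?_⟩
    have hJne : J.Nonempty := by rw [← Finset.card_pos, hJ]; exact Nat.succ_pos n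
    obtain ⟨j0, hj0, hmax⟩ := Finset.exists_max_image J u hJne
    have hlt : ∀ j ∈ J, j ≠ j0 → u j < u j0 := fun j hj hne =>
      lt_of_le_of_ne (hmax j hj) fun h => hne (huJ hj hj0 h)
    have hsupp : ∀ i, ∀ e ∈ e1 η i, e.1.2 < u j0 := by
      intro i e he
      refine lt_trans (hγ _ (Or.inl (Or.inr ?_))) (hulo j0 hj0)
      have : A i ∈ 𝒜 := by rw [hA]; exact mem_range_self i
      rw [hη] at he
      exact Set.mem_biUnion this ⟨e, he, rfl⟩
    have hv : ∀ e ∈ (J.erase j0).image (fun j => (j, u j)), e.2 < u j0 := by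
      intro e he
      obtain ⟨j, hj, rfl⟩ := Finset.mem_image.mp he
      exact hlt j (Finset.mem_of_mem_erase hj) (Finset.ne_of_mem_erase hj)
    have key : PD (sec w (e1 η) ((J.erase j0).image (fun j => (j, u j))) j0) := by
      intro p hp
      -- restrict to S
      let p0 : Cnd Ω := p.filter (fun e => e.1 ∈ S)
      have hp0 : p0 ⊆ p := Finset.filter_subset _ _
      have hp0S : ∀ e ∈ p0, e ∈ S ×ˢ (Set.univ : Set Bool) := fun e he => ⟨(Finset.mem_filter.mp he).2, trivial⟩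
      obtain ⟨q, ⟨r, hr, ⟨x, hx1, hx2⟩, rfl⟩, hq⟩ := hg p0 j0 (hp.mono hp0) hj0 u
        (huJ.mono (by intro j hj; exact Finset.mem_of_mem_erase hj))
        (fun j hj => lt_trans (hγ _ (Or.inr ⟨(p0, j0), ⟨hp0S, trivial⟩, rfl⟩)) (hulo j (Finset.mem_of_mem_erase hj)))
      obtain ⟨i, hi⟩ : ∃ i, A i = r := by
        have : r ∈ range A := by rw [← hA]; exact hr
        exact this
      refine ⟨part j0 r, ⟨i, by rw [hη, hi], ?_⟩, ?_⟩
      · intro e he hne
        rw [hη, hi] at he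
        refine ⟨u e.1.1, Finset.mem_image.mpr ⟨e.1.1, Finset.mem_erase.mpr ⟨hne, hidx r hr e he⟩, rfl⟩, ?_⟩
        exact hq e (Finset.mem_filter.mpr ⟨he, hne⟩)
      · refine con_of_union hp hx2.con ?_
        intro k b hkb hkb'
        have hkS : k ∈ S := by
          rw [mem_part] at hkb'
          exact Set.mem_biUnion hr ⟨_, hkb', rfl⟩
        have e1 := hx1 (k, b) (Finset.mem_filter.mpr ⟨hkb, hkS⟩)
        have e2 := hx2 _ hkb'
        simp only at e1 e2
        rw [e1] at e2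
        cases b <;> simp at e2
    obtain ⟨r, ⟨i, hi, hi2⟩, hsat⟩ := hR (u j0) η (lt_trans (hγ _ (Or.inl (Or.inl rfl))) (hulo j0 hj0)) _ hv j0 hsupp key
    refine ⟨e1 η i, by rw [hη, hA]; exact mem_range_self i, fun e he => ?_⟩
    by_cases hj : e.1.1 = j0
    · have h1 : (e.1.2, e.2) ∈ part j0 (e1 η i) := by
        rw [mem_part]
        simp only
        rw [← hj]
        exact he
      rw [← hi] at h1
      have := hsat _ h1
      rw [hj]
      exact this
    · obtain ⟨a, ha, hw⟩ := hi2 e he hj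
      obtain ⟨j, -, hj2⟩ := Finset.mem_image.mp ha
      simp only [Prod.mk.injEq] at hj2
      obtain ⟨h3, h4⟩ := hj2
      rw [h3] at h4
      rw [h4]
      exact hw

theorem hfd_aux (hc : ∀ a : Ω, (Set.Iic a).Countable) (hu : ¬ (Set.univ : Set Ω).Countable)
    {e2 : Ω → ℕ → ℕ → Ω} (he2 : Function.Surjective e2) {w : Ω → Ω → Bool} {tau : Ω → Bool}
    (hC : ∀ ξ, ∀ η < ξ, (∀ i j, e2 η i j < ξ) → ∀ h : Cnd (Ω × ℕ), (∀ e ∈ h, e.1.1 < ξ) → ∀ ε n,
        (∀ i, ∀ e ∈ ε, tau (e2 η i e.1) = true) →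
        PD (fam w (e2 η) h ε n) → ∃ i ≥ n, (∀ e ∈ h, w (e2 η i e.1.2) e.1.1 = e.2) ∧
          ∀ e ∈ ε, w (e2 η i e.1) ξ = e.2)
    (T : ℕ → ℕ → Ω) (m : ℕ) (hdis : ∀ i i' j j', j < m → j' < m → T i j = T i' j' → i = i' ∧ j = j')
    (htau : ∀ i j, j < m → tau (T i j) = true) : ∃ γ, ∀ P : Cnd (Ω × ℕ), Con P → (∀ e ∈ P, γ < e.1.1 ∧ e.1.2 < m) →
      ∀ n, ∃ i, n ≤ i ∧ ∀ e ∈ P, w (T i e.1.2) e.1.1 = e.2 := by
  classical
  obtain ⟨η, hη⟩ := he2 T
  obtain ⟨γ, hγ⟩ := Eb.bdd_of_countable hc hu (D := insert η (range fun t : ℕ × ℕ => T t.1 t.2))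
    ((Set.countable_range _).insert η)
  refine ⟨γ, ?_⟩
  have main : ∀ (k : ℕ) (P : Cnd (Ω × ℕ)), (P.image (fun e => e.1.1)).card = k → Con P →
      (∀ e ∈ P, γ < e.1.1 ∧ e.1.2 < m) → ∀ n, ∃ i, n ≤ i ∧ ∀ e ∈ P, w (T i e.1.2) e.1.1 = e.2 := by
    intro k
    induction k with
    | zero =>
      intro P hP _ _ n
      have : P = ∅ := by
        rw [Finset.card_eq_zero] at hP
        exact Finset.image_eq_empty.mp hP
      subst this
      exact ⟨n, le_rfl, fun e he => absurd he (Finset.notMem_empty _)⟩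
    | succ k ih =>
      intro P hcard hcon hP n
      have hne : (P.image (fun e => e.1.1)).Nonempty := by rw [← Finset.card_pos, hcard]; exact Nat.succ_pos k
      obtain ⟨ξ, hξ, hmax⟩ := Finset.exists_max_image (P.image (fun e => e.1.1)) id hne
      simp only [id] at hmax
      let h : Cnd (Ω × ℕ) := P.filter (fun e => e.1.1 ≠ ξ)
      let ε : Cnd ℕ := (P.filter (fun e => e.1.1 = ξ)).image (fun e => (e.1.2, e.2))
      have hεmem : ∀ e, e ∈ ε ↔ ((ξ, e.1), e.2) ∈ P := by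
        intro e
        constructor
        · intro he
          obtain ⟨⟨⟨a, j⟩, b⟩, h1, h2⟩ := Finset.mem_image.mp he
          obtain ⟨h3, h4⟩ := Finset.mem_filter.mp h1
          simp only at h4 h2
          subst h4
          rw [← h2]
          exact h3
        · intro he
          exact Finset.mem_image.mpr ⟨((ξ, e.1), e.2), Finset.mem_filter.mpr ⟨he, rfl⟩, rfl⟩
      have hsub : h ⊆ P := Finset.filter_subset _ _
      have hhcard : (h.image (fun e => e.1.1)).card = k := by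
        have : h.image (fun e => e.1.1) = (P.image (fun e => e.1.1)).erase ξ := by
          ext a
          simp only [h, Finset.mem_image, Finset.mem_filter, Finset.mem_erase]
          constructor
          · rintro ⟨e, ⟨h1, h2⟩, rfl⟩
            exact ⟨h2, e, h1, rfl⟩
          · rintro ⟨h1, e, h2, rfl⟩
            exact ⟨e, ⟨h2, h1⟩, rfl⟩
        rw [this, Finset.card_erase_of_mem hξ, hcard]
        rfl
      have hξP : γ < ξ := by
        obtain ⟨e, he, rfl⟩ := Finset.mem_image.mp hξ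
        exact (hP e he).1
      have hhlt : ∀ e ∈ h, e.1.1 < ξ := by
        intro e he
        obtain ⟨h1, h2⟩ := Finset.mem_filter.mp he
        exact lt_of_le_of_ne (hmax _ (Finset.mem_image_of_mem _ h1)) h2
      have hεm : ∀ e ∈ ε, e.1 < m := fun e he => (hP _ ((hεmem e).mp he)).2
      have key : PD (fam w (e2 η) h ε n) := by
        intro p hp
        -- finitely many i meet p
        have hfin : {i | ∃ j < m, ∃ b, (T i j, b) ∈ p}.Finite := by
          have : ∀ i, (∃ j < m, ∃ b, (T i j, b) ∈ p) → ∃ e ∈ p, ∃ j < m, T i j = e.1 := by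
            rintro i ⟨j, hj, b, hb⟩
            exact ⟨_, hb, j, hj, rfl⟩
          refine (Set.Finite.biUnion p.finite_toSet (t := fun e => {i | ∃ j < m, T i j = e.1}) ?_).subset ?_
          · intro e _
            refine Set.Subsingleton.finite ?_
            rintro i ⟨j, hj, h1⟩ i' ⟨j', hj', h2⟩
            exact (hdis i i' j j' hj hj' (by rw [h1, h2])).1
          · intro i hi
            obtain ⟨e, he, h1⟩ := this i hi
            exact Set.mem_biUnion he h1
        obtain ⟨N, hN⟩ := hfin.bddAbove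
        obtain ⟨i, hi, hi2⟩ := ih h hhcard (hcon.mono hsub) (fun e he => hP e (hsub he)) (max n (N + 1))
        have hi3 : ∀ j < m, ∀ b, (T i j, b) ∉ p := by
          intro j hj b hb
          have := hN (show i ∈ {i | ∃ j < m, ∃ b, (T i j, b) ∈ p} from ⟨j, hj, b, hb⟩)
          have h3 := le_trans (le_max_right _ _) hi
          omega
        refine ⟨ε.image (fun e => (T i e.1, e.2)), ⟨i, le_trans (le_max_left _ _) hi, by rw [hη]; exact hi2, by rw [hη]⟩, ?_⟩
        have hcon2 : Con (ε.image (fun e => (T i e.1, e.2))) := by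
          intro a h1 h2
          obtain ⟨⟨j, b⟩, h3, h4⟩ := Finset.mem_image.mp h1
          obtain ⟨⟨j', b'⟩, h5, h6⟩ := Finset.mem_image.mp h2
          simp only [Prod.mk.injEq] at h4 h6
          have h7 : j = j' := (hdis i i j j' (hεm _ h3) (hεm _ h5) (by rw [h4.1, h6.1])).2
          subst h7
          rw [h4.2] at h3
          rw [h6.2] at h5
          exact hcon _ ((hεmem _).mp h3) ((hεmem _).mp h5)
        refine con_of_union hp hcon2 ?_
        intro a b h1 h2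
        obtain ⟨⟨j, b'⟩, h3, h4⟩ := Finset.mem_image.mp h2
        simp only [Prod.mk.injEq] at h4
        rw [← h4.1] at h1
        exact hi3 j (hεm _ h3) _ h1
      have hbd : ∀ i j, e2 η i j < ξ := by
        intro i j
        rw [hη]
        exact lt_trans (hγ _ (Or.inr ⟨(i, j), rfl⟩)) hξP
      obtain ⟨i, hi, h1, h2⟩ := hC ξ η (lt_trans (hγ _ (Or.inl rfl)) hξP) hbd h hhlt ε n
        (fun i e he => by rw [hη]; exact htau i _ (hεm e he)) key
      refine ⟨i, hi, fun e he => ?_⟩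
      by_cases hex : e.1.1 = ξ
      · have : (e.1.2, e.2) ∈ ε := (hεmem _).mpr (by simp only; rw [← hex]; exact he)
        have := h2 _ this
        rw [hη] at this
        rw [hex]
        exact this
      · have := h1 e (Finset.mem_filter.mpr ⟨he, hex⟩)
        rw [hη] at this
        exact this
  intro P hcon hP n
  exact main _ P rfl hcon hP n

end Pool.Agent.Helper639.K
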