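import Pool.Agent.Helper639.KB

open Set Cardinal

namespace Pool.Agent.Helper639.K

/-- the well order of type omega one -/
abbrev Om : Type := (ℵ₁ : Cardinal.{0}).ord.ToType

theorem mk_Om : #Om = ℵ₁ := Cardinal.mk_ord_toType _

theorem Om_Iic (a : Om) : (Set.Iic a).Countable := by
  have : #(Iio a) < #Om := Cardinal.mk_Iio_lt a (by simp [Om])
  rw [mk_Om] at this
  have h1 : #(Iio a) ≤ ℵ₀ := by rwa [← Order.lt_succ_iff, Cardinal.succ_aleph0]
  have h2 : (Iio a).Countable := Cardinal.le_aleph0_iff_set_countable.mp h1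
  rw [← Set.Iio_insert]
  exact h2.insert a

theorem Om_unc : ¬ (Set.univ : Set Om).Countable := by
  intro h
  have h1 := Cardinal.le_aleph0_iff_set_countable.mpr h
  rw [Cardinal.mk_univ, mk_Om] at h1
  exact absurd h1 (not_le.mpr Cardinal.aleph0_lt_aleph_one)

theorem exists_surj {A B : Type} [Nonempty B] (h : #B ≤ #A) : ∃ f : A → B, Function.Surjective f := by
  obtain ⟨g⟩ := h
  exact ⟨Function.invFun g, Function.invFun_surjective g.injective⟩

theorem mk_finset_le0 (α : Type) : #(Finset α) ≤ max #α ℵ₀ := by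
  cases finite_or_infinite α with
  | inl h => 
    have : Finite (Finset α) := by
      have := Fintype.ofFinite α
      infer_instance
    exact (Cardinal.mk_le_aleph0 (α := Finset α)).trans (le_max_right _ _)
  | inr h =>
    rw [Cardinal.mk_finset_of_infinite]; exact le_max_left _ _

theorem exists_gen (hCH : (𝔠 : Cardinal.{0}) = ℵ₁) : ∃ (w : Om → Om → Bool) (tau : Om → Bool), Gen w tau := by
  classical
  have hOm : #Om = 𝔠 := by rw [mk_Om, hCH]
  have hinf : ℵ₀ ≤ #Om := by rw [hOm]; exact Cardinal.aleph0_le_continuum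
  have hInf : Infinite Om := Cardinal.infinite_iff.mpr hinf
  have hbool : #Bool ≤ 𝔠 := (Cardinal.mk_le_aleph0 (α := Bool)).trans Cardinal.aleph0_le_continuum
  have hN : #ℕ ≤ 𝔠 := (Cardinal.mk_le_aleph0 (α := ℕ)).trans Cardinal.aleph0_le_continuum
  have hprod : ∀ A B : Type, #A ≤ 𝔠 → #B ≤ 𝔠 → #(A × B) ≤ 𝔠 := by
    intro A B hA hB
    rw [Cardinal.mk_prod, Cardinal.lift_id, Cardinal.lift_id]
    calc #A * #B ≤ 𝔠 * 𝔠 := mul_le_mul' hA hB
      _ = 𝔠 := Cardinal.continuum_mul_self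
  have hCnd : ∀ A : Type, #A ≤ 𝔠 → #(Cnd A) ≤ 𝔠 := by
    intro A hA
    refine le_trans (mk_finset_le0 (A × Bool)) ?_
    exact max_le (hprod _ _ hA hbool) Cardinal.aleph0_le_continuum
  have hfun : ∀ A : Type, #A ≤ 𝔠 → #(ℕ → A) ≤ 𝔠 := by
    intro A hA
    have : #(ℕ → A) = #A ^ #ℕ := by simp
    rw [this]
    calc #A ^ #ℕ ≤ 𝔠 ^ #ℕ := Cardinal.power_le_power_right hA
      _ = 𝔠 := by rw [Cardinal.mk_nat, Cardinal.continuum_power_aleph0]
  obtain ⟨e1, he1⟩ := exists_surj (A := Om) (B := ℕ → Cnd (ℕ × Om))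
    (by rw [hOm]; exact hfun _ (hCnd _ (hprod _ _ hN hOm.le)))
  obtain ⟨e2, he2⟩ := exists_surj (A := Om) (B := ℕ → ℕ → Om)
    (by rw [hOm]; exact hfun _ (hfun _ hOm.le))
  obtain ⟨e3, he3⟩ := exists_surj (A := Om) (B := Om × (Bool × Cnd Om))
    (by rw [hOm]; exact hprod _ _ hOm.le (hprod _ _ hbool (hCnd _ hOm.le)))
  obtain ⟨w, h1, h2, h3, h4, h5⟩ := exists_w Om_Iic e1 e2 (fun α => (e3 α).2.1) (fun α => (e3 α).2.2)
  refine ⟨w, fun α => (e3 α).2.1, h1, h2, ?_, ?_, ?_⟩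
  · intro b p hp γ
    -- the fibre is uncountable
    by_contra hcon
    push Not at hcon
    obtain ⟨γ', hγ'⟩ := Eb.bdd_of_countable Om_Iic Om_unc (D := insert γ ((fun e : Om × Bool => e.1) '' (p : Set (Om × Bool))))
      ((p.finite_toSet.image _).countable.insert γ)
    have hsub : (Set.univ : Set Om) ⊆ (fun α => (e3 α).1) '' (Set.Iic γ') := by
      intro x _
      obtain ⟨α, hα⟩ := he3 (x, b, p)
      refine ⟨α, ?_, by simp only [hα]⟩
      by_contra hlt
      simp only [Set.mem_Iic, not_le] at hlt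
      refine hcon α (lt_trans (hγ' _ (Or.inl rfl)) hlt) (by simp only [hα]) ?_
      have := h3 α (by rw [hα]; exact hp) (by
        rw [hα]
        intro e he
        exact lt_trans (hγ' _ (Or.inr ⟨e, he, rfl⟩)) hlt)
      rw [hα] at this
      exact this
    exact Om_unc (((Om_Iic γ').image _).mono hsub)
  · intro J 𝒜 h𝒜 hidx hPD
    exact luz_aux Om_Iic Om_unc he1 h4 J.card J rfl 𝒜 h𝒜 hidx hPD
  · intro T m hdis htau
    exact hfd_aux (tau := fun α => (e3 α).2.1) Om_Iic Om_unc he2 h5 T m hdis htau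

end Pool.Agent.Helper639.K
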