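import Pool.Agent.Helper639.KC

open Set Cardinal

namespace Pool.Agent.Helper639.K

set_option linter.unusedSectionVars false

abbrev Ent (Ω : Type) := (Ω ⊕ ℕ) × ℕ

abbrev Obj (Ω : Type) := List (Ent Ω) × ℕ × Cnd (ℕ × Ω)

variable {Ω : Type} [LinearOrder Ω]

def interp (u : ℕ → Ω) (e : Ent Ω) : Ω × ℕ := (Sum.elim id u e.1, e.2)

def Match (z : ℕ → Ω × ℕ) (d : List (Ent Ω)) (u : ℕ → Ω) : Prop := ∀ j e, d[j]? = some e → z j = interp u e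

def UU (C : Set (ℕ → Ω × ℕ)) (d : List (Ent Ω)) (m : ℕ) : Set (ℕ → Ω) :=
  {u | Set.InjOn u (Set.Iio m) ∧ ∃ z ∈ C, Match z d u}

def SatU (w : Ω → Ω → Bool) (u : ℕ → Ω) (q : Cnd (ℕ × Ω)) : Prop := Sat (fun k : ℕ × Ω => w (u k.1) k.2) q

def Big (m : ℕ) (𝒲 : Set (ℕ → Ω)) : Prop := ∀ γ, ∃ u ∈ 𝒲, ∀ j < m, γ < u j

def Idx (m : ℕ) (q : Cnd (ℕ × Ω)) : Prop := ∀ e ∈ q, e.1.1 < m

def IntC (w : Ω → Ω → Bool) (m : ℕ) (𝒰 : Set (ℕ → Ω)) (q : Cnd (ℕ × Ω)) : Prop :=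
  Con q ∧ Idx m q ∧ ∀ q', q ⊆ q' → Con q' → Idx m q' → Big m {u | u ∈ 𝒰 ∧ SatU w u q'}

/-- support strictly below `δ` -/
def SB (δ : Ω) (t : Obj Ω) : Prop :=
  (∀ e ∈ t.1, ∀ c, e.1 = Sum.inl c → c < δ) ∧ (∀ e ∈ t.2.2, e.1.2 < δ)

theorem countable_list {β : Type} {C : Set β} (hC : C.Countable) :
    {l : List β | ∀ e ∈ l, e ∈ C}.Countable := by
  have : Countable C := hC
  refine (Set.countable_range (fun l : List C => l.map Subtype.val)).mono ?_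
  intro l hl
  refine ⟨l.attachWith (· ∈ C) hl, ?_⟩
  simp

theorem SB_countable (hc : ∀ a : Ω, (Set.Iic a).Countable) (δ : Ω) : {t : Obj Ω | SB δ t}.Countable := by
  have hIio : (Set.Iio δ).Countable := (hc δ).mono fun x hx => le_of_lt hx
  have h1 : {e : Ent Ω | ∀ c, e.1 = Sum.inl c → c < δ}.Countable := by
    have : {e : Ent Ω | ∀ c, e.1 = Sum.inl c → c < δ} ⊆
        (Sum.inl '' (Set.Iio δ) ∪ range Sum.inr) ×ˢ (Set.univ : Set ℕ) := by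
      rintro ⟨a | k, n⟩ he
      · exact ⟨Or.inl ⟨a, he a rfl, rfl⟩, trivial⟩
      · exact ⟨Or.inr ⟨k, rfl⟩, trivial⟩
    exact (((hIio.image _).union (Set.countable_range _)).prod Set.countable_univ).mono this
  have h2 : {v : Cnd (ℕ × Ω) | ∀ e ∈ v, e ∈ {e : (ℕ × Ω) × Bool | e.1.2 < δ}}.Countable := by
    apply countable_finset
    have : {e : (ℕ × Ω) × Bool | e.1.2 < δ} = (Set.univ ×ˢ Set.Iio δ) ×ˢ Set.univ := by ext e; simp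
    rw [this]
    exact (Set.countable_univ.prod hIio).prod Set.countable_univ
  refine ((countable_list h1).prod ((Set.countable_univ (α := ℕ)).prod h2)).mono ?_
  rintro ⟨d, m, q⟩ ⟨h3, h4⟩
  exact ⟨h3, trivial, h4⟩

theorem SB.mono {δ δ' : Ω} {t : Obj Ω} (h : SB δ t) (hd : δ ≤ δ') : SB δ' t :=
  ⟨fun e he c hec => lt_of_lt_of_le (h.1 e he c hec) hd, fun e he => lt_of_lt_of_le (h.2 e he) hd⟩

/-- the support of an object is finite -/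
theorem supp_finite (t : Obj Ω) : ({c : Ω | ∃ e ∈ t.1, e.1 = Sum.inl c} ∪ {c : Ω | ∃ e ∈ t.2.2, e.1.2 = c}).Finite := by
  refine Set.Finite.union ?_ ?_
  · have h1 : (Sum.inl '' {c : Ω | ∃ e ∈ t.1, e.1 = Sum.inl c} : Set (Ω ⊕ ℕ)).Finite := by
      refine ((List.finite_toSet t.1).image Prod.fst).subset ?_
      rintro _ ⟨c, ⟨e, he, hec⟩, rfl⟩
      exact ⟨e, he, hec⟩
    exact (Set.finite_image_iff Sum.inl_injective.injOn).mp h1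
  · refine (t.2.2.finite_toSet.image (fun e => e.1.2)).subset ?_
    rintro c ⟨e, he, rfl⟩
    exact ⟨e, he, rfl⟩

theorem exists_SB (hc : ∀ a : Ω, (Set.Iic a).Countable) (hu : ¬ (Set.univ : Set Ω).Countable) (t : Obj Ω) :
    ∃ b, SB b t := by
  obtain ⟨b, hb⟩ := Eb.bdd_of_countable hc hu (supp_finite t).countable
  exact ⟨b, fun e he c hec => hb c (Or.inl ⟨e, he, hec⟩), fun e he => hb _ (Or.inr ⟨e, he, rfl⟩)⟩

theorem SB_lt {δ b : Ω} (hb : b < δ) {t : Obj Ω} (h : SB δ t) : ∃ c < δ, b ≤ c ∧ (∀ e ∈ t.1, ∀ c', e.1 = Sum.inl c' → c' ≤ c) ∧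
    (∀ e ∈ t.2.2, e.1.2 ≤ c) := by
  have hfin := (supp_finite t).insert b
  obtain ⟨c, hc, hmax⟩ := Set.exists_max_image _ id hfin ⟨b, Set.mem_insert _ _⟩
  simp only [id] at hmax
  refine ⟨c, ?_, hmax b (Set.mem_insert _ _), ?_, ?_⟩
  · rcases hc with rfl | ⟨e, he, hec⟩ | ⟨e, he, hec⟩
    · exact hb
    · exact h.1 e he c hec
    · rw [← hec]; exact h.2 e he
  · intro e he c' hec
    exact hmax c' (Or.inr (Or.inl ⟨e, he, hec⟩))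
  · intro e he
    exact hmax _ (Or.inr (Or.inr ⟨e, he, rfl⟩))

variable [WellFoundedLT Ω]

theorem closing (hc : ∀ a : Ω, (Set.Iic a).Countable) (hu : ¬ (Set.univ : Set Ω).Countable)
    (g : Obj Ω → Ω) (b : Ω) : ∃ δ, b < δ ∧ ∀ t, SB δ t → g t < δ := by
  have h1 : ∀ c : Ω, ∃ y, c < y ∧ ∀ t : Obj Ω, (∀ e ∈ t.1, ∀ c', e.1 = Sum.inl c' → c' ≤ c) → (∀ e ∈ t.2.2, e.1.2 ≤ c) → g t < y := by
    intro c
    obtain ⟨c1, hc1⟩ := Eb.bdd_of_countable hc hu (D := {c}) (Set.countable_singleton c)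
    obtain ⟨y, hy⟩ := Eb.bdd_of_countable hc hu (D := insert c (g '' {t : Obj Ω | SB c1 t}))
      (((SB_countable hc c1).image g).insert c)
    refine ⟨y, hy c (Set.mem_insert _ _), fun t h1 h2 => hy _ (Or.inr ⟨t, ⟨?_, ?_⟩, rfl⟩)⟩
    · intro e he c' hec
      exact lt_of_le_of_lt (h1 e he c' hec) (hc1 c rfl)
    · intro e he
      exact lt_of_le_of_lt (h2 e he) (hc1 c rfl)
  choose G hG1 hG2 using h1
  obtain ⟨δ, hδ, hcl⟩ := Eb.exists_closed hc hu G b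
  refine ⟨δ, hδ, fun t ht => ?_⟩
  obtain ⟨c, hcδ, -, h2, h3⟩ := SB_lt hδ ht
  exact lt_trans (hG2 c t h2 h3) (hcl c hcδ)

theorem max3 (hc : ∀ a : Ω, (Set.Iic a).Countable) (hu : ¬ (Set.univ : Set Ω).Countable) (a : Ω) : ∃ b, a < b := by
  obtain ⟨c1, hc1⟩ := Eb.bdd_of_countable hc hu (D := {a}) (Set.countable_singleton a)
  exact ⟨c1, hc1 a rfl⟩

/-- Lemma A -/
theorem lemA {w : Ω → Ω → Bool} {tau : Ω → Bool} (hG : Gen w tau)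
    (hc : ∀ a : Ω, (Set.Iic a).Countable) (hu : ¬ (Set.univ : Set Ω).Countable)
    (m : ℕ) (𝒰 : Set (ℕ → Ω)) (h𝒰 : ∀ u ∈ 𝒰, Set.InjOn u (Set.Iio m)) :
    ∃ γ, ∀ u ∈ 𝒰, (∀ j < m, γ < u j) → ∃ q, IntC w m 𝒰 q ∧ (∀ e ∈ q, e.1.2 < γ) ∧ SatU w u q := by
  classical
  -- bounds
  have h1 : ∀ q : Cnd (ℕ × Ω), ∃ γ, ¬ Big m {u | u ∈ 𝒰 ∧ SatU w u q} → ∀ u ∈ 𝒰, SatU w u q → ¬ ∀ j < m, γ < u j := by
    intro q
    by_cases h : Big m {u | u ∈ 𝒰 ∧ SatU w u q}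
    · obtain ⟨b, -⟩ := Eb.bdd_of_countable hc hu (D := (∅ : Set Ω)) Set.countable_empty
      exact ⟨b, fun h' => absurd h h'⟩
    · have h' := h
      unfold Big at h'
      push Not at h'
      obtain ⟨γ, hγ⟩ := h'
      refine ⟨γ, fun _ u hu1 hu2 hcon => ?_⟩
      obtain ⟨j, hj, hj2⟩ := hγ u ⟨hu1, hu2⟩
      exact absurd (hcon j hj) (not_lt.mpr hj2)
  choose g1 hg1 using h1
  have h2 : ∀ q : Cnd (ℕ × Ω), ∃ q' : Cnd (ℕ × Ω), (∃ q', q ⊆ q' ∧ Con q' ∧ Idx m q' ∧ ¬ Big m {u | u ∈ 𝒰 ∧ SatU w u q'}) →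
      (q ⊆ q' ∧ Con q' ∧ Idx m q' ∧ ¬ Big m {u | u ∈ 𝒰 ∧ SatU w u q'}) := by
    intro q
    by_cases h : ∃ q', q ⊆ q' ∧ Con q' ∧ Idx m q' ∧ ¬ Big m {u | u ∈ 𝒰 ∧ SatU w u q'}
    · obtain ⟨q', hq'⟩ := h
      exact ⟨q', fun _ => hq'⟩
    · exact ⟨q, fun h' => absurd h' h⟩
  choose g2 hg2 using h2
  have h3 : ∀ q : Cnd (ℕ × Ω), ∃ b, SB b (([], 0, g2 q) : Obj Ω) := fun q => exists_SB hc hu _
  choose g3 hg3 using h3
  obtain ⟨b0, -⟩ := Eb.bdd_of_countable hc hu (D := (∅ : Set Ω)) Set.countable_empty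
  obtain ⟨δ, hδ, hcl⟩ := closing hc hu (fun t => max (g1 t.2.2) (g3 t.2.2)) b0
  have hSB : ∀ q : Cnd (ℕ × Ω), (∀ e ∈ q, e.1.2 < δ) → SB δ (([], 0, q) : Obj Ω) := by
    intro q hq
    exact ⟨fun e he => absurd he List.not_mem_nil, hq⟩
  let 𝒜 : Set (Cnd (ℕ × Ω)) := {q | Con q ∧ Idx m q ∧ (∀ e ∈ q, e.1.2 < δ) ∧
    (¬ Big m {u | u ∈ 𝒰 ∧ SatU w u q} ∨ IntC w m 𝒰 q)}
  have h𝒜c : 𝒜.Countable := by
    refine ((SB_countable hc δ).image (fun t => t.2.2)).mono ?_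
    intro q hq
    exact ⟨([], 0, q), hSB q hq.2.2.1, rfl⟩
  have hPD : PD 𝒜 := by
    intro p hp
    let p0 : Cnd (ℕ × Ω) := p.filter (fun e => e.1.1 < m ∧ e.1.2 < δ)
    have hp0 : p0 ⊆ p := Finset.filter_subset _ _
    have hp0c : Con p0 := hp.mono hp0
    have hp0i : Idx m p0 := fun e he => (Finset.mem_filter.mp he).2.1
    have hp0s : ∀ e ∈ p0, e.1.2 < δ := fun e he => (Finset.mem_filter.mp he).2.2
    have hcomp : ∀ r : Cnd (ℕ × Ω), Con r → Idx m r → (∀ e ∈ r, e.1.2 < δ) → p0 ⊆ r → ∃ x, Sat x p ∧ Sat x r := by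
      intro r hr1 hr2 hr3 hr4
      refine con_of_union hp hr1 ?_
      intro k b h1 h2
      have h3 : (k, b) ∈ r := hr4 (Finset.mem_filter.mpr ⟨h1, (hr2 (k, !b) h2 : k.1 < m), (hr3 (k, !b) h2 : k.2 < δ)⟩)
      cases b with
      | true => exact hr1 k h3 h2
      | false => exact hr1 k h2 h3
    by_cases h : ∃ q', p0 ⊆ q' ∧ Con q' ∧ Idx m q' ∧ ¬ Big m {u | u ∈ 𝒰 ∧ SatU w u q'}
    · obtain ⟨h4, h5, h6, h7⟩ := hg2 p0 h
      have h8 : ∀ e ∈ g2 p0, e.1.2 < δ := by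
        intro e he
        have := hcl _ (hSB p0 hp0s)
        exact lt_trans ((hg3 p0).2 e he) (lt_of_le_of_lt (le_max_right _ _) this)
      exact ⟨g2 p0, ⟨h5, h6, h8, Or.inl h7⟩, hcomp _ h5 h6 h8 h4⟩
    · push Not at h
      exact ⟨p0, ⟨hp0c, hp0i, hp0s, Or.inr ⟨hp0c, hp0i, h⟩⟩, hcomp p0 hp0c hp0i hp0s (Finset.Subset.refl _)⟩
  obtain ⟨γ', hγ'⟩ := hG.luz (Finset.range m) 𝒜 h𝒜c (fun q hq e he => Finset.mem_range.mpr (hq.2.1 e he)) hPD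
  refine ⟨max δ γ', fun u hu1 hu2 => ?_⟩
  obtain ⟨q, hq, hsat⟩ := hγ' u ((h𝒰 u hu1).mono (by intro j hj; exact Finset.mem_range.mp hj))
    (fun j hj => lt_of_le_of_lt (le_max_right _ _) (hu2 j (Finset.mem_range.mp hj)))
  have hsat' : SatU w u q := hsat
  rcases hq.2.2.2 with h | h
  · exfalso
    refine hg1 q h u hu1 hsat' ?_
    intro j hj
    have h4 := hcl _ (hSB q hq.2.2.1)
    exact lt_trans (lt_of_le_of_lt (le_max_left _ _) h4) (lt_of_le_of_lt (le_max_left _ _) (hu2 j hj))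
  · exact ⟨q, h, fun e he => lt_of_lt_of_le (hq.2.2.1 e he) (le_max_left _ _), hsat'⟩

end Pool.Agent.Helper639.K
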