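import Pool.Agent.Helper639.KD

open Set Cardinal

namespace Pool.Agent.Helper639.K

set_option linter.unusedSectionVars false

variable {Ω : Type} [LinearOrder Ω]

theorem match_append {z : ℕ → Ω × ℕ} {d : List (Ent Ω)} {e : Ent Ω} {u : ℕ → Ω} :
    Match z (d ++ [e]) u ↔ Match z d u ∧ z d.length = interp u e := by
  unfold Match
  constructor
  · intro h
    refine ⟨fun j e' he' => h j e' ?_, h _ _ ?_⟩
    · have hj : j < d.length := by
        obtain ⟨hj, -⟩ := List.getElem?_eq_some_iff.mp he'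
        exact hj
      rw [List.getElem?_append_left hj]
      exact he'
    · simp
  · rintro ⟨h1, h2⟩ j e' he'
    rcases lt_trichotomy j d.length with hj | hj | hj
    · rw [List.getElem?_append_left hj] at he'
      exact h1 j e' he'
    · subst hj
      simp at he'
      rw [← he']
      exact h2
    · rw [List.getElem?_eq_none (by simp; omega)] at he'
      exact absurd he' (by simp)

/-- indices of a description -/
def DIdx (m : ℕ) (d : List (Ent Ω)) : Prop := ∀ e ∈ d, ∀ k, e.1 = Sum.inr k → k < m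

theorem interp_congr {u u' : ℕ → Ω} {m : ℕ} (h : ∀ j < m, u j = u' j) {e : Ent Ω} (he : ∀ k, e.1 = Sum.inr k → k < m) :
    interp u e = interp u' e := by
  obtain ⟨a | k, n⟩ := e
  · rfl
  · simp only [interp, Sum.elim_inr]
    rw [h k (he k rfl)]

theorem match_congr {z : ℕ → Ω × ℕ} {d : List (Ent Ω)} {u u' : ℕ → Ω} {m : ℕ} (h : ∀ j < m, u j = u' j)
    (hd : DIdx m d) (hm : Match z d u) : Match z d u' := by
  intro j e he
  rw [hm j e he]
  exact interp_congr h (hd e (List.mem_of_getElem? he))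

theorem satU_congr {w : Ω → Ω → Bool} {q : Cnd (ℕ × Ω)} {u u' : ℕ → Ω} {m : ℕ} (h : ∀ j < m, u j = u' j)
    (hq : Idx m q) (hm : SatU w u q) : SatU w u' q := by
  intro e he
  have := hm e he
  simp only at this ⊢
  rw [← h _ (hq e he)]
  exact this

/-- good objects -/
def GoodT (w : Ω → Ω → Bool) (C : Set (ℕ → Ω × ℕ)) (t : Obj Ω) : Prop :=
  DIdx t.2.1 t.1 ∧ IntC w t.2.1 (UU C t.1 t.2.1) t.2.2

theorem IntC.mono {w : Ω → Ω → Bool} {m : ℕ} {𝒰 : Set (ℕ → Ω)} {q q' : Cnd (ℕ × Ω)} (h : IntC w m 𝒰 q)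
    (hqq : q ⊆ q') (hcon : Con q') (hidx : Idx m q') : IntC w m 𝒰 q' :=
  ⟨hcon, hidx, fun r hr hr2 hr3 => h.2.2 r (hqq.trans hr) hr2 hr3⟩

variable [WellFoundedLT Ω]

/-- Lemma B -/
theorem lemB {w : Ω → Ω → Bool} {tau : Ω → Bool} (hG : Gen w tau)
    (hc : ∀ a : Ω, (Set.Iic a).Countable) (hu : ¬ (Set.univ : Set Ω).Countable)
    (C : Set (ℕ → Ω × ℕ)) (t : Obj Ω) (ht : GoodT w C t) :
    ∃ (e : Ent Ω) (m' : ℕ) (q' : Cnd (ℕ × Ω)), GoodT w C (t.1 ++ [e], m', q') ∧ t.2.2 ⊆ q' ∧
      (m' = t.2.1 ∨ m' = t.2.1 + 1) := by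
  classical
  obtain ⟨d, m, q⟩ := t
  obtain ⟨hdi, hcon, hidx, hint⟩ := ht
  simp only at hdi hcon hidx hint ⊢
  have h1 : ∀ t' : Obj Ω, ∃ γ, ∀ u ∈ UU C (d ++ t'.1) t'.2.1, (∀ j < t'.2.1, γ < u j) →
      ∃ q, IntC w t'.2.1 (UU C (d ++ t'.1) t'.2.1) q ∧ (∀ e ∈ q, e.1.2 < γ) ∧ SatU w u q :=
    fun t' => lemA hG hc hu t'.2.1 _ (fun u hu => hu.1)
  choose g hg using h1
  obtain ⟨b0, -⟩ := Eb.bdd_of_countable hc hu (D := (∅ : Set Ω)) Set.countable_empty
  obtain ⟨δ, hδ, hcl⟩ := closing hc hu g b0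
  obtain ⟨u, ⟨⟨huinj, z, hz, hmatch⟩, hsat⟩, hub⟩ := hint q (Finset.Subset.refl _) hcon hidx δ
  -- finishing
  have fin : ∀ (e : Ent Ω) (m' : ℕ) (u' : ℕ → Ω), (m' = m ∨ m' = m + 1) → (∀ c, e.1 = Sum.inl c → c < δ) →
      (∀ k, e.1 = Sum.inr k → k < m') → (∀ j < m, u j = u' j) → u' ∈ UU C (d ++ [e]) m' → (∀ j < m', δ ≤ u' j) →
      ∃ (e : Ent Ω) (m' : ℕ) (q' : Cnd (ℕ × Ω)), GoodT w C (d ++ [e], m', q') ∧ q ⊆ q' ∧ (m' = m ∨ m' = m + 1) := by
    intro e m' u' hm' he1 he2 huu hu' hu'b
    have hSB : SB δ (([e], m', ∅) : Obj Ω) := by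
      refine ⟨?_, fun e he => absurd he (Finset.notMem_empty _)⟩
      intro e' he' c hc'
      simp only [List.mem_singleton] at he'
      subst he'
      exact he1 c hc'
    have hgb := hcl _ hSB
    obtain ⟨q1, hq1, -, hsat1⟩ := hg ([e], m', ∅) u' hu' (fun j hj => lt_of_lt_of_le hgb (hu'b j hj))
    simp only at hq1
    have hmm' : m ≤ m' := by rcases hm' with h | h <;> omega
    have hsat2 : SatU w u' (q ∪ q1) := (satU_congr huu hidx hsat).union hsat1
    refine ⟨e, m', q ∪ q1, ⟨?_, ?_⟩, Finset.subset_union_left, hm'⟩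
    · intro e' he' k hk
      simp only [List.mem_append, List.mem_singleton] at he'
      rcases he' with he' | he'
      · exact lt_of_lt_of_le (hdi e' he' k hk) hmm'
      · subst he'
        exact he2 k hk
    · refine hq1.mono Finset.subset_union_right hsat2.con ?_
      intro e' he'
      rcases Finset.mem_union.mp he' with he' | he'
      · exact lt_of_lt_of_le (hidx e' he') hmm'
      · exact hq1.2.1 e' he'
  by_cases ha : (z d.length).1 < δ
  · refine fin (Sum.inl (z d.length).1, (z d.length).2) m u (Or.inl rfl) ?_ ?_ (fun _ _ => rfl) ⟨huinj, z, hz, ?_⟩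
      (fun j hj => (hub j hj).le)
    · intro c hc'
      simp only [Sum.inl.injEq] at hc'
      rw [← hc']
      exact ha
    · intro k hk
      exact absurd hk (by simp)
    · rw [match_append]
      exact ⟨hmatch, rfl⟩
  · by_cases hk : ∃ k < m, u k = (z d.length).1
    · obtain ⟨k, hk, hk2⟩ := hk
      refine fin (Sum.inr k, (z d.length).2) m u (Or.inl rfl) ?_ ?_ (fun _ _ => rfl) ⟨huinj, z, hz, ?_⟩
        (fun j hj => (hub j hj).le)
      · intro c hc'
        exact absurd hc' (by simp)
      · intro k' hk'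
        simp only [Sum.inr.injEq] at hk'
        rw [← hk']
        exact hk
      · rw [match_append]
        refine ⟨hmatch, ?_⟩
        simp only [interp, Sum.elim_inr]
        rw [hk2]
    · push Not at hk
      have hne : ∀ j < m, Function.update u m (z d.length).1 j = u j := fun j hj =>
        Function.update_of_ne (ne_of_lt hj) _ _
      refine fin (Sum.inr m, (z d.length).2) (m + 1) (Function.update u m (z d.length).1) (Or.inr rfl) ?_ ?_
        (fun j hj => (hne j hj).symm) ⟨?_, z, hz, ?_⟩ ?_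
      · intro c hc'
        exact absurd hc' (by simp)
      · intro k' hk'
        simp only [Sum.inr.injEq] at hk'
        omega
      · intro j hj j' hj' hjj
        simp only [Set.mem_Iio] at hj hj'
        by_cases h1 : j = m <;> by_cases h2 : j' = m
        · rw [h1, h2]
        · have hj2 : j' < m := by omega
          rw [h1, Function.update_self, hne j' hj2] at hjj
          exact absurd hjj.symm (hk j' hj2)
        · have hj2 : j < m := by omega
          rw [h2, Function.update_self, hne j hj2] at hjj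
          exact absurd hjj (hk j hj2)
        · have hj1 : j < m := by omega
          have hj2 : j' < m := by omega
          rw [hne j hj1, hne j' hj2] at hjj
          exact huinj hj1 hj2 hjj
      · rw [match_append]
        refine ⟨match_congr (fun j hj => (hne j hj).symm) hdi hmatch, ?_⟩
        simp [interp]
      · intro j hj
        by_cases h1 : j = m
        · rw [h1, Function.update_self]
          exact not_lt.mp ha
        · rw [hne j (by omega)]
          exact (hub j (by omega)).le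

end Pool.Agent.Helper639.K
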