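import Pool.Agent.Helper639.KE

open Set Cardinal

namespace Pool.Agent.Helper639.K

set_option linter.unusedSectionVars false

variable {Ω : Type} [LinearOrder Ω]

/-- closedness in the power of the points above `γ₀` -/
def RelClosed (w : Ω → Ω → Bool) (γ₀ : Ω) (C : Set (ℕ → Ω × ℕ)) : Prop :=
  (∀ z ∈ C, ∀ j, γ₀ < (z j).1) ∧
  ∀ z : ℕ → Ω × ℕ, (∀ j, γ₀ < (z j).1) → (∀ (F : Finset Ω) (L : ℕ), ∃ c ∈ C, ∀ j < L, (c j).2 = (z j).2 ∧
    ∀ ξ ∈ F, w (c j).1 ξ = w (z j).1 ξ) → z ∈ C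

theorem part_con {q : Cnd (ℕ × Ω)} (h : Con q) (j : ℕ) : Con (part j q) := by
  intro k h1 h2
  rw [mem_part] at h1 h2
  exact h _ h1 h2

variable [WellFoundedLT Ω]

/-- Lemma C -/
theorem lemC {w : Ω → Ω → Bool} {tau : Ω → Bool} (hG : Gen w tau)
    (hc : ∀ a : Ω, (Set.Iic a).Countable) (hu : ¬ (Set.univ : Set Ω).Countable)
    {γ₀ : Ω} {C : Set (ℕ → Ω × ℕ)} (hC : RelClosed w γ₀ C) (t : Obj Ω) (ht : GoodT w C t) (γ : Ω) :
    ∃ u : ℕ → Ω, (∀ k < t.2.1, tau (u k) = true) ∧ Set.InjOn u (Set.Iio t.2.1) ∧ (∀ k < t.2.1, γ < u k) ∧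
      SatU w u t.2.2 ∧ ∃ a ∈ C, Match a t.1 u := by
  classical
  -- extension function
  have h1 : ∀ t' : Obj Ω, ∃ (t'' : Obj Ω), GoodT w C t' → (GoodT w C t'' ∧ (∃ e, t''.1 = t'.1 ++ [e]) ∧
      t'.2.2 ⊆ t''.2.2 ∧ (t''.2.1 = t'.2.1 ∨ t''.2.1 = t'.2.1 + 1)) := by
    intro t'
    by_cases h : GoodT w C t'
    · obtain ⟨e, m', q', h2, h3, h4⟩ := lemB hG hc hu C t' h
      exact ⟨(t'.1 ++ [e], m', q'), fun _ => ⟨h2, ⟨e, rfl⟩, h3, h4⟩⟩
    · exact ⟨t', fun h' => absurd h' h⟩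
  choose ext hext using h1
  have h2 : ∀ t' : Obj Ω, ∃ b, SB b (ext t') := fun t' => exists_SB hc hu _
  choose g hg using h2
  obtain ⟨b1, hb1⟩ := exists_SB hc hu t
  obtain ⟨δ, hδ, hcl⟩ := closing hc hu g (max b1 (max γ γ₀))
  let 𝒯 : Set (Obj Ω) := {t' | SB δ t' ∧ GoodT w C t'}
  have h𝒯c : 𝒯.Countable := (SB_countable hc δ).mono fun t' ht' => ht'.1
  have ht𝒯 : t ∈ 𝒯 := ⟨hb1.mono (le_of_lt (lt_of_le_of_lt (le_max_left _ _) hδ)), ht⟩
  have hext𝒯 : ∀ t' ∈ 𝒯, ext t' ∈ 𝒯 := fun t' ht' =>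
    ⟨(hg t').mono (le_of_lt (hcl t' ht'.1)), (hext t' ht'.2).1⟩
  -- the families
  let 𝒜 : Obj Ω → Set (Cnd (ℕ × Ω)) := fun t' =>
    {r | ∃ t'' ∈ 𝒯, (∃ e, t''.1 = t'.1 ++ [e]) ∧ t'.2.2 ⊆ t''.2.2 ∧ (t''.2.1 = t'.2.1 ∨ t''.2.1 = t'.2.1 + 1) ∧
      r = t''.2.2.filter (fun e => e.1.1 < t'.2.1)} ∪ {r | ∃ e ∈ t'.2.2, r = {(e.1, !e.2)}}
  have h𝒜c : ∀ t', (𝒜 t').Countable := by
    intro t'
    refine Set.Countable.union ?_ ?_
    · refine (h𝒯c.image (fun t'' => t''.2.2.filter (fun e => e.1.1 < t'.2.1))).mono ?_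
      rintro r ⟨t'', h1, -, -, -, rfl⟩
      exact ⟨t'', h1, rfl⟩
    · refine ((t'.2.2.finite_toSet.image (fun e => ({(e.1, !e.2)} : Cnd (ℕ × Ω)))).countable).mono ?_
      rintro r ⟨e, he, rfl⟩
      exact ⟨e, he, rfl⟩
  have hPD : ∀ t' ∈ 𝒯, PD (𝒜 t') := by
    rintro ⟨d, m, q⟩ ht' p hp
    by_cases hinc : ∃ e ∈ q, (e.1, !e.2) ∈ p
    · obtain ⟨e, he, hep⟩ := hinc
      obtain ⟨x, hx⟩ := hp.exists_sat
      refine ⟨{(e.1, !e.2)}, Or.inr ⟨e, he, rfl⟩, x, hx, ?_⟩
      intro e' he'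
      rw [Finset.mem_singleton] at he'
      subst he'
      exact hx _ hep
    · push Not at hinc
      let p0 : Cnd (ℕ × Ω) := p.filter (fun e => e.1.1 < m ∧ e.1.2 < δ)
      have hp0 : p0 ⊆ p := Finset.filter_subset _ _
      have hgood := ht'.2
      obtain ⟨hdi, hcon, hidx, hint⟩ := hgood
      simp only at hdi hcon hidx hint
      have hq'c : Con (q ∪ p0) := by
        obtain ⟨x, h3, h4⟩ := con_of_union hcon (hp.mono hp0) (fun k b h3 h4 => hinc (k, b) h3 (hp0 h4))
        exact (h3.union h4).con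
      have hq'i : Idx m (q ∪ p0) := by
        intro e he
        rcases Finset.mem_union.mp he with he | he
        · exact hidx e he
        · exact (Finset.mem_filter.mp he).2.1
      have ht1 : (d, m, q ∪ p0) ∈ 𝒯 := by
        refine ⟨⟨ht'.1.1, ?_⟩, hdi, ht'.2.2.mono Finset.subset_union_left hq'c hq'i⟩
        intro e he
        rcases Finset.mem_union.mp he with he | he
        · exact ht'.1.2 e he
        · exact (Finset.mem_filter.mp he).2.2
      obtain ⟨h3, h4, h5, h6⟩ := hext _ ht1.2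
      have ht2 := hext𝒯 _ ht1
      simp only at h4 h5 h6
      refine ⟨(ext (d, m, q ∪ p0)).2.2.filter (fun e => e.1.1 < m),
        Or.inl ⟨ext (d, m, q ∪ p0), ht2, h4, Finset.subset_union_left.trans h5, h6, rfl⟩, ?_⟩
      have hcon2 := h3.2.1
      refine con_of_union hp (hcon2.mono (Finset.filter_subset _ _)) ?_
      intro k b h7 h8
      obtain ⟨h9, h10⟩ := Finset.mem_filter.mp h8
      simp only at h10
      have h11 : k.2 < δ := ht2.1.2 _ h9
      have h12 : (k, b) ∈ (ext (d, m, q ∪ p0)).2.2 :=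
        h5 (Finset.mem_union_right _ (Finset.mem_filter.mpr ⟨h7, h10, h11⟩))
      cases b with
      | true => exact hcon2 k h12 h9
      | false => exact hcon2 k h9 h12
  have hluz : ∀ t' : Obj Ω, ∃ γ, t' ∈ 𝒯 → ∀ u : ℕ → Ω, Set.InjOn u (Set.Iio t'.2.1) → (∀ j < t'.2.1, γ < u j) →
      ∃ q ∈ 𝒜 t', SatU w u q := by
    intro t'
    by_cases h : t' ∈ 𝒯
    · obtain ⟨γ, hγ⟩ := hG.luz (Finset.range t'.2.1) (𝒜 t') (h𝒜c t') (by
        rintro q (⟨t'', -, -, -, -, rfl⟩ | ⟨e, he, rfl⟩) e' he'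
        · exact Finset.mem_range.mpr (Finset.mem_filter.mp he').2
        · rw [Finset.mem_singleton] at he'
          subst he'
          exact Finset.mem_range.mpr (h.2.2.2.1 e he)) (hPD t' h)
      refine ⟨γ, fun _ u h3 h4 => ?_⟩
      exact hγ u (h3.mono fun j hj => Finset.mem_range.mp hj) fun j hj => h4 j (Finset.mem_range.mp hj)
    · exact ⟨γ, fun h' => absurd h' h⟩
  choose gl hgl using hluz
  obtain ⟨γs, hγs⟩ := Eb.bdd_of_countable hc hu (D := insert γ (insert γ₀ (gl '' 𝒯)))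
    (((h𝒯c.image gl).insert γ₀).insert γ)
  have hγ1 : γ < γs := hγs _ (Or.inl rfl)
  have hγ2 : γ₀ < γs := hγs _ (Or.inr (Or.inl rfl))
  have hγ3 : ∀ t' ∈ 𝒯, gl t' < γs := fun t' ht' => hγs _ (Or.inr (Or.inr ⟨t', ht', rfl⟩))
  -- the invariant
  let Inv : Obj Ω × (ℕ → Ω) → Prop := fun s => s.1 ∈ 𝒯 ∧ (∀ k < s.1.2.1, tau (s.2 k) = true) ∧
    (∀ k < s.1.2.1, γs < s.2 k) ∧ Set.InjOn s.2 (Set.Iio s.1.2.1) ∧ SatU w s.2 s.1.2.2
  -- start
  have hstart : ∃ u0 : ℕ → Ω, Inv (t, u0) := by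
    have h3 : ∀ (k : ℕ) (b : Ω), ∃ x, b < x ∧ tau x = true ∧ Sat (w x) (part k t.2.2) := fun k b =>
      hG.pt true _ (part_con ht.2.1 k) b
    choose f hf1 hf2 hf3 using h3
    let u0 : ℕ → Ω := fun n => Nat.rec (f 0 γs) (fun n x => f (n + 1) x) n
    have hu0 : ∀ n, u0 (n + 1) = f (n + 1) (u0 n) := fun n => rfl
    have hu00 : u0 0 = f 0 γs := rfl
    have hmono : StrictMono u0 := strictMono_nat_of_lt_succ fun n => by rw [hu0]; exact hf1 _ _
    refine ⟨u0, ht𝒯, ?_, ?_, hmono.injective.injOn, ?_⟩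
    · intro k _
      show tau (u0 k) = true
      cases k with
      | zero => rw [hu00]; exact hf2 _ _
      | succ k => rw [hu0]; exact hf2 _ _
    · intro k _
      show γs < u0 k
      have : γs < u0 0 := by rw [hu00]; exact hf1 _ _
      exact lt_of_lt_of_le this (hmono.monotone (Nat.zero_le k))
    · have h4 : ∀ k, Sat (w (u0 k)) (part k t.2.2) := by
        intro k
        cases k with
        | zero => rw [hu00]; exact hf3 _ _
        | succ k => rw [hu0]; exact hf3 _ _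
      intro e he
      have : (e.1.2, e.2) ∈ part e.1.1 t.2.2 := by rw [mem_part]; exact he
      exact h4 e.1.1 _ this
  -- step
  have hstep : ∀ s : Obj Ω × (ℕ → Ω), ∃ s' : Obj Ω × (ℕ → Ω), Inv s → (Inv s' ∧ (∃ e, s'.1.1 = s.1.1 ++ [e]) ∧
      s.1.2.1 ≤ s'.1.2.1 ∧ ∀ k < s.1.2.1, s.2 k = s'.2 k) := by
    rintro ⟨⟨d, m, q⟩, u⟩
    by_cases hInv : Inv ((d, m, q), u)
    swap
    · exact ⟨((d, m, q), u), fun h' => absurd h' hInv⟩
    obtain ⟨h3, h4, h5, h6, h7⟩ := hInv
    simp only at h3 h4 h5 h6 h7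
    obtain ⟨r, hr, hsat⟩ := hgl _ h3 u h6 (fun j hj => lt_trans (hγ3 _ h3) (h5 j hj))
    rcases hr with ⟨t'', h8, h9, h10, h11, rfl⟩ | ⟨e, he, rfl⟩
    swap
    · exfalso
      have h8 := h7 e he
      have h9 := hsat _ (Finset.mem_singleton_self _)
      simp only at h8 h9
      rw [h8] at h9
      cases h : e.2 <;> rw [h] at h9 <;> simp at h9
    simp only at h9 h10 h11
    rcases h11 with h11 | h11
    · refine ⟨(t'', u), fun _ => ⟨⟨h8, ?_, ?_, ?_, ?_⟩, h9, h11.ge, fun _ _ => rfl⟩⟩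
      · simp only [h11]; exact h4
      · simp only [h11]; exact h5
      · simp only [h11]; exact h6
      · intro e he
        refine hsat e (Finset.mem_filter.mpr ⟨he, ?_⟩)
        have := h8.2.2.2.1 e he
        rw [h11] at this
        exact this
    · obtain ⟨B, hB⟩ := Eb.bdd_of_countable hc hu (D := insert γs (u '' (Set.Iio m)))
        (((Set.finite_Iio m).image u).countable.insert γs)
      obtain ⟨x, hx1, hx2, hx3⟩ := hG.pt true _ (part_con h8.2.2.1 m) B
      have hne : ∀ j < m, Function.update u m x j = u j := fun j hj =>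
        Function.update_of_ne (ne_of_lt hj) _ _
      refine ⟨(t'', Function.update u m x), fun _ => ⟨⟨h8, ?_, ?_, ?_, ?_⟩, h9, by simp only [h11]; omega,
        fun k hk => (hne k hk).symm⟩⟩
      · intro k hk
        simp only [h11] at hk
        simp only
        by_cases h : k = m
        · rw [h, Function.update_self]; exact hx2
        · rw [hne k (by omega)]; exact h4 k (by omega)
      · intro k hk
        simp only [h11] at hk
        simp only
        by_cases h : k = m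
        · rw [h, Function.update_self]; exact lt_trans (hB _ (Or.inl rfl)) hx1
        · rw [hne k (by omega)]; exact h5 k (by omega)
      · intro k hk k' hk' hkk
        simp only [h11, Set.mem_Iio] at hk hk'
        simp only at hkk
        by_cases h1 : k = m <;> by_cases h2 : k' = m
        · rw [h1, h2]
        · have hj2 : k' < m := by omega
          rw [h1, Function.update_self, hne k' hj2] at hkk
          exact absurd hkk.symm (ne_of_lt (lt_trans (hB _ (Or.inr ⟨k', hj2, rfl⟩)) hx1))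
        · have hj2 : k < m := by omega
          rw [h2, Function.update_self, hne k hj2] at hkk
          exact absurd hkk (ne_of_lt (lt_trans (hB _ (Or.inr ⟨k, hj2, rfl⟩)) hx1))
        · have hj1 : k < m := by omega
          have hj2 : k' < m := by omega
          rw [hne k hj1, hne k' hj2] at hkk
          exact h6 hj1 hj2 hkk
      · intro e he
        simp only
        have h12 := h8.2.2.2.1 e he
        rw [h11] at h12
        by_cases h : e.1.1 = m
        · rw [h, Function.update_self]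
          have : (e.1.2, e.2) ∈ part m t''.2.2 := by
            rw [mem_part]
            simp only
            rw [← h]
            exact he
          exact hx3 _ this
        · have h13 : e.1.1 < m := by omega
          rw [hne _ h13]
          exact hsat e (Finset.mem_filter.mpr ⟨he, h13⟩)
  choose st hst using hstep
  obtain ⟨u0, hu0⟩ := hstart
  let s : ℕ → Obj Ω × (ℕ → Ω) := fun n => Nat.rec (t, u0) (fun _ x => st x) n
  have hs0 : s 0 = (t, u0) := rfl
  have hsS : ∀ n, s (n + 1) = st (s n) := fun n => rfl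
  have hInv : ∀ n, Inv (s n) := by
    intro n
    induction n with
    | zero => exact hu0
    | succ n ih => rw [hsS]; exact (hst _ ih).1
  have hlen : ∀ n, (s n).1.1.length = t.1.length + n := by
    intro n
    induction n with
    | zero => rfl
    | succ n ih =>
      obtain ⟨e, he⟩ := (hst _ (hInv n)).2.1
      rw [hsS, he, List.length_append, ih]
      simp; omega
  have hmon : ∀ n k, (s n).1.2.1 ≤ (s (n + k)).1.2.1 ∧ (∀ j < (s n).1.2.1, (s n).2 j = (s (n + k)).2 j) ∧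
      ∀ (j : ℕ) (e : Ent Ω), (s n).1.1[j]? = some e → (s (n + k)).1.1[j]? = some e := by
    intro n k
    induction k with
    | zero => exact ⟨le_rfl, fun _ _ => rfl, fun _ _ h => h⟩
    | succ k ih =>
      obtain ⟨h3, h4, h5⟩ := ih
      obtain ⟨-, ⟨e0, he0⟩, h6, h7⟩ := hst _ (hInv (n + k))
      have h8 : s (n + (k + 1)) = st (s (n + k)) := hsS (n + k)
      rw [h8]
      refine ⟨le_trans h3 h6, fun j hj => (h4 j hj).trans (h7 j (lt_of_lt_of_le hj h3)), fun j e he => ?_⟩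
      have h9 := h5 j e he
      rw [he0]
      obtain ⟨hj, -⟩ := List.getElem?_eq_some_iff.mp h9
      rw [List.getElem?_append_left hj]
      exact h9
  have hget : ∀ j, ∃ e, (s (j + 1)).1.1[j]? = some e := by
    intro j
    have h3 := hlen (j + 1)
    have : j < (s (j + 1)).1.1.length := by omega
    exact ⟨_, List.getElem?_eq_getElem this⟩
  choose en hen using hget
  let z : ℕ → Ω × ℕ := fun j => interp (s (j + 1)).2 (en j)
  have hzm : ∀ n, Match z (s n).1.1 (s n).2 := by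
    intro n j e he
    have hdi1 : DIdx (s n).1.2.1 (s n).1.1 := (hInv n).1.2.1
    have hdi2 : DIdx (s (j + 1)).1.2.1 (s (j + 1)).1.1 := (hInv (j + 1)).1.2.1
    obtain ⟨-, h4, h5⟩ := hmon n (j + 1)
    obtain ⟨-, h6, h7⟩ := hmon (j + 1) n
    rw [show j + 1 + n = n + (j + 1) by omega] at h6 h7
    have h8 := h5 j e he
    have h9 := h7 j _ (hen j)
    rw [h8] at h9
    have h10 : e = en j := Option.some.inj h9
    show interp (s (j + 1)).2 (en j) = _
    rw [interp_congr h6 (hdi2 _ (List.mem_of_getElem? (hen j))), ← h10,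
      ← interp_congr h4 (hdi1 _ (List.mem_of_getElem? he))]
  -- approximations
  have happ : ∀ (n : ℕ) (F : Finset Ω), ∃ c ∈ C, ∀ j e, (s n).1.1[j]? = some e → (c j).2 = (z j).2 ∧
      (∀ ξ ∈ F, w (c j).1 ξ = w (z j).1 ξ) ∧ (∀ a, e.1 = Sum.inl a → c j = z j) := by
    intro n F
    obtain ⟨h𝒯n, -, -, -, hsatn⟩ := hInv n
    have hgood := h𝒯n.2
    obtain ⟨hdi, hcon, hidx, hint⟩ := hgood
    let q' : Cnd (ℕ × Ω) := (s n).1.2.2 ∪ ((Finset.range (s n).1.2.1) ×ˢ F).image (fun k => (k, w ((s n).2 k.1) k.2))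
    have hq's : SatU w (s n).2 q' := by
      refine Sat.union hsatn ?_
      intro e he
      obtain ⟨k, -, rfl⟩ := Finset.mem_image.mp he
      rfl
    have hq'i : Idx (s n).1.2.1 q' := by
      intro e he
      rcases Finset.mem_union.mp he with he | he
      · exact hidx e he
      · obtain ⟨k, hk, rfl⟩ := Finset.mem_image.mp he
        exact Finset.mem_range.mp (Finset.mem_product.mp hk).1
    obtain ⟨u', ⟨⟨-, c, hcC, hcm⟩, hsat'⟩, -⟩ := hint q' Finset.subset_union_left hq's.con hq'i γ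
    refine ⟨c, hcC, fun j e he => ?_⟩
    have h3 := hcm j e he
    have h4 := hzm n j e he
    rw [h3, h4]
    refine ⟨rfl, ?_, ?_⟩
    · intro ξ hξ
      obtain ⟨a | k, i⟩ := e
      · rfl
      · simp only [interp, Sum.elim_inr]
        have hk : k < (s n).1.2.1 := hdi _ (List.mem_of_getElem? he) k rfl
        exact hsat' ((k, ξ), w ((s n).2 k) ξ) (Finset.mem_union_right _ (Finset.mem_image.mpr
          ⟨(k, ξ), Finset.mem_product.mpr ⟨Finset.mem_range.mpr hk, hξ⟩, rfl⟩))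
    · intro a ha
      obtain ⟨a' | k, i⟩ := e
      · rfl
      · exact absurd ha (by simp)
  have hzγ : ∀ j, γ₀ < (z j).1 := by
    intro j
    obtain ⟨c, hcC, hc2⟩ := happ (j + 1) ∅
    obtain ⟨-, -, h3⟩ := hc2 j (en j) (hen j)
    cases h : (en j).1 with
    | inl a =>
      rw [← h3 a h]
      exact hC.1 c hcC j
    | inr k =>
      have hk : k < (s (j + 1)).1.2.1 := (hInv (j + 1)).1.2.1 _ (List.mem_of_getElem? (hen j)) k h
      have : (z j).1 = (s (j + 1)).2 k := by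
        show (interp (s (j + 1)).2 (en j)).1 = _
        simp only [interp, h, Sum.elim_inr]
      rw [this]
      exact lt_trans hγ2 ((hInv (j + 1)).2.2.1 k hk)
  have hzC : z ∈ C := by
    refine hC.2 z hzγ fun F L => ?_
    obtain ⟨c, hcC, hc2⟩ := happ L F
    refine ⟨c, hcC, fun j hj => ?_⟩
    have h3 := hlen L
    have hj2 : j < (s L).1.1.length := by omega
    obtain ⟨h3, h4, -⟩ := hc2 j _ (List.getElem?_eq_getElem hj2)
    exact ⟨h3, h4⟩
  obtain ⟨-, h4, h5, h6, h7⟩ := hu0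
  exact ⟨u0, h4, h6, fun k hk => lt_trans hγ1 (h5 k hk), h7, z, hzC, hzm 0⟩

end Pool.Agent.Helper639.K
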