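import Pool.Agent.Helper639.KF

open Set Cardinal

namespace Pool.Agent.Helper639.K

set_option linter.unusedSectionVars false

variable {Ω : Type} [LinearOrder Ω]

/-- descriptions of initial segments -/
theorem desc (δ : Ω) (z : ℕ → Ω × ℕ) (L : ℕ) : ∃ (d : List (Ent Ω)) (m : ℕ) (u : ℕ → Ω), d.length = L ∧ DIdx m d ∧
    (∀ e ∈ d, ∀ c, e.1 = Sum.inl c → c < δ) ∧ Set.InjOn u (Set.Iio m) ∧ (∀ k < m, δ ≤ u k) ∧ Match z d u := by
  classical
  induction L with
  | zero =>
    refine ⟨[], 0, fun _ => δ, rfl, fun e he => absurd he List.not_mem_nil, fun e he => absurd he List.not_mem_nil, ?_,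
      fun k hk => absurd hk (Nat.not_lt_zero k), ?_⟩
    · intro j hj
      exact absurd hj (Nat.not_lt_zero j)
    · intro j e he
      simp at he
  | succ L ih =>
    obtain ⟨d, m, u, hlen, hdi, hsb, hinj, hub, hm⟩ := ih
    by_cases ha : (z d.length).1 < δ
    · refine ⟨d ++ [(Sum.inl (z d.length).1, (z d.length).2)], m, u, by simp [hlen], ?_, ?_, hinj, hub, ?_⟩
      · intro e he k hk
        simp only [List.mem_append, List.mem_singleton] at he
        rcases he with he | he
        · exact hdi e he k hk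
        · subst he
          exact absurd hk (by simp)
      · intro e he c hk
        simp only [List.mem_append, List.mem_singleton] at he
        rcases he with he | he
        · exact hsb e he c hk
        · subst he
          simp only [Sum.inl.injEq] at hk
          rw [← hk]
          exact ha
      · rw [match_append]
        exact ⟨hm, rfl⟩
    · by_cases hk : ∃ k < m, u k = (z d.length).1
      · obtain ⟨k, hk, hk2⟩ := hk
        refine ⟨d ++ [(Sum.inr k, (z d.length).2)], m, u, by simp [hlen], ?_, ?_, hinj, hub, ?_⟩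
        · intro e he k' hk'
          simp only [List.mem_append, List.mem_singleton] at he
          rcases he with he | he
          · exact hdi e he k' hk'
          · subst he
            simp only [Sum.inr.injEq] at hk'
            rw [← hk']
            exact hk
        · intro e he c hk
          simp only [List.mem_append, List.mem_singleton] at he
          rcases he with he | he
          · exact hsb e he c hk
          · subst he
            exact absurd hk (by simp)
        · rw [match_append]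
          refine ⟨hm, ?_⟩
          simp only [interp, Sum.elim_inr]
          rw [hk2]
      · push Not at hk
        have hne : ∀ j < m, Function.update u m (z d.length).1 j = u j := fun j hj =>
          Function.update_of_ne (ne_of_lt hj) _ _
        refine ⟨d ++ [(Sum.inr m, (z d.length).2)], m + 1, Function.update u m (z d.length).1, by simp [hlen],
          ?_, ?_, ?_, ?_, ?_⟩
        · intro e he k' hk'
          simp only [List.mem_append, List.mem_singleton] at he
          rcases he with he | he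
          · exact lt_trans (hdi e he k' hk') (Nat.lt_succ_self m)
          · subst he
            simp only [Sum.inr.injEq] at hk'
            omega
        · intro e he c hk
          simp only [List.mem_append, List.mem_singleton] at he
          rcases he with he | he
          · exact hsb e he c hk
          · subst he
            exact absurd hk (by simp)
        · intro j hj j' hj' hjj
          simp only [Set.mem_Iio] at hj hj'
          by_cases h1 : j = m <;> by_cases h2 : j' = m
          · rw [h1, h2]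
          · have hj2 : j' < m := by omega
            rw [h1, Function.update_self, hne j' hj2] at hjj
            exact absurd hjj.symm (hk j' hj2)
          · have hj2 : j < m := by omega
            rw [h2, Function.update_self, hne j hj2] at hjj
            exact absurd hjj (hk j hj2)
          · have hj1 : j < m := by omega
            have hj2 : j' < m := by omega
            rw [hne j hj1, hne j' hj2] at hjj
            exact hinj hj1 hj2 hjj
        · intro j hj
          by_cases h1 : j = m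
          · rw [h1, Function.update_self]
            exact not_lt.mp ha
          · rw [hne j (by omega)]
            exact hub j (by omega)
        · rw [match_append]
          refine ⟨match_congr (fun j hj => (hne j hj).symm) hdi hm, ?_⟩
          simp [interp]

variable [WellFoundedLT Ω]

/-- sequences of tuples from Lemma C -/
theorem seqC {w : Ω → Ω → Bool} {tau : Ω → Bool} (hG : Gen w tau)
    (hc : ∀ a : Ω, (Set.Iic a).Countable) (hu : ¬ (Set.univ : Set Ω).Countable)
    {γ₀ : Ω} {C : Set (ℕ → Ω × ℕ)} (hC : RelClosed w γ₀ C) (t : Obj Ω) (ht : GoodT w C t) :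
    ∃ (S : ℕ → ℕ → Ω) (a : ℕ → ℕ → Ω × ℕ), (∀ i j, j < t.2.1 → tau (S i j) = true) ∧
      (∀ i i' j j', j < t.2.1 → j' < t.2.1 → S i j = S i' j' → i = i' ∧ j = j') ∧
      (∀ i, SatU w (S i) t.2.2) ∧ (∀ i, a i ∈ C) ∧ (∀ i, Match (a i) t.1 (S i)) := by
  classical
  have h1 : ∀ u : ℕ → Ω, ∃ B, ∀ k < t.2.1, u k < B := by
    intro u
    obtain ⟨B, hB⟩ := Eb.bdd_of_countable hc hu (D := u '' (Set.Iio t.2.1)) ((Set.finite_Iio _).image u).countable
    exact ⟨B, fun k hk => hB _ ⟨k, hk, rfl⟩⟩
  choose B hB using h1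
  choose f hf1 hf2 hf3 hf4 hf5 using lemC hG hc hu hC t ht
  let S : ℕ → ℕ → Ω := fun n => Nat.rec (f γ₀) (fun _ u => f (B u)) n
  have hS : ∀ n, S (n + 1) = f (B (S n)) := fun n => rfl
  have hS0 : S 0 = f γ₀ := rfl
  have hcase : ∀ n, ∃ g, S n = f g := by
    intro n
    cases n with
    | zero => exact ⟨_, hS0⟩
    | succ n => exact ⟨_, hS n⟩
  have hlt : ∀ n k, ∀ j < t.2.1, ∀ j' < t.2.1, S n j < S (n + (k + 1)) j' := by
    intro n k
    induction k with
    | zero =>
      intro j hj j' hj'
      rw [show n + (0 + 1) = n + 1 by omega, hS]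
      exact lt_trans (hB _ j hj) (hf3 _ j' hj')
    | succ k ih =>
      intro j hj j' hj'
      rw [show n + (k + 1 + 1) = (n + (k + 1)) + 1 by omega, hS]
      exact lt_trans (ih j hj j' hj') (lt_trans (hB _ j' hj') (hf3 _ j' hj'))
  choose g hg using hcase
  choose a ha1 ha2 using hf5
  refine ⟨S, fun i => a (g i), ?_, ?_, ?_, fun i => ha1 _, ?_⟩
  · intro i j hj
    rw [hg i]
    exact hf1 _ j hj
  · intro i i' j j' hj hj' hjj
    rcases lt_trichotomy i i' with h | h | h
    · obtain ⟨k, rfl⟩ := Nat.exists_eq_add_of_lt h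
      exact absurd hjj (ne_of_lt (hlt i k j hj j' hj'))
    · subst h
      rw [hg i] at hjj
      exact ⟨rfl, hf2 _ hj hj' hjj⟩
    · obtain ⟨k, rfl⟩ := Nat.exists_eq_add_of_lt h
      exact absurd hjj.symm (ne_of_lt (hlt i' k j' hj' j hj))
  · intro i
    rw [hg i]
    exact hf4 _
  · intro i
    rw [hg i]
    exact ha2 _

/-- Lemma D: closed sets in the power are separable -/
theorem lemD {w : Ω → Ω → Bool} {tau : Ω → Bool} (hG : Gen w tau)
    (hc : ∀ a : Ω, (Set.Iic a).Countable) (hu : ¬ (Set.univ : Set Ω).Countable)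
    {γ₀ : Ω} {C : Set (ℕ → Ω × ℕ)} (hC : RelClosed w γ₀ C) :
    ∃ A ⊆ C, A.Countable ∧ ∀ z ∈ C, ∀ (F : Finset Ω) (L : ℕ), ∃ a ∈ A, ∀ j < L, (a j).2 = (z j).2 ∧
      ∀ ξ ∈ F, w (a j).1 ξ = w (z j).1 ξ := by
  classical
  -- Lemma A
  have h1 : ∀ t : Obj Ω, ∃ γ, ∀ u ∈ UU C t.1 t.2.1, (∀ j < t.2.1, γ < u j) →
      ∃ q, IntC w t.2.1 (UU C t.1 t.2.1) q ∧ (∀ e ∈ q, e.1.2 < γ) ∧ SatU w u q :=
    fun t => lemA hG hc hu t.2.1 _ (fun u hu => hu.1)
  choose gA hgA using h1
  -- sequences
  have h2 : ∀ t : Obj Ω, ∃ (S : ℕ → ℕ → Ω) (a : ℕ → ℕ → Ω × ℕ) (γ : Ω), GoodT w C t → ((∀ i, SatU w (S i) t.2.2) ∧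
      (∀ i, a i ∈ C) ∧ (∀ i, Match (a i) t.1 (S i)) ∧ ∀ P : Cnd (Ω × ℕ), Con P → (∀ e ∈ P, γ < e.1.1 ∧ e.1.2 < t.2.1) →
      ∀ n, ∃ i, n ≤ i ∧ ∀ e ∈ P, w (S i e.1.2) e.1.1 = e.2) := by
    intro t
    by_cases h : GoodT w C t
    · obtain ⟨S, a, h3, h4, h5, h6, h7⟩ := seqC hG hc hu hC t h
      obtain ⟨γ, hγ⟩ := hG.hfd S t.2.1 h4 h3
      exact ⟨S, a, γ, fun _ => ⟨h5, h6, h7, hγ⟩⟩
    · exact ⟨fun _ _ => γ₀, fun _ _ => (γ₀, 0), γ₀, fun h' => absurd h' h⟩
  choose S a gH hgH using h2
  obtain ⟨δ, hδ, hcl⟩ := closing hc hu (fun t => max (gA t) (gH t)) γ₀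
  refine ⟨(fun p : Obj Ω × ℕ => a p.1 p.2) '' ({t | SB δ t ∧ GoodT w C t} ×ˢ (Set.univ : Set ℕ)), ?_, ?_, ?_⟩
  · rintro _ ⟨⟨t, i⟩, ⟨⟨-, ht⟩, -⟩, rfl⟩
    exact (hgH t ht).2.1 i
  · exact (((SB_countable hc δ).mono fun t ht => ht.1).prod Set.countable_univ).image _
  · intro z hz F L
    obtain ⟨d, m, u, hlen, hdi, hsb, hinj, hub, hm⟩ := desc δ z L
    have huU : u ∈ UU C d m := ⟨hinj, z, hz, hm⟩
    have hSB0 : SB δ ((d, m, ∅) : Obj Ω) := ⟨hsb, fun e he => absurd he (Finset.notMem_empty _)⟩
    have hb0 := hcl _ hSB0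
    obtain ⟨q, hq, hqs, hsat⟩ := hgA (d, m, ∅) u huU
      (fun j hj => lt_of_lt_of_le (lt_of_le_of_lt (le_max_left _ _) hb0) (hub j hj))
    simp only at hq
    let q' : Cnd (ℕ × Ω) := q ∪ ((Finset.range m) ×ˢ (F.filter (· < δ))).image (fun k => (k, w (u k.1) k.2))
    have hq's : SatU w u q' := by
      refine Sat.union hsat ?_
      intro e he
      obtain ⟨k, -, rfl⟩ := Finset.mem_image.mp he
      rfl
    have hq'i : Idx m q' := by
      intro e he
      rcases Finset.mem_union.mp he with he | he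
      · exact hq.2.1 e he
      · obtain ⟨k, hk, rfl⟩ := Finset.mem_image.mp he
        exact Finset.mem_range.mp (Finset.mem_product.mp hk).1
    have hgood : GoodT w C (d, m, q') := ⟨hdi, hq.mono Finset.subset_union_left hq's.con hq'i⟩
    have hSB : SB δ ((d, m, q') : Obj Ω) := by
      refine ⟨hsb, ?_⟩
      intro e he
      rcases Finset.mem_union.mp he with he | he
      · exact lt_trans (hqs e he) (lt_of_le_of_lt (le_max_left _ _) hb0)
      · obtain ⟨k, hk, rfl⟩ := Finset.mem_image.mp he
        exact (Finset.mem_filter.mp (Finset.mem_product.mp hk).2).2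
    have hb := hcl _ hSB
    obtain ⟨h3, h4, h5, h6⟩ := hgH _ hgood
    let P : Cnd (Ω × ℕ) := ((F.filter (fun ξ => ¬ ξ < δ)) ×ˢ (Finset.range m)).image (fun k => (k, w (u k.2) k.1))
    have hPs : Sat (fun k : Ω × ℕ => w (u k.2) k.1) P := by
      intro e he
      obtain ⟨k, -, rfl⟩ := Finset.mem_image.mp he
      rfl
    obtain ⟨i, -, hi⟩ := h6 P hPs.con (by
      intro e he
      obtain ⟨k, hk, rfl⟩ := Finset.mem_image.mp he
      obtain ⟨h7, h8⟩ := Finset.mem_product.mp hk
      refine ⟨?_, Finset.mem_range.mp h8⟩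
      exact lt_of_lt_of_le (lt_of_le_of_lt (le_max_right _ _) hb) (not_lt.mp (Finset.mem_filter.mp h7).2)) 0
    refine ⟨a (d, m, q') i, ⟨((d, m, q'), i), ⟨⟨hSB, hgood⟩, trivial⟩, rfl⟩, ?_⟩
    intro j hj
    have hj2 : j < d.length := by rw [hlen]; exact hj
    have h7 := h5 i j _ (List.getElem?_eq_getElem hj2)
    have h8 := hm j _ (List.getElem?_eq_getElem hj2)
    have h9 : d[j] ∈ d := List.getElem_mem hj2
    generalize d[j] = e at h7 h8 h9
    rw [h7, h8]
    refine ⟨rfl, fun ξ hξ => ?_⟩
    obtain ⟨c | k, n⟩ := e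
    · rfl
    · simp only [interp, Sum.elim_inr]
      have hk : k < m := hdi _ h9 k rfl
      by_cases hξδ : ξ < δ
      · exact h3 i ((k, ξ), w (u k) ξ) (Finset.mem_union_right _ (Finset.mem_image.mpr
          ⟨(k, ξ), Finset.mem_product.mpr ⟨Finset.mem_range.mpr hk, Finset.mem_filter.mpr ⟨hξ, hξδ⟩⟩, rfl⟩))
      · exact hi ((ξ, k), w (u k) ξ) (Finset.mem_image.mpr
          ⟨(ξ, k), Finset.mem_product.mpr ⟨Finset.mem_filter.mpr ⟨hξ, hξδ⟩, Finset.mem_range.mpr hk⟩, rfl⟩)

end Pool.Agent.Helper639.K
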