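import Mathlib

open Set Topology Filter

namespace Pool.Agent.Helper639.K

/-- restriction of a sequence to its first `n` terms -/
def rest (q : ℕ → Bool) (n : ℕ) : List Bool := (List.range n).map q

theorem rest_eq {q q' : ℕ → Bool} {n n' : ℕ} (h : rest q n = rest q' n') : n = n' ∧ ∀ i < n, q i = q' i := by
  have h1 : n = n' := by
    have := congrArg List.length h
    simpa [rest] using this
  subst h1
  refine ⟨rfl, fun i hi => ?_⟩
  unfold rest at h
  rw [List.map_inj_left] at h
  exact h i (List.mem_range.mpr hi)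

theorem rest_congr {q q' : ℕ → Bool} {n : ℕ} (h : ∀ i < n, q i = q' i) : rest q n = rest q' n := by
  unfold rest
  rw [List.map_inj_left]
  intro i hi
  exact h i (List.mem_range.mp hi)

/-- the ideal generated by finite sets and the branches outside `Q` -/
def InI (Q : Set (ℕ → Bool)) (I : Set (List Bool)) : Prop :=
  ∃ (F : Finset (List Bool)) (S : Finset (ℕ → Bool)), (∀ q ∈ S, q ∉ Q) ∧
    ∀ s ∈ I, s ∈ F ∨ ∃ q ∈ S, ∃ n, s = rest q n

theorem InI.mono {Q : Set (ℕ → Bool)} {I J : Set (List Bool)} (h : InI Q J) (hIJ : I ⊆ J) : InI Q I := by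
  obtain ⟨F, S, h1, h2⟩ := h
  exact ⟨F, S, h1, fun s hs => h2 s (hIJ hs)⟩

theorem InI.union {Q : Set (ℕ → Bool)} {I J : Set (List Bool)} (hI : InI Q I) (hJ : InI Q J) : InI Q (I ∪ J) := by
  classical
  obtain ⟨F, S, h1, h2⟩ := hI
  obtain ⟨F', S', h3, h4⟩ := hJ
  refine ⟨F ∪ F', S ∪ S', ?_, ?_⟩
  · intro q hq
    rcases Finset.mem_union.mp hq with hq | hq
    · exact h1 q hq
    · exact h3 q hq
  · intro s hs
    rcases hs with hs | hs
    · rcases h2 s hs with h | ⟨q, hq, n, rfl⟩
      · exact Or.inl (Finset.mem_union_left _ h)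
      · exact Or.inr ⟨q, Finset.mem_union_left _ hq, n, rfl⟩
    · rcases h4 s hs with h | ⟨q, hq, n, rfl⟩
      · exact Or.inl (Finset.mem_union_right _ h)
      · exact Or.inr ⟨q, Finset.mem_union_right _ hq, n, rfl⟩

theorem InI_finite {Q : Set (ℕ → Bool)} (F : Finset (List Bool)) : InI Q (F : Set (List Bool)) :=
  ⟨F, ∅, fun q hq => absurd hq (Finset.notMem_empty _), fun _ hs => Or.inl hs⟩

theorem InI_branch {Q : Set (ℕ → Bool)} {q : ℕ → Bool} (hq : q ∉ Q) : InI Q (range (rest q)) := by
  classical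
  refine ⟨∅, {q}, ?_, ?_⟩
  · intro q' hq'
    rw [Finset.mem_singleton] at hq'
    rw [hq']
    exact hq
  · rintro _ ⟨n, rfl⟩
    exact Or.inr ⟨q, Finset.mem_singleton_self q, n, rfl⟩

theorem InI_good {Q : Set (ℕ → Bool)} {r : ℕ → Bool} (hr : r ∈ Q) {I : Set (List Bool)} (hI : InI Q I) :
    ∃ N, ∀ n ≥ N, rest r n ∉ I := by
  classical
  obtain ⟨F, S, h1, h2⟩ := hI
  have hfin : {n | rest r n ∈ F}.Finite := by
    refine Set.Finite.of_finite_image (f := rest r) (F.finite_toSet.subset ?_) ?_
    · rintro _ ⟨n, hn, rfl⟩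
      exact hn
    · intro n _ n' _ h
      exact (rest_eq h).1
  have hdiff : ∀ q ∈ S, ∃ k, q k ≠ r k := by
    intro q hq
    by_contra hcon
    push Not at hcon
    have : q = r := funext hcon
    rw [this] at hq
    exact h1 r hq hr
  have : ∃ K, ∀ q ∈ S, ∃ k < K, q k ≠ r k := by
    choose! k hk using hdiff
    refine ⟨S.sup k + 1, fun q hq => ⟨k q, Nat.lt_succ_of_le (Finset.le_sup hq), hk q hq⟩⟩
  obtain ⟨K, hK⟩ := this
  obtain ⟨N, hN⟩ := hfin.bddAbove
  refine ⟨max K (N + 1), fun n hn hI => ?_⟩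
  rcases h2 _ hI with h | ⟨q, hq, n', h⟩
  · have h3 := hN (show n ∈ {n | rest r n ∈ F} from h)
    have h4 := le_trans (le_max_right K (N + 1)) hn
    omega
  · obtain ⟨k, hk, hk2⟩ := hK q hq
    exact hk2 ((rest_eq h).2 k (lt_of_lt_of_le hk (le_trans (le_max_left _ _) hn))).symm

/-- the countable space with one nonisolated point -/
def X1 (_Q : Set (ℕ → Bool)) : Type := Option (List Bool)

def X1.inf {Q : Set (ℕ → Bool)} : X1 Q := (none : Option (List Bool))
def X1.nd {Q : Set (ℕ → Bool)} (s : List Bool) : X1 Q := (some s : Option (List Bool))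

theorem X1.cases {Q : Set (ℕ → Bool)} (x : X1 Q) : x = X1.inf ∨ ∃ s, x = X1.nd s := by
  cases x with
  | none => exact Or.inl rfl
  | some s => exact Or.inr ⟨s, rfl⟩

theorem X1.nd_inj {Q : Set (ℕ → Bool)} {s s' : List Bool} (h : (X1.nd s : X1 Q) = X1.nd s') : s = s' :=
  Option.some.inj h

theorem X1.nd_ne {Q : Set (ℕ → Bool)} {s : List Bool} : (X1.nd s : X1 Q) ≠ X1.inf := by
  intro h
  exact Option.some_ne_none s h

instance X1.countable (Q : Set (ℕ → Bool)) : Countable (X1 Q) := inferInstanceAs (Countable (Option (List Bool)))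

instance X1.top (Q : Set (ℕ → Bool)) : TopologicalSpace (X1 Q) where
  IsOpen U := X1.inf ∈ U → InI Q {s | X1.nd s ∉ U}
  isOpen_univ := by
    intro _
    exact (InI_finite ∅).mono (by intro s hs; exact absurd (Set.mem_univ _) hs)
  isOpen_inter := by
    intro U V hU hV hinf
    refine ((hU hinf.1).union (hV hinf.2)).mono ?_
    intro s hs
    by_cases h : X1.nd s ∈ U
    · right
      intro h2
      exact hs ⟨h, h2⟩
    · left; exact h
  isOpen_sUnion := by
    intro 𝒮 h𝒮 hinf
    obtain ⟨U, hU, hinfU⟩ := hinf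
    refine (h𝒮 U hU hinfU).mono ?_
    intro s hs h2
    exact hs ⟨U, hU, h2⟩

theorem X1.isOpen {Q : Set (ℕ → Bool)} {U : Set (X1 Q)} : IsOpen U ↔ (X1.inf ∈ U → InI Q {s | X1.nd s ∉ U}) := Iff.rfl

theorem X1.cont {Q : Set (ℕ → Bool)} {Z : Type} [TopologicalSpace Z] {f : X1 Q → Z}
    (h : InI Q {s | f (X1.nd s) ≠ f X1.inf}) : Continuous f := by
  refine ⟨fun V _ => ?_⟩
  rw [X1.isOpen]
  intro hinf
  refine h.mono ?_
  intro s hs heq
  refine hs ?_
  show f (X1.nd s) ∈ V
  rw [heq]
  exact hinf

theorem X1.tendsto {Q : Set (ℕ → Bool)} {Z : Type} [TopologicalSpace Z] {f : X1 Q → Z} (hf : Continuous f)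
    {r : ℕ → Bool} (hr : r ∈ Q) : Tendsto (fun n => f (X1.nd (rest r n))) atTop (𝓝 (f X1.inf)) := by
  rw [tendsto_nhds]
  intro V hV hinf
  have h1 : IsOpen (f ⁻¹' V) := hV.preimage hf
  rw [X1.isOpen] at h1
  obtain ⟨N, hN⟩ := InI_good hr (h1 hinf)
  rw [mem_atTop_sets]
  refine ⟨N, fun n hn => ?_⟩
  have := hN n hn
  simp only [Set.mem_ofPred_eq, not_not] at this
  exact this

instance X1.t1 (Q : Set (ℕ → Bool)) : T1Space (X1 Q) where
  t1 := by
    intro x
    rw [← isOpen_compl_iff, X1.isOpen]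
    intro hinf
    rcases X1.cases x with rfl | ⟨s, rfl⟩
    · exact absurd rfl hinf
    · refine (InI_finite {s}).mono ?_
      intro s' hs'
      simp only [Set.mem_ofPred_eq, Set.mem_compl_iff, not_not, Set.mem_singleton_iff] at hs'
      simp only [Finset.coe_singleton, Set.mem_singleton_iff]
      exact X1.nd_inj hs'

instance X1.cr (Q : Set (ℕ → Bool)) : CompletelyRegularSpace (X1 Q) where
  completely_regular := by
    classical
    intro x K hK hx
    rcases X1.cases x with rfl | ⟨s, rfl⟩
    · refine ⟨fun y => if y ∈ K then 1 else 0, ?_, by simp [hx], ?_⟩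
      · apply X1.cont
        have h1 : IsOpen Kᶜ := hK.isOpen_compl
        rw [X1.isOpen] at h1
        refine (h1 hx).mono ?_
        intro s hs
        simp only [Set.mem_ofPred_eq, Set.mem_compl_iff, not_not]
        by_contra hcon
        refine hs ?_
        rw [if_neg hcon, if_neg hx]
      · intro y hy
        simp [hy]
    · refine ⟨fun y => if y = X1.nd s then 0 else 1, ?_, by simp, ?_⟩
      · apply X1.cont
        refine (InI_finite {s}).mono ?_
        intro s' hs'
        simp only [Set.mem_ofPred_eq] at hs'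
        simp only [Finset.coe_singleton, Set.mem_singleton_iff]
        by_contra hcon
        refine hs' ?_
        rw [if_neg (fun h => hcon (X1.nd_inj h)), if_neg (fun h => X1.nd_ne h.symm)]
      · intro y hy
        have : y ≠ X1.nd s := by
          rintro rfl
          exact hx hy
        simp [this]

instance X1.t35 (Q : Set (ℕ → Bool)) : T35Space (X1 Q) where

theorem sum_cr {A B : Type} [TopologicalSpace A] [TopologicalSpace B] [T35Space A] [T35Space B] :
    T35Space (A ⊕ B) := by
  have h1 : CompletelyRegularSpace (A ⊕ B) := by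
    refine ⟨fun x K hK hx => ?_⟩
    cases x with
    | inl a =>
      obtain ⟨f, hf, h1, h2⟩ := CompletelyRegularSpace.completely_regular a (Sum.inl ⁻¹' K) (hK.preimage continuous_inl) hx
      refine ⟨Sum.elim f (fun _ => 1), hf.sumElim continuous_const, h1, ?_⟩
      rintro (y | y) hy
      · exact h2 hy
      · rfl
    | inr a =>
      obtain ⟨f, hf, h1, h2⟩ := CompletelyRegularSpace.completely_regular a (Sum.inr ⁻¹' K) (hK.preimage continuous_inr) hx
      refine ⟨Sum.elim (fun _ => 1) f, continuous_const.sumElim hf, h1, ?_⟩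
      rintro (y | y) hy
      · rfl
      · exact h2 hy
  exact { toT0Space := inferInstance, toCompletelyRegularSpace := h1 }

/-- function spaces with the topology of pointwise convergence -/
def Cp (Z : Type) [TopologicalSpace Z] : Type := {f : Z → ℝ // Continuous f}

instance Cp.top (Z : Type) [TopologicalSpace Z] : TopologicalSpace (Cp Z) :=
  inferInstanceAs (TopologicalSpace {f : Z → ℝ // Continuous f})

theorem Cp.eval {Z : Type} [TopologicalSpace Z] (z : Z) : Continuous fun f : Cp Z => f.1 z :=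
  (continuous_apply z).comp continuous_subtype_val

end Pool.Agent.Helper639.K
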