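import Pool.Agent.Helper639.KH

open Set Topology Filter

namespace Pool.Agent.Helper639.K

variable {Y : Type} {Q : Set (ℕ → Bool)}

/-- the weights -/
noncomputable def term (r : ℕ → Bool) (f : Y ⊕ X1 Q → ℝ) (n : ℕ) : ℝ :=
  (1 / 2) ^ n * max 0 (1 - |f (Sum.inr (X1.nd (rest r n))) - f (Sum.inr X1.inf)|)

noncomputable def TT (r : ℕ → Bool) (f : Y ⊕ X1 Q → ℝ) : ℝ := ∑' n, term r f n

theorem term_nonneg (r : ℕ → Bool) (f : Y ⊕ X1 Q → ℝ) (n : ℕ) : 0 ≤ term r f n := by
  unfold term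
  positivity

theorem term_le (r : ℕ → Bool) (f : Y ⊕ X1 Q → ℝ) (n : ℕ) : term r f n ≤ (1 / 2) ^ n := by
  unfold term
  have h1 : max 0 (1 - |f (Sum.inr (X1.nd (rest r n))) - f (Sum.inr X1.inf)|) ≤ 1 := by
    refine max_le zero_le_one ?_
    have := abs_nonneg (f (Sum.inr (X1.nd (rest r n))) - f (Sum.inr X1.inf))
    linarith
  have h2 : (0 : ℝ) ≤ (1 / 2) ^ n := by positivity
  calc (1 / 2 : ℝ) ^ n * max 0 (1 - |f (Sum.inr (X1.nd (rest r n))) - f (Sum.inr X1.inf)|) ≤ (1 / 2) ^ n * 1 :=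
        mul_le_mul_of_nonneg_left h1 h2
    _ = (1 / 2) ^ n := mul_one _

theorem term_norm (r : ℕ → Bool) (f : Y ⊕ X1 Q → ℝ) (n : ℕ) : ‖term r f n‖ ≤ (1 / 2) ^ n := by
  rw [Real.norm_eq_abs, abs_of_nonneg (term_nonneg r f n)]
  exact term_le r f n

theorem summ_half : Summable fun n : ℕ => (1 / 2 : ℝ) ^ n := summable_geometric_two

theorem term_summable (r : ℕ → Bool) (f : Y ⊕ X1 Q → ℝ) : Summable (term r f) :=
  Summable.of_norm_bounded summ_half (term_norm r f)

variable [TopologicalSpace Y]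

theorem TT_cont (r : ℕ → Bool) : Continuous fun f : Cp (Y ⊕ X1 Q) => TT r f.1 := by
  refine continuous_tsum (u := fun n : ℕ => (1 / 2 : ℝ) ^ n) ?_ summ_half ?_
  · intro n
    unfold term
    have h1 := Cp.eval (Z := Y ⊕ X1 Q) (Sum.inr (X1.nd (rest r n)))
    have h2 := Cp.eval (Z := Y ⊕ X1 Q) (Sum.inr X1.inf)
    exact continuous_const.mul (continuous_const.max (continuous_const.sub (h1.sub h2).abs))
  · intro n f
    exact term_norm r f.1 n

theorem TT_pos {r : ℕ → Bool} (hr : r ∈ Q) {f : Y ⊕ X1 Q → ℝ} (hf : Continuous f) : 0 < TT r f := by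
  have h1 := X1.tendsto (hf.comp continuous_inr) hr
  simp only [Function.comp] at h1
  have h2 : ∀ᶠ n in atTop, |f (Sum.inr (X1.nd (rest r n))) - f (Sum.inr X1.inf)| < 1 := by
    have := (Metric.tendsto_nhds.mp h1) 1 one_pos
    simpa [Real.dist_eq] using this
  obtain ⟨n, hn⟩ := h2.exists
  refine (term_summable r f).tsum_pos (term_nonneg r f) n ?_
  unfold term
  have h3 : 0 < max 0 (1 - |f (Sum.inr (X1.nd (rest r n))) - f (Sum.inr X1.inf)|) :=
    lt_max_of_lt_right (by linarith)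
  positivity

omit [TopologicalSpace Y] in
theorem TT_tendsto {α : Type} {l : Filter α} {ρ : α → ℕ → Bool} {r : ℕ → Bool} (h : Tendsto ρ l (𝓝 r))
    (f : Y ⊕ X1 Q → ℝ) : Tendsto (fun a => TT (ρ a) f) l (𝓝 (TT r f)) := by
  refine tendsto_tsum_of_dominated_convergence (bound := fun n : ℕ => (1 / 2 : ℝ) ^ n) summ_half ?_
    (Eventually.of_forall fun a n => term_norm _ f n)
  intro n
  refine tendsto_const_nhds.congr' ?_
  have h1 : ∀ᶠ a in l, ∀ i < n, ρ a i = r i := by
    have h2 : ∀ i, ∀ᶠ a in l, ρ a i = r i := by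
      intro i
      have h3 := ((continuous_apply i).tendsto r).comp h
      have h4 : {x : Bool | x = r i} ∈ 𝓝 (r i) := by
        rw [nhds_discrete]
        simp
      exact h3 h4
    have h5 : ∀ᶠ a in l, ∀ i ∈ Finset.range n, ρ a i = r i := by
      rw [Finset.eventually_all]
      intro i _
      exact h2 i
    exact h5.mono fun a ha i hi => ha i (Finset.mem_range.mpr hi)
  filter_upwards [h1] with a ha
  unfold term
  rw [rest_congr ha]

/-- an element of the second function space -/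
noncomputable def phi (π : Y → ℕ → Bool) (y : Y) (f : Cp (Y ⊕ X1 Q)) : ℝ := f.1 (Sum.inl y) + (TT (π y) f.1)⁻¹

theorem phi_cont {π : Y → ℕ → Bool} {y : Y} (hy : π y ∈ Q) : Continuous (phi (Q := Q) π y) := by
  unfold phi
  refine (Cp.eval _).add ((TT_cont (π y)).inv₀ ?_)
  intro f
  exact (TT_pos hy f.2).ne'

/-- extension by zero -/
def ext0 (g : Y → ℝ) (hg : Continuous g) : Cp (Y ⊕ X1 Q) := ⟨Sum.elim g (fun _ => 0), hg.sumElim continuous_const⟩

/-- the family of elements attached to `D` -/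
def Fam (π : Y → ℕ → Bool) (D : Set Y) : Set (Cp (Cp (Y ⊕ X1 (π '' D)))) :=
  {Ψ | ∃ y ∈ D, ∀ f, Ψ.1 f = phi π y f}

theorem TT_ext0 (r : ℕ → Bool) (g : Y → ℝ) (hg : Continuous g) : TT r (ext0 (Q := Q) g hg).1 = 2 := by
  have : ∀ n, term r (ext0 (Q := Q) g hg).1 n = (1 / 2 : ℝ) ^ n := by
    intro n
    unfold term ext0
    simp
  unfold TT
  rw [tsum_congr this, tsum_geometric_two]

variable [T35Space Y]

theorem Fam_closed {π : Y → ℕ → Bool} (hπ : Continuous π) (hinj : Function.Injective π) (D : Set Y) :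
    IsClosed (Fam π D) := by
  classical
  rw [← closure_subset_iff_isClosed]
  intro Ψ hΨ
  -- the map from D
  let F : D → Cp (Cp (Y ⊕ X1 (π '' D))) := fun y => ⟨phi π y.1, phi_cont ⟨y.1, y.2, rfl⟩⟩
  have hF : Fam π D = range F := by
    ext Φ
    constructor
    · rintro ⟨y, hy, h⟩
      exact ⟨⟨y, hy⟩, Subtype.ext (funext fun f => (h f).symm)⟩
    · rintro ⟨y, rfl⟩
      exact ⟨y.1, y.2, fun f => rfl⟩
  rw [hF] at hΨ
  have hne : (comap F (𝓝 Ψ)).NeBot := by
    rw [comap_neBot_iff]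
    intro t ht
    obtain ⟨Φ, h1, ⟨y, rfl⟩⟩ := mem_closure_iff_nhds.mp hΨ t ht
    exact ⟨y, h1⟩
  let V : Ultrafilter D := Ultrafilter.of (comap F (𝓝 Ψ))
  have hV : Tendsto F V (𝓝 Ψ) := tendsto_comap.mono_left (Ultrafilter.of_le _)
  have hVf : ∀ f, Tendsto (fun y : D => phi π y.1 f) V (𝓝 (Ψ.1 f)) := by
    intro f
    exact ((Cp.eval f).tendsto Ψ).comp hV
  obtain ⟨r, -, hr⟩ := isCompact_univ.ultrafilter_le_nhds' (V.map (fun y : D => π y.1)) Filter.univ_mem
  have hr : Tendsto (fun y : D => π y.1) V (𝓝 r) := hr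
  have hTT : ∀ f : Y ⊕ X1 (π '' D) → ℝ, Tendsto (fun y : D => TT (π y.1) f) V (𝓝 (TT r f)) := fun f => TT_tendsto hr f
  by_cases hrD : r ∈ π '' D
  swap
  · exfalso
    have hfc : Continuous (Sum.elim (fun _ : Y => (0 : ℝ)) (fun x : X1 (π '' D) => if ∃ n, x = X1.nd (rest r n) then (1 : ℝ) else 0)) := by
      refine continuous_const.sumElim (X1.cont ((InI_branch hrD).mono ?_))
      intro s hs
      simp only [Set.mem_ofPred_eq] at hs
      by_contra hcon
      refine hs ?_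
      rw [if_neg, if_neg]
      · rintro ⟨n, hn⟩
        exact X1.nd_ne hn.symm
      · rintro ⟨n, hn⟩
        exact hcon ⟨n, (X1.nd_inj hn).symm⟩
    let f : Cp (Y ⊕ X1 (π '' D)) := ⟨_, hfc⟩
    have hT0 : TT r f.1 = 0 := by
      have : ∀ n, term r f.1 n = 0 := by
        intro n
        have h1 : f.1 (Sum.inr (X1.nd (rest r n))) = 1 := if_pos ⟨n, rfl⟩
        have h2 : f.1 (Sum.inr X1.inf) = 0 := by
          refine if_neg ?_
          rintro ⟨n, hn⟩
          exact X1.nd_ne hn.symm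
        unfold term
        rw [h1, h2]
        simp
      unfold TT
      rw [tsum_congr this]
      simp
    have h1 : Tendsto (fun y : D => TT (π y.1) f.1) V (𝓝[>] 0) := by
      rw [tendsto_nhdsWithin_iff]
      refine ⟨?_, Eventually.of_forall fun y => TT_pos (Q := π '' D) (Set.mem_image_of_mem π y.2) f.2⟩
      have := hTT f.1
      rwa [hT0] at this
    have h2 : Tendsto (fun y : D => (TT (π y.1) f.1)⁻¹) V atTop := tendsto_inv_nhdsGT_zero.comp h1
    have h3 : (fun y : D => phi π y.1 f) = fun y : D => (TT (π y.1) f.1)⁻¹ := by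
      funext y
      unfold phi
      have : f.1 (Sum.inl y.1) = 0 := rfl
      rw [this, zero_add]
    have h4 := hVf f
    rw [h3] at h4
    exact not_tendsto_nhds_of_tendsto_atTop h2 _ h4
  · have hpos : ∀ f : Cp (Y ⊕ X1 (π '' D)), 0 < TT r f.1 := fun f => TT_pos hrD f.2
    have hg : ∀ f : Cp (Y ⊕ X1 (π '' D)), Tendsto (fun y : D => f.1 (Sum.inl y.1)) V (𝓝 (Ψ.1 f - (TT r f.1)⁻¹)) := by
      intro f
      have h1 := (hVf f).sub ((hTT f.1).inv₀ (hpos f).ne')
      refine h1.congr fun y => ?_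
      unfold phi
      ring
    have hgc : Continuous fun f : Cp (Y ⊕ X1 (π '' D)) => Ψ.1 f - (TT r f.1)⁻¹ :=
      Ψ.2.sub ((TT_cont r).inv₀ fun f => (hpos f).ne')
    -- continuity at zero
    let f0 : Cp (Y ⊕ X1 (π '' D)) := ext0 (fun _ => 0) continuous_const
    have hg0 : Ψ.1 f0 - (TT r f0.1)⁻¹ = 0 := by
      refine tendsto_nhds_unique (hg f0) ?_
      have : (fun y : D => f0.1 (Sum.inl y.1)) = fun _ => 0 := rfl
      rw [this]
      exact tendsto_const_nhds
    obtain ⟨K, hK⟩ : ∃ K : Finset (Y ⊕ X1 (π '' D)), ∀ f : Cp (Y ⊕ X1 (π '' D)), (∀ x ∈ K, f.1 x = 0) →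
        |Ψ.1 f - (TT r f.1)⁻¹| < 1 := by
      have h1 : IsOpen {f : Cp (Y ⊕ X1 (π '' D)) | |Ψ.1 f - (TT r f.1)⁻¹| < 1} :=
        isOpen_lt (continuous_abs.comp hgc) continuous_const
      obtain ⟨U, hU, hUe⟩ := isOpen_induced_iff.mp h1
      have hUe' : ∀ f : Cp (Y ⊕ X1 (π '' D)), f.1 ∈ U ↔ |Ψ.1 f - (TT r f.1)⁻¹| < 1 := fun f =>
        Set.ext_iff.mp hUe f
      have h2 : f0.1 ∈ U := by
        rw [hUe' f0, hg0]
        simp
      obtain ⟨K, u, h3, h4⟩ := isOpen_pi_iff.mp hU f0.1 h2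
      refine ⟨K, fun f hf => ?_⟩
      have : f.1 ∈ U := by
        refine h4 ?_
        intro x hx
        have h5 : f.1 x = f0.1 x := by
          rw [hf x hx]
          cases x <;> rfl
        rw [h5]
        exact (h3 x hx).2
      exact (hUe' f).mp this
    -- convergence
    obtain ⟨k, hk⟩ : ∃ k : Y, Tendsto (fun y : D => y.1) V (𝓝 k) := by
      by_contra hcon
      push Not at hcon
      have h1 : ∀ k : Y, ∃ U : Set Y, IsOpen U ∧ k ∈ U ∧ ∀ᶠ y : D in V, y.1 ∉ U := by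
        intro k
        have := hcon k
        rw [tendsto_nhds] at this
        push Not at this
        obtain ⟨U, hU, hkU, hn⟩ := this
        exact ⟨U, hU, hkU, by
          have := Ultrafilter.compl_mem_iff_notMem.mpr hn
          exact this⟩
      choose U hU1 hU2 hU3 using h1
      have h2 : ∀ k : Y, ∃ f : Y → unitInterval, Continuous f ∧ f k = 0 ∧ EqOn f 1 (U k)ᶜ := fun k =>
        CompletelyRegularSpace.completely_regular k (U k)ᶜ (hU1 k).isClosed_compl (fun h => h (hU2 k))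
      choose fk hf1 hf2 hf3 using h2
      let K' : Finset Y := K.preimage Sum.inl Sum.inl_injective.injOn
      let g : Y → ℝ := fun y => 2 * ∏ k ∈ K', (fk k y : ℝ)
      have hgc : Continuous g := by
        refine continuous_const.mul (continuous_finsetProd _ fun k _ => ?_)
        exact continuous_subtype_val.comp (hf1 k)
      have hgK : ∀ k ∈ K', g k = 0 := by
        intro k hk
        show 2 * ∏ k' ∈ K', (fk k' k : ℝ) = 0
        rw [Finset.prod_eq_zero hk (by rw [hf2]; rfl), mul_zero]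
      have h3 := hK (ext0 g hgc) (by
        intro x hx
        cases x with
        | inl y => exact hgK y (Finset.mem_preimage.mpr hx)
        | inr x => rfl)
      have h4 : Tendsto (fun y : D => (ext0 (Q := π '' D) g hgc).1 (Sum.inl y.1)) V (𝓝 2) := by
        refine tendsto_const_nhds.congr' ?_
        have h5 : ∀ᶠ y : D in V, ∀ k ∈ K', y.1 ∉ U k := by
          rw [Finset.eventually_all]
          intro k _
          exact hU3 k
        filter_upwards [h5] with y hy
        show (2 : ℝ) = 2 * ∏ k ∈ K', (fk k y.1 : ℝ)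
        rw [Finset.prod_eq_one, mul_one]
        intro k hk
        rw [hf3 k (hy k hk)]
        rfl
      rw [tendsto_nhds_unique (hg (ext0 g hgc)) h4] at h3
      norm_num at h3
    have h1 : r = π k := tendsto_nhds_unique hr ((hπ.tendsto k).comp hk)
    obtain ⟨z, hz, hzr⟩ := hrD
    have h2 : k = z := hinj (by rw [← h1, hzr])
    refine ⟨z, hz, fun f => ?_⟩
    have h3 : Tendsto (fun y : D => f.1 (Sum.inl y.1)) V (𝓝 (f.1 (Sum.inl k))) :=
      ((f.2.comp continuous_inl).tendsto k).comp hk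
    have h4 := tendsto_nhds_unique (hg f) h3
    unfold phi
    rw [hzr, ← h2, ← h4]
    ring

/-- nonseparability -/
theorem Fam_nonsep {π : Y → ℕ → Bool} (D : Set Y) (hD : ∀ A ⊆ D, A.Countable → ¬ D ⊆ closure A) :
    ¬ TopologicalSpace.SeparableSpace (Fam π D) := by
  classical
  intro hsep
  obtain ⟨S, hS, hdense⟩ := TopologicalSpace.exists_countable_dense (Fam π D)
  have h1 : ∀ Φ : Fam π D, ∃ y ∈ D, ∀ f, Φ.1.1 f = phi π y f := fun Φ => Φ.2
  choose ρ hρ1 hρ2 using h1
  refine hD (ρ '' S) ?_ (hS.image ρ) ?_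
  · rintro _ ⟨Φ, -, rfl⟩
    exact hρ1 Φ
  · intro y hy
    by_contra hcon
    obtain ⟨f, hf1, hf2, hf3⟩ := CompletelyRegularSpace.completely_regular y _ isClosed_closure hcon
    let g : Cp (Y ⊕ X1 (π '' D)) := ext0 (fun y => (f y : ℝ)) (continuous_subtype_val.comp hf1)
    have hval : ∀ y : Y, phi π y g = (f y : ℝ) + 2⁻¹ := by
      intro y
      unfold phi
      rw [TT_ext0]
      rfl
    let Φ : Fam π D := ⟨⟨phi π y, phi_cont ⟨y, hy, rfl⟩⟩, y, hy, fun f => rfl⟩
    have hopen : IsOpen {Θ : Fam π D | Θ.1.1 g < 1} :=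
      isOpen_lt ((Cp.eval g).comp continuous_subtype_val) continuous_const
    obtain ⟨Θ, hΘ, hΘS⟩ := hdense.inter_open_nonempty _ hopen ⟨Φ, by
      show phi π y g < 1
      rw [hval, hf2]
      norm_num⟩
    have h2 : Θ.1.1 g < 1 := hΘ
    rw [hρ2 Θ g, hval] at h2
    have h3 : f (ρ Θ) = 1 := hf3 (subset_closure ⟨Θ, hΘS, rfl⟩)
    rw [h3] at h2
    norm_num at h2

end Pool.Agent.Helper639.K
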