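import Pool.Agent.Helper639.KG
import Pool.Agent.Helper639.KI

open Set Topology Filter

namespace Pool.Agent.Helper639.K

variable {Ω : Type} [LinearOrder Ω]

/-- the points above `γ₀` -/
def YY (_w : Ω → Ω → Bool) (γ₀ : Ω) : Type := {a : Ω // γ₀ < a}

/-- the topology given by the rows -/
instance YY.top (w : Ω → Ω → Bool) (γ₀ : Ω) : TopologicalSpace (YY w γ₀) :=
  TopologicalSpace.induced (fun a : YY w γ₀ => w a.1) inferInstance

theorem YY.ind (w : Ω → Ω → Bool) (γ₀ : Ω) : IsInducing (fun a : YY w γ₀ => w a.1) := ⟨rfl⟩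

theorem YY.coord {w : Ω → Ω → Bool} {γ₀ : Ω} (ξ : Ω) : Continuous (fun a : YY w γ₀ => w a.1 ξ) :=
  (continuous_apply ξ).comp (YY.ind w γ₀).continuous

theorem YY.t35 {w : Ω → Ω → Bool} {γ₀ : Ω} (hinj : ∀ a a', γ₀ < a → γ₀ < a' → a ≠ a' → ∃ ξ, w a ξ ≠ w a' ξ) :
    T35Space (YY w γ₀) := by
  have h : IsEmbedding (fun a : YY w γ₀ => w a.1) := by
    refine ⟨YY.ind w γ₀, ?_⟩
    intro a a' haa
    by_contra hne
    obtain ⟨ξ, hξ⟩ := hinj a.1 a'.1 a.2 a'.2 (fun h => hne (Subtype.ext h))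
    exact hξ (congrFun haa ξ)
  exact h.t35Space

theorem nbhd_Y {w : Ω → Ω → Bool} {γ₀ : Ω} {U : Set (YY w γ₀ × ℕ)} (hU : IsOpen U) {y : YY w γ₀ × ℕ} (hy : y ∈ U) :
    ∃ F : Finset Ω, ∀ x : YY w γ₀ × ℕ, x.2 = y.2 → (∀ ξ ∈ F, w x.1.1 ξ = w y.1.1 ξ) → x ∈ U := by
  obtain ⟨V, W, hV, hW, h1, h2, h3⟩ := isOpen_prod_iff.mp hU y.1 y.2 hy
  obtain ⟨V', hV', rfl⟩ := isOpen_induced_iff.mp hV
  obtain ⟨F, u, h4, h5⟩ := isOpen_pi_iff.mp hV' _ h1
  refine ⟨F, fun x hx hxF => h3 ⟨?_, ?_⟩⟩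
  · refine h5 ?_
    intro ξ hξ
    show w x.1.1 ξ ∈ u ξ
    rw [hxF ξ hξ]
    exact (h4 ξ hξ).2
  · show x.2 ∈ W
    rw [hx]
    exact h2

theorem mem_closure_of_approx {w : Ω → Ω → Bool} {γ₀ : Ω} {A : Set (ℕ → YY w γ₀ × ℕ)} {z : ℕ → YY w γ₀ × ℕ}
    (h : ∀ (F : Finset Ω) (L : ℕ), ∃ a ∈ A, ∀ j < L, (a j).2 = (z j).2 ∧ ∀ ξ ∈ F, w (a j).1.1 ξ = w (z j).1.1 ξ) :
    z ∈ closure A := by
  classical
  rw [mem_closure_iff]
  intro U hU hz
  obtain ⟨I, u, h1, h2⟩ := isOpen_pi_iff.mp hU z hz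
  have h3 : ∀ i, ∃ F : Finset Ω, i ∈ I → ∀ x : YY w γ₀ × ℕ, x.2 = (z i).2 → (∀ ξ ∈ F, w x.1.1 ξ = w (z i).1.1 ξ) → x ∈ u i := by
    intro i
    by_cases hi : i ∈ I
    · obtain ⟨F, hF⟩ := nbhd_Y (h1 i hi).1 (h1 i hi).2
      exact ⟨F, fun _ => hF⟩
    · exact ⟨∅, fun h => absurd h hi⟩
  choose F hF using h3
  obtain ⟨a, ha, hm⟩ := h (I.biUnion F) (I.sup id + 1)
  refine ⟨a, h2 ?_, ha⟩
  intro i hi
  have hi' : i ∈ I := hi
  have h4 : i < I.sup id + 1 := Nat.lt_succ_of_le (Finset.le_sup (f := id) hi')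
  obtain ⟨h5, h6⟩ := hm i h4
  exact hF i hi' _ h5 fun ξ hξ => h6 ξ (Finset.mem_biUnion.mpr ⟨i, hi', hξ⟩)

/-- closed separability -/
def CSep (Z : Type) [TopologicalSpace Z] : Prop := ∀ C : Set Z, IsClosed C → ∃ A ⊆ C, A.Countable ∧ C ⊆ closure A

variable [WellFoundedLT Ω]

theorem csep_Y {w : Ω → Ω → Bool} {tau : Ω → Bool} (hG : Gen w tau)
    (hc : ∀ a : Ω, (Set.Iic a).Countable) (hu : ¬ (Set.univ : Set Ω).Countable) (γ₀ : Ω) :
    CSep (ℕ → YY w γ₀ × ℕ) := by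
  intro C hC
  let ι : (ℕ → YY w γ₀ × ℕ) → (ℕ → Ω × ℕ) := fun z j => ((z j).1.1, (z j).2)
  have hι : Function.Injective ι := by
    intro z z' h
    funext j
    have := congrFun h j
    simp only [ι, Prod.mk.injEq] at this
    exact Prod.ext (Subtype.ext this.1) this.2
  have hrel : RelClosed w γ₀ (ι '' C) := by
    refine ⟨?_, ?_⟩
    · rintro _ ⟨z, hz, rfl⟩ j
      exact (z j).1.2
    · intro z hz happ
      let z' : ℕ → YY w γ₀ × ℕ := fun j => (⟨(z j).1, hz j⟩, (z j).2)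
      have : z' ∈ closure C := by
        apply mem_closure_of_approx
        intro F L
        obtain ⟨_, ⟨c, hc, rfl⟩, h⟩ := happ F L
        exact ⟨c, hc, h⟩
      rw [hC.closure_eq] at this
      exact ⟨z', this, rfl⟩
  obtain ⟨A, hAC, hA, hdense⟩ := lemD hG hc hu hrel
  refine ⟨ι ⁻¹' A, ?_, hA.preimage_of_injOn hι.injOn, ?_⟩
  · intro z hz
    obtain ⟨z', hz', h⟩ := hAC hz
    rw [← hι h]
    exact hz'
  · intro z hz
    apply mem_closure_of_approx
    intro F L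
    obtain ⟨a, ha, h⟩ := hdense (ι z) ⟨z, hz, rfl⟩ F L
    obtain ⟨z', hz', rfl⟩ := hAC ha
    exact ⟨z', ha, h⟩

theorem CSep.surj {Z Z' : Type} [TopologicalSpace Z] [TopologicalSpace Z'] (h : CSep Z) {f : Z → Z'}
    (hf : Continuous f) (hs : Function.Surjective f) : CSep Z' := by
  intro C hC
  obtain ⟨A, h1, h2, h3⟩ := h (f ⁻¹' C) (hC.preimage hf)
  refine ⟨f '' A, ?_, h2.image f, ?_⟩
  · rintro _ ⟨a, ha, rfl⟩
    exact h1 ha
  · intro c hc
    obtain ⟨z, rfl⟩ := hs c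
    have h4 := h3 (show z ∈ f ⁻¹' C from hc)
    exact image_closure_subset_closure_image hf ⟨z, h4, rfl⟩

theorem CSep.sep {Z : Type} [TopologicalSpace Z] (h : CSep Z) (C : Set Z) (hC : IsClosed C) :
    TopologicalSpace.SeparableSpace C := by
  obtain ⟨A, h1, h2, h3⟩ := h C hC
  refine ⟨⟨Subtype.val ⁻¹' A, h2.preimage_of_injOn Subtype.val_injective.injOn, ?_⟩⟩
  rw [Subtype.dense_iff]
  intro x hx
  refine closure_mono ?_ (h3 hx)
  intro a ha
  exact ⟨⟨a, h1 ha⟩, ha, rfl⟩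

theorem surj_sum {Y X : Type} [TopologicalSpace Y] [TopologicalSpace X] [Countable X] [Nonempty X] :
    ∃ ψ : Y × ℕ → Y ⊕ X, Continuous ψ ∧ (Nonempty Y → Function.Surjective ψ) := by
  obtain ⟨e, he⟩ := exists_surjective_nat X
  refine ⟨fun p => match p.2 with
    | 0 => Sum.inl p.1
    | n + 1 => Sum.inr (e n), ?_, ?_⟩
  · rw [continuous_prod_of_discrete_right]
    intro n
    cases n with
    | zero => exact continuous_inl
    | succ n => exact continuous_const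
  · rintro ⟨y0⟩ (y | x)
    · exact ⟨(y, 0), rfl⟩
    · obtain ⟨n, rfl⟩ := he x
      exact ⟨(y0, n + 1), rfl⟩

theorem main (hCH : (Cardinal.continuum : Cardinal.{0}) = Cardinal.aleph 1) :
    ∃ (X : Type) (_ : TopologicalSpace X), T35Space X ∧
      (∀ C : Set (ℕ → X), IsClosed C → TopologicalSpace.SeparableSpace C) ∧
      ∃ C : Set (Cp (Cp X)), IsClosed C ∧ ¬ TopologicalSpace.SeparableSpace C := by
  classical
  obtain ⟨w, tau, hG⟩ := exists_gen hCH
  -- coordinates separating the points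
  have hinf : Infinite Om := by
    rw [Cardinal.infinite_iff, mk_Om]
    exact Cardinal.aleph0_le_aleph 1
  let B0 : ℕ → Om := fun n => (Infinite.natEmbedding Om) n
  have hB0 : Function.Injective B0 := (Infinite.natEmbedding Om).injective
  let 𝒜 : Set (Cnd (ℕ × Om)) := range fun n => {((0, B0 n), true), ((1, B0 n), false)}
  obtain ⟨γ₀, hγ₀⟩ := hG.luz {0, 1} 𝒜 (Set.countable_range _) (by
    rintro q ⟨n, rfl⟩ e he
    simp only [Finset.mem_insert, Finset.mem_singleton] at he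
    rcases he with rfl | rfl <;> simp) (by
    intro p hp
    have hfin : {n | ∃ e ∈ p, e.1.2 = B0 n}.Finite := by
      refine Set.Finite.of_finite_image (f := B0) ((p.finite_toSet.image (fun e => e.1.2)).subset ?_) hB0.injOn
      rintro _ ⟨n, ⟨e, he, h⟩, rfl⟩
      exact ⟨e, he, h⟩
    obtain ⟨n, hn⟩ := hfin.infinite_compl.nonempty
    refine ⟨_, ⟨n, rfl⟩, con_of_union hp ?_ ?_⟩
    · intro k h1 h2
      simp only [Finset.mem_insert, Finset.mem_singleton, Prod.mk.injEq] at h1 h2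
      rcases h1 with ⟨h1, -⟩ | ⟨-, h1⟩
      · rcases h2 with ⟨-, h2⟩ | ⟨h2, -⟩
        · exact Bool.noConfusion h2
        · rw [h1] at h2
          simp at h2
      · exact Bool.noConfusion h1
    · intro k b h1 h2
      refine hn ⟨_, h1, ?_⟩
      simp only [Finset.mem_insert, Finset.mem_singleton, Prod.mk.injEq] at h2
      rcases h2 with ⟨h2, -⟩ | ⟨h2, -⟩ <;> rw [h2])
  have hsep : ∀ a a', γ₀ < a → γ₀ < a' → a ≠ a' → ∃ n, w a (B0 n) ≠ w a' (B0 n) := by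
    intro a a' ha ha' hne
    obtain ⟨q, ⟨n, rfl⟩, h⟩ := hγ₀ (fun j => if j = 0 then a else a') (by
      intro j hj j' hj' h
      simp only [Finset.coe_insert, Finset.coe_singleton, Set.mem_insert_iff, Set.mem_singleton_iff] at hj hj'
      rcases hj with rfl | rfl <;> rcases hj' with rfl | rfl
      · rfl
      · simp at h
        exact absurd h hne
      · simp at h
        exact absurd h.symm hne
      · rfl) (by
      intro j hj
      simp only [Finset.mem_insert, Finset.mem_singleton] at hj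
      rcases hj with rfl | rfl
      · simpa using ha
      · simpa using ha')
    refine ⟨n, ?_⟩
    have h1 := h ((0, B0 n), true) (by simp)
    have h2 := h ((1, B0 n), false) (by simp)
    simp at h1 h2
    rw [h1, h2]
    simp
  have hT35 : T35Space (YY w γ₀) := YY.t35 fun a a' h1 h2 h3 => by
    obtain ⟨n, hn⟩ := hsep a a' h1 h2 h3
    exact ⟨B0 n, hn⟩
  let π : YY w γ₀ → ℕ → Bool := fun a n => w a.1 (B0 n)
  have hπ : Continuous π := continuous_pi fun n => YY.coord (B0 n)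
  have hinj : Function.Injective π := by
    intro a a' h
    by_contra hne
    obtain ⟨n, hn⟩ := hsep a.1 a'.1 a.2 a'.2 (fun h => hne (Subtype.ext h))
    exact hn (congrFun h n)
  let D : Set (YY w γ₀) := {a | tau a.1 = false}
  have hD : ∀ A ⊆ D, A.Countable → ¬ D ⊆ closure A := by
    intro A hA hAc hcl
    obtain ⟨b, hb⟩ := Eb.bdd_of_countable Om_Iic Om_unc (D := insert γ₀ (Subtype.val '' A)) ((hAc.image _).insert γ₀)
    obtain ⟨β, hβ1, hβ2, -⟩ := hG.pt false ∅ (fun k h1 _ => absurd h1 (Finset.notMem_empty _)) b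
    have hγβ : γ₀ < β := lt_trans (hb _ (Or.inl rfl)) hβ1
    have hβD : (⟨β, hγβ⟩ : YY w γ₀) ∈ D := hβ2
    have h1 := hcl hβD
    have hopen : IsOpen {a : YY w γ₀ | w a.1 β = true} := (isOpen_discrete {true}).preimage (YY.coord β)
    obtain ⟨a, ha1, ha2⟩ := mem_closure_iff.mp h1 _ hopen (hG.diag β)
    have h2 : a.1 < β := lt_trans (hb _ (Or.inr ⟨a, ha2, rfl⟩)) hβ1
    have h3 : w a.1 β = true := ha1
    rw [hG.dtype a.1 β (hA ha2) h2] at h3
    exact Bool.noConfusion h3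
  refine ⟨YY w γ₀ ⊕ X1 (π '' D), inferInstance, sum_cr, ?_, Fam π D, Fam_closed hπ hinj D, Fam_nonsep D hD⟩
  apply CSep.sep
  have : Nonempty (X1 (π '' D)) := ⟨X1.inf⟩
  obtain ⟨ψ, hψ1, hψ2⟩ := surj_sum (Y := YY w γ₀) (X := X1 (π '' D))
  have hne : Nonempty (YY w γ₀) := by
    obtain ⟨β, hβ1, -⟩ := hG.pt false ∅ (fun k h1 _ => absurd h1 (Finset.notMem_empty _)) γ₀
    exact ⟨⟨β, hβ1⟩⟩
  have hsur := hψ2 hne
  refine (csep_Y hG Om_Iic Om_unc γ₀).surj (f := fun z j => ψ (z j)) ?_ ?_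
  · exact continuous_pi fun j => hψ1.comp (continuous_apply j)
  · intro x
    choose g hg using hsur
    exact ⟨fun j => g (x j), funext fun j => hg _⟩

end Pool.Agent.Helper639.K
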