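import Mathlib

open Set Filter Topology

namespace Pool.Agent.Helper639.N

/-- the finite sequence (last entry first) avoids the function j -/
def ok (j : ℕ → ℕ) : List ℕ → Prop
  | [] => True
  | a :: s => a ≠ j s.length ∧ ok j s

/-- the entry of index k is smaller than 2 to the power k+1 -/
def val : List ℕ → Prop
  | [] => True
  | a :: s => a < 2 ^ (s.length + 1) ∧ val s

def dig (k : ℕ) : List ℕ → ℕ
  | [] => 0
  | a :: s => if s.length = k then a else dig k s

def V : Type := {s : List ℕ // val s}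

instance : Countable V := by unfold V; infer_instance
instance : TopologicalSpace V := ⊥
instance : DiscreteTopology V := ⟨rfl⟩

def len (s : V) : ℕ := s.1.length

def ch (s : V) (a : Fin (2 ^ (len s + 1))) : V := ⟨a.1 :: s.1, a.2, s.2⟩

lemma len_ch (s : V) (a : Fin (2 ^ (len s + 1))) : len (ch s a) = len s + 1 := by
  simp [len, ch]

lemma ch_inj (s : V) : Function.Injective (ch s) := by
  intro a b h
  have h1 := congrArg Subtype.val h
  simp only [ch, List.cons.injEq, and_true] at h1
  exact Fin.ext h1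

lemma ok_dig {j : ℕ → ℕ} {k : ℕ} : ∀ s : List ℕ, ok j s → k < s.length → dig k s ≠ j k
  | [], _, h => by simp at h
  | a :: s, h, hk => by
    simp only [dig]
    split_ifs with h1
    · rw [← h1]; exact h.1
    · apply ok_dig s h.2
      simp only [List.length_cons] at hk
      omega

lemma dig_lt {k : ℕ} : ∀ s : List ℕ, val s → dig k s < 2 ^ (k + 1)
  | [], _ => by simp [dig]
  | a :: s, h => by
    simp only [dig]
    split_ifs with h1
    · rw [← h1]; exact h.1
    · exact dig_lt s h.2

/-- the averaging operator -/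
noncomputable def P (f : V → ℝ) (s : V) : ℝ :=
  (∑ a : Fin (2 ^ (len s + 1)), f (ch s a)) / 2 ^ (len s + 1)

lemma P_abs {f g : V → ℝ} {s : V} (h : ∀ a, |f (ch s a)| ≤ g (ch s a)) : |P f s| ≤ P g s := by
  unfold P
  rw [abs_div, abs_of_pos (show (0:ℝ) < 2 ^ (len s + 1) by positivity)]
  gcongr
  exact (Finset.abs_sum_le_sum_abs _ _).trans (Finset.sum_le_sum fun a _ => h a)

lemma P_const (c : ℝ) (s : V) : P (fun _ => c) s = c := by
  unfold P
  simp only [Finset.sum_const, Finset.card_univ, Fintype.card_fin, nsmul_eq_mul]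
  push_cast
  field_simp

lemma P_add (f g : V → ℝ) : P (f + g) = P f + P g := by
  funext s
  simp only [P, Pi.add_apply, Finset.sum_add_distrib]
  ring

lemma P_sub (f g : V → ℝ) : P (f - g) = P f - P g := by
  funext s
  simp only [P, Pi.sub_apply, Finset.sum_sub_distrib]
  ring

lemma P_smul (c : ℝ) (f : V → ℝ) : P (c • f) = c • P f := by
  funext s
  simp only [P, Pi.smul_apply, smul_eq_mul, ← Finset.mul_sum]
  ring

lemma P_w (B : ℝ) (s : V) : P (fun t => B * (1 / 2) ^ (len t)) s = B * (1 / 2) ^ (len s) / 2 := by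
  unfold P
  simp only [len_ch, Finset.sum_const, Finset.card_univ, Fintype.card_fin, nsmul_eq_mul]
  push_cast
  rw [pow_succ (1 / 2 : ℝ) (len s)]
  field_simp

lemma iter_add (f g : V → ℝ) (n : ℕ) : P^[n] (f + g) = P^[n] f + P^[n] g := by
  induction n generalizing f g with
  | zero => rfl
  | succ n ih => simp only [Function.iterate_succ_apply, P_add, ih]

lemma iter_smul (c : ℝ) (f : V → ℝ) (n : ℕ) : P^[n] (c • f) = c • P^[n] f := by
  induction n generalizing f with
  | zero => rfl
  | succ n ih => simp only [Function.iterate_succ_apply, P_smul, ih]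

lemma iter_level {M : ℝ} (n : ℕ) : ∀ (f : V → ℝ) (s : V), (∀ t, len t = len s + n → |f t| ≤ M) →
    |P^[n] f s| ≤ M := by
  induction n with
  | zero => intro f s h; exact h s rfl
  | succ n ih =>
    intro f s h
    rw [Function.iterate_succ_apply]
    apply ih
    intro t ht
    have := P_abs (f := f) (g := fun _ => M) (s := t) (fun a => h _ (by rw [len_ch, ht]; ring))
    rwa [P_const] at this

lemma iter_close {f : V → ℝ} {B : ℝ} (h : ∀ s, |f s - P f s| ≤ B * (1 / 2) ^ (len s)) (n : ℕ) :
    ∀ s, |f s - P^[n] f s| ≤ 2 * B * (1 / 2) ^ (len s) := by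
  have hB : 0 ≤ B := by
    have := (abs_nonneg _).trans (h ⟨[], trivial⟩)
    simpa [len] using this
  induction n with
  | zero => intro s; simp only [Function.iterate_zero, id, sub_self, abs_zero]; positivity
  | succ n ih =>
    intro s
    rw [Function.iterate_succ_apply']
    have h1 : f s - P (P^[n] f) s = (f s - P f s) + P (f - P^[n] f) s := by
      rw [P_sub]; simp only [Pi.sub_apply]; ring
    rw [h1]
    have h2 : |P (f - P^[n] f) s| ≤ B * (1 / 2) ^ (len s) := by
      have h3 := P_abs (f := f - P^[n] f) (g := fun t => 2 * B * (1 / 2) ^ (len t)) (s := s)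
        (fun a => ih (ch s a))
      rw [P_w] at h3
      linarith
    calc _ ≤ |f s - P f s| + |P (f - P^[n] f) s| := abs_add_le _ _
      _ ≤ B * (1 / 2) ^ (len s) + B * (1 / 2) ^ (len s) := add_le_add (h s) h2
      _ = _ := by ring

/-- functions which change value at boundedly many children only -/
def Good (f : V → ℝ) : Prop :=
  (∃ M, ∀ s, |f s| ≤ M) ∧
    ∃ C : ℕ, ∀ s, (Finset.univ.filter (fun a => f (ch s a) ≠ f s)).card ≤ C

lemma Good.close {f : V → ℝ} (h : Good f) : ∃ B, ∀ s, |f s - P f s| ≤ B * (1 / 2) ^ (len s) := by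
  obtain ⟨⟨M, hM⟩, C, hC⟩ := h
  have hM0 : 0 ≤ M := (abs_nonneg _).trans (hM ⟨[], trivial⟩)
  refine ⟨M * C, fun s => ?_⟩
  have h1 : f s - P f s = (∑ a : Fin (2 ^ (len s + 1)), (f s - f (ch s a))) / 2 ^ (len s + 1) := by
    unfold P
    rw [Finset.sum_sub_distrib]
    simp only [Finset.sum_const, Finset.card_univ, Fintype.card_fin, nsmul_eq_mul]
    push_cast
    field_simp
  have h2 : |∑ a : Fin (2 ^ (len s + 1)), (f s - f (ch s a))| ≤ C * (2 * M) := by
    have h3 : ∑ a : Fin (2 ^ (len s + 1)), (f s - f (ch s a)) =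
        ∑ a ∈ Finset.univ.filter (fun a => f (ch s a) ≠ f s), (f s - f (ch s a)) := by
      rw [Finset.sum_filter]
      apply Finset.sum_congr rfl
      intro a _
      by_cases h4 : f (ch s a) = f s
      · simp [h4]
      · simp [h4]
    rw [h3]
    calc _ ≤ ∑ a ∈ Finset.univ.filter (fun a => f (ch s a) ≠ f s), |f s - f (ch s a)| :=
          Finset.abs_sum_le_sum_abs _ _
      _ ≤ ∑ a ∈ Finset.univ.filter (fun a => f (ch s a) ≠ f s), (2 * M) := by
          apply Finset.sum_le_sum
          intro a _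
          have := abs_sub (f s) (f (ch s a))
          have := hM s
          have := hM (ch s a)
          linarith
      _ = (Finset.univ.filter (fun a => f (ch s a) ≠ f s)).card * (2 * M) := by
          rw [Finset.sum_const, nsmul_eq_mul]
      _ ≤ C * (2 * M) := by
          gcongr
          exact hC s
  rw [h1, abs_div, abs_of_pos (show (0:ℝ) < 2 ^ (len s + 1) by positivity)]
  rw [div_le_iff₀ (by positivity)]
  calc _ ≤ (C : ℝ) * (2 * M) := h2
    _ = M * C * (1 / 2) ^ (len s) * 2 ^ (len s + 1) := by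
      rw [pow_succ, one_div, inv_pow]
      field_simp

lemma Good.const (c : ℝ) : Good (fun _ => c) := ⟨⟨|c|, fun _ => le_rfl⟩, 0, by simp⟩

lemma Good.comb {f g h : V → ℝ} (F : ℝ → ℝ → ℝ) (hf : Good f) (hg : Good g)
    (hF : ∀ s, h s = F (f s) (g s)) (hb : ∃ M, ∀ s, |h s| ≤ M) : Good h := by
  obtain ⟨_, C, hC⟩ := hf
  obtain ⟨_, D, hD⟩ := hg
  refine ⟨hb, C + D, fun s => ?_⟩
  refine le_trans (Finset.card_le_card (t := (Finset.univ.filter (fun a => f (ch s a) ≠ f s)) ∪
    (Finset.univ.filter (fun a => g (ch s a) ≠ g s))) ?_) ?_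
  · intro a ha
    simp only [Finset.mem_filter, Finset.mem_univ, true_and, Finset.mem_union] at ha ⊢
    by_contra hcon
    push Not at hcon
    apply ha
    rw [hF, hF, hcon.1, hcon.2]
  · exact (Finset.card_union_le _ _).trans (add_le_add (hC s) (hD s))

lemma Good.add {f g : V → ℝ} (hf : Good f) (hg : Good g) : Good (fun s => f s + g s) := by
  obtain ⟨⟨M, hM⟩, _⟩ := id hf
  obtain ⟨⟨N, hN⟩, _⟩ := id hg
  exact Good.comb (· + ·) hf hg (fun _ => rfl)
    ⟨M + N, fun s => (abs_add_le _ _).trans (add_le_add (hM s) (hN s))⟩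

lemma Good.mul {f g : V → ℝ} (hf : Good f) (hg : Good g) : Good (fun s => f s * g s) := by
  obtain ⟨⟨M, hM⟩, _⟩ := id hf
  obtain ⟨⟨N, hN⟩, _⟩ := id hg
  refine Good.comb (· * ·) hf hg (fun _ => rfl) ⟨M * N, fun s => ?_⟩
  rw [abs_mul]
  exact mul_le_mul (hM s) (hN s) (abs_nonneg _) ((abs_nonneg _).trans (hM s))

open Classical in
lemma Good.single (v : V) : Good (fun s => if s = v then 1 else 0) := by
  refine ⟨⟨1, fun s => by dsimp only; split_ifs <;> simp⟩, 2 ^ (len v + 1), fun s => ?_⟩
  by_cases h : s = v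
  · subst h
    refine (Finset.card_le_univ _).trans ?_
    simp
  · refine le_trans (b := 1) ?_ Nat.one_le_two_pow
    rw [Finset.card_le_one]
    intro a ha b hb
    simp only [Finset.mem_filter, Finset.mem_univ, true_and, h, if_false] at ha hb
    have h1 : ch s a = v := by
      by_contra hcon
      simp [hcon] at ha
    have h2 : ch s b = v := by
      by_contra hcon
      simp [hcon] at hb
    exact ch_inj s (h1.trans h2.symm)

open Classical in
lemma Good.ok (j : ℕ → ℕ) : Good (fun s => if ok j s.1 then 1 else 0) := by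
  refine ⟨⟨1, fun s => by dsimp only; split_ifs <;> simp⟩, 1, fun s => ?_⟩
  rw [Finset.card_le_one]
  have key : ∀ a, (if N.ok j (ch s a).1 then (1:ℝ) else 0) ≠ (if N.ok j s.1 then 1 else 0) →
      a.1 = j (len s) := by
    intro a ha
    by_contra hcon
    apply ha
    have : N.ok j (ch s a).1 ↔ N.ok j s.1 := by
      constructor
      · intro h; exact h.2
      · intro h; exact ⟨hcon, h⟩
    simp only [this]
  intro a ha b hb
  simp only [Finset.mem_filter, Finset.mem_univ, true_and] at ha hb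
  exact Fin.ext ((key a ha).trans (key b hb).symm)

lemma fin_lev (n : ℕ) : {l : List ℕ | val l ∧ l.length = n}.Finite := by
  induction n with
  | zero =>
    refine (Set.finite_singleton ([] : List ℕ)).subset ?_
    rintro l ⟨_, h⟩
    exact List.length_eq_zero_iff.mp h
  | succ n ih =>
    refine ((Set.finite_Iio (2 ^ (n + 1))).image2 List.cons ih).subset ?_
    rintro l ⟨h1, h2⟩
    match l, h1, h2 with
    | a :: s, h1, h2 =>
      simp only [List.length_cons, Nat.add_right_cancel_iff] at h2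
      exact ⟨a, by rw [← h2]; exact h1.1, s, ⟨h1.2, h2⟩, rfl⟩

lemma fin_len (n : ℕ) : {s : V | len s = n}.Finite := by
  have h : {s : V | len s = n} = Subtype.val ⁻¹' {l : List ℕ | val l ∧ l.length = n} := by
    ext s
    exact ⟨fun h => ⟨s.2, h⟩, fun h => h.2⟩
  rw [h]
  exact (fin_lev n).preimage Subtype.val_injective.injOn

lemma tendsto_len : Tendsto len cofinite atTop := by
  rw [tendsto_atTop]
  intro n
  rw [Filter.eventually_cofinite]
  refine ((Set.finite_Iio n).biUnion (fun k _ => fin_len k)).subset ?_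
  intro s hs
  simp only [Set.mem_iUnion]
  exact ⟨len s, not_le.mp hs, rfl⟩

/-- the limit functional -/
noncomputable def nu (s : V) (f : V → ℝ) : ℝ :=
  limUnder (hyperfilter ℕ : Filter ℕ) (fun n => P^[n] f s)

lemma nu_tendsto {f : V → ℝ} {M : ℝ} (hf : ∀ s, |f s| ≤ M) (s : V) :
    Tendsto (fun n => P^[n] f s) (hyperfilter ℕ : Filter ℕ) (𝓝 (nu s f)) := by
  have h1 : ∀ n, P^[n] f s ∈ Icc (-M) M := fun n => by
    have := iter_level n f s (M := M) (fun t _ => hf t)
    exact abs_le.mp this
  obtain ⟨x, _, hx⟩ := isCompact_Icc.ultrafilter_le_nhds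
    ((hyperfilter ℕ).map (fun n => P^[n] f s)) (by
      rw [le_principal_iff]
      show ∀ᶠ n in (hyperfilter ℕ : Filter ℕ), _
      exact Filter.Eventually.of_forall h1)
  have h2 : Tendsto (fun n => P^[n] f s) (hyperfilter ℕ : Filter ℕ) (𝓝 x) := hx
  unfold nu
  rw [h2.limUnder_eq]
  exact h2

lemma nu_add {f g : V → ℝ} {M N : ℝ} (hf : ∀ s, |f s| ≤ M) (hg : ∀ s, |g s| ≤ N) (s : V) :
    nu s (f + g) = nu s f + nu s g := by
  have h1 := (nu_tendsto hf s).add (nu_tendsto hg s)
  have h2 : Tendsto (fun n => P^[n] (f + g) s) (hyperfilter ℕ : Filter ℕ) (𝓝 (nu s f + nu s g)) := by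
    refine h1.congr (fun n => ?_)
    rw [iter_add]; rfl
  exact h2.limUnder_eq

lemma nu_smul {f : V → ℝ} {M : ℝ} (c : ℝ) (hf : ∀ s, |f s| ≤ M) (s : V) :
    nu s (c • f) = c * nu s f := by
  have h1 := (nu_tendsto hf s).const_mul c
  have h2 : Tendsto (fun n => P^[n] (c • f) s) (hyperfilter ℕ : Filter ℕ) (𝓝 (c * nu s f)) := by
    refine h1.congr (fun n => ?_)
    rw [iter_smul]; rfl
  exact h2.limUnder_eq

lemma nu_le {f : V → ℝ} {M N : ℝ} (hf : ∀ s, |f s| ≤ N) (s : V)
    (h : ∀ ε > 0, ∀ᶠ t in cofinite, |f t| ≤ M + ε) : |nu s f| ≤ M := by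
  apply le_of_forall_pos_le_add
  intro ε hε
  have h1 := h ε hε
  rw [Filter.eventually_cofinite] at h1
  obtain ⟨n0, hn0⟩ : ∃ n0, ∀ t : V, n0 ≤ len t → |f t| ≤ M + ε := by
    obtain ⟨n0, hn0⟩ := (h1.image len).bddAbove
    refine ⟨n0 + 1, fun t ht => ?_⟩
    by_contra hcon
    have := hn0 ⟨t, hcon, rfl⟩
    omega
  have h2 : ∀ᶠ n in (hyperfilter ℕ : Filter ℕ), |P^[n] f s| ≤ M + ε := by
    apply Nat.hyperfilter_le_atTop
    filter_upwards [eventually_ge_atTop n0] with n hn
    exact iter_level n f s (fun t ht => hn0 t (by omega))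
  exact le_of_tendsto ((nu_tendsto hf s).abs) h2

lemma Good.nu_tendsto {f : V → ℝ} (h : Good f) :
    Tendsto (fun s => f s - nu s f) cofinite (𝓝 0) := by
  obtain ⟨B, hB⟩ := h.close
  obtain ⟨M, hM⟩ := h.1
  have h1 : ∀ s, |f s - nu s f| ≤ 2 * B * (1 / 2) ^ (len s) := by
    intro s
    have h2 := ((N.nu_tendsto hM s).const_sub (f s)).abs
    exact le_of_tendsto h2 (Filter.Eventually.of_forall fun n => iter_close hB n s)
  have h3 : Tendsto (fun s => 2 * B * (1 / 2 : ℝ) ^ (len s)) cofinite (𝓝 0) := by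
    have := (tendsto_pow_atTop_nhds_zero_of_lt_one (r := (1/2:ℝ)) (by norm_num) (by norm_num)).comp
      tendsto_len
    simpa using this.const_mul (2 * B)
  exact squeeze_zero_norm h1 h3

end Pool.Agent.Helper639.N
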