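import Pool.Agent.Helper639.NA

open Set Filter Topology Cardinal

namespace Pool.Agent.Helper639.N

/-- the well order of type omega one -/
abbrev Om : Type := (ℵ₁ : Cardinal.{0}).ord.ToType

theorem mk_Om : #Om = ℵ₁ := Cardinal.mk_ord_toType _

theorem Om_Iic (a : Om) : (Set.Iic a).Countable := by
  have : #(Iio a) < #Om := Cardinal.mk_Iio_lt a (by simp [Om])
  rw [mk_Om] at this
  have h1 : #(Iio a) ≤ ℵ₀ := by rwa [← Order.lt_succ_iff, Cardinal.succ_aleph0]
  have h2 : (Iio a).Countable := Cardinal.le_aleph0_iff_set_countable.mp h1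
  rw [← Set.Iio_insert]
  exact h2.insert a

theorem Om_unc : ¬ (Set.univ : Set Om).Countable := by
  intro h
  have h1 := Cardinal.le_aleph0_iff_set_countable.mpr h
  rw [Cardinal.mk_univ, mk_Om] at h1
  exact absurd h1 (not_le.mpr Cardinal.aleph0_lt_aleph_one)

theorem exists_family (hCH : (ℵ₁ : Cardinal.{0}) = 𝔠) :
    ∃ j : Om → ℕ → ℕ, ∀ b : ℕ → ℕ, {ξ | ∀ k, b k ≠ j ξ k}.Countable := by
  classical
  have h1 : #(ℕ → ℕ) ≤ #Om := by
    rw [mk_Om, hCH]
    simp
  obtain ⟨g⟩ := h1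
  have hB : Function.Surjective (Function.invFun g) := Function.invFun_surjective g.injective
  have h2 : ∀ ξ : Om, ∃ G : ℕ → Om, Set.Iic ξ = range G := fun ξ =>
    (Om_Iic ξ).exists_eq_range ⟨ξ, le_refl ξ⟩
  choose G hG using h2
  refine ⟨fun ξ k => Function.invFun g (G ξ k) k, fun b => ?_⟩
  obtain ⟨η, rfl⟩ := hB b
  refine (Om_Iic η).mono ?_
  intro ξ hξ
  by_contra hcon
  simp only [Set.mem_Iic, not_le] at hcon
  have h3 : η ∈ Set.Iic ξ := hcon.le
  rw [hG] at h3
  obtain ⟨k, hk⟩ := h3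
  exact hξ k (by simp only [hk])

abbrev E : Type := (V → ℝ) × (Om → ℝ)

variable (j : Om → ℕ → ℕ)

open Classical in
noncomputable def e (s : V) : E :=
  (fun v => if s = v then 1 else 0, fun ξ => if ok (j ξ) s.1 then 1 else 0)

def KK : Set E := closure (range (e j))

def LL : Set E := {x | x ∈ KK j ∧ x.1 = 0}

lemma e_mem (s : V) : e j s ∈ KK j := subset_closure ⟨s, rfl⟩

lemma KK_compact : IsCompact (KK j) := by
  have h1 : IsCompact ((Set.pi Set.univ (fun _ => Icc (0:ℝ) 1) : Set (V → ℝ)) ×ˢ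
      (Set.pi Set.univ (fun _ => Icc (0:ℝ) 1) : Set (Om → ℝ))) :=
    (isCompact_univ_pi (fun _ => isCompact_Icc)).prod (isCompact_univ_pi (fun _ => isCompact_Icc))
  refine h1.of_isClosed_subset isClosed_closure (closure_minimal ?_ h1.isClosed)
  rintro _ ⟨s, rfl⟩
  constructor
  · intro v _
    simp only [e]
    split_ifs <;> simp
  · intro v _
    simp only [e]
    split_ifs <;> simp

lemma KK_cases {x : E} (hx : x ∈ KK j) (v : V) : x.1 v = 0 ∨ x = e j v := by
  have hc : IsClosed ({x : E | x.1 v = 0} ∪ {e j v}) := by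
    apply IsClosed.union _ isClosed_singleton
    exact isClosed_eq ((continuous_apply v).comp continuous_fst) continuous_const
  have hs : range (e j) ⊆ ({x : E | x.1 v = 0} ∪ {e j v}) := by
    rintro _ ⟨s, rfl⟩
    by_cases h : s = v
    · right; rw [h]; rfl
    · left
      simp [e, h]
  exact closure_minimal hs hc hx

lemma KK_split {x : E} (hx : x ∈ KK j) : x ∈ LL j ∨ ∃ v, x = e j v := by
  by_cases h : ∃ v, x = e j v
  · right; exact h
  · left
    push Not at h
    refine ⟨hx, ?_⟩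
    funext v
    exact (KK_cases j hx v).resolve_right (h v)

lemma LL_closed : IsClosed (LL j) := by
  have h1 : IsClosed (KK j) := isClosed_closure
  exact h1.inter (isClosed_eq continuous_fst continuous_const)

lemma LL_compact : IsCompact (LL j) :=
  (KK_compact j).of_isClosed_subset (LL_closed j) (fun _ h => h.1)

lemma ultra_lim (U : Ultrafilter V) (hU : (U : Filter V) ≤ cofinite) :
    ∃ x ∈ LL j, Tendsto (e j) U (𝓝 x) := by
  obtain ⟨x, hx, hUx⟩ := (KK_compact j).ultrafilter_le_nhds (U.map (e j)) (by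
    rw [le_principal_iff]
    show ∀ᶠ s in (U : Filter V), e j s ∈ KK j
    exact Filter.Eventually.of_forall (e_mem j))
  have ht : Tendsto (e j) U (𝓝 x) := hUx
  refine ⟨x, ⟨hx, ?_⟩, ht⟩
  funext v
  have h1 : Tendsto (fun s => (e j s).1 v) U (𝓝 (x.1 v)) :=
    (((continuous_apply v).comp continuous_fst).tendsto x).comp ht
  have h2 : ∀ᶠ s in (U : Filter V), (e j s).1 v = 0 := by
    have : ∀ᶠ s in cofinite, s ≠ v := by
      rw [Filter.eventually_cofinite]
      simp
    filter_upwards [hU this] with s hs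
    simp [e, hs]
  have h3 : Tendsto (fun s => (e j s).1 v) U (𝓝 0) :=
    (tendsto_congr' h2).mpr tendsto_const_nhds
  exact tendsto_nhds_unique h1 h3

lemma LL_ultra {x : E} (hx : x ∈ LL j) :
    ∃ U : Ultrafilter V, (U : Filter V) ≤ cofinite ∧ Tendsto (e j) U (𝓝 x) := by
  have h1 : (comap (e j) (𝓝 x)).NeBot := by
    rw [comap_neBot_iff]
    intro t ht
    obtain ⟨_, h2, s, rfl⟩ := mem_closure_iff_nhds.mp hx.1 t ht
    exact ⟨s, h2⟩
  refine ⟨Ultrafilter.of (comap (e j) (𝓝 x)), ?_, tendsto_comap.mono_left (Ultrafilter.of_le _)⟩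
  have ht : Tendsto (e j) (Ultrafilter.of (comap (e j) (𝓝 x))) (𝓝 x) :=
    tendsto_comap.mono_left (Ultrafilter.of_le _)
  intro S hS
  rw [mem_cofinite] at hS
  have h3 : ∀ v : V, ∀ᶠ s in (Ultrafilter.of (comap (e j) (𝓝 x)) : Filter V), s ≠ v := by
    intro v
    have h4 : Tendsto (fun s => (e j s).1 v) (Ultrafilter.of (comap (e j) (𝓝 x)) : Filter V)
      (𝓝 (x.1 v)) := (((continuous_apply v).comp continuous_fst).tendsto x).comp ht
    rw [hx.2] at h4
    have h5 := h4.eventually (gt_mem_nhds (show ((0 : V → ℝ) v) < 1 by simp))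
    filter_upwards [h5] with s hs hsv
    subst hsv
    simp [e] at hs
  have h6 : ∀ᶠ s in (Ultrafilter.of (comap (e j) (𝓝 x)) : Filter V), ∀ v ∈ Sᶜ, s ≠ v :=
    (Filter.eventually_all_finite hS).mpr (fun v _ => h3 v)
  filter_upwards [h6] with s hs
  by_contra hcon
  exact hs s hcon rfl

lemma LL_supp (hj : ∀ b : ℕ → ℕ, {ξ | ∀ k, b k ≠ j ξ k}.Countable) {x : E} (hx : x ∈ LL j) :
    {ξ | x.2 ξ ≠ 0}.Countable := by
  obtain ⟨U, hU, ht⟩ := LL_ultra j hx
  have h1 : ∀ k : ℕ, ∃ b : ℕ, ∀ᶠ s in (U : Filter V), dig k s.1 = b := by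
    intro k
    have h2 : ∀ᶠ s in (U : Filter V), ∃ b ∈ Set.Iio (2 ^ (k + 1)), dig k s.1 = b :=
      Filter.Eventually.of_forall (fun s => ⟨_, dig_lt s.1 s.2, rfl⟩)
    rw [Ultrafilter.eventually_exists_mem_iff (Set.finite_Iio _)] at h2
    obtain ⟨b, _, hb⟩ := h2
    exact ⟨b, hb⟩
  choose b hb using h1
  refine (hj b).mono ?_
  intro ξ hξ k
  have h2 : Tendsto (fun s => (e j s).2 ξ) U (𝓝 (x.2 ξ)) :=
    (((continuous_apply ξ).comp continuous_snd).tendsto x).comp ht
  have h3 : ∀ᶠ s in (U : Filter V), (e j s).2 ξ ≠ 0 :=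
    h2.eventually (isOpen_ne.mem_nhds hξ)
  have h4 : ∀ᶠ s in (U : Filter V), k < len s :=
    hU (tendsto_len.eventually (eventually_gt_atTop k))
  obtain ⟨s, h5, h6, h7⟩ := (h3.and (h4.and (hb k))).exists
  have h8 : ok (j ξ) s.1 := by
    by_contra hcon
    simp [e, hcon] at h5
  rw [← h7]
  exact ok_dig s.1 h8 h6

end Pool.Agent.Helper639.N
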