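import Pool.Agent.Helper639.NB

open Set Filter Topology Cardinal

namespace Pool.Agent.Helper639.N

variable (j : Om → ℕ → ℕ)

instance : CompactSpace (KK j) := isCompact_iff_compactSpace.mp (KK_compact j)
instance : CompactSpace (LL j) := isCompact_iff_compactSpace.mp (LL_compact j)

noncomputable def R (f : C(KK j, ℝ)) : V → ℝ := fun s => f ⟨e j s, e_mem j s⟩

lemma R_bd (f : C(KK j, ℝ)) (s : V) : |R j f s| ≤ ‖f‖ := f.norm_coe_le_norm _

lemma R_add (f g : C(KK j, ℝ)) : R j (f + g) = R j f + R j g := rfl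
lemma R_smul (c : ℝ) (f : C(KK j, ℝ)) : R j (c • f) = c • R j f := rfl

lemma nu_bd (f : C(KK j, ℝ)) (s : V) : |nu s (R j f)| ≤ ‖f‖ :=
  nu_le (R_bd j f) s (fun ε hε => Filter.Eventually.of_forall fun t => by
    have := R_bd j f t
    linarith)

def G : Subalgebra ℝ C(KK j, ℝ) where
  carrier := {f | Good (R j f)}
  mul_mem' ha hb := Good.mul ha hb
  add_mem' ha hb := Good.add ha hb
  algebraMap_mem' r := Good.const r

lemma G_sep : (G j).SeparatesPoints := by
  classical
  intro x y hxy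
  have h1 : x.1 ≠ y.1 := fun h => hxy (Subtype.ext h)
  have h2 : x.1.1 ≠ y.1.1 ∨ x.1.2 ≠ y.1.2 := by
    by_contra hcon
    push Not at hcon
    exact h1 (Prod.ext hcon.1 hcon.2)
  rcases h2 with h2 | h2
  · obtain ⟨v, hv⟩ := Function.ne_iff.mp h2
    let g : C(KK j, ℝ) := ⟨fun z => z.1.1 v,
      (continuous_apply v).comp (continuous_fst.comp continuous_subtype_val)⟩
    refine ⟨g, ⟨g, ?_, rfl⟩, hv⟩
    show Good (R j g)
    have h3 : R j g = fun s => if s = v then 1 else 0 := by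
      funext s
      simp only [R, g, e, ContinuousMap.coe_mk]
    rw [h3]
    exact Good.single v
  · obtain ⟨ξ, hξ⟩ := Function.ne_iff.mp h2
    let g : C(KK j, ℝ) := ⟨fun z => z.1.2 ξ,
      (continuous_apply ξ).comp (continuous_snd.comp continuous_subtype_val)⟩
    refine ⟨g, ⟨g, ?_, rfl⟩, hξ⟩
    show Good (R j g)
    have h3 : R j g = fun s => if ok (j ξ) s.1 then 1 else 0 := by
      funext s
      simp only [R, g, e, ContinuousMap.coe_mk]
    rw [h3]
    exact Good.ok (j ξ)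

lemma dens (f : C(KK j, ℝ)) : Tendsto (fun s => R j f s - nu s (R j f)) cofinite (𝓝 0) := by
  rw [Metric.tendsto_nhds]
  intro ε hε
  have h1 : f ∈ (G j).topologicalClosure := by
    rw [ContinuousMap.subalgebra_topologicalClosure_eq_top_of_separatesPoints (G j) (G_sep j)]
    trivial
  obtain ⟨g, hg, hfg⟩ := Metric.mem_closure_iff.mp h1 (ε / 3) (by positivity)
  have h2 := (Metric.tendsto_nhds.mp (Good.nu_tendsto (show Good (R j g) from hg))) (ε / 3)
    (by positivity)
  filter_upwards [h2] with s hs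
  rw [Real.dist_0_eq_abs] at hs ⊢
  rw [dist_eq_norm] at hfg
  have h3 : R j f = R j (f - g) + R j g := by
    funext t
    simp only [R, ContinuousMap.sub_apply, Pi.add_apply]
    ring
  have h4 : nu s (R j f) = nu s (R j (f - g)) + nu s (R j g) := by
    rw [h3]; exact nu_add (R_bd j _) (R_bd j _) s
  have h5 := nu_bd j (f - g) s
  have h6 := R_bd j (f - g) s
  have h7 : R j f s - nu s (R j f) = R j (f - g) s + (R j g s - nu s (R j g)) -
      nu s (R j (f - g)) := by
    rw [h4, h3]; simp only [Pi.add_apply]; ring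
  rw [h7]
  have h8 := abs_sub (R j (f - g) s + (R j g s - nu s (R j g))) (nu s (R j (f - g)))
  have h9 := abs_add_le (R j (f - g) s) (R j g s - nu s (R j g))
  linarith

lemma lim_le (f : C(KK j, ℝ)) {M : ℝ} (hM : ∀ x (hx : x ∈ LL j), |f ⟨x, hx.1⟩| ≤ M) :
    ∀ ε > 0, ∀ᶠ t in cofinite, |R j f t| ≤ M + ε := by
  intro ε hε
  by_contra hcon
  have h1 : ∃ᶠ t in cofinite, M + ε < |R j f t| := by
    intro h
    apply hcon
    filter_upwards [h] with t ht
    exact not_lt.mp ht
  have h2 : (cofinite ⊓ 𝓟 {t | M + ε < |R j f t|}).NeBot := frequently_iff_neBot.mp h1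
  obtain ⟨x, hx, ht⟩ := ultra_lim j (Ultrafilter.of (cofinite ⊓ 𝓟 {t | M + ε < |R j f t|}))
    ((Ultrafilter.of_le _).trans inf_le_left)
  have h3 : ∀ᶠ t in (Ultrafilter.of (cofinite ⊓ 𝓟 {t | M + ε < |R j f t|}) : Filter V),
      M + ε < |R j f t| := by
    have : {t | M + ε < |R j f t|} ∈ (Ultrafilter.of (cofinite ⊓ 𝓟 {t | M + ε < |R j f t|}) :
      Filter V) := (Ultrafilter.of_le _) (mem_inf_of_right (mem_principal_self _))
    exact this
  have h4 : Tendsto (fun s => (⟨e j s, e_mem j s⟩ : KK j))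
      (Ultrafilter.of (cofinite ⊓ 𝓟 {t | M + ε < |R j f t|}) : Filter V) (𝓝 ⟨x, hx.1⟩) := by
    rw [tendsto_subtype_rng]
    exact ht
  have h5 : Tendsto (fun s => |R j f s|)
      (Ultrafilter.of (cofinite ⊓ 𝓟 {t | M + ε < |R j f t|}) : Filter V) (𝓝 |f ⟨x, hx.1⟩|) :=
    ((f.continuous.tendsto _).comp h4).abs
  have h6 : M + ε ≤ |f ⟨x, hx.1⟩| := ge_of_tendsto h5 (h3.mono fun _ h => h.le)
  have := hM x hx
  linarith

open Classical in
noncomputable def T0 (f : C(KK j, ℝ)) : C((LL j) ⊕ OnePoint V, ℝ) where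
  toFun := Sum.elim (fun x => f ⟨x.1, x.2.1⟩) (fun p => p.elim 0 (fun s => R j f s - nu s (R j f)))
  continuous_toFun := by
    apply Continuous.sumElim
    · exact f.continuous.comp (Continuous.subtype_mk continuous_subtype_val _)
    · rw [OnePoint.continuous_iff_from_discrete]
      exact dens j f

lemma T0_add (f g : C(KK j, ℝ)) : T0 j (f + g) = T0 j f + T0 j g := by
  ext x
  rcases x with x | p
  · rfl
  · induction p using OnePoint.rec with
    | infty => simp [T0]
    | coe s =>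
      simp only [T0, ContinuousMap.coe_mk, Sum.elim_inr, OnePoint.elim_some,
        ContinuousMap.add_apply, R_add, nu_add (R_bd j f) (R_bd j g), Pi.add_apply]
      ring

lemma T0_smul (c : ℝ) (f : C(KK j, ℝ)) : T0 j (c • f) = c • T0 j f := by
  ext x
  rcases x with x | p
  · rfl
  · induction p using OnePoint.rec with
    | infty => simp [T0]
    | coe s =>
      simp only [T0, ContinuousMap.coe_mk, Sum.elim_inr, OnePoint.elim_some,
        ContinuousMap.smul_apply, R_smul, nu_smul c (R_bd j f), Pi.smul_apply, smul_eq_mul]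
      ring

lemma T0_norm (f : C(KK j, ℝ)) : ‖T0 j f‖ ≤ 2 * ‖f‖ := by
  rw [ContinuousMap.norm_le _ (by positivity)]
  intro x
  rcases x with x | p
  · have := f.norm_coe_le_norm ⟨x.1, x.2.1⟩
    have h0 := norm_nonneg f
    calc ‖T0 j f (Sum.inl x)‖ = ‖f ⟨x.1, x.2.1⟩‖ := rfl
      _ ≤ 2 * ‖f‖ := by linarith
  · induction p using OnePoint.rec with
    | infty => simp [T0]
    | coe s =>
      have h1 := R_bd j f s
      have h2 := nu_bd j f s
      calc ‖T0 j f (Sum.inr s)‖ = |R j f s - nu s (R j f)| := rfl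
        _ ≤ 2 * ‖f‖ := by
          have := abs_sub (R j f s) (nu s (R j f))
          linarith

noncomputable def TT : C(KK j, ℝ) →L[ℝ] C((LL j) ⊕ OnePoint V, ℝ) :=
  LinearMap.mkContinuous
    { toFun := T0 j
      map_add' := T0_add j
      map_smul' := T0_smul j } 2 (T0_norm j)

lemma TT_lower (f : C(KK j, ℝ)) : (1 / 2) * ‖f‖ ≤ ‖TT j f‖ := by
  have h0 : ∀ z, |T0 j f z| ≤ ‖T0 j f‖ := fun z => (T0 j f).norm_coe_le_norm z
  suffices h : ‖f‖ ≤ 2 * ‖T0 j f‖ by
    show (1 / 2) * ‖f‖ ≤ ‖T0 j f‖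
    linarith
  rw [ContinuousMap.norm_le _ (by positivity)]
  rintro ⟨x, hx⟩
  rcases KK_split j hx with h | ⟨s, rfl⟩
  · have := h0 (Sum.inl ⟨x, h⟩)
    have h2 := norm_nonneg (T0 j f)
    calc ‖f ⟨x, hx⟩‖ = |T0 j f (Sum.inl ⟨x, h⟩)| := rfl
      _ ≤ 2 * ‖T0 j f‖ := by linarith
  · have h1 : |nu s (R j f)| ≤ ‖T0 j f‖ := by
      apply nu_le (R_bd j f) s
      exact lim_le j f (fun x hx => h0 (Sum.inl ⟨x, hx⟩))
    have h2 : |R j f s - nu s (R j f)| ≤ ‖T0 j f‖ := h0 (Sum.inr (s : OnePoint V))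
    calc ‖f ⟨e j s, hx⟩‖ = |(R j f s - nu s (R j f)) + nu s (R j f)| := by
          simp only [sub_add_cancel]; rfl
      _ ≤ |R j f s - nu s (R j f)| + |nu s (R j f)| := abs_add_le _ _
      _ ≤ 2 * ‖T0 j f‖ := by linarith

end Pool.Agent.Helper639.N
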