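import Mathlib

open Topology

namespace Pool.Agent.Helper639.N

/-- `K` is homeomorphic to a subset of the Sigma product of real lines over some index set `Γ`,
that is of the set of the points of `Γ → ℝ` with countable support, with the topology inherited
from the product topology. A compact Hausdorff space with this property is a Corson compact
space. -/
def IsCorson (K : Type) [TopologicalSpace K] : Prop :=
  ∃ (Γ : Type) (φ : K → {x : Γ → ℝ // {γ | x γ ≠ 0}.Countable}), IsEmbedding φ

end Pool.Agent.Helper639.N
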