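import Pool.Agent.Helper639.NC
import Pool.Agent.Helper639.NS

open Set Filter Topology Cardinal

namespace Pool.Agent.Helper639.N

variable (j : Om → ℕ → ℕ)

open Classical in
noncomputable def phi : (LL j) ⊕ OnePoint V → (Om ⊕ (V ⊕ Unit) → ℝ) :=
  Sum.elim (fun x => Sum.elim x.1.2 (Sum.elim (fun _ => 0) (fun _ => 1)))
    (fun p => Sum.elim (fun _ => 0) (Sum.elim (fun v => if p = (v : OnePoint V) then 1 else 0)
      (fun _ => 0)))

lemma phi_cont : Continuous (phi j) := by
  classical
  apply Continuous.sumElim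
  · rw [continuous_pi_iff]
    rintro (ξ | v | u)
    · exact (continuous_apply ξ).comp (continuous_snd.comp continuous_subtype_val)
    · exact continuous_const
    · exact continuous_const
  · rw [continuous_pi_iff]
    rintro (ξ | v | u)
    · exact continuous_const
    · simp only [Sum.elim_inr, Sum.elim_inl]
      rw [OnePoint.continuous_iff_from_discrete]
      have h1 : (if (OnePoint.infty : OnePoint V) = (v : OnePoint V) then (1:ℝ) else 0) = 0 := by
        rw [if_neg (OnePoint.infty_ne_coe v)]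
      rw [h1]
      apply tendsto_nhds_of_eventually_eq
      have : ∀ᶠ s in cofinite, s ≠ v := by
        rw [Filter.eventually_cofinite]
        simp
      filter_upwards [this] with s hs
      rw [if_neg]
      intro h
      exact hs (OnePoint.coe_eq_coe.mp h)
    · exact continuous_const

lemma phi_inj : Function.Injective (phi j) := by
  rintro (x | p) (y | q) h
  · have h1 : x.1.2 = y.1.2 := by
      funext ξ
      exact congrFun h (Sum.inl ξ)
    have h2 : x.1 = y.1 := Prod.ext (x.2.2.trans y.2.2.symm) h1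
    rw [Subtype.ext h2]
  · have := congrFun h (Sum.inr (Sum.inr ()))
    simp [phi] at this
  · have := congrFun h (Sum.inr (Sum.inr ()))
    simp [phi] at this
  · congr 1
    induction p using OnePoint.rec with
    | infty =>
      induction q using OnePoint.rec with
      | infty => rfl
      | coe s =>
        have := congrFun h (Sum.inr (Sum.inl s))
        simp [phi] at this
    | coe s =>
      have := congrFun h (Sum.inr (Sum.inl s))
      simp only [phi, Sum.elim_inr, Sum.elim_inl, if_true] at this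
      by_contra hcon
      rw [if_neg (fun h => hcon h.symm)] at this
      exact one_ne_zero this

lemma phi_supp (hj : ∀ b : ℕ → ℕ, {ξ | ∀ k, b k ≠ j ξ k}.Countable)
    (x : (LL j) ⊕ OnePoint V) : {γ | phi j x γ ≠ 0}.Countable := by
  have h1 : {ξ | phi j x (Sum.inl ξ) ≠ 0}.Countable := by
    rcases x with x | p
    · exact LL_supp j hj x.2
    · simp [phi]
  refine ((h1.image Sum.inl).union (Set.countable_range Sum.inr)).mono ?_
  rintro (ξ | v) h
  · left; exact ⟨ξ, h, rfl⟩
  · right; exact ⟨v, rfl⟩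

theorem corson_L (hj : ∀ b : ℕ → ℕ, {ξ | ∀ k, b k ≠ j ξ k}.Countable) :
    IsCorson ((LL j) ⊕ OnePoint V) := by
  refine ⟨_, fun x => ⟨phi j x, phi_supp j hj x⟩, ?_⟩
  have h1 : Continuous (fun x => (⟨phi j x, phi_supp j hj x⟩ :
      {x : (Om ⊕ (V ⊕ Unit)) → ℝ // {γ | x γ ≠ 0}.Countable})) := (phi_cont j).subtype_mk _
  exact (h1.isClosedEmbedding (fun x y h => phi_inj j (congrArg Subtype.val h))).isEmbedding

/-- the coordinate function -/
noncomputable def A (ξ : Om) : C(KK j, ℝ) := ⟨fun z => z.1.2 ξ,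
      (continuous_apply ξ).comp (continuous_snd.comp continuous_subtype_val)⟩

open Classical in
lemma R_A (ξ : Om) (s : V) : R j (A j ξ) s = if ok (j ξ) s.1 then 1 else 0 := by
  simp only [R, A, e, ContinuousMap.coe_mk]

lemma A_fib (hj : ∀ b : ℕ → ℕ, {ξ | ∀ k, b k ≠ j ξ k}.Countable) (ξ : Om) :
    {η | R j (A j η) = R j (A j ξ)}.Countable := by
  classical
  let b : ℕ → ℕ := fun k => if j ξ k = 0 then 1 else 0
  have hb : ∀ k, b k ≠ j ξ k := by
    intro k
    simp only [b]
    split_ifs with h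
    · rw [h]; exact one_ne_zero
    · exact fun h' => h h'.symm
  have hb2 : ∀ k, b k < 2 ^ (k + 1) := by
    intro k
    simp only [b]
    split_ifs with h
    · exact Nat.one_lt_two_pow (by omega)
    · positivity
  let bl : ℕ → List ℕ := fun n => Nat.rec [] (fun n l => b n :: l) n
  have hbl : ∀ n, bl (n + 1) = b n :: bl n := fun n => rfl
  have hlen : ∀ n, (bl n).length = n := by
    intro n
    induction n with
    | zero => rfl
    | succ n ih => rw [hbl, List.length_cons, ih]
  have hval : ∀ n, val (bl n) := by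
    intro n
    induction n with
    | zero => trivial
    | succ n ih => rw [hbl]; exact ⟨by rw [hlen]; exact hb2 n, ih⟩
  have hok : ∀ n, ok (j ξ) (bl n) := by
    intro n
    induction n with
    | zero => trivial
    | succ n ih => rw [hbl]; exact ⟨by rw [hlen]; exact hb n, ih⟩
  refine (hj b).mono ?_
  intro η hη k
  let sk : V := ⟨bl (k + 1), hval (k + 1)⟩
  have h1 : R j (A j η) sk = R j (A j ξ) sk := congrFun hη sk
  rw [R_A, R_A, if_pos (show ok (j ξ) sk.1 from hok (k + 1))] at h1
  have h2 : ok (j η) (bl (k + 1)) := by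
    by_contra hcon
    rw [if_neg (show ¬ ok (j η) sk.1 from hcon)] at h1
    exact zero_ne_one h1
  rw [hbl] at h2
  have h3 := h2.1
  rwa [hlen] at h3

lemma not_sc (hj : ∀ b : ℕ → ℕ, {ξ | ∀ k, b k ≠ j ξ k}.Countable) :
    ¬ SecondCountableTopology (KK j) := by
  classical
  intro hsc
  have h1 : (range (fun ξ => R j (A j ξ))).Countable := by
    refine Set.PairwiseDisjoint.countable_of_isOpen (α := C(KK j, ℝ))
      (s := fun r : V → ℝ => ⋃ ξ ∈ {ξ | R j (A j ξ) = r}, Metric.ball (A j ξ) (1 / 2)) ?_ ?_ ?_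
    · rintro _ ⟨ξ, rfl⟩ _ ⟨η, rfl⟩ hne
      refine Set.disjoint_left.mpr ?_
      intro g h2 h3
      simp only [Set.mem_iUnion] at h2 h3
      obtain ⟨ξ', h4, h5⟩ := h2
      obtain ⟨η', h6, h7⟩ := h3
      apply hne
      show R j (A j ξ) = R j (A j η)
      rw [← (show R j (A j ξ') = R j (A j ξ) from h4), ← (show R j (A j η') = R j (A j η) from h6)]
      have h8 : ‖A j ξ' - A j η'‖ < 1 := by
        rw [← dist_eq_norm]
        rw [Metric.mem_ball] at h5 h7
        calc _ ≤ dist (A j ξ') g + dist g (A j η') := dist_triangle _ _ _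
          _ < 1 := by rw [dist_comm (A j ξ') g]; linarith
      funext s
      have h9 : |R j (A j ξ') s - R j (A j η') s| < 1 :=
        lt_of_le_of_lt (R_bd j (A j ξ' - A j η') s) h8
      rw [R_A, R_A] at h9 ⊢
      split_ifs at h9 ⊢ <;> simp_all
    · intro r _
      exact isOpen_biUnion (fun ξ _ => Metric.isOpen_ball)
    · rintro _ ⟨ξ, rfl⟩
      exact ⟨A j ξ, Set.mem_biUnion (show ξ ∈ {ξ' | R j (A j ξ') = R j (A j ξ)} from rfl)
        (Metric.mem_ball_self (by norm_num))⟩
  apply Om_unc
  refine (h1.biUnion (t := fun r _ => {ξ | R j (A j ξ) = r}) ?_).mono ?_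
  · rintro _ ⟨ξ, rfl⟩
    exact A_fib j hj ξ
  · intro ξ _
    simp only [Set.mem_iUnion]
    exact ⟨R j (A j ξ), ⟨ξ, rfl⟩, rfl⟩

theorem not_corson_K (hj : ∀ b : ℕ → ℕ, {ξ | ∀ k, b k ≠ j ξ k}.Countable) :
    ¬ IsCorson (KK j) := by
  rintro ⟨Γ, φ, hφ⟩
  apply not_sc j hj
  let Γ0 : Set Γ := ⋃ s : V, {γ | (φ ⟨e j s, e_mem j s⟩).1 γ ≠ 0}
  have h0 : Γ0.Countable := Set.countable_iUnion (fun s => (φ ⟨e j s, e_mem j s⟩).2)
  have h1 : ∀ (x : KK j) (γ : Γ), γ ∉ Γ0 → (φ x).1 γ = 0 := by
    intro x γ hγ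
    have hc : IsClosed {x : KK j | (φ x).1 γ = 0} :=
      isClosed_eq ((continuous_apply γ).comp (continuous_subtype_val.comp hφ.continuous))
        continuous_const
    have hd : DenseRange (fun s => (⟨e j s, e_mem j s⟩ : KK j)) := by
      intro y
      rw [mem_closure_iff_nhds]
      intro t ht
      rw [nhds_subtype_eq_comap] at ht
      obtain ⟨u, hu, hut⟩ := ht
      obtain ⟨_, h2, s, rfl⟩ := mem_closure_iff_nhds.mp y.2 u hu
      exact ⟨_, hut (show (⟨e j s, e_mem j s⟩ : KK j) ∈ Subtype.val ⁻¹' u from h2), s, rfl⟩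
    have h2 : closure (range (fun s => (⟨e j s, e_mem j s⟩ : KK j))) ⊆
        {x : KK j | (φ x).1 γ = 0} := by
      apply closure_minimal _ hc
      rintro _ ⟨s, rfl⟩
      by_contra hcon
      exact hγ (Set.mem_iUnion.mpr ⟨s, hcon⟩)
    exact h2 (hd x)
  let ψ : KK j → (Γ0 → ℝ) := fun x γ => (φ x).1 γ.1
  have hc : Continuous ψ := by
    rw [continuous_pi_iff]
    intro γ
    exact (continuous_apply γ.1).comp (continuous_subtype_val.comp hφ.continuous)
  have hi : Function.Injective ψ := by
    intro x y h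
    apply hφ.injective
    apply Subtype.ext
    funext γ
    by_cases hγ : γ ∈ Γ0
    · exact congrFun h ⟨γ, hγ⟩
    · rw [h1 x γ hγ, h1 y γ hγ]
  have : Countable Γ0 := h0.to_subtype
  exact (hc.isClosedEmbedding hi).isEmbedding.secondCountableTopology

end Pool.Agent.Helper639.N
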