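import Pool.Agent.Helper639.ND

open Set Filter Topology Cardinal

namespace Pool.Agent.Helper639.N

variable (j : Om → ℕ → ℕ)

/-- the defect of a function at the node s -/
noncomputable def D (f : C(KK j, ℝ)) (s : V) : ℝ := R j f s - nu s (R j f)

lemma e_fst (s v : V) : (e j s).1 v ≠ 0 ↔ s = v := by
  classical
  simp [e]

lemma e_inj : Function.Injective (e j) := by
  intro s t h
  have h1 : (e j s).1 t ≠ 0 := by rw [h, e_fst]
  exact (e_fst j s t).mp h1

lemma e_not_LL (s : V) : e j s ∉ LL j := by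
  intro h
  have h1 := (e_fst j s s).mpr rfl
  rw [h.2] at h1
  exact h1 rfl

open Classical in
noncomputable def extF (c : V → ℝ) (x : KK j) : ℝ :=
  if h : ∃ s, x.1 = e j s then c h.choose else 0

lemma extF_e (c : V → ℝ) (s : V) : extF j c ⟨e j s, e_mem j s⟩ = c s := by
  have h : ∃ t, (⟨e j s, e_mem j s⟩ : KK j).1 = e j t := ⟨s, rfl⟩
  unfold extF
  rw [dif_pos h]
  congr 1
  exact (e_inj j h.choose_spec).symm

lemma extF_LL (c : V → ℝ) (x : KK j) (hx : x.1 ∈ LL j) : extF j c x = 0 := by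
  unfold extF
  rw [dif_neg]
  rintro ⟨s, hs⟩
  rw [hs] at hx
  exact e_not_LL j s hx

lemma extF_cont (c : V → ℝ) (hc : Tendsto c cofinite (𝓝 0)) : Continuous (extF j c) := by
  rw [continuous_iff_continuousAt]
  rintro ⟨x, hx⟩
  rcases KK_split j hx with h | ⟨s, rfl⟩
  · unfold ContinuousAt
    rw [extF_LL j c _ h, Metric.tendsto_nhds]
    intro ε hε
    have h1 := (Metric.tendsto_nhds.mp hc) ε hε
    rw [Filter.eventually_cofinite] at h1
    have h2 : ((fun s => (⟨e j s, e_mem j s⟩ : KK j)) '' {s | ¬ dist (c s) 0 < ε}).Finite :=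
      h1.image _
    have h3 : ∀ᶠ z in 𝓝 (⟨x, hx⟩ : KK j),
        z ∉ (fun s => (⟨e j s, e_mem j s⟩ : KK j)) '' {s | ¬ dist (c s) 0 < ε} := by
      apply h2.isClosed.isOpen_compl.mem_nhds
      rintro ⟨s, _, hs⟩
      have : e j s = x := congrArg Subtype.val hs
      rw [← this] at h
      exact e_not_LL j s h
    filter_upwards [h3] with z hz
    rcases KK_split j z.2 with h4 | ⟨t, h4⟩
    · rw [extF_LL j c z h4]; simpa using hε
    · have h5 : z = ⟨e j t, e_mem j t⟩ := Subtype.ext h4
      rw [h5, extF_e]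
      by_contra hcon
      exact hz ⟨t, hcon, h5.symm⟩
  · have h1 : ∀ᶠ z in 𝓝 (⟨e j s, hx⟩ : KK j), z = ⟨e j s, hx⟩ := by
      have h2 : IsOpen {z : KK j | z.1.1 s ≠ 0} :=
        isOpen_ne.preimage ((continuous_apply s).comp (continuous_fst.comp continuous_subtype_val))
      filter_upwards [h2.mem_nhds (show (e j s).1 s ≠ 0 from (e_fst j s s).mpr rfl)] with z hz
      exact Subtype.ext ((KK_cases j z.2 s).resolve_left hz)
    exact (tendsto_nhds_of_eventually_eq (h1.mono fun z hz => by rw [hz]))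

noncomputable def ext (c : V → ℝ) (hc : Tendsto c cofinite (𝓝 0)) : C(KK j, ℝ) :=
  ⟨extF j c, extF_cont j c hc⟩

lemma R_ext (c : V → ℝ) (hc : Tendsto c cofinite (𝓝 0)) : R j (ext j c hc) = c := by
  funext s
  exact extF_e j c s

lemma D_ext (c : V → ℝ) (hc : Tendsto c cofinite (𝓝 0)) (s : V) : D j (ext j c hc) s = c s := by
  unfold D
  have h1 : |nu s (R j (ext j c hc))| ≤ 0 := by
    apply nu_le (R_bd j _) s
    exact lim_le j _ (fun x hx => by
      show |extF j c _| ≤ 0
      rw [extF_LL j c _ hx, abs_zero])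
  have h2 : nu s (R j (ext j c hc)) = 0 := abs_eq_zero.mp (le_antisymm h1 (abs_nonneg _))
  rw [h2, R_ext]
  ring

lemma D_add (f g : C(KK j, ℝ)) (s : V) : D j (f + g) s = D j f s + D j g s := by
  simp only [D, R_add, nu_add (R_bd j f) (R_bd j g), Pi.add_apply]
  ring

lemma D_smul (c : ℝ) (f : C(KK j, ℝ)) (s : V) : D j (c • f) s = c * D j f s := by
  simp only [D, R_smul, nu_smul c (R_bd j f), Pi.smul_apply, smul_eq_mul]
  ring

lemma D_bd (f : C(KK j, ℝ)) (s : V) : |D j f s| ≤ 2 * ‖f‖ := by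
  have h1 := R_bd j f s
  have h2 := nu_bd j f s
  have := abs_sub (R j f s) (nu s (R j f))
  unfold D
  linarith

lemma D_zero {f : C(KK j, ℝ)} (h1 : ∀ x (hx : x ∈ LL j), f ⟨x, hx.1⟩ = 0)
    (h2 : ∀ s, D j f s = 0) : f = 0 := by
  ext x
  rcases x with ⟨x, hx⟩
  rcases KK_split j hx with h | ⟨s, rfl⟩
  · exact h1 x h
  · have h3 : |nu s (R j f)| ≤ 0 := by
      apply nu_le (R_bd j _) s
      exact lim_le j _ (fun x hx => by rw [h1 x hx, abs_zero])
    have h4 : nu s (R j f) = 0 := abs_eq_zero.mp (le_antisymm h3 (abs_nonneg _))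
    have h5 := h2 s
    unfold D at h5
    rw [h4, sub_zero] at h5
    exact h5

instance : Infinite V := by
  have hv : ∀ n : ℕ, val (List.replicate n 0) := by
    intro n
    induction n with
    | zero => trivial
    | succ n ih => exact ⟨by positivity, ih⟩
  refine Infinite.of_injective (fun n : ℕ => (⟨List.replicate n 0, hv n⟩ : V)) ?_
  intro n m h
  have h1 := congrArg (fun s : V => s.1.length) h
  simpa using h1

theorem exists_sigma : Nonempty (Option V ≃ V) := by
  obtain ⟨i1⟩ := nonempty_denumerable (Option V)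
  obtain ⟨i2⟩ := nonempty_denumerable V
  exact ⟨Denumerable.equiv₂ _ _⟩

variable (σ : Option V ≃ V)

lemma D_tendsto_some (f : C(KK j, ℝ)) :
    Tendsto (fun v : V => D j f (σ (some v)) + D j f (σ none)) cofinite (𝓝 (D j f (σ none))) := by
  have h1 : Tendsto (fun v : V => D j f (σ (some v))) cofinite (𝓝 0) :=
    (dens j f).comp ((σ.injective.comp (Option.some_injective V)).tendsto_cofinite)
  simpa using h1.add_const (D j f (σ none))

noncomputable def S0 (f : C(KK j, ℝ)) : C((LL j) ⊕ OnePoint V, ℝ) where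
  toFun := Sum.elim (fun x => f ⟨x.1, x.2.1⟩)
    (fun p => p.elim (D j f (σ none)) (fun v => D j f (σ (some v)) + D j f (σ none)))
  continuous_toFun := by
    apply Continuous.sumElim
    · exact f.continuous.comp (Continuous.subtype_mk continuous_subtype_val _)
    · rw [OnePoint.continuous_iff_from_discrete]
      exact D_tendsto_some j σ f

lemma S0_inl (f : C(KK j, ℝ)) (x : LL j) : S0 j σ f (Sum.inl x) = f ⟨x.1, x.2.1⟩ := rfl
lemma S0_inf (f : C(KK j, ℝ)) : S0 j σ f (Sum.inr OnePoint.infty) = D j f (σ none) := rfl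
lemma S0_coe (f : C(KK j, ℝ)) (v : V) : S0 j σ f (Sum.inr (v : OnePoint V)) =
    D j f (σ (some v)) + D j f (σ none) := rfl

lemma S0_add (f g : C(KK j, ℝ)) : S0 j σ (f + g) = S0 j σ f + S0 j σ g := by
  ext x
  rcases x with x | p
  · rfl
  · induction p using OnePoint.rec with
    | infty => rw [ContinuousMap.add_apply, S0_inf, S0_inf, S0_inf, D_add]
    | coe s =>
      rw [ContinuousMap.add_apply, S0_coe, S0_coe, S0_coe, D_add, D_add]
      ring

lemma S0_smul (c : ℝ) (f : C(KK j, ℝ)) : S0 j σ (c • f) = c • S0 j σ f := by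
  ext x
  rcases x with x | p
  · rfl
  · induction p using OnePoint.rec with
    | infty => rw [ContinuousMap.smul_apply, S0_inf, S0_inf, D_smul]; rfl
    | coe s =>
      rw [ContinuousMap.smul_apply, S0_coe, S0_coe, D_smul, D_smul, smul_eq_mul]
      ring

lemma S0_norm (f : C(KK j, ℝ)) : ‖S0 j σ f‖ ≤ 4 * ‖f‖ := by
  rw [ContinuousMap.norm_le _ (by positivity)]
  have h0 := norm_nonneg f
  intro x
  rcases x with x | p
  · have := f.norm_coe_le_norm ⟨x.1, x.2.1⟩
    rw [S0_inl]
    linarith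
  · induction p using OnePoint.rec with
    | infty =>
      rw [S0_inf, Real.norm_eq_abs]
      have := D_bd j f (σ none)
      linarith
    | coe s =>
      rw [S0_coe, Real.norm_eq_abs]
      have h1 := D_bd j f (σ none)
      have h2 := D_bd j f (σ (some s))
      have h3 := abs_add_le (D j f (σ (some s))) (D j f (σ none))
      linarith

noncomputable def SS : C(KK j, ℝ) →L[ℝ] C((LL j) ⊕ OnePoint V, ℝ) :=
  LinearMap.mkContinuous
    { toFun := S0 j σ
      map_add' := S0_add j σ
      map_smul' := S0_smul j σ } 4 (S0_norm j σ)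

lemma SS_inj : Function.Injective (SS j σ) := by
  rw [injective_iff_map_eq_zero]
  intro f hf
  have h0 : S0 j σ f = 0 := hf
  apply D_zero j
  · intro x hx
    have := DFunLike.congr_fun h0 (Sum.inl ⟨x, hx⟩)
    exact this
  · have h1 : D j f (σ none) = 0 := DFunLike.congr_fun h0 (Sum.inr OnePoint.infty)
    intro s
    obtain ⟨o, rfl⟩ := σ.surjective s
    cases o with
    | none => exact h1
    | some v =>
      have h2 : D j f (σ (some v)) + D j f (σ none) = 0 :=
        DFunLike.congr_fun h0 (Sum.inr (v : OnePoint V))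
      linarith

lemma SS_surj : Function.Surjective (SS j σ) := by
  intro g
  let h : V → ℝ := fun s => (σ.symm s).elim (g (Sum.inr OnePoint.infty))
    (fun v => g (Sum.inr (v : OnePoint V)) - g (Sum.inr OnePoint.infty))
  have hn : h (σ none) = g (Sum.inr OnePoint.infty) := by simp [h]
  have hs : ∀ v, h (σ (some v)) = g (Sum.inr (v : OnePoint V)) - g (Sum.inr OnePoint.infty) := by
    intro v; simp [h]
  have h1 : Tendsto (fun v : V => g (Sum.inr (v : OnePoint V))) cofinite
      (𝓝 (g (Sum.inr OnePoint.infty))) := by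
    have := (OnePoint.continuous_iff_from_discrete (fun p : OnePoint V => g (Sum.inr p))).mp
      (g.continuous.comp continuous_inr)
    exact this
  have hh : Tendsto h cofinite (𝓝 0) := by
    rw [Metric.tendsto_nhds]
    intro ε hε
    have h2 := (Metric.tendsto_nhds.mp h1) ε hε
    rw [Filter.eventually_cofinite] at h2 ⊢
    refine ((h2.image (fun v => σ (some v))).insert (σ none)).subset ?_
    intro s hs'
    obtain ⟨o, rfl⟩ := σ.surjective s
    cases o with
    | none => left; rfl
    | some v =>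
      right
      refine ⟨v, ?_, rfl⟩
      intro h3
      apply hs'
      rw [hs, Real.dist_0_eq_abs]
      rwa [Real.dist_eq] at h3
  have hcl : IsClosed {z : KK j | z.1 ∈ LL j} := (LL_closed j).preimage continuous_subtype_val
  obtain ⟨G0, hG0⟩ := ContinuousMap.exists_restrict_eq hcl
    (⟨fun z => g (Sum.inl ⟨z.1.1, z.2⟩), by
      apply g.continuous.comp
      apply continuous_inl.comp
      exact Continuous.subtype_mk (continuous_subtype_val.comp continuous_subtype_val) _⟩ :
      C({z : KK j | z.1 ∈ LL j}, ℝ))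
  have hG1 : ∀ x (hx : x ∈ LL j), G0 ⟨x, hx.1⟩ = g (Sum.inl ⟨x, hx⟩) := by
    intro x hx
    exact DFunLike.congr_fun hG0 ⟨⟨x, hx.1⟩, hx⟩
  have hc : Tendsto (fun s => h s - D j G0 s) cofinite (𝓝 0) := by
    have h5 := hh.sub (dens j G0)
    rw [sub_zero] at h5
    exact h5
  refine ⟨G0 + ext j _ hc, ?_⟩
  have hD : ∀ s, D j (G0 + ext j _ hc) s = h s := by
    intro s
    rw [D_add, D_ext]
    ring
  show S0 j σ _ = g
  ext x
  rcases x with x | p
  · rw [S0_inl, ContinuousMap.add_apply, hG1 x.1 x.2]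
    have h6 : (ext j (fun s => h s - D j G0 s) hc) ⟨x.1, x.2.1⟩ = 0 :=
      extF_LL j (fun s => h s - D j G0 s) ⟨x.1, x.2.1⟩ x.2
    rw [h6, add_zero]
  · induction p using OnePoint.rec with
    | infty => rw [S0_inf, hD, hn]
    | coe v => rw [S0_coe, hD, hD, hn, hs]; ring

theorem iso : Nonempty (C(KK j, ℝ) ≃L[ℝ] C((LL j) ⊕ OnePoint V, ℝ)) := by
  obtain ⟨σ⟩ := exists_sigma
  exact ⟨ContinuousLinearEquiv.ofBijective (SS j σ)
    (LinearMap.ker_eq_bot.mpr (SS_inj j σ)) (LinearMap.range_eq_top.mpr (SS_surj j σ))⟩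

end Pool.Agent.Helper639.N
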