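import Pool.Agent.Helper639.KC

open Set Cardinal

namespace Pool.Agent.Helper639.P

/-- finite partial functions to the natural numbers, as finite sets of pairs -/
abbrev Cnd (κ : Type) := Finset (κ × ℕ)

def Sat {κ : Type} (x : κ → ℕ) (p : Cnd κ) : Prop := ∀ e ∈ p, x e.1 = e.2

def Con {κ : Type} (p : Cnd κ) : Prop := ∃ x, Sat x p

theorem Sat.mono {κ : Type} {x : κ → ℕ} {p q : Cnd κ} (h : Sat x q) (hpq : p ⊆ q) : Sat x p :=
  fun e he => h e (hpq he)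

theorem Con.mono {κ : Type} {p q : Cnd κ} (h : Con q) (hpq : p ⊆ q) : Con p := by
  obtain ⟨x, hx⟩ := h
  exact ⟨x, hx.mono hpq⟩

theorem Con.fn {κ : Type} {p : Cnd κ} (h : Con p) {k : κ} {a b : ℕ} (h1 : (k, a) ∈ p) (h2 : (k, b) ∈ p) : a = b := by
  obtain ⟨x, hx⟩ := h
  have e1 := hx _ h1
  have e2 := hx _ h2
  simp only at e1 e2
  rw [← e1, ← e2]

theorem Sat.union {κ : Type} [DecidableEq κ] {x : κ → ℕ} {p q : Cnd κ} (h : Sat x p) (h' : Sat x q) :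
    Sat x (p ∪ q) := by
  intro e he
  rcases Finset.mem_union.mp he with he | he
  · exact h e he
  · exact h' e he

/-- predense families -/
def PD {κ : Type} (𝒟 : Set (Cnd κ)) : Prop := ∀ p : Cnd κ, Con p → ∃ r ∈ 𝒟, ∃ x : κ → ℕ, Sat x p ∧ Sat x r

theorem generic {κ : Type} {𝓛 : Set (Set (Cnd κ))} (hL : 𝓛.Countable) :
    ∃ x : κ → ℕ, ∀ 𝒟 ∈ 𝓛, PD 𝒟 → ∃ r ∈ 𝒟, Sat x r := by
  classical
  obtain ⟨D, hD⟩ := (hL.insert ∅).exists_eq_range ⟨∅, mem_insert _ _⟩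
  have hstep : ∀ (n : ℕ) (q : {q : Cnd κ // Con q}), ∃ q' : {q : Cnd κ // Con q}, q.1 ⊆ q'.1 ∧
      (PD (D n) → ∃ r ∈ D n, r ⊆ q'.1) := by
    intro n q
    by_cases h : PD (D n)
    · obtain ⟨r, hr, x, h1, h2⟩ := h q.1 q.2
      exact ⟨⟨q.1 ∪ r, x, h1.union h2⟩, Finset.subset_union_left, fun _ => ⟨r, hr, Finset.subset_union_right⟩⟩
    · exact ⟨q, Finset.Subset.refl _, fun h' => absurd h' h⟩
  choose f hf1 hf2 using hstep
  let s : ℕ → {q : Cnd κ // Con q} := fun n =>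
    Nat.rec ⟨∅, fun _ => 0, fun e he => absurd he (Finset.notMem_empty _)⟩ (fun n q => f n q) n
  have hs : ∀ n, s (n + 1) = f n (s n) := fun n => rfl
  have hmono : Monotone fun n => (s n).1 := monotone_nat_of_le_succ fun n => by rw [hs]; exact hf1 _ _
  have hx : ∀ k : κ, ∃ v : ℕ, ∀ n a, (k, a) ∈ (s n).1 → v = a := by
    intro k
    by_cases h : ∃ n a, (k, a) ∈ (s n).1
    · obtain ⟨n, a, ha⟩ := h
      refine ⟨a, fun m b hb => ?_⟩
      exact (s (max m n)).2.fn (hmono (le_max_right m n) ha) (hmono (le_max_left m n) hb)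
    · exact ⟨0, fun n a ha => absurd ⟨n, a, ha⟩ h⟩
  choose x hx using hx
  have hsat : ∀ n, Sat x (s n).1 := by
    intro n e he
    exact hx e.1 n e.2 he
  refine ⟨x, ?_⟩
  intro 𝒟 h𝒟 hPD
  have : 𝒟 ∈ range D := by rw [← hD]; exact mem_insert_of_mem _ h𝒟
  obtain ⟨n, rfl⟩ := this
  obtain ⟨r, hr, hsub⟩ := hf2 n (s n) hPD
  refine ⟨r, hr, (hsat (n + 1)).mono ?_⟩
  rw [hs]; exact hsub

/-- compatible conditions with a common point -/
theorem con_of_union {κ : Type} {p q : Cnd κ} (hp : Con p) (hq : Con q)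
    (h : ∀ k a b, (k, a) ∈ p → (k, b) ∈ q → a = b) : ∃ x : κ → ℕ, Sat x p ∧ Sat x q := by
  classical
  obtain ⟨x, hx⟩ := hp
  obtain ⟨y, hy⟩ := hq
  refine ⟨fun k => if ∃ a, (k, a) ∈ p then x k else y k, ?_, ?_⟩
  · intro e he
    have : ∃ a, (e.1, a) ∈ p := ⟨e.2, he⟩
    simp only [this, if_true]
    exact hx e he
  · intro e he
    by_cases h1 : ∃ a, (e.1, a) ∈ p
    · simp only [h1, if_true]
      obtain ⟨a, ha⟩ := h1
      have h2 := hx _ ha
      simp only at h2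
      rw [h2]
      exact h e.1 a e.2 ha he
    · simp only [h1, if_false]
      exact hy e he

variable {Ω : Type} [LinearOrder Ω]

/-- the two-variable function -/
def WW (ee : Ω → Ω → ℕ) (g : Ω → Ω → ℕ) (a b : Ω) : ℕ :=
  if b ≤ a then g a b else ee b a

open Classical in
/-- truncation -/
noncomputable def tr (W : Ω → Ω → ℕ) (α : Ω) (a b : Ω) : ℕ := if a < α ∧ b < α then W a b else 0

open Classical in
/-- the part of a condition at an index -/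
noncomputable def part (j : ℕ) (q : Cnd (ℕ × Ω)) : Cnd Ω :=
  (q.filter (fun e => e.1.1 = j)).image (fun e => (e.1.2, e.2))

theorem mem_part {j : ℕ} {q : Cnd (ℕ × Ω)} {e : Ω × ℕ} : e ∈ part j q ↔ ((j, e.1), e.2) ∈ q := by
  classical
  unfold part
  constructor
  · intro h
    obtain ⟨e', h1, h2⟩ := Finset.mem_image.mp h
    obtain ⟨h3, h4⟩ := Finset.mem_filter.mp h1
    obtain ⟨⟨j', ξ⟩, b⟩ := e'
    simp only at h4 h2
    subst h4
    rw [← h2]
    exact h3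
  · intro h
    exact Finset.mem_image.mpr ⟨((j, e.1), e.2), Finset.mem_filter.mpr ⟨h, rfl⟩, rfl⟩

/-- sections of a family of conditions -/
def sec (W : Ω → Ω → ℕ) (A : ℕ → Cnd (ℕ × Ω)) (v : Finset (ℕ × Ω)) (j0 : ℕ) : Set (Cnd Ω) :=
  {r | ∃ i, r = part j0 (A i) ∧ ∀ e ∈ A i, e.1.1 ≠ j0 → ∃ a, (e.1.1, a) ∈ v ∧ W a e.1.2 = e.2}

/-- requirement at stage `α` -/
def Req (e1 : Ω → ℕ → Cnd (ℕ × Ω)) (α : Ω) (W : Ω → Ω → ℕ) (x : Ω → ℕ) : Prop :=
  ∀ η < α, ∀ v : Finset (ℕ × Ω), (∀ e ∈ v, e.2 < α) → ∀ j0, (∀ i, ∀ e ∈ e1 η i, e.1.2 < α) →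
    PD (sec W (e1 η) v j0) → ∃ r ∈ sec W (e1 η) v j0, Sat x r

theorem req_exists (hc : ∀ a : Ω, (Set.Iic a).Countable) (e1 : Ω → ℕ → Cnd (ℕ × Ω))
    (α : Ω) (W : Ω → Ω → ℕ) : ∃ x, Req e1 α W x := by
  classical
  have hIio : (Set.Iio α).Countable := (hc α).mono fun x hx => le_of_lt hx
  have hv : {v : Finset (ℕ × Ω) | ∀ e ∈ v, e ∈ {e : ℕ × Ω | e.2 < α}}.Countable := by
    apply K.countable_finset
    have : {e : ℕ × Ω | e.2 < α} = Set.univ ×ˢ Set.Iio α := by ext e; simp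
    rw [this]
    exact Set.countable_univ.prod hIio
  let L1 : Set (Set (Cnd Ω)) := (fun t : Ω × Finset (ℕ × Ω) × ℕ => sec W (e1 t.1) t.2.1 t.2.2) ''
    (Set.Iio α ×ˢ ({v : Finset (ℕ × Ω) | ∀ e ∈ v, e ∈ {e : ℕ × Ω | e.2 < α}} ×ˢ Set.univ))
  have hL1 : L1.Countable := (hIio.prod (hv.prod Set.countable_univ)).image _
  obtain ⟨x1, hx1⟩ := generic hL1
  refine ⟨x1, ?_⟩
  intro η hη v hv' j0 _ hPD
  exact hx1 _ ⟨(η, v, j0), ⟨hη, hv', trivial⟩, rfl⟩ hPD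

/-- the generic function -/
theorem exists_w [WellFoundedLT Ω] (hc : ∀ a : Ω, (Set.Iic a).Countable) (e1 : Ω → ℕ → Cnd (ℕ × Ω))
    (ee : Ω → Ω → ℕ) :
    ∃ w : Ω → Ω → ℕ,
      (∀ a b, a < b → w a b = ee b a) ∧
      (∀ α, ∀ η < α, ∀ v : Finset (ℕ × Ω), (∀ e ∈ v, e.2 < α) → ∀ j0, (∀ i, ∀ e ∈ e1 η i, e.1.2 < α) →
        PD (sec w (e1 η) v j0) → ∃ r ∈ sec w (e1 η) v j0, Sat (w α) r) := by
  classical
  obtain ⟨G, hG⟩ := K.exists_rec (Ω := Ω) (X := Ω → ℕ)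
    (fun α g x => Req e1 α (tr (WW ee g) α) x) (fun α g => req_exists hc e1 α _) (by
      intro α g g' x hgg h
      have : tr (WW ee g) α = tr (WW ee g') α := by
        funext a b
        unfold tr
        by_cases hab : a < α ∧ b < α
        · rw [if_pos hab, if_pos hab]
          unfold WW
          rw [hgg a hab.1]
        · rw [if_neg hab, if_neg hab]
      rw [← this]
      exact h)
  have htr : ∀ α a b, a < α → b < α → tr (WW ee G) α a b = WW ee G a b := by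
    intro α a b ha hb
    unfold tr
    rw [if_pos ⟨ha, hb⟩]
  have hrow : ∀ α ξ, ξ < α → WW ee G α ξ = G α ξ := by
    intro α ξ h
    unfold WW
    rw [if_pos h.le]
  refine ⟨WW ee G, ?_, ?_⟩
  · intro a b h
    unfold WW
    rw [if_neg (not_le.mpr h)]
  · intro α η hη v hv j0 hs hPD
    have hsec : sec (tr (WW ee G) α) (e1 η) v j0 = sec (WW ee G) (e1 η) v j0 := by
      ext r
      constructor
      · rintro ⟨i, h1, h2⟩
        refine ⟨i, h1, fun e he hne => ?_⟩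
        obtain ⟨a, ha, hw⟩ := h2 e he hne
        exact ⟨a, ha, by rw [← htr α a e.1.2 (hv _ ha) (hs i e he)]; exact hw⟩
      · rintro ⟨i, h1, h2⟩
        refine ⟨i, h1, fun e he hne => ?_⟩
        obtain ⟨a, ha, hw⟩ := h2 e he hne
        exact ⟨a, ha, by rw [htr α a e.1.2 (hv _ ha) (hs i e he)]; exact hw⟩
    have h1 := hG α η hη v hv j0 hs
    rw [hsec] at h1
    obtain ⟨r, hr, hsat⟩ := h1 hPD
    refine ⟨r, hr, fun e he => ?_⟩
    obtain ⟨i, hi, -⟩ := hr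
    have h2 : e.1 < α := by
      rw [hi, mem_part] at he
      exact hs i _ he
    rw [hrow α e.1 h2]
    exact hsat e he

set_option linter.unusedSectionVars false
variable [WellFoundedLT Ω]

theorem luz_aux (hc : ∀ a : Ω, (Set.Iic a).Countable) (hu : ¬ (Set.univ : Set Ω).Countable)
    {e1 : Ω → ℕ → Cnd (ℕ × Ω)} (he1 : Function.Surjective e1) {w : Ω → Ω → ℕ}
    (hR : ∀ α, ∀ η < α, ∀ v : Finset (ℕ × Ω), (∀ e ∈ v, e.2 < α) → ∀ j0, (∀ i, ∀ e ∈ e1 η i, e.1.2 < α) →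
        PD (sec w (e1 η) v j0) → ∃ r ∈ sec w (e1 η) v j0, Sat (w α) r) :
    ∀ (n : ℕ) (J : Finset ℕ), J.card = n → ∀ (𝒜 : Set (Cnd (ℕ × Ω))), 𝒜.Countable →
      (∀ q ∈ 𝒜, ∀ e ∈ q, e.1.1 ∈ J) → PD 𝒜 →
      ∃ γ, ∀ u : ℕ → Ω, Set.InjOn u J → (∀ j ∈ J, γ < u j) → ∃ q ∈ 𝒜, ∀ e ∈ q, w (u e.1.1) e.1.2 = e.2 := by
  classical
  intro n
  induction n with
  | zero =>
    intro J hJ 𝒜 h𝒜 hidx hPD
    have hJ : J = ∅ := Finset.card_eq_zero.mp hJ
    subst hJ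
    obtain ⟨r, hr, -⟩ := hPD ∅ ⟨fun _ => 0, fun e he => absurd he (Finset.notMem_empty _)⟩
    obtain ⟨b, -⟩ := Eb.bdd_of_countable hc hu (D := (∅ : Set Ω)) Set.countable_empty
    exact ⟨b, fun u _ _ => ⟨r, hr, fun e he => absurd (hidx r hr e he) (Finset.notMem_empty _)⟩⟩
  | succ n ih =>
    intro J hJ 𝒜 h𝒜 hidx hPD
    -- enumerate
    have hne : 𝒜.Nonempty := by
      obtain ⟨r, hr, -⟩ := hPD ∅ ⟨fun _ => 0, fun e he => absurd he (Finset.notMem_empty _)⟩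
      exact ⟨r, hr⟩
    obtain ⟨A, hA⟩ := h𝒜.exists_eq_range hne
    obtain ⟨η, hη⟩ := he1 A
    -- the support
    let S : Set Ω := ⋃ q ∈ 𝒜, (fun e : (ℕ × Ω) × ℕ => e.1.2) '' (q : Set ((ℕ × Ω) × ℕ))
    have hS : S.Countable := h𝒜.biUnion fun q _ => (q.finite_toSet.image _).countable
    -- the families
    let ℬ : Cnd Ω → ℕ → Set (Cnd (ℕ × Ω)) := fun p0 j0 =>
      {q | ∃ r ∈ 𝒜, (∃ x, Sat x p0 ∧ Sat x (part j0 r)) ∧ q = r.filter (fun e => e.1.1 ≠ j0)}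
    have hℬc : ∀ p0 j0, (ℬ p0 j0).Countable := by
      intro p0 j0
      refine (h𝒜.image (fun r => r.filter (fun e => e.1.1 ≠ j0))).mono ?_
      rintro q ⟨r, hr, -, rfl⟩
      exact ⟨r, hr, rfl⟩
    have hℬ : ∀ p0 j0, Con p0 → PD (ℬ p0 j0) := by
      intro p0 j0 hp0 p hp
      obtain ⟨x0, hx0⟩ := hp0
      obtain ⟨x1, hx1⟩ := hp
      -- combined condition
      let p' : Cnd (ℕ × Ω) := p.filter (fun e => e.1.1 ≠ j0) ∪ p0.image (fun e => ((j0, e.1), e.2))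
      have hp' : Sat (fun k : ℕ × Ω => if k.1 = j0 then x0 k.2 else x1 k) p' := by
        intro e he
        rcases Finset.mem_union.mp he with he | he
        · obtain ⟨h1, h2⟩ := Finset.mem_filter.mp he
          simp only [h2, if_false]
          exact hx1 e h1
        · obtain ⟨e', h1, h2⟩ := Finset.mem_image.mp he
          rw [← h2]
          simp only [if_true]
          exact hx0 e' h1
      obtain ⟨r, hr, x, h1, h2⟩ := hPD p' ⟨_, hp'⟩
      refine ⟨r.filter (fun e => e.1.1 ≠ j0), ⟨r, hr, ⟨fun ξ => x (j0, ξ), ?_, ?_⟩, rfl⟩,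
        fun k => if k.1 = j0 then x1 k else x k, ?_, ?_⟩
      · intro e he
        exact h1 ((j0, e.1), e.2) (Finset.mem_union_right _ (Finset.mem_image.mpr ⟨e, he, rfl⟩))
      · intro e he
        rw [mem_part] at he
        exact h2 _ he
      · intro e he
        by_cases hj : e.1.1 = j0
        · simp only [hj, if_true]
          exact hx1 e he
        · simp only [hj, if_false]
          exact h1 e (Finset.mem_union_left _ (Finset.mem_filter.mpr ⟨he, hj⟩))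
      · intro e he
        obtain ⟨h3, h4⟩ := Finset.mem_filter.mp he
        simp only [h4, if_false]
        exact h2 e h3
    have hγ : ∀ (p0 : Cnd Ω) (j0 : ℕ), ∃ γ, Con p0 → j0 ∈ J → ∀ u : ℕ → Ω, Set.InjOn u (J.erase j0 : Finset ℕ) →
        (∀ j ∈ J.erase j0, γ < u j) → ∃ q ∈ ℬ p0 j0, ∀ e ∈ q, w (u e.1.1) e.1.2 = e.2 := by
      intro p0 j0
      by_cases h : Con p0 ∧ j0 ∈ J
      · obtain ⟨γ, hγ⟩ := ih (J.erase j0) (by rw [Finset.card_erase_of_mem h.2, hJ]; rfl) (ℬ p0 j0) (hℬc p0 j0)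
          (by
            rintro q ⟨r, hr, -, rfl⟩ e he
            obtain ⟨h3, h4⟩ := Finset.mem_filter.mp he
            exact Finset.mem_erase.mpr ⟨h4, hidx r hr e h3⟩) (hℬ p0 j0 h.1)
        exact ⟨γ, fun _ _ => hγ⟩
      · obtain ⟨b, -⟩ := Eb.bdd_of_countable hc hu (D := (∅ : Set Ω)) Set.countable_empty
        exact ⟨b, fun h1 h2 => absurd ⟨h1, h2⟩ h⟩
    choose g hg using hγ
    have hcount : {v : Cnd Ω | ∀ e ∈ v, e ∈ S ×ˢ (Set.univ : Set ℕ)}.Countable :=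
      K.countable_finset (hS.prod Set.countable_univ)
    obtain ⟨γ, hγ⟩ := Eb.bdd_of_countable hc hu (D := (insert η S) ∪
      (fun t : Cnd Ω × ℕ => g t.1 t.2) '' ({v : Cnd Ω | ∀ e ∈ v, e ∈ S ×ˢ (Set.univ : Set ℕ)} ×ˢ Set.univ))
      ((hS.insert η).union ((hcount.prod Set.countable_univ).image _))
    refine ⟨γ, fun u huJ hulo => ?_⟩
    have hJne : J.Nonempty := by rw [← Finset.card_pos, hJ]; exact Nat.succ_pos n
    obtain ⟨j0, hj0, hmax⟩ := Finset.exists_max_image J u hJne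
    have hlt : ∀ j ∈ J, j ≠ j0 → u j < u j0 := fun j hj hne =>
      lt_of_le_of_ne (hmax j hj) fun h => hne (huJ hj hj0 h)
    have hsupp : ∀ i, ∀ e ∈ e1 η i, e.1.2 < u j0 := by
      intro i e he
      refine lt_trans (hγ _ (Or.inl (Or.inr ?_))) (hulo j0 hj0)
      have : A i ∈ 𝒜 := by rw [hA]; exact mem_range_self i
      rw [hη] at he
      exact Set.mem_biUnion this ⟨e, he, rfl⟩
    have hv : ∀ e ∈ (J.erase j0).image (fun j => (j, u j)), e.2 < u j0 := by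
      intro e he
      obtain ⟨j, hj, rfl⟩ := Finset.mem_image.mp he
      exact hlt j (Finset.mem_of_mem_erase hj) (Finset.ne_of_mem_erase hj)
    have key : PD (sec w (e1 η) ((J.erase j0).image (fun j => (j, u j))) j0) := by
      intro p hp
      -- restrict to S
      let p0 : Cnd Ω := p.filter (fun e => e.1 ∈ S)
      have hp0 : p0 ⊆ p := Finset.filter_subset _ _
      have hp0S : ∀ e ∈ p0, e ∈ S ×ˢ (Set.univ : Set ℕ) := fun e he => ⟨(Finset.mem_filter.mp he).2, trivial⟩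
      obtain ⟨q, ⟨r, hr, ⟨x, hx1, hx2⟩, rfl⟩, hq⟩ := hg p0 j0 (hp.mono hp0) hj0 u
        (huJ.mono (by intro j hj; exact Finset.mem_of_mem_erase hj))
        (fun j hj => lt_trans (hγ _ (Or.inr ⟨(p0, j0), ⟨hp0S, trivial⟩, rfl⟩)) (hulo j (Finset.mem_of_mem_erase hj)))
      obtain ⟨i, hi⟩ : ∃ i, A i = r := by
        have : r ∈ range A := by rw [← hA]; exact hr
        exact this
      refine ⟨part j0 r, ⟨i, by rw [hη, hi], ?_⟩, ?_⟩
      · intro e he hne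
        rw [hη, hi] at he
        refine ⟨u e.1.1, Finset.mem_image.mpr ⟨e.1.1, Finset.mem_erase.mpr ⟨hne, hidx r hr e he⟩, rfl⟩, ?_⟩
        exact hq e (Finset.mem_filter.mpr ⟨he, hne⟩)
      · refine con_of_union hp ⟨x, hx2⟩ ?_
        intro k a b hkb hkb'
        have hkS : k ∈ S := by
          rw [mem_part] at hkb'
          exact Set.mem_biUnion hr ⟨_, hkb', rfl⟩
        have e1 := hx1 (k, a) (Finset.mem_filter.mpr ⟨hkb, hkS⟩)
        have e2 := hx2 _ hkb'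
        simp only at e1 e2
        rw [← e1, ← e2]
    obtain ⟨r, ⟨i, hi, hi2⟩, hsat⟩ := hR (u j0) η (lt_trans (hγ _ (Or.inl (Or.inl rfl))) (hulo j0 hj0)) _ hv j0 hsupp key
    refine ⟨e1 η i, by rw [hη, hA]; exact mem_range_self i, fun e he => ?_⟩
    by_cases hj : e.1.1 = j0
    · have h1 : (e.1.2, e.2) ∈ part j0 (e1 η i) := by
        rw [mem_part]
        simp only
        rw [← hj]
        exact he
      rw [← hi] at h1
      have := hsat _ h1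
      rw [hj]
      exact this
    · obtain ⟨a, ha, hw⟩ := hi2 e he hj
      obtain ⟨j, -, hj2⟩ := Finset.mem_image.mp ha
      simp only [Prod.mk.injEq] at hj2
      obtain ⟨h3, h4⟩ := hj2
      rw [h3] at h4
      rw [h4]
      exact hw

/-- under CH: a matrix with rows injective on initial parts and generic columns -/
theorem exists_mat (hCH : (𝔠 : Cardinal.{0}) = ℵ₁) : ∃ w : K.Om → K.Om → ℕ,
    (∀ a a' b, a < b → a' < b → w a b = w a' b → a = a') ∧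
    (∀ (J : Finset ℕ) (𝒜 : Set (Cnd (ℕ × K.Om))), 𝒜.Countable →
      (∀ q ∈ 𝒜, ∀ e ∈ q, e.1.1 ∈ J) → PD 𝒜 →
      ∃ γ, ∀ u : ℕ → K.Om, Set.InjOn u J → (∀ j ∈ J, γ < u j) → ∃ q ∈ 𝒜, ∀ e ∈ q, w (u e.1.1) e.1.2 = e.2) := by
  classical
  have hOm : #K.Om = 𝔠 := by rw [K.mk_Om, hCH]
  have hN : #ℕ ≤ 𝔠 := (Cardinal.mk_le_aleph0 (α := ℕ)).trans Cardinal.aleph0_le_continuum
  have hprod : ∀ A B : Type, #A ≤ 𝔠 → #B ≤ 𝔠 → #(A × B) ≤ 𝔠 := by
    intro A B hA hB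
    rw [Cardinal.mk_prod, Cardinal.lift_id, Cardinal.lift_id]
    calc #A * #B ≤ 𝔠 * 𝔠 := mul_le_mul' hA hB
      _ = 𝔠 := Cardinal.continuum_mul_self
  have hCnd : ∀ A : Type, #A ≤ 𝔠 → #(Cnd A) ≤ 𝔠 := by
    intro A hA
    refine le_trans (K.mk_finset_le0 (A × ℕ)) ?_
    exact max_le (hprod _ _ hA hN) Cardinal.aleph0_le_continuum
  have hfun : ∀ A : Type, #A ≤ 𝔠 → #(ℕ → A) ≤ 𝔠 := by
    intro A hA
    have : #(ℕ → A) = #A ^ #ℕ := by simp
    rw [this]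
    calc #A ^ #ℕ ≤ 𝔠 ^ #ℕ := Cardinal.power_le_power_right hA
      _ = 𝔠 := by rw [Cardinal.mk_nat, Cardinal.continuum_power_aleph0]
  obtain ⟨e1, he1⟩ := K.exists_surj (A := K.Om) (B := ℕ → Cnd (ℕ × K.Om))
    (by rw [hOm]; exact hfun _ (hCnd _ (hprod _ _ hN hOm.le)))
  have hee : ∀ b : K.Om, ∃ e : K.Om → ℕ, Set.InjOn e (Set.Iic b) := fun b => Set.countable_iff_exists_injOn.mp (K.Om_Iic b)
  choose ee hee using hee
  obtain ⟨w, h1, h2⟩ := exists_w K.Om_Iic e1 ee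
  refine ⟨w, ?_, ?_⟩
  · intro a a' b ha ha' h
    rw [h1 a b ha, h1 a' b ha'] at h
    exact hee b ha.le ha'.le h
  · intro J 𝒜 h𝒜 hidx hPD
    exact luz_aux K.Om_Iic K.Om_unc he1 h2 J.card J rfl 𝒜 h𝒜 hidx hPD

end Pool.Agent.Helper639.P
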