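import Pool.Agent.Helper639.PA

open Set Cardinal

namespace Pool.Agent.Helper639.P

set_option linter.unusedSectionVars false

variable {Ω : Type} [LinearOrder Ω] [WellFoundedLT Ω]

def SatU (w : Ω → Ω → ℕ) (u : ℕ → Ω) (q : Cnd (ℕ × Ω)) : Prop := ∀ e ∈ q, w (u e.1.1) e.1.2 = e.2

theorem SatU.con {w : Ω → Ω → ℕ} {u : ℕ → Ω} {q : Cnd (ℕ × Ω)} (h : SatU w u q) : Con q :=
  ⟨fun k => w (u k.1) k.2, h⟩

/-- closing off -/
theorem closing (hc : ∀ a : Ω, (Set.Iic a).Countable) (hu : ¬ (Set.univ : Set Ω).Countable)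
    (g : Cnd (ℕ × Ω) → Ω) (b : Ω) : ∃ δ, b < δ ∧ ∀ q : Cnd (ℕ × Ω), (∀ e ∈ q, e.1.2 < δ) → g q < δ := by
  have hcnt : ∀ c : Ω, {q : Cnd (ℕ × Ω) | ∀ e ∈ q, e ∈ {e : (ℕ × Ω) × ℕ | e.1.2 ≤ c}}.Countable := by
    intro c
    apply K.countable_finset
    have : {e : (ℕ × Ω) × ℕ | e.1.2 ≤ c} = (Set.univ ×ˢ Set.Iic c) ×ˢ Set.univ := by ext e; simp
    rw [this]
    exact (Set.countable_univ.prod (hc c)).prod Set.countable_univ
  have h1 : ∀ c : Ω, ∃ y, c < y ∧ ∀ q : Cnd (ℕ × Ω), (∀ e ∈ q, e.1.2 ≤ c) → g q < y := by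
    intro c
    obtain ⟨y, hy⟩ := Eb.bdd_of_countable hc hu (D := insert c (g '' {q : Cnd (ℕ × Ω) | ∀ e ∈ q, e ∈ {e : (ℕ × Ω) × ℕ | e.1.2 ≤ c}}))
      (((hcnt c).image g).insert c)
    exact ⟨y, hy c (Set.mem_insert _ _), fun q hq => hy _ (Or.inr ⟨q, hq, rfl⟩)⟩
  choose G hG1 hG2 using h1
  obtain ⟨δ, hδ, hcl⟩ := Eb.exists_closed hc hu G b
  refine ⟨δ, hδ, fun q hq => ?_⟩
  have hfin := ((q.finite_toSet).image (fun e : (ℕ × Ω) × ℕ => e.1.2)).insert b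
  obtain ⟨c, hcm, hmax⟩ := Set.exists_max_image _ id hfin ⟨b, Set.mem_insert _ _⟩
  simp only [id] at hmax
  have hcδ : c < δ := by
    rcases hcm with rfl | ⟨e, he, rfl⟩
    · exact hδ
    · exact hq e he
  exact lt_trans (hG2 c q fun e he => hmax _ (Or.inr ⟨e, he, rfl⟩)) (hcl c hcδ)

/-- the Lindelof lemma -/
theorem lind (hc : ∀ a : Ω, (Set.Iic a).Countable) (hu : ¬ (Set.univ : Set Ω).Countable) {w : Ω → Ω → ℕ}
    (hL : ∀ (J : Finset ℕ) (𝒜 : Set (Cnd (ℕ × Ω))), 𝒜.Countable →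
      (∀ q ∈ 𝒜, ∀ e ∈ q, e.1.1 ∈ J) → PD 𝒜 →
      ∃ γ, ∀ u : ℕ → Ω, Set.InjOn u J → (∀ j ∈ J, γ < u j) → ∃ q ∈ 𝒜, ∀ e ∈ q, w (u e.1.1) e.1.2 = e.2) :
    ∀ (n : ℕ) (J : Finset ℕ), J.card = n → ∀ (t : Set (ℕ → Ω)) (q : (ℕ → Ω) → Cnd (ℕ × Ω)),
      (∀ u ∈ t, ∀ e ∈ q u, e.1.1 ∈ J) → (∀ u ∈ t, SatU w u (q u)) →
      ∃ I : Set (ℕ → Ω), I.Countable ∧ I ⊆ t ∧ ∀ u ∈ t, ∃ v ∈ I, SatU w u (q v) := by
  classical
  intro n
  induction n with
  | zero =>
    intro J hJ t q hidx hsat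
    have hJ : J = ∅ := Finset.card_eq_zero.mp hJ
    subst hJ
    by_cases ht : t.Nonempty
    · obtain ⟨v, hv⟩ := ht
      exact ⟨{v}, Set.countable_singleton v, Set.singleton_subset_iff.mpr hv, fun u _ =>
        ⟨v, rfl, fun e he => absurd (hidx v hv e he) (Finset.notMem_empty _)⟩⟩
    · exact ⟨∅, Set.countable_empty, Set.empty_subset _, fun u hu => absurd ⟨u, hu⟩ ht⟩
  | succ n ih =>
    intro J hJ t q hidx hsat
    -- step 1
    have step1 : ∃ γ, ∃ I : Set (ℕ → Ω), I.Countable ∧ I ⊆ t ∧ ∀ u ∈ t, Set.InjOn u J → (∀ j ∈ J, γ < u j) →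
        ∃ v ∈ I, SatU w u (q v) := by
      have hch : ∀ p : Cnd (ℕ × Ω), ∃ v : ℕ → Ω, (∃ v ∈ t, SatU w v p) → v ∈ t ∧ SatU w v p := by
        intro p
        by_cases h : ∃ v ∈ t, SatU w v p
        · obtain ⟨v, hv⟩ := h
          exact ⟨v, fun _ => hv⟩
        · obtain ⟨b, -⟩ := Eb.bdd_of_countable hc hu (D := (∅ : Set Ω)) Set.countable_empty
          exact ⟨fun _ => b, fun h' => absurd h' h⟩
      choose c hcspec using hch
      have hbd : ∀ p : Cnd (ℕ × Ω), ∃ b : Ω, ∀ e ∈ q (c p), e.1.2 < b := by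
        intro p
        obtain ⟨b, hb⟩ := Eb.bdd_of_countable hc hu (D := (fun e : (ℕ × Ω) × ℕ => e.1.2) '' (q (c p) : Set ((ℕ × Ω) × ℕ)))
          (((q (c p)).finite_toSet.image _).countable)
        exact ⟨b, fun e he => hb _ ⟨e, he, rfl⟩⟩
      choose bd hbd using hbd
      obtain ⟨b0, -⟩ := Eb.bdd_of_countable hc hu (D := (∅ : Set Ω)) Set.countable_empty
      obtain ⟨δ, -, hδ⟩ := closing hc hu bd b0
      let 𝒬 : Set (Cnd (ℕ × Ω)) := {p | (∀ e ∈ p, e.1.2 < δ) ∧ ∀ e ∈ p, e.1.1 ∈ J}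
      have h𝒬 : 𝒬.Countable := by
        have h0 : {p : Cnd (ℕ × Ω) | ∀ e ∈ p, e ∈ {e : (ℕ × Ω) × ℕ | e.1.2 ≤ δ}}.Countable := by
          apply K.countable_finset
          have : {e : (ℕ × Ω) × ℕ | e.1.2 ≤ δ} = (Set.univ ×ˢ Set.Iic δ) ×ˢ Set.univ := by ext e; simp
          rw [this]
          exact (Set.countable_univ.prod (hc δ)).prod Set.countable_univ
        refine h0.mono ?_
        intro p hp e he
        exact (hp.1 e he).le
      let 𝒜 : Set (Cnd (ℕ × Ω)) := {r | (∃ p ∈ 𝒬, (∃ v ∈ t, SatU w v p) ∧ r = q (c p)) ∨ (r ∈ 𝒬 ∧ ¬ ∃ v ∈ t, SatU w v r)}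
      have h𝒜 : 𝒜.Countable := by
        refine ((h𝒬.image (fun p => q (c p))).union h𝒬).mono ?_
        rintro r (⟨p, hp, -, rfl⟩ | ⟨hr, -⟩)
        · exact Or.inl ⟨p, hp, rfl⟩
        · exact Or.inr hr
      have hidx𝒜 : ∀ r ∈ 𝒜, ∀ e ∈ r, e.1.1 ∈ J := by
        rintro r (⟨p, hp, h1, rfl⟩ | ⟨hr, -⟩) e he
        · exact hidx _ (hcspec p h1).1 e he
        · exact hr.2 e he
      have hPD : PD 𝒜 := by
        intro p hp
        let p0 : Cnd (ℕ × Ω) := p.filter (fun e => e.1.1 ∈ J ∧ e.1.2 < δ)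
        have hp0 : p0 ⊆ p := Finset.filter_subset _ _
        have hp0Q : p0 ∈ 𝒬 := ⟨fun e he => (Finset.mem_filter.mp he).2.2, fun e he => (Finset.mem_filter.mp he).2.1⟩
        by_cases h : ∃ v ∈ t, SatU w v p0
        · obtain ⟨h1, h2⟩ := hcspec p0 h
          refine ⟨q (c p0), Or.inl ⟨p0, hp0Q, h, rfl⟩, con_of_union hp (hsat _ h1).con ?_⟩
          intro k a b hka hkb
          have hk1 : k.1 ∈ J := hidx _ h1 _ hkb
          have hk2 : k.2 < δ := lt_trans (hbd p0 _ hkb) (hδ p0 hp0Q.1)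
          have e1 := h2 (k, a) (Finset.mem_filter.mpr ⟨hka, hk1, hk2⟩)
          have e2 := hsat _ h1 _ hkb
          simp only at e1 e2
          rw [← e1, ← e2]
        · refine ⟨p0, Or.inr ⟨hp0Q, h⟩, ?_⟩
          obtain ⟨x, hx⟩ := hp
          exact ⟨x, hx, hx.mono hp0⟩
      obtain ⟨γ, hγ⟩ := hL J 𝒜 h𝒜 hidx𝒜 hPD
      refine ⟨γ, c '' {p | p ∈ 𝒬 ∧ ∃ v ∈ t, SatU w v p}, (h𝒬.mono (fun p hp => hp.1)).image _, ?_, ?_⟩
      · rintro _ ⟨p, ⟨-, hp⟩, rfl⟩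
        exact (hcspec p hp).1
      · intro u hut huJ hlo
        obtain ⟨r, hr, hsr⟩ := hγ u huJ hlo
        rcases hr with ⟨p, hp, h1, rfl⟩ | ⟨hr1, hr2⟩
        · exact ⟨c p, ⟨p, ⟨hp, h1⟩, rfl⟩, hsr⟩
        · exact absurd ⟨u, hut, hsr⟩ hr2
    obtain ⟨γ, I0, hI0c, hI0t, hI0⟩ := step1
    -- slices
    have step2 : ∀ (j : ℕ) (c : Ω), ∃ I : Set (ℕ → Ω), I.Countable ∧ I ⊆ t ∧ (j ∈ J → ∀ u ∈ t, u j = c → ∃ v ∈ I, SatU w u (q v)) := by
      intro j c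
      by_cases hj : j ∈ J
      · obtain ⟨I, h1, h2, h3⟩ := ih (J.erase j) (by rw [Finset.card_erase_of_mem hj, hJ]; rfl) {u | u ∈ t ∧ u j = c}
          (fun u => (q u).filter (fun e => e.1.1 ≠ j)) (by
            rintro u ⟨hut, -⟩ e he
            obtain ⟨h4, h5⟩ := Finset.mem_filter.mp he
            exact Finset.mem_erase.mpr ⟨h5, hidx u hut e h4⟩) (by
            rintro u ⟨hut, -⟩ e he
            exact hsat u hut e (Finset.mem_filter.mp he).1)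
        refine ⟨I, h1, fun u hu => (h2 hu).1, fun _ u hut huc => ?_⟩
        obtain ⟨v, hv, hv2⟩ := h3 u ⟨hut, huc⟩
        refine ⟨v, hv, fun e he => ?_⟩
        by_cases hej : e.1.1 = j
        · rw [hej, huc]
          have h6 := hsat v (h2 hv).1 e he
          rw [hej, (h2 hv).2] at h6
          exact h6
        · exact hv2 e (Finset.mem_filter.mpr ⟨he, hej⟩)
      · exact ⟨∅, Set.countable_empty, Set.empty_subset _, fun h => absurd h hj⟩
    have step3 : ∀ (j k : ℕ), ∃ I : Set (ℕ → Ω), I.Countable ∧ I ⊆ t ∧ (j ∈ J → k ∈ J → j ≠ k → ∀ u ∈ t, u j = u k →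
        ∃ v ∈ I, SatU w u (q v)) := by
      intro j k
      by_cases hj : j ∈ J ∧ k ∈ J ∧ j ≠ k
      · obtain ⟨I, h1, h2, h3⟩ := ih (J.erase j) (by rw [Finset.card_erase_of_mem hj.1, hJ]; rfl) {u | u ∈ t ∧ u j = u k}
          (fun u => (q u).image (fun e => ((if e.1.1 = j then k else e.1.1, e.1.2), e.2))) (by
            rintro u ⟨hut, -⟩ e he
            obtain ⟨e', h4, rfl⟩ := Finset.mem_image.mp he
            simp only
            by_cases hej : e'.1.1 = j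
            · rw [if_pos hej]
              exact Finset.mem_erase.mpr ⟨hj.2.2.symm, hj.2.1⟩
            · rw [if_neg hej]
              exact Finset.mem_erase.mpr ⟨hej, hidx u hut e' h4⟩) (by
            rintro u ⟨hut, huj⟩ e he
            obtain ⟨e', h4, rfl⟩ := Finset.mem_image.mp he
            simp only
            have h5 := hsat u hut e' h4
            by_cases hej : e'.1.1 = j
            · rw [if_pos hej, ← huj, ← hej]
              exact h5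
            · rw [if_neg hej]
              exact h5)
        refine ⟨I, h1, fun u hu => (h2 hu).1, fun _ _ _ u hut huc => ?_⟩
        obtain ⟨v, hv, hv2⟩ := h3 u ⟨hut, huc⟩
        refine ⟨v, hv, fun e he => ?_⟩
        have h5 := hv2 _ (Finset.mem_image_of_mem _ he)
        simp only at h5
        by_cases hej : e.1.1 = j
        · rw [if_pos hej, ← huc, ← hej] at h5
          exact h5
        · rw [if_neg hej] at h5
          exact h5
      · exact ⟨∅, Set.countable_empty, Set.empty_subset _, fun h1 h2 h3 => absurd ⟨h1, h2, h3⟩ hj⟩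
    choose I2 hI2c hI2t hI2 using step2
    choose I3 hI3c hI3t hI3 using step3
    refine ⟨I0 ∪ ((⋃ t ∈ (Set.univ : Set ℕ) ×ˢ Set.Iic γ, I2 t.1 t.2) ∪ ⋃ t : ℕ × ℕ, I3 t.1 t.2), ?_, ?_, ?_⟩
    · exact hI0c.union (((Set.countable_univ.prod (hc γ)).biUnion fun t _ => hI2c _ _).union
        (Set.countable_iUnion fun t => hI3c _ _))
    · intro v hv
      rcases hv with hv | hv | hv
      · exact hI0t hv
      · obtain ⟨t, -, hv⟩ := Set.mem_iUnion₂.mp hv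
        exact hI2t _ _ hv
      · obtain ⟨t, hv⟩ := Set.mem_iUnion.mp hv
        exact hI3t _ _ hv
    · intro u hut
      by_cases hinj : Set.InjOn u J
      · by_cases hlo : ∀ j ∈ J, γ < u j
        · obtain ⟨v, hv, h⟩ := hI0 u hut hinj hlo
          exact ⟨v, Or.inl hv, h⟩
        · push Not at hlo
          obtain ⟨j, hj, hle⟩ := hlo
          obtain ⟨v, hv, h⟩ := hI2 j (u j) hj u hut rfl
          exact ⟨v, Or.inr (Or.inl (Set.mem_iUnion₂.mpr ⟨(j, u j), ⟨trivial, hle⟩, hv⟩)), h⟩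
      · unfold Set.InjOn at hinj
        push Not at hinj
        obtain ⟨j, hj, k, hk, heq, hne⟩ := hinj
        obtain ⟨v, hv, h⟩ := hI3 j k hj hk hne u hut heq
        exact ⟨v, Or.inr (Or.inr (Set.mem_iUnion.mpr ⟨(j, k), hv⟩)), h⟩

end Pool.Agent.Helper639.P
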