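import Pool.Agent.Helper639.PB

open Set Cardinal

namespace Pool.Agent.Helper639.P

set_option linter.unusedSectionVars false

/-- the space of the columns of a matrix -/
abbrev XX (w : K.Om → K.Om → ℕ) : Type := {x : K.Om → ℕ // x ∈ Set.range w}

theorem basic_sub {w : K.Om → K.Om → ℕ} {U : Set (XX w)} (hU : IsOpen U) {x : XX w} (hx : x ∈ U) :
    ∃ J : Finset K.Om, ∀ y : XX w, (∀ b ∈ J, y.1 b = x.1 b) → y ∈ U := by
  obtain ⟨V, hV, rfl⟩ := isOpen_induced_iff.mp hU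
  obtain ⟨J, u, h1, h2⟩ := isOpen_pi_iff.mp hV x.1 hx
  refine ⟨J, fun y hy => h2 ?_⟩
  intro b hb
  rw [hy b hb]
  exact (h1 b hb).2

theorem basic_pi {w : K.Om → K.Om → ℕ} {n : ℕ} {U : Set (Fin n → XX w)} (hU : IsOpen U) {x : Fin n → XX w} (hx : x ∈ U) :
    ∃ J : Finset K.Om, ∀ y : Fin n → XX w, (∀ j, ∀ b ∈ J, (y j).1 b = (x j).1 b) → y ∈ U := by
  classical
  obtain ⟨I, u, h1, h2⟩ := isOpen_pi_iff.mp hU x hx
  have h3 : ∀ j : Fin n, ∃ J : Finset K.Om, j ∈ I → ∀ y : XX w, (∀ b ∈ J, y.1 b = (x j).1 b) → y ∈ u j := by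
    intro j
    by_cases hj : j ∈ I
    · obtain ⟨J, hJ⟩ := basic_sub (h1 j hj).1 (h1 j hj).2
      exact ⟨J, fun _ => hJ⟩
    · exact ⟨∅, fun h => absurd h hj⟩
  choose J hJ using h3
  refine ⟨Finset.univ.biUnion J, fun y hy => h2 ?_⟩
  intro j hj
  refine hJ j hj (y j) fun b hb => hy j b ?_
  exact Finset.mem_biUnion.mpr ⟨j, Finset.mem_univ j, hb⟩

theorem hl {w : K.Om → K.Om → ℕ}
    (hL : ∀ (J : Finset ℕ) (𝒜 : Set (Cnd (ℕ × K.Om))), 𝒜.Countable →
      (∀ q ∈ 𝒜, ∀ e ∈ q, e.1.1 ∈ J) → PD 𝒜 →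
      ∃ γ, ∀ u : ℕ → K.Om, Set.InjOn u J → (∀ j ∈ J, γ < u j) → ∃ q ∈ 𝒜, ∀ e ∈ q, w (u e.1.1) e.1.2 = e.2)
    (n : ℕ) (s : Set (Fin n → XX w)) : IsLindelof s := by
  classical
  refine isLindelof_of_countable_subcover fun {ι} U hU hs => ?_
  let Φ : (ℕ → K.Om) → (Fin n → XX w) := fun u j => ⟨w (u j), u j, rfl⟩
  have hΦ : ∀ x : Fin n → XX w, ∃ u, Φ u = x := by
    intro x
    have h0 : ∀ j : Fin n, ∃ a, w a = (x j).1 := fun j => (x j).2
    choose a ha using h0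
    obtain ⟨b, -⟩ := Eb.bdd_of_countable K.Om_Iic K.Om_unc (D := (∅ : Set K.Om)) Set.countable_empty
    refine ⟨fun j => if h : j < n then a ⟨j, h⟩ else b, ?_⟩
    funext j
    apply Subtype.ext
    simp only [Φ, j.2, dite_true, Fin.eta]
    exact ha j
  have hne : ∀ u : ℕ → K.Om, ∃ q : Cnd (ℕ × K.Om), ∀ _ : Φ u ∈ s,
      (∀ e ∈ q, e.1.1 < n) ∧ SatU w u q ∧ ∃ i, ∀ v, SatU w v q → Φ v ∈ U i := by
    intro u
    by_cases h : Φ u ∈ s
    · obtain ⟨i, hi⟩ := Set.mem_iUnion.mp (hs h)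
      obtain ⟨J, hJ⟩ := basic_pi (hU i) hi
      refine ⟨(Finset.range n).biUnion (fun j => J.image (fun b => ((j, b), w (u j) b))), fun _ => ⟨?_, ?_, i, ?_⟩⟩
      · intro e he
        obtain ⟨j, hj, he⟩ := Finset.mem_biUnion.mp he
        obtain ⟨b, hb, rfl⟩ := Finset.mem_image.mp he
        exact Finset.mem_range.mp hj
      · intro e he
        obtain ⟨j, hj, he⟩ := Finset.mem_biUnion.mp he
        obtain ⟨b, hb, rfl⟩ := Finset.mem_image.mp he
        rfl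
      · intro v hv
        refine hJ _ fun j b hb => ?_
        exact hv ((j.1, b), w (u j.1) b) (Finset.mem_biUnion.mpr ⟨j.1, Finset.mem_range.mpr j.2, Finset.mem_image.mpr ⟨b, hb, rfl⟩⟩)
    · exact ⟨∅, fun h' => absurd h' h⟩
  choose q hq using hne
  obtain ⟨I, hI1, hI2, hI3⟩ := lind K.Om_Iic K.Om_unc hL n (Finset.range n) (Finset.card_range n) {u | Φ u ∈ s} q
    (fun u hu e he => Finset.mem_range.mpr ((hq u hu).1 e he)) (fun u hu => (hq u hu).2.1)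
  have hch : ∀ u : ℕ → K.Om, ∃ T : Set ι, T.Countable ∧ (u ∈ I → ∃ i ∈ T, ∀ v, SatU w v (q u) → Φ v ∈ U i) := by
    intro u
    by_cases h : u ∈ I
    · obtain ⟨i, hi⟩ := (hq u (hI2 h)).2.2
      exact ⟨{i}, Set.countable_singleton i, fun _ => ⟨i, rfl, hi⟩⟩
    · exact ⟨∅, Set.countable_empty, fun h' => absurd h' h⟩
  choose T hT1 hT2 using hch
  refine ⟨⋃ u ∈ I, T u, hI1.biUnion fun u _ => hT1 u, ?_⟩
  intro x hx
  obtain ⟨u, rfl⟩ := hΦ x
  obtain ⟨v, hv, hsat⟩ := hI3 u hx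
  obtain ⟨i, hi, h⟩ := hT2 v hv
  exact Set.mem_iUnion₂.mpr ⟨i, Set.mem_iUnion₂.mpr ⟨v, hv, hi⟩, h u hsat⟩

theorem notlind {w : K.Om → K.Om → ℕ}
    (hw : ∀ a a' b, a < b → a' < b → w a b = w a' b → a = a') (Z : Set (XX w → ℝ))
    (hZ : {f : XX w → ℝ | Continuous f} ⊆ Z) : ¬ IsLindelof Z := by
  classical
  intro hLin
  let pt : K.Om → XX w := fun a => ⟨w a, a, rfl⟩
  let F : K.Om → Set (XX w → ℝ) := fun α => {z | ∀ β γ, β < γ → γ < α → 1 ≤ |z (pt β) - z (pt γ)|}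
  have hF : ∀ α, IsClosed (F α) := by
    intro α
    have : F α = ⋂ β, ⋂ γ, {z : XX w → ℝ | β < γ → γ < α → 1 ≤ |z (pt β) - z (pt γ)|} := by
      ext z; simp [F]
    rw [this]
    refine isClosed_iInter fun β => isClosed_iInter fun γ => ?_
    by_cases h : β < γ ∧ γ < α
    · have h2 : {z : XX w → ℝ | β < γ → γ < α → 1 ≤ |z (pt β) - z (pt γ)|} = {z : XX w → ℝ | 1 ≤ |z (pt β) - z (pt γ)|} := by
        ext z; simp [h.1, h.2]
      rw [h2]
      have h3 : Continuous fun z : XX w → ℝ => |z (pt β) - z (pt γ)| :=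
        ((continuous_apply (pt β)).sub (continuous_apply (pt γ))).abs
      exact isClosed_le continuous_const h3
    · have h2 : {z : XX w → ℝ | β < γ → γ < α → 1 ≤ |z (pt β) - z (pt γ)|} = Set.univ := by
        ext z
        simp only [Set.mem_ofPred_eq, Set.mem_univ, iff_true]
        exact fun h1 h2 => absurd ⟨h1, h2⟩ h
      rw [h2]
      exact isClosed_univ
  have hfα : ∀ α, (fun x : XX w => (x.1 α : ℝ)) ∈ F α := by
    intro α β γ h1 h2
    have hne : w β α ≠ w γ α := fun h => absurd (hw β γ α (lt_trans h1 h2) h2 h) h1.ne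
    simp only [pt]
    rcases lt_or_gt_of_ne hne with h | h
    · have h3 : (w β α : ℝ) + 1 ≤ (w γ α : ℝ) := by exact_mod_cast h
      rw [abs_sub_comm]
      exact le_trans (by linarith) (le_abs_self _)
    · have h3 : (w γ α : ℝ) + 1 ≤ (w β α : ℝ) := by exact_mod_cast h
      exact le_trans (by linarith) (le_abs_self _)
  have hcont : ∀ α, Continuous (fun x : XX w => (x.1 α : ℝ)) := by
    intro α
    exact continuous_of_discreteTopology.comp ((continuous_apply α).comp continuous_subtype_val)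
  have hmono : ∀ α β, α ≤ β → F β ⊆ F α := by
    intro α β h z hz c d h1 h2
    exact hz c d h1 (lt_of_lt_of_le h2 h)
  obtain ⟨z, hz⟩ : ∃ z, ∀ α, z ∈ F α := by
    by_contra hcon
    push Not at hcon
    obtain ⟨D, hD, hcov⟩ := hLin.elim_countable_subcover (fun α => (F α)ᶜ) (fun α => (hF α).isOpen_compl) (by
      intro z _
      obtain ⟨α, hα⟩ := hcon z
      exact Set.mem_iUnion.mpr ⟨α, hα⟩)
    obtain ⟨b, hb⟩ := Eb.bdd_of_countable K.Om_Iic K.Om_unc hD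
    obtain ⟨α, hα, h⟩ := Set.mem_iUnion₂.mp (hcov (hZ (hcont b)))
    exact h (hmono α b (hb α hα).le (hfα b))
  have hinj : Function.Injective fun β : K.Om => ⌊z (pt β)⌋ := by
    have aux : ∀ β γ : K.Om, β < γ → ⌊z (pt β)⌋ ≠ ⌊z (pt γ)⌋ := by
      intro β γ h heq
      obtain ⟨α, hα⟩ := Eb.bdd_of_countable K.Om_Iic K.Om_unc (D := {γ}) (Set.countable_singleton γ)
      have h1 := hz α β γ h (hα γ rfl)
      have h2 := Int.abs_sub_lt_one_of_floor_eq_floor heq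
      linarith
    intro β γ h
    rcases lt_trichotomy β γ with h1 | h1 | h1
    · exact absurd h (aux β γ h1)
    · exact h1
    · exact absurd h.symm (aux γ β h1)
  exact K.Om_unc ((Set.countable_univ_iff).mpr hinj.countable)

theorem main (hCH : (𝔠 : Cardinal.{0}) = ℵ₁) : ∃ (X : Type) (_ : TopologicalSpace X), T35Space X ∧
    (∀ n : ℕ, HereditarilyLindelofSpace (Fin n → X)) ∧
    ∀ Z : Set (X → ℝ), {f : X → ℝ | Continuous f} ⊆ Z → ¬ IsLindelof Z := by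
  obtain ⟨w, h1, h2⟩ := exists_mat hCH
  exact ⟨XX w, inferInstance, inferInstance, fun n => ⟨fun t _ => hl h2 n t⟩, fun Z hZ => notlind h1 Z hZ⟩

end Pool.Agent.Helper639.P
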